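import Pool.Agent.EPK.D0

/-!
# [EPK-A1] Hölder's inequality with multiplicities
-/

set_option autoImplicit false

namespace Pool.Agent.EPK

open Finset Pool.Agent.MP_2f88e5_nt

/-- [A1] Let `ν u = #{i ∈ s : ρ i = u}`. Then `∑_{i ∈ s} F (ρ i) = ∑_u ν u F u`, `∑_u ν u = #s`, and
`∑_u (ν u)² = #{(i, j) : ρ i = ρ j}` (`Finset.card_eq_sum_card_fiberwise`, or `Finset.sum_comm` after writing
everything with indicator functions, or `Finset.sum_fiberwise`).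

Proof. Cauchy-Schwarz twice: `(∑ ν F)² ≤ (∑ ν) (∑ ν F²)` (`Finset.sum_mul_sq_le_sq_mul_sq` for `√ν` and `√ν F`, or
`inner_mul_le_norm_mul_norm`; or apply `Finset.sum_mul_sq_le_sq_mul_sq` to the sum over `i ∈ s` of `1 * F (ρ i)`:
`(∑_{i ∈ s} F (ρ i))² ≤ #s · ∑_{i ∈ s} F (ρ i)²`), and `(∑_u ν u F u²)² ≤ (∑_u (ν u)²) (∑_u F u ^ 4)`. Square the
first inequality and insert the second. -/
theorem holder4 (p : ℕ) [Fact p.Prime] {ι : Type*} [DecidableEq ι] (s : Finset ι) (ρ : ι → ZMod p)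
    (F : ZMod p → ℝ) (hF : ∀ u, 0 ≤ F u) :
    (∑ i ∈ s, F (ρ i)) ^ 4 ≤ (s.card : ℝ) ^ 2 *
      (((s ×ˢ s).filter (fun q => ρ q.1 = ρ q.2)).card : ℝ) * ∑ u : ZMod p, F u ^ 4 := by
  have h1 : (∑ i ∈ s, F (ρ i)) ^ 2 ≤ (s.card : ℝ) * ∑ i ∈ s, F (ρ i) ^ 2 :=
    sq_sum_le_card_mul_sum_sq
  have h2 : ∑ i ∈ s, F (ρ i) ^ 2 = ∑ u : ZMod p, ((s.filter (fun i => ρ i = u)).card : ℝ) * F u ^ 2 := by
    rw [← Finset.sum_fiberwise s ρ]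
    refine Finset.sum_congr rfl fun u _ => ?_
    rw [Finset.sum_congr rfl (g := fun _ => F u ^ 2) (fun i hi => by rw [(Finset.mem_filter.1 hi).2]),
      Finset.sum_const, nsmul_eq_mul]
  have h3 : (∑ u : ZMod p, ((s.filter (fun i => ρ i = u)).card : ℝ) * F u ^ 2) ^ 2
      ≤ (∑ u : ZMod p, ((s.filter (fun i => ρ i = u)).card : ℝ) ^ 2) * ∑ u : ZMod p, (F u ^ 2) ^ 2 :=
    Finset.sum_mul_sq_le_sq_mul_sq _ _ _
  have h4 : (((s ×ˢ s).filter (fun q => ρ q.1 = ρ q.2)).card : ℝ)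
      = ∑ u : ZMod p, ((s.filter (fun i => ρ i = u)).card : ℝ) ^ 2 := by
    rw [Finset.card_eq_sum_card_fiberwise (f := fun q : ι × ι => ρ q.1) (t := (Finset.univ : Finset (ZMod p)))
      (fun q _ => Finset.mem_coe.2 (Finset.mem_univ _))]
    push_cast
    refine Finset.sum_congr rfl fun u _ => ?_
    rw [sq, ← Nat.cast_mul, ← Finset.card_product]
    congr 2
    ext q
    simp only [Finset.mem_filter, Finset.mem_product]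
    constructor
    · rintro ⟨⟨⟨a1, a2⟩, a3⟩, a4⟩
      exact ⟨⟨a1, a4⟩, ⟨a2, a3 ▸ a4⟩⟩
    · rintro ⟨⟨a1, a4⟩, ⟨a2, a3⟩⟩
      exact ⟨⟨⟨a1, a2⟩, a4.trans a3.symm⟩, a4⟩
  have h5 : ∑ u : ZMod p, (F u ^ 2) ^ 2 = ∑ u : ZMod p, F u ^ 4 :=
    Finset.sum_congr rfl fun u _ => by rw [← pow_mul]
  rw [h4]
  rw [h5] at h3
  have h6 : 0 ≤ ∑ i ∈ s, F (ρ i) ^ 2 := Finset.sum_nonneg fun i _ => sq_nonneg _
  calc (∑ i ∈ s, F (ρ i)) ^ 4 = ((∑ i ∈ s, F (ρ i)) ^ 2) ^ 2 := by rw [← pow_mul]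
    _ ≤ ((s.card : ℝ) * ∑ i ∈ s, F (ρ i) ^ 2) ^ 2 := by gcongr
    _ = (s.card : ℝ) ^ 2 * (∑ u : ZMod p, ((s.filter (fun i => ρ i = u)).card : ℝ) * F u ^ 2) ^ 2 := by
        rw [mul_pow, h2]
    _ ≤ (s.card : ℝ) ^ 2 * ((∑ u : ZMod p, ((s.filter (fun i => ρ i = u)).card : ℝ) ^ 2)
          * ∑ u : ZMod p, F u ^ 4) := by gcongr
    _ = _ := by ring

end Pool.Agent.EPK
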