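import Pool.Agent.EPK.D0

/-!
# [EPK-A2] the fourth moment of a linear form
-/

set_option autoImplicit false

namespace Pool.Agent.EPK

open Finset Pool.Agent.MP_2f88e5_nt

/-- [A2] The fourth moment is at most `p B⁴` times the additive energy.

Proof. `(∑_m α m e(u g m))² = ∑_{(m, n) ∈ s × s} α m α n e(u (g m + g n))` (`Finset.sum_mul_sum`,
`AddChar.map_add_eq_mul`). So the fourth power of the norm is the squared norm of this sum, i.e. the product with
its conjugate: `∑_{(q, q')} c_q conj(c_q') e(u (G q - G q'))`, `q = (m, n)`, `G q = g m + g n`, `c_q = α m α n`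
(see `second_moment` in `Pool/Agent/MP_2f88e5_nt/Kl.lean`; `conj_char`). Sum over `u` (`Finset.sum_comm`,
`sum_char p`): `p ∑_{G q = G q'} c_q conj(c_q')`, and `‖c_q‖ ≤ B²`. (The left side is real and nonnegative: take
the norm.) -/
theorem fourth_moment (p : ℕ) [Fact p.Prime] (s : Finset ℕ) (α : ℕ → ℂ) (g : ℕ → ZMod p) (B : ℝ)
    (hB : 0 ≤ B) (hα : ∀ m ∈ s, ‖α m‖ ≤ B) :
    ∑ u : ZMod p, ‖∑ m ∈ s, α m * ea p (u * g m)‖ ^ 4 ≤
      p * B ^ 4 * ((((s ×ˢ s) ×ˢ (s ×ˢ s)).filter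
        (fun q => g q.1.1 + g q.1.2 = g q.2.1 + g q.2.2)).card : ℝ) := by
  classical
  set c : ℕ × ℕ → ℂ := fun q => α q.1 * α q.2 with hc
  set G : ℕ × ℕ → ZMod p := fun q => g q.1 + g q.2 with hG
  have hsq : ∀ u : ZMod p, (∑ m ∈ s, α m * ea p (u * g m)) ^ 2
      = ∑ q ∈ s ×ˢ s, c q * ea p (u * G q) := by
    intro u
    rw [sq, Finset.sum_mul_sum, ← Finset.sum_product']
    refine Finset.sum_congr rfl fun q _ => ?_
    simp only [hc, hG, ea, mul_add, AddChar.map_add_eq_mul]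
    ring
  have h4 : ∀ u : ZMod p, ((‖∑ m ∈ s, α m * ea p (u * g m)‖ ^ 4 : ℝ) : ℂ)
      = ∑ q ∈ (s ×ˢ s) ×ˢ (s ×ˢ s), c q.1 * (starRingEnd ℂ) (c q.2) * ea p (u * (G q.1 - G q.2)) := by
    intro u
    have e : (‖∑ m ∈ s, α m * ea p (u * g m)‖ ^ 4 : ℝ)
        = ‖(∑ m ∈ s, α m * ea p (u * g m)) ^ 2‖ ^ 2 := by
      rw [norm_pow, ← pow_mul]
    rw [e, hsq, ← Complex.normSq_eq_norm_sq, ← Complex.mul_conj, map_sum, Finset.sum_mul_sum,
      ← Finset.sum_product']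
    refine Finset.sum_congr rfl fun q _ => ?_
    have e2 : (starRingEnd ℂ) (ea p (u * G q.2)) = ea p (-(u * G q.2)) := conj_char p _
    rw [map_mul, e2, mul_sub]
    have e3 : ea p (u * G q.1 - u * G q.2) = ea p (u * G q.1) * ea p (-(u * G q.2)) := by
      rw [sub_eq_add_neg]
      exact AddChar.map_add_eq_mul _ _ _
    rw [e3]
    ring
  have hsum : ((∑ u : ZMod p, ‖∑ m ∈ s, α m * ea p (u * g m)‖ ^ 4 : ℝ) : ℂ)
      = (p : ℂ) * ∑ q ∈ ((s ×ˢ s) ×ˢ (s ×ˢ s)).filter (fun q => G q.1 = G q.2),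
        c q.1 * (starRingEnd ℂ) (c q.2) := by
    rw [Complex.ofReal_sum, Finset.sum_congr rfl (fun u _ => h4 u), Finset.sum_comm,
      Finset.mul_sum, Finset.sum_filter]
    refine Finset.sum_congr rfl fun q _ => ?_
    rw [← Finset.mul_sum]
    have e5 : ∑ u : ZMod p, ea p (u * (G q.1 - G q.2)) = if G q.1 - G q.2 = 0 then (p : ℂ) else 0 := by
      have := sum_char p (G q.1 - G q.2)
      simpa [ea] using this
    rw [e5]
    by_cases h : G q.1 = G q.2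
    · rw [if_pos (sub_eq_zero.2 h), if_pos h]
      ring
    · rw [if_neg (fun h' => h (sub_eq_zero.1 h')), if_neg h, mul_zero]
  have hre : ∑ u : ZMod p, ‖∑ m ∈ s, α m * ea p (u * g m)‖ ^ 4
      = ‖((∑ u : ZMod p, ‖∑ m ∈ s, α m * ea p (u * g m)‖ ^ 4 : ℝ) : ℂ)‖ := by
    rw [Complex.norm_real, Real.norm_of_nonneg (Finset.sum_nonneg fun u _ => by positivity)]
  rw [hre, hsum, norm_mul, Complex.norm_natCast, mul_assoc]
  refine mul_le_mul_of_nonneg_left ?_ (Nat.cast_nonneg p)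
  refine (norm_sum_le _ _).trans ?_
  have hb : ∀ q ∈ ((s ×ˢ s) ×ˢ (s ×ˢ s)).filter (fun q => G q.1 = G q.2),
      ‖c q.1 * (starRingEnd ℂ) (c q.2)‖ ≤ B ^ 4 := by
    intro q hq
    rw [Finset.mem_filter, Finset.mem_product, Finset.mem_product, Finset.mem_product] at hq
    obtain ⟨⟨⟨a1, a2⟩, ⟨a3, a4⟩⟩, _⟩ := hq
    simp only [hc, norm_mul, RCLike.norm_conj]
    calc ‖α q.1.1‖ * ‖α q.1.2‖ * (‖α q.2.1‖ * ‖α q.2.2‖)
        ≤ B * B * (B * B) := by
          gcongr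
          · exact hα _ a1
          · exact hα _ a2
          · exact hα _ a3
          · exact hα _ a4
      _ = B ^ 4 := by ring
  refine (Finset.sum_le_card_nsmul _ _ _ hb).trans ?_
  rw [nsmul_eq_mul, mul_comm]

end Pool.Agent.EPK
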