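import Pool.Agent.EPK.D0

/-!
# [EPK-A3] the fourth moment of Kloosterman sums
-/

set_option autoImplicit false

namespace Pool.Agent.EPK

open Finset Pool.Agent.MP_2f88e5_nt

/-- [A3] The fourth moment of the Kloosterman sums `kl p 1 b`.

Proof. The proof of `kl_bound` in `Pool/Agent/MP_2f88e5_nt/Kl.lean` contains (its `h1`)
`∑_{a, b} ‖kl p a b‖ ^ 4 ≤ p² · 3 (p - 1)²`: copy that part (`second_moment`, `card_solutions`). For a unit `t` one has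
`kl p t (b t⁻¹) = kl p 1 b` (`kl_shift` with `a = 1`). So for every `b`: `(p - 1) ‖kl p 1 b‖ ^ 4 =
∑_{t unit} ‖kl p t (b t⁻¹)‖ ^ 4`; sum over `b` and substitute `b ↦ b t` for each fixed `t`
(`Fintype.sum_equiv` with multiplication by a unit): the total is `∑_{t unit} ∑_b ‖kl p t b‖ ^ 4 ≤ 3 p² (p - 1)²`.
Divide by `p - 1 > 0`. -/
theorem kl_fourth (p : ℕ) [Fact p.Prime] :
    ∑ b : ZMod p, ‖kl p 1 b‖ ^ 4 ≤ 3 * (p : ℝ) ^ 3 := by
  classical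
  have hp : p.Prime := Fact.out
  have h1 : ∑ a' : ZMod p, ∑ b' : ZMod p, ‖kl p a' b'‖ ^ 4 ≤
      (p : ℝ) ^ 2 * (3 * ((p : ℝ) - 1) ^ 2) := by
    have h := second_moment p (ι := (ZMod p)ˣ × (ZMod p)ˣ)
      (fun i => (i.1 : ZMod p) + (i.2 : ZMod p))
      (fun i => ((i.1⁻¹ : (ZMod p)ˣ) : ZMod p) + ((i.2⁻¹ : (ZMod p)ˣ) : ZMod p))
    have h2 : ∀ a' b' : ZMod p, ‖kl p a' b'‖ ^ 4 =
        ‖∑ i : (ZMod p)ˣ × (ZMod p)ˣ, (ZMod.stdAddChar (a' * ((i.1 : ZMod p) + (i.2 : ZMod p)) +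
          b' * (((i.1⁻¹ : (ZMod p)ˣ) : ZMod p) + ((i.2⁻¹ : (ZMod p)ˣ) : ZMod p))) : ℂ)‖ ^ 2 := by
      intro a' b'
      have : ∑ i : (ZMod p)ˣ × (ZMod p)ˣ,
          (ZMod.stdAddChar (a' * ((i.1 : ZMod p) + (i.2 : ZMod p)) +
          b' * (((i.1⁻¹ : (ZMod p)ˣ) : ZMod p) + ((i.2⁻¹ : (ZMod p)ˣ) : ZMod p))) : ℂ) =
          kl p a' b' * kl p a' b' := by
        unfold kl
        rw [Finset.sum_mul_sum, Fintype.sum_prod_type]
        refine Finset.sum_congr rfl fun i _ => Finset.sum_congr rfl fun j _ => ?_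
        rw [← AddChar.map_add_eq_mul]
        congr 1
        ring
      rw [this, norm_mul]; ring
    simp_rw [h2]
    rw [h]
    have h3 := card_solutions p
    have h4 : (((univ : Finset (((ZMod p)ˣ × (ZMod p)ˣ) × ((ZMod p)ˣ × (ZMod p)ˣ))).filter fun ij =>
      (ij.1.1 : ZMod p) + (ij.1.2 : ZMod p) = (ij.2.1 : ZMod p) + (ij.2.2 : ZMod p) ∧
      ((ij.1.1⁻¹ : (ZMod p)ˣ) : ZMod p) + ((ij.1.2⁻¹ : (ZMod p)ˣ) : ZMod p) =
        ((ij.2.1⁻¹ : (ZMod p)ˣ) : ZMod p) + ((ij.2.2⁻¹ : (ZMod p)ˣ) : ZMod p)).card : ℝ) ≤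
      3 * ((p : ℝ) - 1) ^ 2 := by
      have : ((3 * (p - 1) ^ 2 : ℕ) : ℝ) = 3 * ((p : ℝ) - 1) ^ 2 := by
        push_cast [hp.one_le]; ring
      rw [← this]
      exact_mod_cast h3
    exact mul_le_mul_of_nonneg_left h4 (by positivity)
  have h5 : ∀ t : (ZMod p)ˣ, ∑ b : ZMod p, ‖kl p 1 b‖ ^ 4 = ∑ b : ZMod p, ‖kl p (t : ZMod p) b‖ ^ 4 := by
    intro t
    refine Fintype.sum_equiv (Units.mulRight t⁻¹) _ _ fun b => ?_
    rw [Units.mulRight_apply]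
    have := kl_shift p 1 b t
    rw [one_mul] at this
    rw [this]
  have h6 : ((p : ℝ) - 1) * ∑ b : ZMod p, ‖kl p 1 b‖ ^ 4 ≤
      ∑ a' : ZMod p, ∑ b' : ZMod p, ‖kl p a' b'‖ ^ 4 := by
    calc ((p : ℝ) - 1) * ∑ b : ZMod p, ‖kl p 1 b‖ ^ 4
        = ∑ _t : (ZMod p)ˣ, ∑ b : ZMod p, ‖kl p 1 b‖ ^ 4 := by
          rw [Finset.sum_const, Finset.card_univ, ZMod.card_units_eq_totient,
            Nat.totient_prime hp, nsmul_eq_mul]
          push_cast [hp.one_le]; ring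
      _ = ∑ t : (ZMod p)ˣ, ∑ b : ZMod p, ‖kl p (t : ZMod p) b‖ ^ 4 :=
          Finset.sum_congr rfl fun t _ => h5 t
      _ = ∑ a ∈ (univ : Finset (ZMod p)ˣ).image (fun t : (ZMod p)ˣ => (t : ZMod p)),
            ∑ b : ZMod p, ‖kl p a b‖ ^ 4 := by
          rw [Finset.sum_image (fun s _ t _ hst => Units.ext hst)]
      _ ≤ _ := Finset.sum_le_sum_of_subset_of_nonneg (subset_univ _)
          fun _ _ _ => by positivity
  have hp1 : (1 : ℝ) < p := by exact_mod_cast hp.one_lt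
  have h7 : ((p : ℝ) - 1) * ∑ b : ZMod p, ‖kl p 1 b‖ ^ 4 ≤ ((p : ℝ) - 1) * (3 * (p : ℝ) ^ 2 * ((p : ℝ) - 1)) := by
    refine (h6.trans h1).trans (le_of_eq ?_)
    ring
  have h8 := le_of_mul_le_mul_left h7 (by linarith)
  nlinarith [sq_nonneg (p : ℝ)]

end Pool.Agent.EPK
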