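import Pool.Agent.EPK.D0

/-!
# [EPK-B1a] the additive energy of reciprocals: one right-hand side (Heath-Brown)
-/

set_option autoImplicit false

namespace Pool.Agent.EPK

open Finset Pool.Agent.MP_2f88e5_nt

/-- [B1a] Dirichlet's theorem modulo `p`: every residue class `c` is a fraction `a / b` with small `a`, `b`.

Proof. `Real.exists_int_int_abs_mul_sub_le` (or `Real.exists_nat_abs_mul_sub_round_le`) for `ξ = c.val / p` and `B`:
there are `b ∈ [1, B]` and an integer `j` with `|b ξ - j| ≤ 1 / (B + 1)`. Put `a = b * c.val - j * p`; then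
`a = b c` in `ZMod p` and `|a| ≤ p / (B + 1)`. -/
theorem dirichlet_mod (p : ℕ) [Fact p.Prime] (c : ZMod p) (B : ℕ) (hB : 1 ≤ B) :
    ∃ (a : ℤ) (b : ℕ), 1 ≤ b ∧ b ≤ B ∧ (a : ZMod p) = (b : ZMod p) * c ∧
      |(a : ℝ)| * (B + 1) ≤ p := by
  have hp : 0 < (p : ℝ) := by exact_mod_cast (Fact.out : p.Prime).pos
  obtain ⟨j, k, hk0, hkB, hj⟩ := Real.exists_int_int_abs_mul_sub_le ((c.val : ℝ) / p)
    (n := B) (by omega)
  obtain ⟨b, rfl⟩ : ∃ b : ℕ, k = b := ⟨k.toNat, (Int.toNat_of_nonneg hk0.le).symm⟩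
  refine ⟨b * c.val - j * p, b, by exact_mod_cast hk0, by exact_mod_cast hkB, ?_, ?_⟩
  · push_cast
    rw [ZMod.natCast_self, mul_zero, sub_zero, ZMod.natCast_zmod_val]
  · have h1 : (((b : ℤ) * (c.val : ℤ) - j * (p : ℤ) : ℤ) : ℝ)
        = p * (((b : ℤ) : ℝ) * ((c.val : ℝ) / p) - j) := by
      push_cast
      field_simp
    rw [h1, abs_mul, abs_of_pos hp]
    have hB1 : (0 : ℝ) < B + 1 := by positivity
    calc (p : ℝ) * |((b : ℤ) : ℝ) * ((c.val : ℝ) / p) - j| * (B + 1)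
        ≤ p * (1 / (B + 1)) * (B + 1) := by gcongr
      _ = p := by field_simp

end Pool.Agent.EPK
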