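import Pool.Agent.EPK.B1a

/-!
# [EPK-B1b] the additive energy of reciprocals: one right-hand side (Heath-Brown)
-/

set_option autoImplicit false

namespace Pool.Agent.EPK

open Finset Pool.Agent.MP_2f88e5_nt

/-- [B1b] For fixed `c ≠ 0` the equation `1 / m + 1 / n = c` (mod `p`) has few solutions `m, n ≤ M`.

Proof (Heath-Brown). Let `B = ⌊√(p M)⌋` (`Nat.sqrt (p * M)`), so `1 ≤ B < p`, `B² ≤ p M < (B + 1)²`; `dirichlet_mod`: `a`, `b` with
`a ≡ b c`, `a ≠ 0` (as `p ∤ b`, `c ≠ 0`), `|a| (B + 1) ≤ p`, hence `|a| ≤ √(p / M)`. For a solution `m, n`: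
`b (m + n) ≡ a m n` (multiply by `b m n`), so `a m n - b (m + n) = k p` with an integer `k`, and
`|k| p ≤ |a| M² + 2 b M ≤ √(p/M) M² + 2 √(p M) M = 3 √(p M³)`, i.e. `|k| ≤ K := 3 √(M³ / p)`. Moreover
`(a m - b) (a n - b) = b² + a k p =: N_k`. Here `N_k ≠ 0`: if `a m = b` (or `a n = b`) then `k p = a m n - b m - b n = - b m`,
so `p ∣ b m`, impossible for `1 ≤ b, m < p`. And `|N_k| ≤ b² + |a| |k| p ≤ p M + 3 √(p / M) √(p M³) = p M + 3 p M = 4 p M ≤ 16 p⁴`.
So `a m - b` is one of the at most `2 T` integer divisors of `N_k` (a divisor of `N_k.natAbs` up to sign), it determines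
`m` (`a ≠ 0`), and `m` determines `n` (`1 / n = c - 1 / m`, `n < p`). There are at most `2 K + 1` values of `k`.
Total `≤ (2 K + 1) 2 T ≤ 12 T (1 + √(M³ / p))`. -/
theorem recip_fiber (p : ℕ) [Fact p.Prime] (M : ℕ) (hM : 1 ≤ M) (hMp : M < p) (T : ℝ)
    (hT : TauLE (16 * p ^ 4) T) (c : ZMod p) (hc : c ≠ 0) :
    (((Icc 1 M ×ˢ Icc 1 M).filter (fun q : ℕ × ℕ =>
      ((q.1 : ZMod p))⁻¹ + ((q.2 : ZMod p))⁻¹ = c)).card : ℝ) ≤
      12 * T * (1 + Real.sqrt ((M : ℝ) ^ 3 / p)) := by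
  classical
  have hp : p.Prime := Fact.out
  have hp0 : (0 : ℝ) < p := by exact_mod_cast hp.pos
  have hM0 : (0 : ℝ) < M := by exact_mod_cast hM
  have hMp' : (M : ℝ) < p := by exact_mod_cast hMp
  -- the size `s = √(p M)`
  set s : ℝ := Real.sqrt ((p : ℝ) * M) with hs
  have hs0 : 0 < s := Real.sqrt_pos.2 (by positivity)
  have hs2 : s ^ 2 = p * M := Real.sq_sqrt (by positivity)
  have hx : Real.sqrt ((M : ℝ) ^ 3 / p) = s * M / p := by
    rw [show (M : ℝ) ^ 3 / p = (s * M / p) ^ 2 by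
      rw [div_pow, mul_pow, hs2]; field_simp]
    exact Real.sqrt_sq (by positivity)
  set B := Nat.sqrt (p * M) with hB
  have hB1 : 1 ≤ B := Nat.le_sqrt'.2 (by nlinarith [hp.pos])
  have hBs : (B : ℝ) ≤ s := by
    apply Real.le_sqrt_of_sq_le
    have := Nat.sqrt_le' (p * M)
    exact_mod_cast this
  have hsB : s < B + 1 := by
    rw [hs, Real.sqrt_lt' (by positivity)]
    have := Nat.lt_succ_sqrt' (p * M)
    exact_mod_cast this
  have hBp : B < p := by
    have h2 : (B : ℝ) ^ 2 ≤ s ^ 2 := pow_le_pow_left₀ (Nat.cast_nonneg B) hBs 2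
    have h3 : (p : ℝ) * M < p * p := mul_lt_mul_of_pos_left hMp' hp0
    have h1 : (B : ℝ) ^ 2 < (p : ℝ) ^ 2 := by
      rw [hs2] at h2
      have h5 : (p : ℝ) ^ 2 = p * p := by ring
      rw [h5]
      exact lt_of_le_of_lt h2 h3
    have h4 : (B : ℝ) < (p : ℝ) := lt_of_pow_lt_pow_left₀ 2 hp0.le h1
    exact_mod_cast h4
  obtain ⟨a, b, hb1, hb2, hab, ha2⟩ := dirichlet_mod p c B hB1
  have hbp : ¬ p ∣ b := fun h => by
    have := Nat.le_of_dvd (by omega) h
    omega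
  have ha0 : a ≠ 0 := by
    rintro rfl
    rw [Int.cast_zero] at hab
    rcases mul_eq_zero.1 hab.symm with h | h
    · exact hbp ((ZMod.natCast_eq_zero_iff _ _).1 h)
    · exact hc h
  have has : |(a : ℝ)| * s ≤ p := le_trans (by gcongr) ha2
  have hbs : (b : ℝ) ≤ s := le_trans (by exact_mod_cast hb2) hBs
  have hT1 : 1 ≤ T := by
    have h1 : 1 ≤ 16 * p ^ 4 := by
      have := hp.pos
      nlinarith [Nat.one_le_pow 4 p this]
    simpa using hT 1 le_rfl h1
  set S := ((Icc 1 M ×ˢ Icc 1 M).filter (fun q : ℕ × ℕ =>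
      ((q.1 : ZMod p))⁻¹ + ((q.2 : ZMod p))⁻¹ = c)) with hS
  -- basic facts of a solution
  have fact0 : ∀ q ∈ S, 1 ≤ q.1 ∧ q.1 ≤ M ∧ 1 ≤ q.2 ∧ q.2 ≤ M ∧
      ((q.1 : ZMod p))⁻¹ + ((q.2 : ZMod p))⁻¹ = c := by
    intro q hq
    rw [hS, Finset.mem_filter, Finset.mem_product, Finset.mem_Icc, Finset.mem_Icc] at hq
    exact ⟨hq.1.1.1, hq.1.1.2, hq.1.2.1, hq.1.2.2, hq.2⟩
  have nz : ∀ m : ℕ, 1 ≤ m → m ≤ M → ((m : ℕ) : ZMod p) ≠ 0 := by
    intro m h1 h2 h
    rw [ZMod.natCast_eq_zero_iff] at h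
    have := Nat.le_of_dvd (by omega) h
    omega
  -- the integer k
  set kk : ℕ × ℕ → ℤ := fun q => (a * q.1 * q.2 - b * (q.1 + q.2)) / p with hkk
  have hk : ∀ q ∈ S, a * q.1 * q.2 - b * (q.1 + q.2) = kk q * p := by
    intro q hq
    obtain ⟨h1, h2, h3, h4, h5⟩ := fact0 q hq
    have e : ((a * q.1 * q.2 - b * (q.1 + q.2) : ℤ) : ZMod p) = 0 := by
      have n1 := nz _ h1 h2
      have n2 := nz _ h3 h4
      push_cast
      rw [hab, ← h5]
      field_simp
      ring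
    rw [ZMod.intCast_zmod_eq_zero_iff_dvd] at e
    exact (Int.ediv_mul_cancel e).symm
  have hkR : ∀ q ∈ S, (a : ℝ) * q.1 * q.2 - b * (q.1 + q.2) = kk q * p := by
    intro q hq
    exact_mod_cast congrArg (fun z : ℤ => (z : ℝ)) (hk q hq)
  have hkb : ∀ q ∈ S, |(kk q : ℝ)| * p ≤ 3 * (s * M) := by
    intro q hq
    obtain ⟨h1, h2, h3, h4, h5⟩ := fact0 q hq
    have m1 : ((q.1 : ℕ) : ℝ) ≤ M := by exact_mod_cast h2
    have m2 : ((q.2 : ℕ) : ℝ) ≤ M := by exact_mod_cast h4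
    have aM : |(a : ℝ)| * M ^ 2 ≤ s * M := by
      have e1 : |(a : ℝ)| * M ^ 2 * p = (|(a : ℝ)| * s) * (s * M) := by
        have : (|(a : ℝ)| * s) * (s * M) = |(a : ℝ)| * M * s ^ 2 := by ring
        rw [this, hs2]
        ring
      have e2 : (|(a : ℝ)| * s) * (s * M) ≤ p * (s * M) := by gcongr
      have e3 : |(a : ℝ)| * M ^ 2 * p ≤ s * M * p := by rw [e1]; linarith
      exact le_of_mul_le_mul_right e3 hp0
    calc |(kk q : ℝ)| * p = |(kk q : ℝ) * p| := by rw [abs_mul, abs_of_pos hp0]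
      _ = |(a : ℝ) * q.1 * q.2 - b * (q.1 + q.2)| := by rw [hkR q hq]
      _ ≤ |(a : ℝ) * q.1 * q.2| + |(b : ℝ) * (q.1 + q.2)| := abs_sub _ _
      _ = |(a : ℝ)| * (q.1 * q.2) + b * (q.1 + q.2) := by
          rw [mul_assoc, abs_mul, abs_of_nonneg (by positivity : (0 : ℝ) ≤ (q.1 : ℝ) * q.2),
            abs_of_nonneg (by positivity : (0 : ℝ) ≤ (b : ℝ) * (q.1 + q.2))]
      _ ≤ |(a : ℝ)| * (M * M) + s * (M + M) := by gcongr
      _ ≤ 3 * (s * M) := by nlinarith [aM]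
  set K : ℕ := ⌊3 * (s * M / p)⌋₊ with hK
  have hKle : (K : ℝ) ≤ 3 * (s * M / p) := Nat.floor_le (by positivity)
  have hkK : ∀ q ∈ S, kk q ∈ Finset.Icc (-(K : ℤ)) K := by
    intro q hq
    have h1 := hkb q hq
    have h2 : ((kk q).natAbs : ℝ) ≤ 3 * (s * M / p) := by
      have e1 : (((kk q).natAbs : ℕ) : ℝ) = |(kk q : ℝ)| := by
        rw [← Int.cast_abs, Int.abs_eq_natAbs, Int.cast_natCast]
      rw [e1]
      have e2 : 3 * (s * M / p) * p = 3 * (s * M) := by field_simp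
      exact le_of_mul_le_mul_right (by rw [e2]; exact h1) hp0
    have h3 : (kk q).natAbs ≤ K := Nat.le_floor h2
    rw [Finset.mem_Icc]
    omega
  rw [Finset.card_eq_sum_card_fiberwise (f := kk) (t := Finset.Icc (-(K : ℤ)) K)
    (fun q hq => Finset.mem_coe.2 (hkK q hq)), Nat.cast_sum]
  have hfib : ∀ k ∈ Finset.Icc (-(K : ℤ)) K, ((S.filter (fun q => kk q = k)).card : ℝ) ≤ 2 * T := by
    intro k _
    rcases (S.filter (fun q => kk q = k)).eq_empty_or_nonempty with he | ⟨q0, hq0⟩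
    · rw [he, Finset.card_empty]
      push_cast
      linarith
    set N : ℤ := b ^ 2 + a * (k * p) with hN
    have hprod : ∀ q ∈ S.filter (fun q => kk q = k), (a * q.1 - b) * (a * q.2 - b) = N := by
      intro q hq
      rw [Finset.mem_filter] at hq
      have := hk q hq.1
      rw [hq.2] at this
      rw [hN]
      linear_combination a * this
    have hfac : ∀ q ∈ S.filter (fun q => kk q = k), a * (q.1 : ℤ) - b ≠ 0 ∧ a * (q.2 : ℤ) - b ≠ 0 := by
      intro q hq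
      rw [Finset.mem_filter] at hq
      obtain ⟨h1, h2, h3, h4, h5⟩ := fact0 q hq.1
      have hk1 := hk q hq.1
      have pd : ∀ m : ℕ, 1 ≤ m → m ≤ M → ¬ (p : ℤ) ∣ b * m := by
        intro m g1 g2 g3
        have g4 : p ∣ b * m := by exact_mod_cast g3
        rcases hp.dvd_mul.1 g4 with g5 | g5
        · exact hbp g5
        · have := Nat.le_of_dvd (by omega) g5
          omega
      constructor
      · intro h0
        apply pd _ h1 h2
        refine ⟨-kk q, ?_⟩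
        linear_combination (q.2 : ℤ) * h0 - hk1
      · intro h0
        apply pd _ h3 h4
        refine ⟨-kk q, ?_⟩
        linear_combination (q.1 : ℤ) * h0 - hk1
    have hN0 : N ≠ 0 := by
      rw [← hprod q0 hq0]
      exact mul_ne_zero (hfac q0 hq0).1 (hfac q0 hq0).2
    have hNle : N.natAbs ≤ 16 * p ^ 4 := by
      have hq0' := hq0
      rw [Finset.mem_filter] at hq0'
      have h1 := hkb q0 hq0'.1
      rw [hq0'.2] at h1
      have e1 : (N.natAbs : ℝ) = |(N : ℝ)| := by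
        rw [← Int.cast_abs, Int.abs_eq_natAbs, Int.cast_natCast]
      have h2 : |(N : ℝ)| ≤ 16 * (p : ℝ) ^ 4 := by
        have hp1 : (1 : ℝ) ≤ p := by exact_mod_cast hp.one_le
        calc |(N : ℝ)| = |(b : ℝ) ^ 2 + a * (k * p)| := by rw [hN]; push_cast; rfl
          _ ≤ |(b : ℝ) ^ 2| + |(a : ℝ) * (k * p)| := abs_add_le _ _
          _ = (b : ℝ) ^ 2 + |(a : ℝ)| * (|(k : ℝ)| * p) := by
              rw [abs_of_nonneg (by positivity : (0 : ℝ) ≤ (b : ℝ) ^ 2), abs_mul, abs_mul, abs_of_pos hp0]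
          _ ≤ s ^ 2 + |(a : ℝ)| * (3 * (s * M)) := by gcongr
          _ = s ^ 2 + 3 * M * (|(a : ℝ)| * s) := by ring
          _ ≤ p * M + 3 * M * p := by
              rw [hs2]
              gcongr
          _ = 4 * (p * M) := by ring
          _ ≤ 4 * (p * p) := by gcongr
          _ ≤ 16 * (p : ℝ) ^ 4 := by
              have : (p : ℝ) * p ≤ (p : ℝ) ^ 4 := by
                calc (p : ℝ) * p = p ^ 2 := by ring
                  _ ≤ p ^ 4 := pow_le_pow_right₀ hp1 (by norm_num)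
              nlinarith [this, sq_nonneg (p : ℝ)]
      rw [← e1] at h2
      exact_mod_cast h2
    have hNpos : 1 ≤ N.natAbs := Nat.one_le_iff_ne_zero.2 (Int.natAbs_ne_zero.2 hN0)
    have hτ := hT N.natAbs hNpos hNle
    set Dv : Finset ℤ := (N.natAbs.divisors.image (fun d : ℕ => (d : ℤ))) ∪
      (N.natAbs.divisors.image (fun d : ℕ => -(d : ℤ))) with hDv
    have hDvc : (Dv.card : ℝ) ≤ 2 * T := by
      have h1 : Dv.card ≤ N.natAbs.divisors.card + N.natAbs.divisors.card :=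
        (Finset.card_union_le _ _).trans (Nat.add_le_add Finset.card_image_le Finset.card_image_le)
      have h2 : (Dv.card : ℝ) ≤ (N.natAbs.divisors.card : ℝ) + N.natAbs.divisors.card := by exact_mod_cast h1
      linarith
    refine le_trans ?_ hDvc
    rw [Nat.cast_le]
    apply Finset.card_le_card_of_injOn (fun q : ℕ × ℕ => a * (q.1 : ℤ) - b)
    · intro q hq
      have hq' := Finset.mem_coe.1 hq
      have h1 : (a * (q.1 : ℤ) - b) ∣ N := ⟨_, (hprod q hq').symm⟩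
      have h2 : (a * (q.1 : ℤ) - b).natAbs ∈ N.natAbs.divisors :=
        Nat.mem_divisors.2 ⟨Int.natAbs_dvd_natAbs.2 h1, Int.natAbs_ne_zero.2 hN0⟩
      rw [Finset.mem_coe, hDv, Finset.mem_union, Finset.mem_image, Finset.mem_image]
      rcases Int.natAbs_eq (a * (q.1 : ℤ) - b) with h3 | h3
      · exact Or.inl ⟨_, h2, h3.symm⟩
      · exact Or.inr ⟨_, h2, h3.symm⟩
    · intro q hq q' hq' h
      have h1 := (Finset.mem_filter.1 (Finset.mem_coe.1 hq)).1
      have h2 := (Finset.mem_filter.1 (Finset.mem_coe.1 hq')).1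
      obtain ⟨a1, a2, a3, a4, a5⟩ := fact0 q h1
      obtain ⟨b1, b2, b3, b4, b5⟩ := fact0 q' h2
      have e1 : q.1 = q'.1 := by
        have : a * ((q.1 : ℤ) - q'.1) = 0 := by
          simp only at h
          linear_combination h
        rcases mul_eq_zero.1 this with g | g
        · exact absurd g ha0
        · omega
      have e2 : ((q.2 : ℕ) : ZMod p) = ((q'.2 : ℕ) : ZMod p) := by
        have : ((q.2 : ZMod p))⁻¹ = ((q'.2 : ZMod p))⁻¹ := by
          rw [e1] at a5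
          linear_combination a5 - b5
        exact inv_injective this
      have e3 : q.2 = q'.2 := by
        rw [ZMod.natCast_eq_natCast_iff'] at e2
        rwa [Nat.mod_eq_of_lt (by omega), Nat.mod_eq_of_lt (by omega)] at e2
      exact Prod.ext e1 e3
  refine (Finset.sum_le_card_nsmul _ _ _ hfib).trans ?_
  rw [nsmul_eq_mul, Int.card_Icc, hx]
  have e : ((((K : ℤ) + 1 - -(K : ℤ)).toNat : ℕ) : ℝ) = 2 * K + 1 := by
    have : ((K : ℤ) + 1 - -(K : ℤ)).toNat = 2 * K + 1 := by omega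
    rw [this]
    push_cast
    ring
  rw [e]
  have hx0 : 0 ≤ s * M / p := by positivity
  calc (2 * (K : ℝ) + 1) * (2 * T) ≤ (2 * (3 * (s * M / p)) + 1) * (2 * T) := by gcongr
    _ ≤ 12 * T * (1 + s * M / p) := by nlinarith

end Pool.Agent.EPK
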