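import Pool.Agent.EPK.B1

/-!
# [EPK-B2] the additive energy of reciprocals
-/

set_option autoImplicit false

namespace Pool.Agent.EPK

open Finset Pool.Agent.MP_2f88e5_nt

/-- [B2] The additive energy of the reciprocals of `1, ..., M`.

Proof. Sum of `recip_fiber` over `(q.1.1, q.1.2) ∈ [1, M]²`, with `c = 1 / q.1.1 + 1 / q.1.2`. Here `c ≠ 0`: otherwise
`q.1.1 + q.1.2 ≡ 0`, but `2 ≤ q.1.1 + q.1.2 ≤ 2 M < p`. (`Finset.card_filter`, `Finset.sum_product`, or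
`Finset.card_le_mul_card_image`, `Finset.card_eq_sum_card_fiberwise` for the map `Prod.fst`.) -/
theorem recip_energy (p : ℕ) [Fact p.Prime] (M : ℕ) (hM : 1 ≤ M) (hMp : 2 * M < p) (T : ℝ)
    (hT : TauLE (16 * p ^ 4) T) :
    ((((Icc 1 M ×ˢ Icc 1 M) ×ˢ (Icc 1 M ×ˢ Icc 1 M)).filter (fun q : (ℕ × ℕ) × (ℕ × ℕ) =>
      ((q.1.1 : ZMod p))⁻¹ + ((q.1.2 : ZMod p))⁻¹ =
        ((q.2.1 : ZMod p))⁻¹ + ((q.2.2 : ZMod p))⁻¹)).card : ℝ) ≤
      12 * T * (M : ℝ) ^ 2 * (1 + Real.sqrt ((M : ℝ) ^ 3 / p)) := by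
  classical
  have hp : p.Prime := Fact.out
  rw [Finset.card_filter, Finset.sum_product, Nat.cast_sum]
  have key : ∀ q ∈ Icc 1 M ×ˢ Icc 1 M, ((∑ y ∈ Icc 1 M ×ˢ Icc 1 M,
      if ((q.1 : ZMod p))⁻¹ + ((q.2 : ZMod p))⁻¹ = ((y.1 : ZMod p))⁻¹ + ((y.2 : ZMod p))⁻¹ then 1 else 0 : ℕ) : ℝ)
      ≤ 12 * T * (1 + Real.sqrt ((M : ℝ) ^ 3 / p)) := by
    intro q hq
    rw [Finset.mem_product, Finset.mem_Icc, Finset.mem_Icc] at hq
    obtain ⟨⟨a1, a2⟩, ⟨a3, a4⟩⟩ := hq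
    have hq1 : ((q.1 : ℕ) : ZMod p) ≠ 0 := by
      rw [Ne, ZMod.natCast_eq_zero_iff]
      intro h
      have := Nat.le_of_dvd (by omega) h
      omega
    have hq2 : ((q.2 : ℕ) : ZMod p) ≠ 0 := by
      rw [Ne, ZMod.natCast_eq_zero_iff]
      intro h
      have := Nat.le_of_dvd (by omega) h
      omega
    have hc : ((q.1 : ZMod p))⁻¹ + ((q.2 : ZMod p))⁻¹ ≠ 0 := by
      intro h
      have h1 : ((q.1 + q.2 : ℕ) : ZMod p) = 0 := by
        push_cast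
        field_simp at h
        linear_combination h
      rw [ZMod.natCast_eq_zero_iff] at h1
      have := Nat.le_of_dvd (by omega) h1
      omega
    have := recip_fiber p M hM (by omega) T hT _ hc
    refine le_trans (le_of_eq ?_) this
    rw [← Finset.card_filter]
    congr 2
    ext y
    rw [Finset.mem_filter, Finset.mem_filter, eq_comm]
  refine (Finset.sum_le_card_nsmul _ _ _ key).trans (le_of_eq ?_)
  rw [Finset.card_product, Nat.card_Icc, Nat.add_sub_cancel, nsmul_eq_mul]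
  push_cast
  ring

end Pool.Agent.EPK
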