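import Pool.Agent.EPK.D0

/-!
# [EPK-B3a] coincidences of fractions modulo `p`
-/

set_option autoImplicit false

namespace Pool.Agent.EPK

open Finset Pool.Agent.MP_2f88e5_nt

/-- [B3a] Coincidences `X Y' ≡ X' Y`. A quadruple is written `q = ((X, Y), (X', Y'))`.

Proof. For fixed `(Y, X')` (at most `A B` pairs) put `t = X Y'`; it lies in `[1, A B]` and in a fixed residue class
modulo `p` (the class of `X' Y`), so there are at most `A B / p + 1` values of `t` (`Nat.count_modEq_card`, or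
`Nat.Ioc_filter_modEq_card`, or injectivity of `t ↦ t / p` on a residue class into `[0, A B / p]`), and for given `t` the
pair `(X, Y')` is determined by the divisor `X` of `t`: at most `T` pairs. -/
theorem count_cross (p : ℕ) [Fact p.Prime] (A B : ℕ) (T : ℝ) (hT : TauLE (A * B) T) :
    ((((Icc 1 A ×ˢ Icc 1 B) ×ˢ (Icc 1 A ×ˢ Icc 1 B)).filter (fun q : (ℕ × ℕ) × (ℕ × ℕ) =>
      ((q.1.1 : ZMod p)) * (q.2.2 : ZMod p) = (q.2.1 : ZMod p) * (q.1.2 : ZMod p))).card : ℝ) ≤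
      T * (A * B) * ((A * B : ℝ) / p + 1) := by
  classical
  have hp : p.Prime := Fact.out
  have hp0 : (0 : ℝ) < p := by exact_mod_cast hp.pos
  rcases Nat.eq_zero_or_pos (A * B) with hAB | hAB
  · have : (((Icc 1 A ×ˢ Icc 1 B) ×ˢ (Icc 1 A ×ˢ Icc 1 B)).filter (fun q : (ℕ × ℕ) × (ℕ × ℕ) =>
      ((q.1.1 : ZMod p)) * (q.2.2 : ZMod p) = (q.2.1 : ZMod p) * (q.1.2 : ZMod p))) = ∅ := by
      rw [Finset.eq_empty_iff_forall_notMem]
      intro q hq
      rw [Finset.mem_filter, Finset.mem_product, Finset.mem_product, Finset.mem_Icc, Finset.mem_Icc] at hq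
      obtain ⟨⟨⟨⟨a1, a2⟩, ⟨a3, a4⟩⟩, _⟩, _⟩ := hq
      rcases mul_eq_zero.1 hAB with h | h <;> omega
    rw [this, Finset.card_empty]
    have h2 : (A : ℝ) * B = 0 := by exact_mod_cast hAB
    rw [h2]
    simp
  have hT1 : 1 ≤ T := by
    have := hT 1 le_rfl hAB
    simpa using this
  -- the number of products in a residue class
  have cls : ∀ c : ℕ, (((Icc 1 A ×ˢ Icc 1 B).filter (fun r : ℕ × ℕ =>
      ((r.1 : ZMod p)) * (r.2 : ZMod p) = (c : ZMod p))).card : ℝ) ≤ T * ((A * B : ℝ) / p + 1) := by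
    intro c
    have hmaps : Set.MapsTo (fun r : ℕ × ℕ => r.1 * r.2) (((Icc 1 A ×ˢ Icc 1 B).filter (fun r : ℕ × ℕ =>
      ((r.1 : ZMod p)) * (r.2 : ZMod p) = (c : ZMod p))) : Set (ℕ × ℕ))
      (((Ioc 0 (A * B)).filter (fun t => t ≡ c [MOD p])) : Set ℕ) := by
      intro r hr
      rw [Finset.mem_coe, Finset.mem_filter, Finset.mem_product, Finset.mem_Icc, Finset.mem_Icc] at hr
      obtain ⟨⟨⟨a1, a2⟩, ⟨a3, a4⟩⟩, he⟩ := hr
      rw [Finset.mem_coe, Finset.mem_filter, Finset.mem_Ioc]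
      refine ⟨⟨Nat.mul_pos a1 a3, Nat.mul_le_mul a2 a4⟩, ?_⟩
      rw [← ZMod.natCast_eq_natCast_iff]
      push_cast
      exact he
    rw [Finset.card_eq_sum_card_fiberwise hmaps, Nat.cast_sum]
    have hfib : ∀ t ∈ (Ioc 0 (A * B)).filter (fun t => t ≡ c [MOD p]),
        ((((Icc 1 A ×ˢ Icc 1 B).filter (fun r : ℕ × ℕ =>
          ((r.1 : ZMod p)) * (r.2 : ZMod p) = (c : ZMod p))).filter (fun r : ℕ × ℕ => r.1 * r.2 = t)).card : ℝ)
          ≤ T := by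
      intro t ht
      rw [Finset.mem_filter, Finset.mem_Ioc] at ht
      have hsub : (((Icc 1 A ×ˢ Icc 1 B).filter (fun r : ℕ × ℕ =>
          ((r.1 : ZMod p)) * (r.2 : ZMod p) = (c : ZMod p))).filter (fun r : ℕ × ℕ => r.1 * r.2 = t))
          ⊆ t.divisorsAntidiagonal := by
        intro r hr
        rw [Finset.mem_filter] at hr
        rw [Nat.mem_divisorsAntidiagonal]
        exact ⟨hr.2, by omega⟩
      have h1 := Finset.card_le_card hsub
      have h2 : t.divisorsAntidiagonal.card = t.divisors.card := by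
        rw [← Nat.map_div_right_divisors, Finset.card_map]
      rw [h2] at h1
      exact (by exact_mod_cast h1 : _ ≤ (t.divisors.card : ℝ)).trans (hT t ht.1.1 ht.1.2)
    refine (Finset.sum_le_card_nsmul _ _ _ hfib).trans ?_
    rw [nsmul_eq_mul, mul_comm]
    refine mul_le_mul_of_nonneg_left ?_ (by linarith)
    have h3 := Nat.Ioc_filter_modEq_card 0 (A * B) hp.pos c
    have h4 : ((((Ioc 0 (A * B)).filter (fun t => t ≡ c [MOD p])).card : ℤ) : ℝ) ≤ (A * B : ℝ) / p + 1 := by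
      rw [h3]
      have k1 := Int.floor_le ((((A * B : ℕ) : ℚ) - (c : ℚ)) / (p : ℚ))
      have k2 := (Int.lt_floor_add_one ((((0 : ℕ) : ℚ) - (c : ℚ)) / (p : ℚ))).le
      have hpq : (0 : ℚ) < p := by exact_mod_cast hp.pos
      have k3 : (((⌊(((A * B : ℕ) : ℚ) - (c : ℚ)) / (p : ℚ)⌋ - ⌊(((0 : ℕ) : ℚ) - (c : ℚ)) / (p : ℚ)⌋ : ℤ) : ℚ))
          ≤ (((A * B : ℕ) : ℚ)) / p + 1 := by
        rw [Int.cast_sub]
        have e : (((A * B : ℕ) : ℚ) - (c : ℚ)) / (p : ℚ) - (((0 : ℕ) : ℚ) - (c : ℚ)) / (p : ℚ)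
            = ((A * B : ℕ) : ℚ) / p := by
          push_cast
          ring
        linarith
      have k4 : ((max (⌊(((A * B : ℕ) : ℚ) - (c : ℚ)) / (p : ℚ)⌋ - ⌊(((0 : ℕ) : ℚ) - (c : ℚ)) / (p : ℚ)⌋) 0 : ℤ) : ℚ)
          ≤ (((A * B : ℕ) : ℚ)) / p + 1 := by
        rw [Int.cast_max]
        refine max_le k3 ?_
        rw [Int.cast_zero]
        positivity
      have k5 : (((max (⌊(((A * B : ℕ) : ℚ) - (c : ℚ)) / (p : ℚ)⌋ - ⌊(((0 : ℕ) : ℚ) - (c : ℚ)) / (p : ℚ)⌋) 0 : ℤ) : ℚ) : ℝ)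
          ≤ ((((((A * B : ℕ) : ℚ)) / p + 1 : ℚ)) : ℝ) := by exact_mod_cast k4
      rw [Rat.cast_intCast] at k5
      refine k5.trans (le_of_eq ?_)
      push_cast
      ring
    exact_mod_cast h4
  have key : ((((Icc 1 A ×ˢ Icc 1 B) ×ˢ (Icc 1 A ×ˢ Icc 1 B)).filter (fun q : (ℕ × ℕ) × (ℕ × ℕ) =>
      ((q.1.1 : ZMod p)) * (q.2.2 : ZMod p) = (q.2.1 : ZMod p) * (q.1.2 : ZMod p))).card : ℝ)
      ≤ ((Icc 1 A ×ˢ Icc 1 B).card : ℝ) * (T * ((A * B : ℝ) / p + 1)) := by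
    have hmaps : Set.MapsTo (fun q : (ℕ × ℕ) × (ℕ × ℕ) => (q.2.1, q.1.2))
      ((((Icc 1 A ×ˢ Icc 1 B) ×ˢ (Icc 1 A ×ˢ Icc 1 B)).filter (fun q : (ℕ × ℕ) × (ℕ × ℕ) =>
      ((q.1.1 : ZMod p)) * (q.2.2 : ZMod p) = (q.2.1 : ZMod p) * (q.1.2 : ZMod p))) : Set ((ℕ × ℕ) × (ℕ × ℕ)))
      ((Icc 1 A ×ˢ Icc 1 B : Finset (ℕ × ℕ)) : Set (ℕ × ℕ)) := by
      intro q hq
      rw [Finset.mem_coe, Finset.mem_filter, Finset.mem_product, Finset.mem_product, Finset.mem_product] at hq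
      rw [Finset.mem_coe, Finset.mem_product]
      exact ⟨hq.1.2.1, hq.1.1.2⟩
    rw [Finset.card_eq_sum_card_fiberwise hmaps, Nat.cast_sum, ← nsmul_eq_mul]
    refine Finset.sum_le_card_nsmul _ _ _ ?_
    intro w _
    refine le_trans ?_ (cls (w.1 * w.2))
    rw [Nat.cast_le]
    apply Finset.card_le_card_of_injOn (fun q : (ℕ × ℕ) × (ℕ × ℕ) => (q.1.1, q.2.2))
    · intro q hq
      rw [Finset.mem_coe, Finset.mem_filter, Finset.mem_filter, Finset.mem_product, Finset.mem_product,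
        Finset.mem_product] at hq
      obtain ⟨⟨⟨⟨a1, a2⟩, ⟨a3, a4⟩⟩, he⟩, hw⟩ := hq
      rw [Finset.mem_coe, Finset.mem_filter, Finset.mem_product]
      refine ⟨⟨a1, a4⟩, ?_⟩
      rw [← hw]
      push_cast
      exact he
    · intro q hq q' hq' h
      rw [Finset.mem_coe, Finset.mem_filter] at hq hq'
      have h1 := hq.2.trans hq'.2.symm
      simp only [Prod.mk.injEq] at h h1
      apply Prod.ext
      · exact Prod.ext h.1 h1.2
      · exact Prod.ext h1.1 h.2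
  refine key.trans (le_of_eq ?_)
  rw [Finset.card_product, Nat.card_Icc, Nat.card_Icc, Nat.add_sub_cancel, Nat.add_sub_cancel]
  push_cast
  ring

end Pool.Agent.EPK
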