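import Pool.Agent.EPK.B3a

/-!
# [EPK-B3b] coincidences of fractions modulo `p`
-/

set_option autoImplicit false

namespace Pool.Agent.EPK

open Finset Pool.Agent.MP_2f88e5_nt

/-- [B3b] Coincidences of the map `i ↦ x X(i) / Y(i)`, where `X`, `Y` have small fibres.

Proof. `x ≠ 0`, so `ρ i = ρ j` gives `X i * Y j = X j * Y i` in `ZMod p` (`Y i`, `Y j` are prime to `p` because `hY0`). So
`(i, j) ↦ ((X i, Y i), (X j, Y j))` maps the coincidences into the set of `count_cross`, and every fibre has at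
most `M²` elements, since the fibre of `i ↦ (X i, Y i)` has at most `M` elements. -/
theorem coinc_general (p : ℕ) [Fact p.Prime] {ι : Type*} [DecidableEq ι] (s : Finset ι)
    (X Y : ι → ℕ) (A B : ℕ) (T M : ℝ) (hT : TauLE (A * B) T) (hM : 0 ≤ M)
    (hX : ∀ i ∈ s, 1 ≤ X i ∧ X i ≤ A) (hY : ∀ i ∈ s, 1 ≤ Y i ∧ Y i ≤ B)
    (hY0 : ∀ i ∈ s, ((Y i : ℕ) : ZMod p) ≠ 0)
    (hfib : ∀ a b : ℕ, ((s.filter (fun i => X i = a ∧ Y i = b)).card : ℝ) ≤ M)
    (x : ZMod p) (hx : x ≠ 0) :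
    (((s ×ˢ s).filter (fun q => x * ((X q.1 : ℕ) : ZMod p) * (((Y q.1 : ℕ) : ZMod p))⁻¹ =
      x * ((X q.2 : ℕ) : ZMod p) * (((Y q.2 : ℕ) : ZMod p))⁻¹)).card : ℝ) ≤
      M ^ 2 * (T * (A * B) * ((A * B : ℝ) / p + 1)) := by
  classical
  set W := (((Icc 1 A ×ˢ Icc 1 B) ×ˢ (Icc 1 A ×ˢ Icc 1 B)).filter (fun q : (ℕ × ℕ) × (ℕ × ℕ) =>
      ((q.1.1 : ZMod p)) * (q.2.2 : ZMod p) = (q.2.1 : ZMod p) * (q.1.2 : ZMod p))) with hW
  have hWc := count_cross p A B T hT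
  rw [← hW] at hWc
  set S := ((s ×ˢ s).filter (fun q => x * ((X q.1 : ℕ) : ZMod p) * (((Y q.1 : ℕ) : ZMod p))⁻¹ =
      x * ((X q.2 : ℕ) : ZMod p) * (((Y q.2 : ℕ) : ZMod p))⁻¹)) with hS
  have hmaps : Set.MapsTo (fun q : ι × ι => ((X q.1, Y q.1), (X q.2, Y q.2))) (S : Set (ι × ι)) (W : Set ((ℕ × ℕ) × (ℕ × ℕ))) := by
    intro q hq
    rw [Finset.mem_coe, hS, Finset.mem_filter, Finset.mem_product] at hq
    obtain ⟨⟨q1, q2⟩, he⟩ := hq
    rw [Finset.mem_coe, hW, Finset.mem_filter, Finset.mem_product, Finset.mem_product, Finset.mem_product]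
    refine ⟨⟨⟨Finset.mem_Icc.2 (hX _ q1), Finset.mem_Icc.2 (hY _ q1)⟩,
      ⟨Finset.mem_Icc.2 (hX _ q2), Finset.mem_Icc.2 (hY _ q2)⟩⟩, ?_⟩
    have y1 := hY0 _ q1
    have y2 := hY0 _ q2
    simp only
    rw [mul_assoc, mul_assoc] at he
    have h3 := mul_left_cancel₀ hx he
    field_simp at h3
    linear_combination h3
  rw [Finset.card_eq_sum_card_fiberwise hmaps, Nat.cast_sum]
  have key : ∀ w ∈ W, ((S.filter (fun q : ι × ι => ((X q.1, Y q.1), (X q.2, Y q.2)) = w)).card : ℝ) ≤ M ^ 2 := by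
    intro w _
    have hsub : S.filter (fun q : ι × ι => ((X q.1, Y q.1), (X q.2, Y q.2)) = w) ⊆
        (s.filter (fun i => X i = w.1.1 ∧ Y i = w.1.2)) ×ˢ (s.filter (fun i => X i = w.2.1 ∧ Y i = w.2.2)) := by
      intro q hq
      rw [Finset.mem_filter, hS, Finset.mem_filter, Finset.mem_product] at hq
      obtain ⟨⟨⟨q1, q2⟩, _⟩, rfl⟩ := hq
      rw [Finset.mem_product, Finset.mem_filter, Finset.mem_filter]
      exact ⟨⟨q1, rfl, rfl⟩, ⟨q2, rfl, rfl⟩⟩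
    have h1 := Finset.card_le_card hsub
    rw [Finset.card_product] at h1
    calc ((S.filter (fun q : ι × ι => ((X q.1, Y q.1), (X q.2, Y q.2)) = w)).card : ℝ)
        ≤ ((s.filter (fun i => X i = w.1.1 ∧ Y i = w.1.2)).card : ℝ) *
          ((s.filter (fun i => X i = w.2.1 ∧ Y i = w.2.2)).card : ℝ) := by exact_mod_cast h1
      _ ≤ M * M := mul_le_mul (hfib _ _) (hfib _ _) (Nat.cast_nonneg _) hM
      _ = M ^ 2 := by ring
  refine (Finset.sum_le_card_nsmul _ _ _ key).trans ?_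
  rw [nsmul_eq_mul, mul_comm]
  exact mul_le_mul_of_nonneg_left hWc (by positivity)

end Pool.Agent.EPK
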