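import Pool.Agent.EPK.D0

/-!
# [EPK-C1a] removing a cut-off
-/

set_option autoImplicit false

namespace Pool.Agent.EPK

open Finset Pool.Agent.MP_2f88e5_nt

/-- a geometric sum over an interval -/
theorem geom_Ioc (ω : ℂ) (hω : ‖ω‖ = 1) (h1 : ω ≠ 1) (a b : ℕ) :
    ‖∑ m ∈ Ioc a b, ω ^ m‖ ≤ 2 / ‖ω - 1‖ := by
  have hpos : 0 < ‖ω - 1‖ := norm_pos_iff.2 (sub_ne_zero.2 h1)
  rcases lt_or_ge b a with hba | hab
  · rw [Finset.Ioc_eq_empty (by omega), Finset.sum_empty, norm_zero]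
    positivity
  · have e1 : Ioc a b = Ico (a + 1) (b + 1) := by
      ext x
      simp only [Finset.mem_Ioc, Finset.mem_Ico]
      omega
    rw [e1, le_div_iff₀ hpos, ← norm_mul, geom_sum_Ico_mul ω (by omega)]
    calc ‖ω ^ (b + 1) - ω ^ (a + 1)‖ ≤ ‖ω ^ (b + 1)‖ + ‖ω ^ (a + 1)‖ := norm_sub_le _ _
      _ = 2 := by
        rw [norm_pow, norm_pow, hω, one_pow, one_pow]
        norm_num

/-- a lower bound for the sine -/
theorem sin_lower (x R : ℝ) (hx : 0 < x) (hxR : x < R) :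
    2 * min x (R - x) / R ≤ Real.sin (Real.pi * x / R) := by
  have hR : 0 < R := hx.trans hxR
  have key : ∀ y : ℝ, 0 < y → 2 * y ≤ R → 2 * y / R ≤ Real.sin (Real.pi * y / R) := by
    intro y hy hyR
    have h4 : 2 / Real.pi * (Real.pi * y / R) ≤ Real.sin (Real.pi * y / R) := by
      apply Real.mul_le_sin
      · have := Real.pi_pos
        positivity
      · rw [div_le_iff₀ hR]
        nlinarith [Real.pi_pos]
    have h5 : 2 / Real.pi * (Real.pi * y / R) = 2 * y / R := by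
      have := Real.pi_pos.ne'
      field_simp
    rwa [h5] at h4
  rcases le_total (2 * x) R with h | h
  · rw [min_eq_left (by linarith)]
    exact key x hx h
  · rw [min_eq_right (by linarith)]
    have h2 := key (R - x) (by linarith) (by linarith)
    have h3 : Real.pi * (R - x) / R = Real.pi - Real.pi * x / R := by
      field_simp
    rw [h3, Real.sin_pi_sub] at h2
    exact h2

/-- [C1a] The geometric sum `∑_{a < m ≤ b} e(- j m / R)` for `0 < j < R`.

Proof. `|∑| ≤ 2 / |1 - e(-j/R)| = 1 / |sin (π j / R)|` and `sin (π t) ≥ 2 min(t, 1 - t)` for `0 < t < 1`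
(`Real.mul_le_sin` for `π t ≤ π / 2`, and the symmetry `sin (π - s) = sin s`). Geometric sum: `geom_sum_eq`, or
multiply by `1 - e(-j/R)` and telescope. -/
theorem geom_bound (R j a b : ℕ) (hj : 0 < j) (hjR : j < R) :
    ‖∑ m ∈ Ioc a b, Complex.exp (-(2 * Real.pi * Complex.I * (j : ℂ) * (m : ℂ) / (R : ℂ)))‖ ≤
      (R : ℝ) / (2 * min (j : ℝ) ((R : ℝ) - j)) := by
  have hj' : (0 : ℝ) < j := by exact_mod_cast hj
  have hjR' : (j : ℝ) < R := by exact_mod_cast hjR
  have hR : (0 : ℝ) < R := hj'.trans hjR'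
  have hmin : 0 < min (j : ℝ) ((R : ℝ) - j) := lt_min hj' (by linarith)
  set θ : ℝ := -(2 * Real.pi * j / R) with hθ
  set ω : ℂ := Complex.exp (Complex.I * (θ : ℂ)) with hω
  have e1 : ∀ m ∈ Ioc a b,
      Complex.exp (-(2 * Real.pi * Complex.I * (j : ℂ) * (m : ℂ) / (R : ℂ))) = ω ^ m := by
    intro m _
    rw [hω, ← Complex.exp_nat_mul, hθ]
    congr 1
    push_cast
    ring
  have hs := sin_lower (j : ℝ) R hj' hjR'
  have hs0 : 0 < Real.sin (Real.pi * j / R) := lt_of_lt_of_le (by positivity) hs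
  have n1 : ‖ω - 1‖ = 2 * Real.sin (Real.pi * j / R) := by
    rw [hω, Complex.norm_exp_I_mul_ofReal_sub_one]
    have h1 : θ / 2 = -(Real.pi * j / R) := by rw [hθ]; ring
    rw [h1, Real.sin_neg, mul_neg, norm_neg, Real.norm_of_nonneg (by positivity)]
  have hω1 : ω ≠ 1 := by
    intro h
    rw [h, sub_self, norm_zero] at n1
    linarith
  have hωn : ‖ω‖ = 1 := by
    rw [hω, mul_comm, Complex.norm_exp_ofReal_mul_I]
  rw [Finset.sum_congr rfl e1]
  refine (geom_Ioc ω hωn hω1 a b).trans ?_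
  rw [n1, div_le_div_iff₀ (by positivity) (by positivity)]
  rw [div_le_iff₀ hR] at hs
  nlinarith

end Pool.Agent.EPK
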