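import Pool.Agent.EPK.C1a

/-!
# [EPK-C1b] removing a cut-off
-/

set_option autoImplicit false

namespace Pool.Agent.EPK

open Finset Pool.Agent.MP_2f88e5_nt

/-- orthogonality of the characters modulo `R` -/
theorem orth (R : ℕ) (hR : 1 ≤ R) (a m n : ℕ) (hm : m ∈ Ioc a (a + R)) (hn : n ∈ Ioc a (a + R)) :
    ∑ j ∈ range R, Complex.exp (2 * Real.pi * Complex.I * (j : ℂ) * (m : ℂ) / (R : ℂ)) *
      Complex.exp (-(2 * Real.pi * Complex.I * (j : ℂ) * (n : ℂ) / (R : ℂ))) =
      if m = n then (R : ℂ) else 0 := by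
  have hR0 : (R : ℂ) ≠ 0 := by
    have : R ≠ 0 := by omega
    exact_mod_cast this
  rw [Finset.mem_Ioc] at hm hn
  set ζ : ℂ := Complex.exp (2 * Real.pi * Complex.I * (((m : ℂ) - n) / R)) with hζ
  have e1 : ∀ j ∈ range R, Complex.exp (2 * Real.pi * Complex.I * (j : ℂ) * (m : ℂ) / (R : ℂ)) *
      Complex.exp (-(2 * Real.pi * Complex.I * (j : ℂ) * (n : ℂ) / (R : ℂ))) = ζ ^ j := by
    intro j _
    rw [hζ, ← Complex.exp_nat_mul, ← Complex.exp_add]
    congr 1
    ring
  rw [Finset.sum_congr rfl e1]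
  by_cases hmn : m = n
  · rw [if_pos hmn]
    have : ζ = 1 := by
      rw [hζ, hmn, sub_self, zero_div, mul_zero, Complex.exp_zero]
    simp [this]
  · rw [if_neg hmn]
    have h1 : ζ ≠ 1 := by
      intro h
      rw [hζ, Complex.exp_eq_one_iff] at h
      obtain ⟨k, hk⟩ := h
      have hpi : (2 * Real.pi * Complex.I : ℂ) ≠ 0 := Complex.two_pi_I_ne_zero
      have h2 : ((m : ℂ) - n) / R = k := by
        have h3 : (2 * Real.pi * Complex.I : ℂ) * (((m : ℂ) - n) / R) =
            (2 * Real.pi * Complex.I : ℂ) * k := by rw [hk]; ring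
        exact mul_left_cancel₀ hpi h3
      rw [div_eq_iff hR0] at h2
      have h3 : ((m : ℤ) - n) = k * R := by exact_mod_cast h2
      have hk0 : k = 0 := by
        by_contra hk0
        have h4 : (R : ℤ) ∣ (m : ℤ) - n := ⟨k, by rw [h3]; ring⟩
        have h5 : (m : ℤ) - n ≠ 0 := by
          intro h6
          apply hmn
          omega
        have h6 := Int.le_of_dvd (abs_pos.2 h5) ((dvd_abs _ _).2 h4)
        rw [le_abs] at h6
        omega
      rw [hk0, zero_mul] at h3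
      apply hmn
      omega
    have h2 : ζ ^ R = 1 := by
      rw [hζ, ← Complex.exp_nat_mul]
      have h3 : (R : ℂ) * (2 * Real.pi * Complex.I * (((m : ℂ) - n) / R)) =
          (((m : ℤ) - n : ℤ) : ℂ) * (2 * Real.pi * Complex.I) := by
        push_cast
        field_simp
      rw [h3]
      exact Complex.exp_int_mul_two_pi_mul_I _
    rw [geom_sum_eq h1, h2, sub_self, zero_div]

/-- [C1b] A cut-off `m ≤ Z` in a sum over `m ∈ (a, a + R]` can be removed at the cost of a logarithm and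
additional phases `e(j m / R)`; the weights `γ j` do not depend on `Z`.

Proof. Orthogonality: for `m, n ∈ (a, a + R]`, `(1/R) ∑_{j < R} e(j (m - n) / R) = 1` if `m = n`, else `0`. So the cut sum is
`∑_{n ∈ (a, a + R], n ≤ Z} g n = ∑_{j < R} c_j ∑_{m ∈ (a, a + R]} g m e(j m / R)` with
`c_j = (1/R) ∑_{n ∈ (a, a + R], n ≤ Z} e(- j n / R)` (the set of these `n` is the interval `Ioc a (min Z (a + R))`). So `|c_0| ≤ 1` and
`|c_j| ≤ 1 / (2 min(j, R - j))` by `geom_bound`. Put `γ 0 = 1`, `γ j = 1 / (2 min(j, R - j))`. Then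
`∑_{0 < j < R} γ j ≤ ∑_{0 < j < R} (1/(2j) + 1/(2(R - j))) = ∑_{0 < j < R} 1 / j ≤ 1 + log R` (`harmonic_le_one_add_log`). -/
theorem cut (R : ℕ) (hR : 1 ≤ R) : ∃ γ : ℕ → ℝ, (∀ j, 0 ≤ γ j) ∧
    ∑ j ∈ range R, γ j ≤ 3 + Real.log R ∧ ∀ (a Z : ℕ) (g : ℕ → ℂ),
      ‖∑ m ∈ (Ioc a (a + R)).filter (fun m => m ≤ Z), g m‖ ≤
        ∑ j ∈ range R, γ j * ‖∑ m ∈ Ioc a (a + R),
          g m * Complex.exp (2 * Real.pi * Complex.I * (j : ℂ) * (m : ℂ) / (R : ℂ))‖ := by
  classical
  have hR0 : (0 : ℝ) < R := by exact_mod_cast hR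
  have hRC : (R : ℂ) ≠ 0 := by exact_mod_cast hR0.ne'
  refine ⟨fun j => if j = 0 then 1 else if j < R then 1 / (2 * min (j : ℝ) ((R : ℝ) - j)) else 0,
    ?_, ?_, ?_⟩
  · intro j
    dsimp only
    split_ifs with h1 h2
    · norm_num
    · have h3 : (0 : ℝ) < j := by exact_mod_cast Nat.pos_of_ne_zero h1
      have h4 : (j : ℝ) < R := by exact_mod_cast h2
      have : 0 < min (j : ℝ) ((R : ℝ) - j) := lt_min h3 (by linarith)
      positivity
    · exact le_rfl
  · obtain ⟨q, rfl⟩ : ∃ q, R = q + 1 := ⟨R - 1, by omega⟩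
    rw [sum_range_succ']
    simp only [if_true, Nat.add_eq_zero_iff, one_ne_zero, and_false, if_false]
    have h2 : ∑ i ∈ range q, (1 / (((q + 1 : ℕ) : ℝ) - ((i + 1 : ℕ) : ℝ))) =
        ∑ i ∈ range q, 1 / (((i + 1 : ℕ) : ℝ)) := by
      rw [← sum_range_reflect]
      refine sum_congr rfl fun i hi => ?_
      have hi' := mem_range.mp hi
      congr 1
      have : ((q - 1 - i + 1 : ℕ) : ℝ) = (q : ℝ) - i := by
        have : q - 1 - i + 1 = q - i := by omega
        rw [this, Nat.cast_sub hi'.le]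
      rw [this]
      push_cast
      ring
    have h3 : ∑ i ∈ range q, 1 / (((i + 1 : ℕ) : ℝ)) = (harmonic q : ℝ) := by
      simp [harmonic]
    have h4 := harmonic_le_one_add_log q
    have h5 : Real.log q ≤ Real.log ((q + 1 : ℕ) : ℝ) := by
      rcases Nat.eq_zero_or_pos q with rfl | hq
      · simp
      · apply Real.log_le_log
        · exact_mod_cast hq
        · push_cast
          linarith
    have h6 : ∑ i ∈ range q, (if i + 1 < q + 1 then
        1 / (2 * min (((i + 1 : ℕ) : ℝ)) (((q + 1 : ℕ) : ℝ) - ((i + 1 : ℕ) : ℝ))) else 0) ≤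
        ∑ i ∈ range q, (1 / 2 * (1 / (((i + 1 : ℕ) : ℝ))) +
          1 / 2 * (1 / (((q + 1 : ℕ) : ℝ) - ((i + 1 : ℕ) : ℝ)))) := by
      refine sum_le_sum fun i hi => ?_
      have hi' := mem_range.mp hi
      rw [if_pos (by omega)]
      have p1 : (0 : ℝ) < ((i + 1 : ℕ) : ℝ) := by positivity
      have p2 : (0 : ℝ) < ((q + 1 : ℕ) : ℝ) - ((i + 1 : ℕ) : ℝ) := by
        have : ((i + 1 : ℕ) : ℝ) < ((q + 1 : ℕ) : ℝ) := by exact_mod_cast Nat.add_lt_add_right hi' 1
        linarith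
      have q1 : 0 ≤ 1 / 2 * (1 / (((i + 1 : ℕ) : ℝ))) := by positivity
      have q2 : 0 ≤ 1 / 2 * (1 / (((q + 1 : ℕ) : ℝ) - ((i + 1 : ℕ) : ℝ))) := by positivity
      rcases min_choice (((i + 1 : ℕ) : ℝ)) (((q + 1 : ℕ) : ℝ) - ((i + 1 : ℕ) : ℝ)) with h | h
      · rw [h]
        have : 1 / (2 * ((i + 1 : ℕ) : ℝ)) = 1 / 2 * (1 / (((i + 1 : ℕ) : ℝ))) := by
          field_simp
        linarith
      · rw [h]
        have : 1 / (2 * (((q + 1 : ℕ) : ℝ) - ((i + 1 : ℕ) : ℝ))) =
            1 / 2 * (1 / (((q + 1 : ℕ) : ℝ) - ((i + 1 : ℕ) : ℝ))) := by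
          field_simp
        linarith
    rw [sum_add_distrib, ← mul_sum, ← mul_sum, h2, h3] at h6
    linarith
  · intro a Z g
    have hset : (Ioc a (a + R)).filter (fun m => m ≤ Z) = Ioc a (min Z (a + R)) := by
      ext x
      simp only [Finset.mem_filter, Finset.mem_Ioc, le_min_iff]
      tauto
    set c : ℕ → ℂ := fun j => (R : ℂ)⁻¹ * ∑ n ∈ Ioc a (min Z (a + R)),
      Complex.exp (-(2 * Real.pi * Complex.I * (j : ℂ) * (n : ℂ) / (R : ℂ))) with hc
    have hsub : Ioc a (min Z (a + R)) ⊆ Ioc a (a + R) :=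
      Finset.Ioc_subset_Ioc_right (min_le_right _ _)
    have key : ∑ m ∈ (Ioc a (a + R)).filter (fun m => m ≤ Z), g m =
        ∑ j ∈ range R, c j * ∑ m ∈ Ioc a (a + R),
          g m * Complex.exp (2 * Real.pi * Complex.I * (j : ℂ) * (m : ℂ) / (R : ℂ)) := by
      have e1 : ∑ j ∈ range R, c j * ∑ m ∈ Ioc a (a + R),
          g m * Complex.exp (2 * Real.pi * Complex.I * (j : ℂ) * (m : ℂ) / (R : ℂ)) =
          ∑ n ∈ Ioc a (min Z (a + R)), ∑ m ∈ Ioc a (a + R), (R : ℂ)⁻¹ * g m *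
            ∑ j ∈ range R, Complex.exp (2 * Real.pi * Complex.I * (j : ℂ) * (m : ℂ) / (R : ℂ)) *
              Complex.exp (-(2 * Real.pi * Complex.I * (j : ℂ) * (n : ℂ) / (R : ℂ))) := by
        have e2 : ∀ j ∈ range R, c j * ∑ m ∈ Ioc a (a + R),
            g m * Complex.exp (2 * Real.pi * Complex.I * (j : ℂ) * (m : ℂ) / (R : ℂ)) =
            ∑ n ∈ Ioc a (min Z (a + R)), ∑ m ∈ Ioc a (a + R), (R : ℂ)⁻¹ * g m *
              (Complex.exp (2 * Real.pi * Complex.I * (j : ℂ) * (m : ℂ) / (R : ℂ)) *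
              Complex.exp (-(2 * Real.pi * Complex.I * (j : ℂ) * (n : ℂ) / (R : ℂ)))) := by
          intro j _
          rw [hc]
          dsimp only
          rw [mul_assoc, sum_mul_sum, mul_sum]
          refine sum_congr rfl fun n _ => ?_
          rw [mul_sum]
          refine sum_congr rfl fun m _ => ?_
          ring
        rw [sum_congr rfl e2, sum_comm]
        refine sum_congr rfl fun n _ => ?_
        rw [sum_comm]
        refine sum_congr rfl fun m _ => ?_
        rw [mul_sum]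
      rw [e1, hset]
      refine sum_congr rfl fun n hn => ?_
      have hn' := hsub hn
      rw [sum_congr rfl fun m hm => by rw [orth R hR a m n hm hn']]
      rw [sum_eq_single_of_mem n hn']
      · rw [if_pos rfl]
        field_simp
      · intro m _ hmn
        rw [if_neg hmn, mul_zero]
    rw [key]
    refine (norm_sum_le _ _).trans (sum_le_sum fun j hj => ?_)
    have hj' := mem_range.1 hj
    rw [norm_mul]
    refine mul_le_mul_of_nonneg_right ?_ (norm_nonneg _)
    rw [hc]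
    dsimp only
    rw [norm_mul, norm_inv, Complex.norm_natCast]
    split_ifs with h0
    · rw [inv_mul_le_iff₀ hR0, mul_one]
      refine (norm_sum_le _ _).trans ?_
      calc ∑ n ∈ Ioc a (min Z (a + R)),
          ‖Complex.exp (-(2 * Real.pi * Complex.I * (j : ℂ) * (n : ℂ) / (R : ℂ)))‖ =
          ∑ n ∈ Ioc a (min Z (a + R)), (1 : ℝ) := by
            refine sum_congr rfl fun n _ => ?_
            rw [h0]
            simp
        _ ≤ ∑ n ∈ Ioc a (a + R), (1 : ℝ) :=
            sum_le_sum_of_subset_of_nonneg hsub (fun _ _ _ => zero_le_one)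
        _ = R := by simp
    · have hgb := geom_bound R j a (min Z (a + R)) (Nat.pos_of_ne_zero h0) hj'
      rw [inv_mul_le_iff₀ hR0]
      refine hgb.trans (le_of_eq ?_)
      ring

end Pool.Agent.EPK
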