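import Pool.Agent.EPK.D0
import Pool.Agent.MP_2f88e5_nt.Hyp

/-!
# [EPK-C2a] sums of additive characters over intervals
-/

set_option autoImplicit false

namespace Pool.Agent.EPK

open Finset Pool.Agent.MP_2f88e5_nt

/-- [C2a] `‖ea u‖ = 1`. (`AddChar.norm_apply`, or `ZMod.stdAddChar` has values on the unit circle:
`Circle.norm_coe`, `ZMod.stdAddChar_apply`.) -/
theorem norm_ea (p : ℕ) [Fact p.Prime] (u : ZMod p) : ‖ea p u‖ = 1 :=
  AddChar.norm_apply _ _

/-- [C2b] `ea (-u)` is the conjugate of `ea u` (`conj_char`). -/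
theorem ea_neg (p : ℕ) [Fact p.Prime] (u : ZMod p) : ea p (-u) = (starRingEnd ℂ) (ea p u) :=
  AddChar.map_neg_eq_conj _ _

/-- [C2c] A sum over an interval, frequency `t = h` or `t = - h` with `1 ≤ h < p / 2`.

Proof. For `t = h`: geometric sum, `ea p (h k) = exp(2 π i h k / p)` (`ZMod.stdAddChar_coe` or
`ZMod.toCircle_natCast`), so the norm is at most `2 / |1 - exp(2 π i h / p)| = 1 / sin(π h / p) ≤ p / (2 h)` by
`Real.mul_le_sin` (`π h / p ≤ π / 2`). See also `lin_bound`, `std_sub_one` in `Pool/Agent/MP_2f88e5_nt/Hyp.lean`. For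
`t = - h`: conjugate (`ea_neg`). -/
theorem interval_bound (p : ℕ) [Fact p.Prime] (h a b : ℕ) (h1 : 1 ≤ h) (h2 : 2 * h < p)
    (t : ZMod p) (ht : t = (h : ZMod p) ∨ t = -(h : ZMod p)) :
    ‖∑ k ∈ Ioc a b, ea p (t * (k : ZMod p))‖ ≤ (p : ℝ) / (2 * h) := by
  have hh : (0 : ℝ) < h := by exact_mod_cast h1
  have hhp : 2 * (h : ℝ) < p := by exact_mod_cast h2
  have hp0 : (0 : ℝ) < p := by linarith
  have main : ‖∑ k ∈ Ioc a b, ea p ((h : ZMod p) * (k : ZMod p))‖ ≤ (p : ℝ) / (2 * h) := by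
    set ω : ℂ := ea p (h : ZMod p) with hω
    have hval : (h : ZMod p).val = h := ZMod.val_cast_of_lt (by omega)
    have e1 : ∀ k ∈ Ioc a b, ea p ((h : ZMod p) * (k : ZMod p)) = ω ^ k := by
      intro k _
      rw [hω, ea, ea, ← AddChar.map_nsmul_eq_pow, nsmul_eq_mul, mul_comm]
    have hωe : ω = Complex.exp (Complex.I * ((2 * Real.pi * h / p : ℝ) : ℂ)) := by
      rw [hω, ea, ZMod.stdAddChar_apply, ZMod.toCircle_apply, hval]
      congr 1
      push_cast
      ring
    have hs : 2 * (h : ℝ) / p ≤ Real.sin (Real.pi * h / p) := by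
      have h4 : 2 / Real.pi * (Real.pi * h / p) ≤ Real.sin (Real.pi * h / p) := by
        apply Real.mul_le_sin
        · have := Real.pi_pos
          positivity
        · rw [div_le_iff₀ hp0]
          nlinarith [Real.pi_pos]
      have h5 : 2 / Real.pi * (Real.pi * h / p) = 2 * h / p := by
        have := Real.pi_pos.ne'
        field_simp
      rwa [h5] at h4
    have hs0 : 0 < Real.sin (Real.pi * h / p) := lt_of_lt_of_le (by positivity) hs
    have n1 : ‖ω - 1‖ = 2 * Real.sin (Real.pi * h / p) := by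
      rw [hωe, Complex.norm_exp_I_mul_ofReal_sub_one]
      have h1 : (2 * Real.pi * h / p) / 2 = Real.pi * h / p := by ring
      rw [h1, Real.norm_of_nonneg (by positivity)]
    have hpos : 0 < ‖ω - 1‖ := by rw [n1]; positivity
    rw [Finset.sum_congr rfl e1]
    have hωn : ‖ω‖ = 1 := norm_ea p _
    have g1 : ‖∑ m ∈ Ioc a b, ω ^ m‖ ≤ 2 / ‖ω - 1‖ := by
      rcases lt_or_ge b a with hba | hab
      · rw [Finset.Ioc_eq_empty (by omega), Finset.sum_empty, norm_zero]
        positivity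
      · have e1 : Ioc a b = Ico (a + 1) (b + 1) := by
          ext x
          simp only [Finset.mem_Ioc, Finset.mem_Ico]
          omega
        rw [e1, le_div_iff₀ hpos, ← norm_mul, geom_sum_Ico_mul ω (by omega)]
        calc ‖ω ^ (b + 1) - ω ^ (a + 1)‖ ≤ ‖ω ^ (b + 1)‖ + ‖ω ^ (a + 1)‖ := norm_sub_le _ _
          _ = 2 := by
            rw [norm_pow, norm_pow, hωn, one_pow, one_pow]
            norm_num
    refine g1.trans ?_
    rw [n1, div_le_div_iff₀ (by positivity) (by positivity)]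
    rw [div_le_iff₀ hp0] at hs
    nlinarith
  rcases ht with rfl | rfl
  · exact main
  · have e2 : ∑ k ∈ Ioc a b, ea p (-(h : ZMod p) * (k : ZMod p)) =
        (starRingEnd ℂ) (∑ k ∈ Ioc a b, ea p ((h : ZMod p) * (k : ZMod p))) := by
      rw [map_sum]
      refine Finset.sum_congr rfl fun k _ => ?_
      rw [← ea_neg, neg_mul]
    rw [e2, RCLike.norm_conj]
    exact main

end Pool.Agent.EPK
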