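import Pool.Agent.EPK.C2a

/-!
# [EPK-C2b] sums of additive characters over intervals
-/

set_option autoImplicit false

namespace Pool.Agent.EPK

open Finset Pool.Agent.MP_2f88e5_nt

/-- [C2d] Fourier expansion of a function of `r`. (`sum_char p`: `∑_t e(t (r - k)) = p` if `r = k`, else `0`;
`Finset.sum_comm`.) The numbers `k` of the interval are smaller than `p`, so at most one of them is `r`. -/
theorem fourier_interval (p : ℕ) [Fact p.Prime] (a b : ℕ) (f : ZMod p → ℂ) :
    ∑ k ∈ Ioc a b, f (k : ZMod p) =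
      (p : ℂ)⁻¹ * ∑ t : ZMod p, (∑ r : ZMod p, f r * ea p (t * r)) *
        (∑ k ∈ Ioc a b, ea p (-t * (k : ZMod p))) := by
  classical
  have hp0 : (p : ℂ) ≠ 0 := by exact_mod_cast (Fact.out : p.Prime).ne_zero
  have e1 : ∑ t : ZMod p, (∑ r : ZMod p, f r * ea p (t * r)) *
        (∑ k ∈ Ioc a b, ea p (-t * (k : ZMod p))) =
      ∑ k ∈ Ioc a b, ∑ r : ZMod p, f r *
        ∑ t : ZMod p, (ZMod.stdAddChar (t * (r - (k : ZMod p))) : ℂ) := by
    have e2 : ∀ t : ZMod p, (∑ r : ZMod p, f r * ea p (t * r)) *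
        (∑ k ∈ Ioc a b, ea p (-t * (k : ZMod p))) =
        ∑ k ∈ Ioc a b, ∑ r : ZMod p, f r * (ZMod.stdAddChar (t * (r - (k : ZMod p))) : ℂ) := by
      intro t
      rw [sum_mul_sum, sum_comm]
      refine sum_congr rfl fun k _ => sum_congr rfl fun r _ => ?_
      rw [ea, ea, mul_assoc, ← AddChar.map_add_eq_mul]
      congr 2
      ring
    rw [sum_congr rfl fun t _ => e2 t, sum_comm]
    refine sum_congr rfl fun k _ => ?_
    rw [sum_comm]
    refine sum_congr rfl fun r _ => ?_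
    rw [mul_sum]
  rw [e1, mul_sum]
  refine sum_congr rfl fun k _ => ?_
  rw [sum_eq_single (k : ZMod p)]
  · rw [hyp_sum_char, if_pos (sub_self _)]
    field_simp
  · intro r _ hr
    rw [hyp_sum_char, if_neg (sub_ne_zero.2 hr), mul_zero]
  · intro h
    exact absurd (mem_univ _) h

/-- [C2e] A sum over the nonzero classes is a sum over `± h`, `1 ≤ h ≤ (p - 1) / 2` (`p` odd).

Proof. `h ↦ h` and `h ↦ - h` are injective on `[1, (p - 1) / 2]` with disjoint images (`ZMod.natCast_eq_natCast_iff'`,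
`h + h' < p`), which together are all nonzero classes (`t.val ≤ (p - 1)/2`, or `p - t.val ≤ (p - 1)/2`). -/
theorem sum_nonzero (p : ℕ) [Fact p.Prime] (hp : 2 < p) (f : ZMod p → ℝ) :
    ∑ t ∈ univ.erase (0 : ZMod p), f t =
      ∑ h ∈ Icc 1 ((p - 1) / 2), (f (h : ZMod p) + f (-(h : ZMod p))) := by
  classical
  have hprime : p.Prime := Fact.out
  obtain ⟨q, hq⟩ : ∃ q, p = 2 * q + 1 := (hprime.eq_two_or_odd'.resolve_left (by omega))
  have hq2 : (p - 1) / 2 = q := by omega
  rw [hq2]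
  have e1 : ∑ t ∈ univ.erase (0 : ZMod p), f t = ∑ i ∈ Ico 1 p, f (i : ZMod p) := by
    refine sum_nbij' (fun r => r.val) (fun i => (i : ZMod p)) ?_ ?_ ?_ ?_ ?_
    · intro r hr
      have h0 : r ≠ 0 := (mem_erase.mp hr).1
      have h1 : r.val ≠ 0 := by rwa [Ne, ZMod.val_eq_zero]
      exact mem_Ico.mpr ⟨Nat.pos_of_ne_zero h1, ZMod.val_lt r⟩
    · intro i hi
      rw [mem_Ico] at hi
      refine mem_erase.mpr ⟨?_, mem_univ _⟩
      intro h
      rw [ZMod.natCast_eq_zero_iff] at h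
      have := Nat.le_of_dvd (by omega) h
      omega
    · intro r _
      simp
    · intro i hi
      rw [mem_Ico] at hi
      exact ZMod.val_cast_of_lt hi.2
    · intro r _
      simp
  have e2 : ∑ i ∈ Ico 1 p, f (i : ZMod p) =
      ∑ i ∈ Ico 1 (q + 1), f (i : ZMod p) + ∑ i ∈ Ico (q + 1) p, f (i : ZMod p) :=
    (sum_Ico_consecutive _ (by omega) (by omega)).symm
  have e3 : ∑ i ∈ Ico (q + 1) p, f (i : ZMod p) = ∑ h ∈ Icc 1 q, f (-(h : ZMod p)) := by
    refine sum_nbij' (fun i => p - i) (fun h => p - h) ?_ ?_ ?_ ?_ ?_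
    · intro i hi
      rw [mem_Ico] at hi
      rw [mem_Icc]
      omega
    · intro i hi
      rw [mem_Icc] at hi
      rw [mem_Ico]
      omega
    · intro i hi
      rw [mem_Ico] at hi
      omega
    · intro i hi
      rw [mem_Icc] at hi
      omega
    · intro i hi
      rw [mem_Ico] at hi
      rw [Nat.cast_sub (by omega)]
      simp
  have e4 : Ico 1 (q + 1) = Icc 1 q := by
    ext x
    simp only [mem_Ico, mem_Icc]
    omega
  rw [e1, e2, e3, e4, sum_add_distrib]

end Pool.Agent.EPK
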