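import Pool.Agent.EPK.C2

/-!
# [EPK-C3] incomplete Kloosterman sums
-/

set_option autoImplicit false

namespace Pool.Agent.EPK

open Finset Pool.Agent.MP_2f88e5_nt

/-- [C3] Completion of an incomplete Kloosterman sum over an interval in `[1, p - 1]` of length at most `N`.

Proof. `fourier_interval` for `f r = ea p (b * r⁻¹)` for `r ≠ 0`, `f 0 = 0` (`k` is never `0` modulo `p`):
`∑_r f r ea (t r) = kl p t b` (sum over units; `Fintype.sum_equiv`/`sum_units` in Hyp.lean). The term `t = 0`: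
`kl p 0 b = -1` (`kl_zero_left` in Hyp.lean) and the other factor has norm `≤ v - u ≤ p`: contribution `≤ 1`.
The terms `t = ± l`, `1 ≤ l ≤ (p - 1) / 2` (`sum_nonzero`): `kl p t b = kl p 1 (t b)` (`kl_shift p t b t⁻¹`; `t` as a unit),
and the second factor is `≤ min N (p / (2 l))` (trivially, and `interval_bound` for `- t`). -/
theorem incomplete_kl (p : ℕ) [Fact p.Prime] (hp : 2 < p) (u v N : ℕ) (hv : v < p) (hN : v - u ≤ N)
    (b : ZMod p) (hb : b ≠ 0) :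
    ‖∑ k ∈ Ioc u v, ea p (b * ((k : ZMod p))⁻¹)‖ ≤ 1 + ∑ l ∈ Icc 1 ((p - 1) / 2),
      min ((N : ℝ) / p) (1 / (2 * l)) *
        (‖kl p 1 ((l : ZMod p) * b)‖ + ‖kl p 1 (-((l : ZMod p) * b))‖) := by
  classical
  have hprime : p.Prime := Fact.out
  have hp0 : (0 : ℝ) < p := by exact_mod_cast hprime.pos
  set f : ZMod p → ℂ := fun r => if r = 0 then 0 else ea p (b * r⁻¹) with hf
  have e1 : ∑ k ∈ Ioc u v, ea p (b * ((k : ZMod p))⁻¹) = ∑ k ∈ Ioc u v, f (k : ZMod p) := by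
    refine sum_congr rfl fun k hk => ?_
    rw [mem_Ioc] at hk
    have h0 : (k : ZMod p) ≠ 0 := by
      intro h
      rw [ZMod.natCast_eq_zero_iff] at h
      have := Nat.le_of_dvd (by omega) h
      omega
    rw [hf]
    dsimp only
    rw [if_neg h0]
  have e2 : ∀ t : ZMod p, ∑ r : ZMod p, f r * ea p (t * r) = kl p t b := by
    intro t
    have h1 := sum_units p (fun r : ZMod p => f r * ea p (t * r))
    have h2 : f 0 * ea p (t * 0) = 0 := by
      rw [hf]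
      dsimp only
      rw [if_pos rfl, zero_mul]
    rw [h2, sub_zero] at h1
    rw [← h1, kl]
    refine sum_congr rfl fun x _ => ?_
    rw [hf]
    dsimp only
    rw [if_neg x.ne_zero, ea, ea, ← AddChar.map_add_eq_mul, Units.val_inv_eq_inv_val]
    congr 1
    ring
  have e3 : ∀ t : ZMod p, t ≠ 0 → kl p t b = kl p 1 (t * b) := by
    intro t ht
    have h1 := kl_shift p 1 (t * b) (Units.mk0 t ht)
    rw [← h1, Units.val_mk0, one_mul, Units.val_inv_eq_inv_val, Units.val_mk0]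
    congr 1
    field_simp
  have triv : ∀ t : ZMod p, ‖∑ k ∈ Ioc u v, ea p (-t * (k : ZMod p))‖ ≤ ((v - u : ℕ) : ℝ) := by
    intro t
    refine (norm_sum_le _ _).trans ?_
    rw [sum_congr rfl fun k _ => norm_ea p _]
    simp
  rw [e1, fourier_interval, norm_mul, norm_inv, Complex.norm_natCast]
  have hb1 : ‖∑ t : ZMod p, (∑ r : ZMod p, f r * ea p (t * r)) *
        (∑ k ∈ Ioc u v, ea p (-t * (k : ZMod p)))‖ ≤
      ∑ t : ZMod p, ‖kl p t b‖ * ‖∑ k ∈ Ioc u v, ea p (-t * (k : ZMod p))‖ := by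
    refine (norm_sum_le _ _).trans (le_of_eq ?_)
    refine sum_congr rfl fun t _ => ?_
    rw [norm_mul, e2]
  have hb2 : ∑ t : ZMod p, ‖kl p t b‖ * ‖∑ k ∈ Ioc u v, ea p (-t * (k : ZMod p))‖ =
      ∑ t ∈ univ.erase (0 : ZMod p), ‖kl p t b‖ * ‖∑ k ∈ Ioc u v, ea p (-t * (k : ZMod p))‖ +
      ‖kl p 0 b‖ * ‖∑ k ∈ Ioc u v, ea p (-0 * (k : ZMod p))‖ :=
    (Finset.sum_erase_add univ _ (mem_univ (0 : ZMod p))).symm
  have hb3 : ‖kl p 0 b‖ * ‖∑ k ∈ Ioc u v, ea p (-0 * (k : ZMod p))‖ ≤ p := by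
    rw [kl_zero_left p b hb, norm_neg, norm_one, one_mul]
    refine (triv 0).trans ?_
    have : v - u ≤ p := by omega
    exact_mod_cast this
  have hb4 : ∀ h ∈ Icc 1 ((p - 1) / 2),
      (‖kl p (h : ZMod p) b‖ * ‖∑ k ∈ Ioc u v, ea p (-(h : ZMod p) * (k : ZMod p))‖ +
        ‖kl p (-(h : ZMod p)) b‖ * ‖∑ k ∈ Ioc u v, ea p (-(-(h : ZMod p)) * (k : ZMod p))‖) ≤
      p * (min ((N : ℝ) / p) (1 / (2 * h)) *
        (‖kl p 1 ((h : ZMod p) * b)‖ + ‖kl p 1 (-((h : ZMod p) * b))‖)) := by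
    intro h hh
    rw [mem_Icc] at hh
    have hlt : 2 * h < p := by omega
    have h0 : (h : ZMod p) ≠ 0 := by
      intro h'
      rw [ZMod.natCast_eq_zero_iff] at h'
      have := Nat.le_of_dvd (by omega) h'
      omega
    have hh0 : (0 : ℝ) < h := by exact_mod_cast hh.1
    rw [e3 _ h0, e3 _ (neg_ne_zero.2 h0), neg_neg, neg_mul]
    have hN' : ((v - u : ℕ) : ℝ) ≤ N := by exact_mod_cast hN
    have hmin : (p : ℝ) * min ((N : ℝ) / p) (1 / (2 * h)) = min (N : ℝ) ((p : ℝ) / (2 * h)) := by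
      rw [mul_min_of_nonneg _ _ hp0.le]
      congr 1
      · field_simp
      · ring
    have c1 : ‖∑ k ∈ Ioc u v, ea p (-(h : ZMod p) * (k : ZMod p))‖ ≤
        min (N : ℝ) ((p : ℝ) / (2 * h)) :=
      le_min ((triv _).trans hN') (interval_bound p h u v hh.1 hlt _ (Or.inr rfl))
    have c2 : ‖∑ k ∈ Ioc u v, ea p ((h : ZMod p) * (k : ZMod p))‖ ≤
        min (N : ℝ) ((p : ℝ) / (2 * h)) := by
      refine le_min ?_ (interval_bound p h u v hh.1 hlt _ (Or.inl rfl))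
      have := triv (-(h : ZMod p))
      rw [neg_neg] at this
      exact this.trans hN'
    rw [← mul_assoc, hmin, mul_add, mul_comm (min _ _) _, mul_comm (min _ _) _]
    exact add_le_add (mul_le_mul_of_nonneg_left c1 (norm_nonneg _))
      (mul_le_mul_of_nonneg_left c2 (norm_nonneg _))
  have hb5 : ∑ t ∈ univ.erase (0 : ZMod p),
      ‖kl p t b‖ * ‖∑ k ∈ Ioc u v, ea p (-t * (k : ZMod p))‖ ≤
      p * ∑ l ∈ Icc 1 ((p - 1) / 2), min ((N : ℝ) / p) (1 / (2 * l)) *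
        (‖kl p 1 ((l : ZMod p) * b)‖ + ‖kl p 1 (-((l : ZMod p) * b))‖) := by
    rw [sum_nonzero p hp, mul_sum]
    exact sum_le_sum hb4
  rw [inv_mul_le_iff₀ hp0]
  refine hb1.trans ?_
  rw [hb2, mul_add, mul_one, add_comm (p : ℝ)]
  exact add_le_add hb5 hb3

end Pool.Agent.EPK
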