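import Mathlib
import Pool.Agent.MP_2f88e5_nt.Kl

/-!
# [EPK] every class modulo a prime is a prime times an almost prime: definitions
-/

set_option autoImplicit false

namespace Pool.Agent.EPK

open Finset Pool.Agent.MP_2f88e5_nt

/-- the additive character modulo `p` -/
noncomputable def ea (p : ℕ) [Fact p.Prime] (u : ZMod p) : ℂ := ZMod.stdAddChar u

/-- the sum over prime powers of `e(a / n)` -/
noncomputable def TT (p : ℕ) [Fact p.Prime] (a : ZMod p) : ℂ :=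
  ∑ n ∈ Icc 1 (p - 1), ((ArithmeticFunction.vonMangoldt n : ℝ) : ℂ) * ea p (a * ((n : ZMod p))⁻¹)

/-- `x h / d` -/
noncomputable def hd (p : ℕ) [Fact p.Prime] (x : ZMod p) (h d : ℕ) : ZMod p :=
  x * (h : ZMod p) * ((d : ZMod p))⁻¹

/-- bilinear sums -/
noncomputable def BB (p : ℕ) [Fact p.Prime] (α β : ℕ → ℂ) (U W : ℕ) (a : ZMod p) : ℂ :=
  ∑ m ∈ Ioc U W, ∑ k ∈ Icc 1 ((p - 1) / m),
    α m * β k * ea p (a * ((m : ZMod p) * (k : ZMod p))⁻¹)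

/-- linear sums: `m ∈ [A, B]`, `k` in the interval `(u m, v m]` -/
noncomputable def LL (p : ℕ) [Fact p.Prime] (α : ℕ → ℂ) (u v : ℕ → ℕ) (A B : ℕ) (a : ZMod p) : ℂ :=
  ∑ m ∈ Icc A B, α m * ∑ k ∈ Ioc (u m) (v m), ea p (a * ((m : ZMod p) * (k : ZMod p))⁻¹)

/-- the residue of `x / n` in `[0, p)` -/
def rr (p : ℕ) [Fact p.Prime] (x : ZMod p) (n : ℕ) : ℕ := (x * ((n : ZMod p))⁻¹).val

/-- the number (with weights) of the `n < p` with `x / n ≤ Y` divisible by `d` -/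
noncomputable def AA (p : ℕ) [Fact p.Prime] (x : ZMod p) (Y d : ℕ) : ℝ :=
  ∑ n ∈ (Icc 1 (p - 1)).filter (fun n => d ∣ rr p x n ∧ rr p x n ≤ Y),
    ArithmeticFunction.vonMangoldt n

/-- `τ(n) ≤ T` for all `n ≤ N` -/
def TauLE (N : ℕ) (T : ℝ) : Prop := ∀ n : ℕ, 1 ≤ n → n ≤ N → (n.divisors.card : ℝ) ≤ T

end Pool.Agent.EPK
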