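import Pool.Agent.EPK.A1
import Pool.Agent.EPK.A2
import Pool.Agent.EPK.B2
import Pool.Agent.EPK.B3

/-!
# [EPK-D1a] bilinear sums: the moment bound
-/

set_option autoImplicit false

namespace Pool.Agent.EPK

open Finset Pool.Agent.MP_2f88e5_nt

private theorem d1a_ne (p : ℕ) [Fact p.Prime] {n N : ℕ} (h1 : 1 ≤ n) (h2 : n ≤ N) (hN : N < p) :
    ((n : ℕ) : ZMod p) ≠ 0 := by
  intro h
  rw [ZMod.natCast_eq_zero_iff] at h
  have := Nat.le_of_dvd (by omega) h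
  omega

/-- [D1a] The coincidences of the fractions `x h / (d k)`.

Proof. `coinc_general` for `s = [1, H] × ([1, D] × [1, N])`, `X i = i.1`, `Y i = i.2.1 * i.2.2` (as `hd p x h d * k⁻¹ = x h (d k)⁻¹`),
`A = H`, `B = D N`, fibres: for given `a`, `b` the element is determined by the divisor `i.2.1` of `b`: at most `T` elements
(`b = i.2.1 * i.2.2` is between 1 and `D N ≤ 16 p ^ 4`; if `b = 0` the fibre is empty). `Y i` is prime to `p`, as `D, N < p`. -/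
theorem coinc_two (p : ℕ) [Fact p.Prime] (H D N : ℕ) (hH : H < p) (hD : D < p) (hN : N < p)
    (T : ℝ) (hT : TauLE (16 * p ^ 4) T) (x : ZMod p) (hx : x ≠ 0) :
    ((((Icc 1 H ×ˢ (Icc 1 D ×ˢ Icc 1 N)) ×ˢ (Icc 1 H ×ˢ (Icc 1 D ×ˢ Icc 1 N))).filter
      (fun q : (ℕ × (ℕ × ℕ)) × (ℕ × (ℕ × ℕ)) =>
        hd p x q.1.1 q.1.2.1 * ((q.1.2.2 : ZMod p))⁻¹ =
          hd p x q.2.1 q.2.2.1 * ((q.2.2.2 : ZMod p))⁻¹)).card : ℝ) ≤
      T ^ 3 * (H * D * N) * ((H * D * N : ℝ) / p + 1) := by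
  have hp : 1 ≤ p := (Fact.out : p.Prime).one_lt.le
  have hp4 : 1 ≤ 16 * p ^ 4 := by
    have : 1 ≤ p ^ 4 := Nat.one_le_pow _ _ hp
    omega
  have hT1 : (1 : ℝ) ≤ T := by
    have := hT 1 le_rfl hp4
    simpa using this
  have hT0 : 0 ≤ T := by linarith
  have hDN : D * N ≤ p * p := Nat.mul_le_mul hD.le hN.le
  have hHDN : H * (D * N) ≤ 16 * p ^ 4 := by
    calc H * (D * N) ≤ p * (p * p) := Nat.mul_le_mul hH.le hDN
      _ = p ^ 3 := by ring
      _ ≤ p ^ 4 := Nat.pow_le_pow_right hp (by norm_num)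
      _ ≤ 16 * p ^ 4 := by omega
  have hDN4 : D * N ≤ 16 * p ^ 4 := by
    calc D * N ≤ p * p := hDN
      _ = p ^ 2 := by ring
      _ ≤ p ^ 4 := Nat.pow_le_pow_right hp (by norm_num)
      _ ≤ 16 * p ^ 4 := by omega
  have hmem : ∀ i ∈ (Icc 1 H ×ˢ (Icc 1 D ×ˢ Icc 1 N) : Finset (ℕ × (ℕ × ℕ))),
      (1 ≤ i.1 ∧ i.1 ≤ H) ∧ (1 ≤ i.2.1 ∧ i.2.1 ≤ D) ∧ (1 ≤ i.2.2 ∧ i.2.2 ≤ N) := by
    intro i hi
    simpa only [mem_product, mem_Icc] using hi
  have h := coinc_general p (Icc 1 H ×ˢ (Icc 1 D ×ˢ Icc 1 N)) (fun i => i.1) (fun i => i.2.1 * i.2.2)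
    H (D * N) T T (fun n h1 h2 => hT n h1 (h2.trans hHDN)) hT0
    (fun i hi => (hmem i hi).1)
    (fun i hi => by
      obtain ⟨_, ⟨h1, h2⟩, h3, h4⟩ := hmem i hi
      exact ⟨Nat.one_le_iff_ne_zero.mpr (Nat.mul_ne_zero (by omega) (by omega)), Nat.mul_le_mul h2 h4⟩)
    (fun i hi => by
      obtain ⟨_, ⟨h1, h2⟩, h3, h4⟩ := hmem i hi
      push_cast
      exact mul_ne_zero (d1a_ne p h1 h2 hD) (d1a_ne p h3 h4 hN))
    (fun a b => by
      rcases Finset.eq_empty_or_nonempty ((Icc 1 H ×ˢ (Icc 1 D ×ˢ Icc 1 N) : Finset (ℕ × (ℕ × ℕ))).filter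
        (fun i => i.1 = a ∧ i.2.1 * i.2.2 = b)) with he | ⟨j, hj⟩
      · rw [he]
        simpa using hT0
      · rw [mem_filter] at hj
        obtain ⟨_, ⟨h1, h2⟩, h3, h4⟩ := hmem j hj.1
        have hb : b ≤ D * N := by
          rw [← hj.2.2]
          exact Nat.mul_le_mul h2 h4
        have hb1 : 1 ≤ b := by
          rw [← hj.2.2]
          exact Nat.one_le_iff_ne_zero.mpr (Nat.mul_ne_zero (by omega) (by omega))
        refine le_trans ?_ (hT b hb1 (hb.trans hDN4))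
        have hc : ((Icc 1 H ×ˢ (Icc 1 D ×ˢ Icc 1 N) : Finset (ℕ × (ℕ × ℕ))).filter
            (fun i => i.1 = a ∧ i.2.1 * i.2.2 = b)).card ≤ b.divisors.card := by
          apply Finset.card_le_card_of_injOn (fun i => i.2.1)
          · intro i hi
            rw [mem_coe, mem_filter] at hi
            rw [mem_coe, Nat.mem_divisors]
            exact ⟨⟨i.2.2, hi.2.2.symm⟩, by omega⟩
          · intro i hi k hk hik
            rw [mem_coe, mem_filter] at hi hk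
            obtain ⟨_, ⟨k1, _⟩, _, _⟩ := hmem i hi.1
            have e1 : i.1 = k.1 := hi.2.1.trans hk.2.1.symm
            have e2 : i.2.1 = k.2.1 := hik
            have e3 : i.2.1 * i.2.2 = i.2.1 * k.2.2 := by
              rw [hi.2.2, e2, hk.2.2]
            have e4 : i.2.2 = k.2.2 := Nat.eq_of_mul_eq_mul_left (by omega) e3
            exact Prod.ext e1 (Prod.ext e2 e4)
        exact_mod_cast hc)
    x hx
  have hconv : ∀ a d k : ℕ, hd p x a d * ((k : ZMod p))⁻¹ =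
      x * ((a : ℕ) : ZMod p) * (((d * k : ℕ) : ZMod p))⁻¹ := by
    intro a d k
    unfold hd
    push_cast
    rw [mul_inv]
    ring
  simp only [hconv]
  refine h.trans (le_of_eq ?_)
  push_cast
  ring

end Pool.Agent.EPK
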