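import Pool.Agent.EPK.D1a

/-!
# [EPK-D1b] bilinear sums: the moment bound
-/

set_option autoImplicit false

namespace Pool.Agent.EPK

open Finset Pool.Agent.MP_2f88e5_nt

private theorem d1b_rpow_nat {x : ℝ} (hx : 0 ≤ x) (r : ℝ) (n : ℕ) : (x ^ r) ^ n = x ^ (r * n) := by
  rw [← Real.rpow_natCast, ← Real.rpow_mul hx]

private theorem d1b_four {a b : ℝ} (ha : 0 ≤ a) (hb : 0 ≤ b) : a ^ 4 + b ^ 4 ≤ (a + b) ^ 4 := by
  have h1 : 0 ≤ a * b := mul_nonneg ha hb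
  have h2 : 0 ≤ 4 * a ^ 2 + 6 * (a * b) + 4 * b ^ 2 := by positivity
  have h3 := mul_nonneg h1 h2
  nlinarith

/-- the analytic end of the proof -/
private theorem d1b_final (L P m B T S : ℝ) (hL : 0 ≤ L) (hP : 0 < P) (hm : 0 ≤ m) (hB : 0 ≤ B) (hT : 0 ≤ T)
    (hS : S ^ 4 ≤ L ^ 2 * (T ^ 3 * L * (L / P + 1)) *
      (P * B ^ 4 * (12 * T * (2 * m) ^ 2 * (1 + Real.sqrt ((2 * m) ^ 3 / P))))) (hS0 : 0 ≤ S) :
    S ≤ 5 * B * T * (L ^ (3 / 4 : ℝ) + L * P ^ (-(1 / 4) : ℝ)) * P ^ (1 / 4 : ℝ) *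
        (m ^ (1 / 2 : ℝ) + m ^ (7 / 8 : ℝ) * P ^ (-(1 / 8) : ℝ)) := by
  have ha1 : (L ^ (3 / 4 : ℝ)) ^ 4 = L ^ 3 := by
    rw [d1b_rpow_nat hL]
    norm_num
  have hb1 : (L * P ^ (-(1 / 4) : ℝ)) ^ 4 = L ^ 4 * P⁻¹ := by
    rw [mul_pow, d1b_rpow_nat hP.le]
    norm_num
    left
    rw [Real.rpow_neg_one]
  have hc : (P ^ (1 / 4 : ℝ)) ^ 4 = P := by
    rw [d1b_rpow_nat hP.le]
    norm_num
  have ha2 : (m ^ (1 / 2 : ℝ)) ^ 4 = m ^ 2 := by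
    rw [d1b_rpow_nat hm]
    norm_num
  have hb2 : (m ^ (7 / 8 : ℝ) * P ^ (-(1 / 8) : ℝ)) ^ 4 = m ^ 2 * Real.sqrt (m ^ 3 / P) := by
    have h1 : 0 ≤ (m ^ (7 / 8 : ℝ) * P ^ (-(1 / 8) : ℝ)) ^ 4 := by positivity
    have h2 : 0 ≤ m ^ 2 * Real.sqrt (m ^ 3 / P) := by positivity
    refine (sq_eq_sq₀ h1 h2).mp ?_
    have e1 : (m ^ (7 / 8 : ℝ)) ^ 8 = m ^ 7 := by
      rw [d1b_rpow_nat hm]
      norm_num
    have e2 : (P ^ (-(1 / 8) : ℝ)) ^ 8 = P⁻¹ := by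
      rw [d1b_rpow_nat hP.le]
      norm_num
      rw [Real.rpow_neg_one]
    have e3 : ((m ^ (7 / 8 : ℝ) * P ^ (-(1 / 8) : ℝ)) ^ 4) ^ 2 = (m ^ (7 / 8 : ℝ)) ^ 8 * (P ^ (-(1 / 8) : ℝ)) ^ 8 := by
      ring
    rw [e3, e1, e2, mul_pow, Real.sq_sqrt (by positivity)]
    field_simp
  set a1 := L ^ (3 / 4 : ℝ)
  set b1 := L * P ^ (-(1 / 4) : ℝ)
  set c := P ^ (1 / 4 : ℝ)
  set a2 := m ^ (1 / 2 : ℝ)
  set b2 := m ^ (7 / 8 : ℝ) * P ^ (-(1 / 8) : ℝ)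
  have ha1' : 0 ≤ a1 := by positivity
  have hb1' : 0 ≤ b1 := by positivity
  have hc' : 0 ≤ c := by positivity
  have ha2' : 0 ≤ a2 := by positivity
  have hb2' : 0 ≤ b2 := by positivity
  have hR : 0 ≤ 5 * B * T * (a1 + b1) * c * (a2 + b2) := by positivity
  refine (pow_le_pow_iff_left₀ hS0 hR (by norm_num : 4 ≠ 0)).mp ?_
  refine hS.trans ?_
  have h1 := d1b_four ha1' hb1'
  have h2 := d1b_four ha2' hb2'
  rw [ha1, hb1] at h1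
  rw [ha2, hb2] at h2
  have hsq : Real.sqrt ((2 * m) ^ 3 / P) ≤ 3 * Real.sqrt (m ^ 3 / P) := by
    rw [Real.sqrt_le_left (by positivity)]
    have h3 : 0 ≤ m ^ 3 / P := by positivity
    have h4 : (3 * Real.sqrt (m ^ 3 / P)) ^ 2 = 9 * (m ^ 3 / P) := by
      rw [mul_pow, Real.sq_sqrt h3]
      norm_num
    have h5 : (2 * m) ^ 3 / P = 8 * (m ^ 3 / P) := by ring
    rw [h4, h5]
    linarith
  set y := Real.sqrt (m ^ 3 / P)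
  have hy : 0 ≤ y := Real.sqrt_nonneg _
  have hX : L ^ 3 * (L / P + 1) ≤ (a1 + b1) ^ 4 := by
    refine le_trans (le_of_eq ?_) h1
    field_simp
    ring
  have hY : 48 * (m ^ 2 * (1 + Real.sqrt ((2 * m) ^ 3 / P))) ≤ 625 * (a2 + b2) ^ 4 := by
    calc 48 * (m ^ 2 * (1 + Real.sqrt ((2 * m) ^ 3 / P))) ≤ 48 * (m ^ 2 * (1 + 3 * y)) := by gcongr
      _ ≤ 625 * (m ^ 2 + m ^ 2 * y) := by nlinarith [mul_nonneg (sq_nonneg m) hy, sq_nonneg m]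
      _ ≤ 625 * (a2 + b2) ^ 4 := by gcongr
  calc L ^ 2 * (T ^ 3 * L * (L / P + 1)) *
      (P * B ^ 4 * (12 * T * (2 * m) ^ 2 * (1 + Real.sqrt ((2 * m) ^ 3 / P))))
      = (T ^ 4 * B ^ 4 * P) * ((L ^ 3 * (L / P + 1)) * (48 * (m ^ 2 * (1 + Real.sqrt ((2 * m) ^ 3 / P))))) := by ring
    _ ≤ (T ^ 4 * B ^ 4 * P) * ((a1 + b1) ^ 4 * (625 * (a2 + b2) ^ 4)) := by
        apply mul_le_mul_of_nonneg_left _ (by positivity)
        exact mul_le_mul hX hY (by positivity) (by positivity)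
    _ = (5 * B * T * (a1 + b1) * c * (a2 + b2)) ^ 4 := by
        rw [← hc]
        ring

/-- [D1b] The moment bound for bilinear sums (`k ≤ N` outside, `m ∈ (M, 2M]` inside).

Proof. `holder4` for `s = [1, H] × ([1, D] × [1, N])`, `ρ i = hd p x i.1 i.2.1 * (i.2.2)⁻¹`,
`F u = ‖∑_{m ∈ (M, 2M]} α m ea (u m⁻¹)‖`, `coinc_two`, `fourth_moment` (`g m = m⁻¹`, `B`), and `recip_energy` for `2 M`
(the set `(M, 2M]` is contained in `[1, 2M]`; `Finset.card_le_card`). With `L = H D N`: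
`(sum)⁴ ≤ L² · T³ L (L / p + 1) · p B⁴ · 12 T (2M)² (1 + √((2M)³ / p))`. Now the fourth root: `(L³ (L/p + 1))^(1/4) ≤
L^(3/4) + L p^(-1/4)`, `(1 + √((2M)³/p))^(1/4) ≤ 1 + (8 M³ / p)^(1/8)`, `(48)^(1/4) < 2.7`, `8^(1/8) < 1.3`, `T^(4/4) = T`
(`T ≥ 1` by `hT 1`); all in all the constant `5` suffices. (`Real.rpow_add_le_add_rpow`-type inequalities for
exponents `≤ 1`; or prove `(...) ≤ (5 B T (...))^4` directly and use `pow_le_pow_left`/`abs_le_of_sq_le`.) -/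
theorem moment_II (p : ℕ) [Fact p.Prime] (H D N M : ℕ) (hH : H < p) (hD : D < p) (hN : N < p)
    (hM : 1 ≤ M) (hMp : 4 * M < p) (T : ℝ) (hT : TauLE (16 * p ^ 4) T) (x : ZMod p) (hx : x ≠ 0)
    (α : ℕ → ℂ) (B : ℝ) (hB : 0 ≤ B) (hα : ∀ m, ‖α m‖ ≤ B) :
    ∑ h ∈ Icc 1 H, ∑ d ∈ Icc 1 D, ∑ k ∈ Icc 1 N,
      ‖∑ m ∈ Ioc M (2 * M), α m * ea p (hd p x h d * ((k : ZMod p))⁻¹ * ((m : ZMod p))⁻¹)‖ ≤
      5 * B * T * (((H * D * N : ℕ) : ℝ) ^ (3 / 4 : ℝ) +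
        ((H * D * N : ℕ) : ℝ) * (p : ℝ) ^ (-(1 / 4) : ℝ)) * (p : ℝ) ^ (1 / 4 : ℝ) *
        ((M : ℝ) ^ (1 / 2 : ℝ) + (M : ℝ) ^ (7 / 8 : ℝ) * (p : ℝ) ^ (-(1 / 8) : ℝ)) := by
  have hp : 1 ≤ p := (Fact.out : p.Prime).one_lt.le
  have hp4 : 1 ≤ 16 * p ^ 4 := by
    have : 1 ≤ p ^ 4 := Nat.one_le_pow _ _ hp
    omega
  have hT1 : (1 : ℝ) ≤ T := by
    have := hT 1 le_rfl hp4
    simpa using this
  have hT0 : 0 ≤ T := by linarith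
  have hP : (0 : ℝ) < (p : ℝ) := by exact_mod_cast hp
  apply d1b_final _ _ _ _ _ _ (Nat.cast_nonneg _) hP (Nat.cast_nonneg _) hB hT0
  · have h1 := holder4 p (Icc 1 H ×ˢ (Icc 1 D ×ˢ Icc 1 N))
      (fun i : ℕ × (ℕ × ℕ) => hd p x i.1 i.2.1 * ((i.2.2 : ZMod p))⁻¹)
      (fun u => ‖∑ m ∈ Ioc M (2 * M), α m * ea p (u * ((m : ZMod p))⁻¹)‖) (fun u => norm_nonneg _)
    have h2 := coinc_two p H D N hH hD hN T hT x hx
    have h3 := fourth_moment p (Ioc M (2 * M)) α (fun m => ((m : ZMod p))⁻¹) B hB (fun m _ => hα m)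
    have h4 := recip_energy p (2 * M) (by omega) (by omega) T hT
    have h5 : ((((Ioc M (2 * M) ×ˢ Ioc M (2 * M)) ×ˢ (Ioc M (2 * M) ×ˢ Ioc M (2 * M))).filter
        (fun q : (ℕ × ℕ) × (ℕ × ℕ) => ((q.1.1 : ZMod p))⁻¹ + ((q.1.2 : ZMod p))⁻¹ =
          ((q.2.1 : ZMod p))⁻¹ + ((q.2.2 : ZMod p))⁻¹)).card : ℝ) ≤
        ((((Icc 1 (2 * M) ×ˢ Icc 1 (2 * M)) ×ˢ (Icc 1 (2 * M) ×ˢ Icc 1 (2 * M))).filter
        (fun q : (ℕ × ℕ) × (ℕ × ℕ) => ((q.1.1 : ZMod p))⁻¹ + ((q.1.2 : ZMod p))⁻¹ =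
          ((q.2.1 : ZMod p))⁻¹ + ((q.2.2 : ZMod p))⁻¹)).card : ℝ) := by
      have hsub : Ioc M (2 * M) ⊆ Icc 1 (2 * M) := by
        intro z hz
        rw [mem_Ioc] at hz
        rw [mem_Icc]
        omega
      exact_mod_cast Finset.card_le_card (Finset.filter_subset_filter _
        (Finset.product_subset_product (Finset.product_subset_product hsub hsub)
          (Finset.product_subset_product hsub hsub)))
    have hsum : ∑ h ∈ Icc 1 H, ∑ d ∈ Icc 1 D, ∑ k ∈ Icc 1 N,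
        ‖∑ m ∈ Ioc M (2 * M), α m * ea p (hd p x h d * ((k : ZMod p))⁻¹ * ((m : ZMod p))⁻¹)‖ =
        ∑ i ∈ (Icc 1 H ×ˢ (Icc 1 D ×ˢ Icc 1 N) : Finset (ℕ × (ℕ × ℕ))),
          ‖∑ m ∈ Ioc M (2 * M), α m * ea p (hd p x i.1 i.2.1 * ((i.2.2 : ZMod p))⁻¹ * ((m : ZMod p))⁻¹)‖ := by
      rw [Finset.sum_product]
      refine Finset.sum_congr rfl fun h _ => ?_
      rw [Finset.sum_product]
    rw [hsum]
    refine h1.trans ?_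
    have hcard : (((Icc 1 H ×ˢ (Icc 1 D ×ˢ Icc 1 N) : Finset (ℕ × (ℕ × ℕ))).card : ℕ) : ℝ) =
        ((H * D * N : ℕ) : ℝ) := by
      rw [card_product, card_product, Nat.card_Icc, Nat.card_Icc, Nat.card_Icc]
      simp only [Nat.add_sub_cancel]
      push_cast
      ring
    rw [hcard]
    have h6 : (∑ u : ZMod p, ‖∑ m ∈ Ioc M (2 * M), α m * ea p (u * ((m : ZMod p))⁻¹)‖ ^ 4) ≤
        (p : ℝ) * B ^ 4 * (12 * T * (2 * (M : ℝ)) ^ 2 * (1 + Real.sqrt ((2 * (M : ℝ)) ^ 3 / p))) := by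
      refine h3.trans ?_
      apply mul_le_mul_of_nonneg_left _ (by positivity)
      refine (h5.trans h4).trans (le_of_eq ?_)
      push_cast
      ring
    refine mul_le_mul (mul_le_mul_of_nonneg_left ?_ (by positivity)) h6 (Finset.sum_nonneg fun _ _ => by positivity)
      (by positivity)
    refine h2.trans (le_of_eq ?_)
    push_cast
    ring
  · exact Finset.sum_nonneg fun _ _ => Finset.sum_nonneg fun _ _ => Finset.sum_nonneg fun _ _ => norm_nonneg _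

end Pool.Agent.EPK
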