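import Pool.Agent.EPK.C1
import Pool.Agent.EPK.D1

/-!
# [EPK-D2] bilinear sums: one dyadic block
-/

set_option autoImplicit false

namespace Pool.Agent.EPK

open Finset Pool.Agent.MP_2f88e5_nt

/-- exchange of the sums over `m` and `k` -/
private theorem d2_BB (p : ℕ) [Fact p.Prime] (M : ℕ) (hM : 1 ≤ M) (α β : ℕ → ℂ) (a : ZMod p) :
    BB p α β M (2 * M) a = ∑ k ∈ Icc 1 ((p - 1) / M), β k *
      ∑ m ∈ (Ioc M (M + M)).filter (fun m => m ≤ (p - 1) / k),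
        α m * ea p (a * ((k : ZMod p))⁻¹ * ((m : ZMod p))⁻¹) := by
  unfold BB
  have h1 : ∀ m ∈ Ioc M (2 * M), Icc 1 ((p - 1) / m) =
      (Icc 1 ((p - 1) / M)).filter (fun k => m ≤ (p - 1) / k) := by
    intro m hm
    rw [mem_Ioc] at hm
    ext k
    rw [mem_filter, mem_Icc, mem_Icc]
    constructor
    · rintro ⟨h1, h2⟩
      refine ⟨⟨h1, h2.trans (Nat.div_le_div_left hm.1.le (by omega))⟩, ?_⟩
      rw [Nat.le_div_iff_mul_le (by omega)] at h2 ⊢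
      rwa [mul_comm]
    · rintro ⟨⟨h1, _⟩, h2⟩
      refine ⟨h1, ?_⟩
      rw [Nat.le_div_iff_mul_le (by omega)] at h2 ⊢
      rwa [mul_comm]
  rw [Finset.sum_congr rfl (fun m hm => by rw [h1 m hm])]
  simp only [Finset.sum_filter]
  rw [Finset.sum_comm]
  refine Finset.sum_congr rfl fun k _ => ?_
  rw [Finset.mul_sum, two_mul]
  refine Finset.sum_congr rfl fun m _ => ?_
  split_ifs
  · rw [mul_inv]
    have e : a * ((m : ZMod p)⁻¹ * (k : ZMod p)⁻¹) = a * ((k : ZMod p))⁻¹ * ((m : ZMod p))⁻¹ := by ring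
    rw [e]
    ring
  · rw [mul_zero]

private theorem d2_final (P m h : ℝ) (N : ℝ) (hP : 0 < P) (hm : 0 < m) (hh : 0 ≤ h) (hN : 0 ≤ N) (hNP : N ≤ P / m) :
    ((h * N) ^ (3 / 4 : ℝ) + h * N * P ^ (-(1 / 4) : ℝ)) * P ^ (1 / 4 : ℝ) ≤
      h ^ (3 / 4 : ℝ) * P * m ^ (-(3 / 4) : ℝ) + h * P * m ^ (-1 : ℝ) := by
  have e1 : P ^ (-(1 / 4) : ℝ) * P ^ (1 / 4 : ℝ) = 1 := by
    rw [← Real.rpow_add hP]
    norm_num
  have e2 : (P / m) ^ (3 / 4 : ℝ) * P ^ (1 / 4 : ℝ) = P * m ^ (-(3 / 4) : ℝ) := by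
    rw [Real.div_rpow hP.le hm.le, Real.rpow_neg hm.le]
    have e3 : P ^ (3 / 4 : ℝ) * P ^ (1 / 4 : ℝ) = P := by
      rw [← Real.rpow_add hP]
      norm_num
    calc P ^ (3 / 4 : ℝ) / m ^ (3 / 4 : ℝ) * P ^ (1 / 4 : ℝ) =
        (P ^ (3 / 4 : ℝ) * P ^ (1 / 4 : ℝ)) * (m ^ (3 / 4 : ℝ))⁻¹ := by ring
      _ = _ := by rw [e3]
  rw [add_mul]
  apply add_le_add
  · rw [Real.mul_rpow hh hN, mul_assoc, mul_assoc, ← e2]
    apply mul_le_mul_of_nonneg_left _ (by positivity)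
    apply mul_le_mul_of_nonneg_right _ (by positivity)
    exact Real.rpow_le_rpow hN hNP (by norm_num)
  · rw [mul_assoc (h * N), e1, mul_one, Real.rpow_neg_one, mul_assoc]
    apply mul_le_mul_of_nonneg_left _ hh
    rwa [← div_eq_mul_inv]

/-- [D2] One dyadic block of a bilinear sum, `m ∈ (M, 2M]`, `k ≤ (p - 1) / m`.

Proof. Exchange the sums over `m` and `k`: for `m ∈ (M, 2M]` the condition `k ≤ (p - 1) / m` is `k ≤ (p - 1) / M =: N` and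
`m ≤ (p - 1) / k` (both say `m k ≤ p - 1`; `Nat.le_div_iff_mul_le`). So the norm of the block is at most
`∑_{k ≤ N} ‖β k‖ ‖∑_{m ∈ (M, 2M], m ≤ (p-1)/k} α m ea (hd p x h d * k⁻¹ * m⁻¹)‖`; `cut M` (`a = M`, `Z = (p - 1) / k`): at most
`∑_{j < M} γ j ∑_{k ≤ N} B ‖∑_{m ∈ (M, 2M]} α_j m ea(...)‖`, `α_j m = α m e(j m / M)`, `‖α_j m‖ ≤ B`. Sum over `h`, `d`, exchange with
the sum over `j`, `moment_II` for every `j`, `∑ γ j ≤ 3 + log M ≤ 3 + log p`. Finally insert `N ≤ p / M`, `N < p`: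
`(H D N)^(3/4) p^(1/4) ≤ (H D)^(3/4) p M^(-3/4)`, `H D N p^(-1/4) p^(1/4) ≤ H D p / M`. -/
theorem typeII_block (p : ℕ) [Fact p.Prime] (H D M : ℕ) (hH : H < p) (hD : D < p)
    (hM : 2 ≤ M) (hMp : 4 * M < p) (T : ℝ) (hT : TauLE (16 * p ^ 4) T) (x : ZMod p) (hx : x ≠ 0)
    (α β : ℕ → ℂ) (B : ℝ) (hB : 0 ≤ B) (hα : ∀ m, ‖α m‖ ≤ B) (hβ : ∀ k, ‖β k‖ ≤ B) :
    ∑ h ∈ Icc 1 H, ∑ d ∈ Icc 1 D, ‖BB p α β M (2 * M) (hd p x h d)‖ ≤
      5 * B ^ 2 * T * (3 + Real.log p) *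
        (((H * D : ℕ) : ℝ) ^ (3 / 4 : ℝ) * p * (M : ℝ) ^ (-(3 / 4) : ℝ) +
          ((H * D : ℕ) : ℝ) * p * (M : ℝ) ^ (-1 : ℝ)) *
        ((M : ℝ) ^ (1 / 2 : ℝ) + (M : ℝ) ^ (7 / 8 : ℝ) * (p : ℝ) ^ (-(1 / 8) : ℝ)) := by
  have hp : 1 ≤ p := (Fact.out : p.Prime).one_lt.le
  have hp4 : 1 ≤ 16 * p ^ 4 := by
    have : 1 ≤ p ^ 4 := Nat.one_le_pow _ _ hp
    omega
  have hT1 : (1 : ℝ) ≤ T := by
    have := hT 1 le_rfl hp4
    simpa using this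
  have hT0 : 0 ≤ T := by linarith
  have hP : (0 : ℝ) < (p : ℝ) := by exact_mod_cast hp
  have hMR : (0 : ℝ) < (M : ℝ) := by exact_mod_cast (by omega : 0 < M)
  obtain ⟨γ, hγ0, hγ, hcut⟩ := cut M (by omega)
  set N := (p - 1) / M with hN
  have hNp : N < p := by
    have : N ≤ p - 1 := Nat.div_le_self _ _
    omega
  -- the phases
  set α' : ℕ → ℕ → ℂ := fun j m => α m * Complex.exp (2 * Real.pi * Complex.I * (j : ℂ) * (m : ℂ) / (M : ℂ)) with hα'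
  have hα'B : ∀ j m, ‖α' j m‖ ≤ B := by
    intro j m
    have e1 : ‖Complex.exp (2 * Real.pi * Complex.I * (j : ℂ) * (m : ℂ) / (M : ℂ))‖ = 1 := by
      have e2 : (2 * Real.pi * Complex.I * (j : ℂ) * (m : ℂ) / (M : ℂ)) =
          ((2 * Real.pi * j * m / M : ℝ) : ℂ) * Complex.I := by
        push_cast
        ring
      rw [e2, Complex.norm_exp_ofReal_mul_I]
    rw [hα']
    simp only [norm_mul, e1, mul_one]
    exact hα m
  -- one sum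
  have hone : ∀ a : ZMod p, ‖BB p α β M (2 * M) a‖ ≤ B * ∑ j ∈ range M, γ j *
      ∑ k ∈ Icc 1 N, ‖∑ m ∈ Ioc M (2 * M), α' j m * ea p (a * ((k : ZMod p))⁻¹ * ((m : ZMod p))⁻¹)‖ := by
    intro a
    rw [d2_BB p M (by omega) α β a]
    refine (norm_sum_le _ _).trans ?_
    have h1 : ∀ k ∈ Icc 1 N, ‖β k * ∑ m ∈ (Ioc M (M + M)).filter (fun m => m ≤ (p - 1) / k),
        α m * ea p (a * ((k : ZMod p))⁻¹ * ((m : ZMod p))⁻¹)‖ ≤
        B * ∑ j ∈ range M, γ j *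
          ‖∑ m ∈ Ioc M (2 * M), α' j m * ea p (a * ((k : ZMod p))⁻¹ * ((m : ZMod p))⁻¹)‖ := by
      intro k _
      rw [norm_mul]
      refine mul_le_mul (hβ k) ?_ (norm_nonneg _) hB
      refine (hcut M ((p - 1) / k) _).trans (le_of_eq ?_)
      refine Finset.sum_congr rfl fun j _ => ?_
      rw [← two_mul M]
      congr 2
      refine Finset.sum_congr rfl fun m _ => ?_
      rw [hα']
      ring
    refine (Finset.sum_le_sum h1).trans (le_of_eq ?_)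
    rw [← Finset.mul_sum, Finset.sum_comm]
    congr 1
    refine Finset.sum_congr rfl fun j _ => ?_
    rw [Finset.mul_sum]
  have hmom := fun j => moment_II p H D N M hH hD hNp (by omega) hMp T hT x hx (α' j) B hB (hα'B j)
  set X : ℝ := 5 * B * T * (((H * D * N : ℕ) : ℝ) ^ (3 / 4 : ℝ) +
        ((H * D * N : ℕ) : ℝ) * (p : ℝ) ^ (-(1 / 4) : ℝ)) * (p : ℝ) ^ (1 / 4 : ℝ) *
        ((M : ℝ) ^ (1 / 2 : ℝ) + (M : ℝ) ^ (7 / 8 : ℝ) * (p : ℝ) ^ (-(1 / 8) : ℝ)) with hX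
  have hX0 : 0 ≤ X := by positivity
  have hsum : ∑ h ∈ Icc 1 H, ∑ d ∈ Icc 1 D, ‖BB p α β M (2 * M) (hd p x h d)‖ ≤
      B * ∑ j ∈ range M, γ j * X := by
    calc ∑ h ∈ Icc 1 H, ∑ d ∈ Icc 1 D, ‖BB p α β M (2 * M) (hd p x h d)‖
        ≤ ∑ h ∈ Icc 1 H, ∑ d ∈ Icc 1 D, (B * ∑ j ∈ range M, γ j *
          ∑ k ∈ Icc 1 N, ‖∑ m ∈ Ioc M (2 * M), α' j m *
            ea p (hd p x h d * ((k : ZMod p))⁻¹ * ((m : ZMod p))⁻¹)‖) :=
          Finset.sum_le_sum fun h _ => Finset.sum_le_sum fun d _ => hone _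
      _ = B * ∑ j ∈ range M, γ j * ∑ h ∈ Icc 1 H, ∑ d ∈ Icc 1 D,
          ∑ k ∈ Icc 1 N, ‖∑ m ∈ Ioc M (2 * M), α' j m *
            ea p (hd p x h d * ((k : ZMod p))⁻¹ * ((m : ZMod p))⁻¹)‖ := by
          simp only [← Finset.mul_sum]
          congr 1
          rw [Finset.sum_congr rfl (fun h _ => Finset.sum_comm), Finset.sum_comm]
          simp only [← Finset.mul_sum]
      _ ≤ B * ∑ j ∈ range M, γ j * X := by
          apply mul_le_mul_of_nonneg_left _ hB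
          exact Finset.sum_le_sum fun j _ => mul_le_mul_of_nonneg_left (hmom j) (hγ0 j)
  refine hsum.trans ?_
  rw [← Finset.sum_mul]
  have hlog : Real.log M ≤ Real.log p := Real.log_le_log hMR (by exact_mod_cast (by omega : M ≤ p))
  have hγ' : ∑ j ∈ range M, γ j ≤ 3 + Real.log p := by linarith
  have hlog0 : 0 ≤ Real.log p := Real.log_nonneg (by exact_mod_cast hp)
  have hNP : (N : ℝ) ≤ (p : ℝ) / M := by
    rw [le_div_iff₀ hMR]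
    have h1 : N * M ≤ p := (Nat.div_mul_le_self _ _).trans (Nat.sub_le _ _)
    exact_mod_cast h1
  have hfin := d2_final (p : ℝ) (M : ℝ) ((H * D : ℕ) : ℝ) (N : ℝ) hP hMR (Nat.cast_nonneg _) (Nat.cast_nonneg _) hNP
  have hXle : X ≤ 5 * B * T * (((H * D : ℕ) : ℝ) ^ (3 / 4 : ℝ) * p * (M : ℝ) ^ (-(3 / 4) : ℝ) +
          ((H * D : ℕ) : ℝ) * p * (M : ℝ) ^ (-1 : ℝ)) *
        ((M : ℝ) ^ (1 / 2 : ℝ) + (M : ℝ) ^ (7 / 8 : ℝ) * (p : ℝ) ^ (-(1 / 8) : ℝ)) := by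
    rw [hX]
    apply mul_le_mul_of_nonneg_right _ (by positivity)
    rw [mul_assoc (5 * B * T)]
    apply mul_le_mul_of_nonneg_left _ (by positivity)
    refine le_trans (le_of_eq ?_) hfin
    push_cast
    ring_nf
  calc B * ((∑ j ∈ range M, γ j) * X) ≤ B * ((3 + Real.log p) *
        (5 * B * T * (((H * D : ℕ) : ℝ) ^ (3 / 4 : ℝ) * p * (M : ℝ) ^ (-(3 / 4) : ℝ) +
          ((H * D : ℕ) : ℝ) * p * (M : ℝ) ^ (-1 : ℝ)) *
        ((M : ℝ) ^ (1 / 2 : ℝ) + (M : ℝ) ^ (7 / 8 : ℝ) * (p : ℝ) ^ (-(1 / 8) : ℝ)))) := by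
        apply mul_le_mul_of_nonneg_left _ hB
        exact mul_le_mul hγ' hXle hX0 (by positivity)
    _ = _ := by ring

end Pool.Agent.EPK
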