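import Pool.Agent.EPK.D2

/-!
# [EPK-D3a] bilinear sums: the Type II bound
-/

set_option autoImplicit false

namespace Pool.Agent.EPK

open Finset Pool.Agent.MP_2f88e5_nt

/-- [D3a] One block with `p^(1/4) / 2 ≤ M ≤ p^(1/2)`.

Proof. `typeII_block`, and for such `M`: `M^(-3/4) (M^(1/2) + M^(7/8) p^(-1/8)) = M^(-1/4) + M^(1/8) p^(-1/8) ≤
2^(1/4) p^(-1/16) + p^(1/16 - 1/8) ≤ 3 p^(-1/16)`, and `M^(-1) (M^(1/2) + M^(7/8) p^(-1/8)) = M^(-1/2) + M^(-1/8) p^(-1/8)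
≤ 2^(1/2) p^(-1/8) + 2^(1/8) p^(-1/32 - 1/8) ≤ 3 p^(-1/8)`. (`p · p^(-1/16) = p^(15/16)` etc.) -/
theorem typeII_block' (p : ℕ) [Fact p.Prime] (H D M : ℕ) (hH : H < p) (hD : D < p)
    (hM : 2 ≤ M) (hMp : 4 * M < p) (hM1 : (p : ℝ) ^ (1 / 4 : ℝ) ≤ 2 * M)
    (hM2 : (M : ℝ) ≤ (p : ℝ) ^ (1 / 2 : ℝ)) (T : ℝ) (hT : TauLE (16 * p ^ 4) T)
    (x : ZMod p) (hx : x ≠ 0) (α β : ℕ → ℂ) (B : ℝ) (hB : 0 ≤ B) (hα : ∀ m, ‖α m‖ ≤ B)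
    (hβ : ∀ k, ‖β k‖ ≤ B) :
    ∑ h ∈ Icc 1 H, ∑ d ∈ Icc 1 D, ‖BB p α β M (2 * M) (hd p x h d)‖ ≤
      15 * B ^ 2 * T * (3 + Real.log p) *
        (((H * D : ℕ) : ℝ) ^ (3 / 4 : ℝ) * (p : ℝ) ^ (15 / 16 : ℝ) +
          ((H * D : ℕ) : ℝ) * (p : ℝ) ^ (7 / 8 : ℝ)) := by
  have hprime : p.Prime := Fact.out
  have hp0 : (0 : ℝ) < p := by exact_mod_cast hprime.pos
  have hM0 : (0 : ℝ) < M := by exact_mod_cast (by omega : 0 < M)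
  have hM1' : (1 : ℝ) ≤ M := by exact_mod_cast (by omega : 1 ≤ M)
  have hT1 : 1 ≤ T := by
    have h1 : 1 ≤ 16 * p ^ 4 := by
      have := Nat.one_le_pow 4 p hprime.one_le
      omega
    simpa using hT 1 le_rfl h1
  have hlog : 0 ≤ Real.log p := Real.log_nonneg (by exact_mod_cast hprime.one_le)
  refine (typeII_block p H D M hH hD hM hMp T hT x hx α β B hB hα hβ).trans ?_
  set Q : ℝ := ((H * D : ℕ) : ℝ) with hQ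
  have hQ0 : 0 ≤ Q := Nat.cast_nonneg _
  -- the exponents
  have k1 : (M : ℝ) ^ (-(3 / 4) : ℝ) * (M : ℝ) ^ (1 / 2 : ℝ) = (M : ℝ) ^ (-(1 / 4) : ℝ) := by
    rw [← Real.rpow_add hM0]; norm_num
  have k2 : (M : ℝ) ^ (-(3 / 4) : ℝ) * (M : ℝ) ^ (7 / 8 : ℝ) = (M : ℝ) ^ (1 / 8 : ℝ) := by
    rw [← Real.rpow_add hM0]; norm_num
  have k3 : (M : ℝ) ^ (-1 : ℝ) * (M : ℝ) ^ (1 / 2 : ℝ) = (M : ℝ) ^ (-(1 / 2) : ℝ) := by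
    rw [← Real.rpow_add hM0]; norm_num
  have k4 : (M : ℝ) ^ (-1 : ℝ) * (M : ℝ) ^ (7 / 8 : ℝ) = (M : ℝ) ^ (-(1 / 8) : ℝ) := by
    rw [← Real.rpow_add hM0]; norm_num
  have k5 : (p : ℝ) * (p : ℝ) ^ (-(1 / 8) : ℝ) = (p : ℝ) ^ (7 / 8 : ℝ) := by
    nth_rewrite 1 [← Real.rpow_one (p : ℝ)]
    rw [← Real.rpow_add hp0]; norm_num
  have hhalf : (0 : ℝ) < (p : ℝ) ^ (1 / 4 : ℝ) / 2 := by positivity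
  have hMh : (p : ℝ) ^ (1 / 4 : ℝ) / 2 ≤ M := by linarith
  -- `M^(-1/4) ≤ 2 p^(-1/16)`
  have two : ∀ z : ℝ, 0 ≤ z → z ≤ 1 → (2 : ℝ) ^ z ≤ 2 := by
    intro z _ hz
    calc (2 : ℝ) ^ z ≤ 2 ^ (1 : ℝ) := Real.rpow_le_rpow_of_exponent_le (by norm_num) hz
      _ = 2 := Real.rpow_one 2
  have half : ∀ z : ℝ, 0 ≤ z → z ≤ 1 →
      (M : ℝ) ^ (-z) ≤ 2 * (p : ℝ) ^ (-(z / 4)) := by
    intro z hz0 hz1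
    calc (M : ℝ) ^ (-z) ≤ ((p : ℝ) ^ (1 / 4 : ℝ) / 2) ^ (-z) :=
          Real.rpow_le_rpow_of_nonpos hhalf hMh (by linarith)
      _ = (p : ℝ) ^ (-(z / 4)) * 2 ^ z := by
          rw [Real.div_rpow (by positivity) (by norm_num), ← Real.rpow_mul hp0.le,
            Real.rpow_neg (by norm_num : (0 : ℝ) ≤ 2), div_inv_eq_mul]
          congr 2
          ring
      _ ≤ (p : ℝ) ^ (-(z / 4)) * 2 := mul_le_mul_of_nonneg_left (two z hz0 hz1) (by positivity)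
      _ = 2 * (p : ℝ) ^ (-(z / 4)) := mul_comm _ _
  have c1 : (p : ℝ) * (M : ℝ) ^ (-(1 / 4) : ℝ) ≤ 2 * (p : ℝ) ^ (15 / 16 : ℝ) := by
    have h1 := half (1 / 4) (by norm_num) (by norm_num)
    have h2 : (p : ℝ) * (p : ℝ) ^ (-(1 / 4 / 4) : ℝ) = (p : ℝ) ^ (15 / 16 : ℝ) := by
      nth_rewrite 1 [← Real.rpow_one (p : ℝ)]
      rw [← Real.rpow_add hp0]; norm_num
    calc (p : ℝ) * (M : ℝ) ^ (-(1 / 4) : ℝ) ≤ p * (2 * (p : ℝ) ^ (-(1 / 4 / 4) : ℝ)) :=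
          mul_le_mul_of_nonneg_left h1 hp0.le
      _ = 2 * (p : ℝ) ^ (15 / 16 : ℝ) := by rw [← h2]; ring
  have c2 : (M : ℝ) ^ (1 / 8 : ℝ) * (p : ℝ) ^ (7 / 8 : ℝ) ≤ (p : ℝ) ^ (15 / 16 : ℝ) := by
    calc (M : ℝ) ^ (1 / 8 : ℝ) * (p : ℝ) ^ (7 / 8 : ℝ) ≤
          ((p : ℝ) ^ (1 / 2 : ℝ)) ^ (1 / 8 : ℝ) * (p : ℝ) ^ (7 / 8 : ℝ) :=
          mul_le_mul_of_nonneg_right (Real.rpow_le_rpow hM0.le hM2 (by norm_num)) (by positivity)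
      _ = (p : ℝ) ^ (15 / 16 : ℝ) := by
          rw [← Real.rpow_mul hp0.le, ← Real.rpow_add hp0]; norm_num
  have c3 : (p : ℝ) * (M : ℝ) ^ (-(1 / 2) : ℝ) ≤ 2 * (p : ℝ) ^ (7 / 8 : ℝ) := by
    have h1 := half (1 / 2) (by norm_num) (by norm_num)
    have h2 : (p : ℝ) * (p : ℝ) ^ (-(1 / 2 / 4) : ℝ) = (p : ℝ) ^ (7 / 8 : ℝ) := by
      nth_rewrite 1 [← Real.rpow_one (p : ℝ)]
      rw [← Real.rpow_add hp0]; norm_num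
    calc (p : ℝ) * (M : ℝ) ^ (-(1 / 2) : ℝ) ≤ p * (2 * (p : ℝ) ^ (-(1 / 2 / 4) : ℝ)) :=
          mul_le_mul_of_nonneg_left h1 hp0.le
      _ = 2 * (p : ℝ) ^ (7 / 8 : ℝ) := by rw [← h2]; ring
  have c4 : (M : ℝ) ^ (-(1 / 8) : ℝ) * (p : ℝ) ^ (7 / 8 : ℝ) ≤ (p : ℝ) ^ (7 / 8 : ℝ) := by
    have h1 : (M : ℝ) ^ (-(1 / 8) : ℝ) ≤ 1 :=
      Real.rpow_le_one_of_one_le_of_nonpos hM1' (by norm_num)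
    calc (M : ℝ) ^ (-(1 / 8) : ℝ) * (p : ℝ) ^ (7 / 8 : ℝ) ≤ 1 * (p : ℝ) ^ (7 / 8 : ℝ) :=
          mul_le_mul_of_nonneg_right h1 (by positivity)
      _ = _ := one_mul _
  have hexp : (Q ^ (3 / 4 : ℝ) * p * (M : ℝ) ^ (-(3 / 4) : ℝ) + Q * p * (M : ℝ) ^ (-1 : ℝ)) *
      ((M : ℝ) ^ (1 / 2 : ℝ) + (M : ℝ) ^ (7 / 8 : ℝ) * (p : ℝ) ^ (-(1 / 8) : ℝ)) =
      Q ^ (3 / 4 : ℝ) * (p * (M : ℝ) ^ (-(1 / 4) : ℝ) + (M : ℝ) ^ (1 / 8 : ℝ) * (p : ℝ) ^ (7 / 8 : ℝ)) +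
      Q * (p * (M : ℝ) ^ (-(1 / 2) : ℝ) + (M : ℝ) ^ (-(1 / 8) : ℝ) * (p : ℝ) ^ (7 / 8 : ℝ)) := by
    rw [← k1, ← k2, ← k3, ← k4, ← k5]
    ring
  rw [mul_assoc, hexp]
  have hfin : Q ^ (3 / 4 : ℝ) * (p * (M : ℝ) ^ (-(1 / 4) : ℝ) +
        (M : ℝ) ^ (1 / 8 : ℝ) * (p : ℝ) ^ (7 / 8 : ℝ)) +
      Q * (p * (M : ℝ) ^ (-(1 / 2) : ℝ) + (M : ℝ) ^ (-(1 / 8) : ℝ) * (p : ℝ) ^ (7 / 8 : ℝ)) ≤
      3 * (Q ^ (3 / 4 : ℝ) * (p : ℝ) ^ (15 / 16 : ℝ) + Q * (p : ℝ) ^ (7 / 8 : ℝ)) := by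
    have d1 : Q ^ (3 / 4 : ℝ) * (p * (M : ℝ) ^ (-(1 / 4) : ℝ) +
        (M : ℝ) ^ (1 / 8 : ℝ) * (p : ℝ) ^ (7 / 8 : ℝ)) ≤
        Q ^ (3 / 4 : ℝ) * (3 * (p : ℝ) ^ (15 / 16 : ℝ)) :=
      mul_le_mul_of_nonneg_left (by linarith) (by positivity)
    have d2 : Q * (p * (M : ℝ) ^ (-(1 / 2) : ℝ) +
        (M : ℝ) ^ (-(1 / 8) : ℝ) * (p : ℝ) ^ (7 / 8 : ℝ)) ≤
        Q * (3 * (p : ℝ) ^ (7 / 8 : ℝ)) :=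
      mul_le_mul_of_nonneg_left (by linarith) hQ0
    linarith
  calc 5 * B ^ 2 * T * (3 + Real.log p) * (Q ^ (3 / 4 : ℝ) * (p * (M : ℝ) ^ (-(1 / 4) : ℝ) +
        (M : ℝ) ^ (1 / 8 : ℝ) * (p : ℝ) ^ (7 / 8 : ℝ)) +
      Q * (p * (M : ℝ) ^ (-(1 / 2) : ℝ) + (M : ℝ) ^ (-(1 / 8) : ℝ) * (p : ℝ) ^ (7 / 8 : ℝ))) ≤
      5 * B ^ 2 * T * (3 + Real.log p) *
        (3 * (Q ^ (3 / 4 : ℝ) * (p : ℝ) ^ (15 / 16 : ℝ) + Q * (p : ℝ) ^ (7 / 8 : ℝ))) :=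
        mul_le_mul_of_nonneg_left hfin (by positivity)
    _ = _ := by ring

end Pool.Agent.EPK
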