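import Pool.Agent.EPK.A1
import Pool.Agent.EPK.A3
import Pool.Agent.EPK.B3

/-!
# [EPK-D4a] linear sums: the moment bound for Kloosterman sums
-/

set_option autoImplicit false

namespace Pool.Agent.EPK

open Finset Pool.Agent.MP_2f88e5_nt

/-- [D4a] The coincidences of the fractions `x h l / (d m)`.

Proof. `coinc_general` for `s = ([1, H] × [1, L]) × ([1, D] × [1, M])`, `X i = i.1.1 * i.1.2`, `Y i = i.2.1 * i.2.2`, `A = H L`,
`B = D M`; the fibre over `(a, b)` has at most `T² ` elements (the divisors `i.1.1` of `a` and `i.2.1` of `b`; `a ≤ H L ≤ 16 p⁴`).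
`(l) * (hd p x h d * m⁻¹) = x (h l) (d m)⁻¹`. `T² squared = T⁴`. -/
theorem coinc_four (p : ℕ) [Fact p.Prime] (H L D M : ℕ) (hH : H < p) (hL : L < p) (hD : D < p)
    (hM : M < p) (T : ℝ) (hT : TauLE (16 * p ^ 4) T) (x : ZMod p) (hx : x ≠ 0) :
    (((((Icc 1 H ×ˢ Icc 1 L) ×ˢ (Icc 1 D ×ˢ Icc 1 M)) ×ˢ
      ((Icc 1 H ×ˢ Icc 1 L) ×ˢ (Icc 1 D ×ˢ Icc 1 M))).filter
      (fun q : ((ℕ × ℕ) × (ℕ × ℕ)) × ((ℕ × ℕ) × (ℕ × ℕ)) =>
        (q.1.1.2 : ZMod p) * (hd p x q.1.1.1 q.1.2.1 * ((q.1.2.2 : ZMod p))⁻¹) =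
          (q.2.1.2 : ZMod p) * (hd p x q.2.1.1 q.2.2.1 * ((q.2.2.2 : ZMod p))⁻¹))).card : ℝ) ≤
      T ^ 5 * (H * L * D * M) * ((H * L * D * M : ℝ) / p + 1) := by
  classical
  have hprime : p.Prime := Fact.out
  have hp1 : 1 ≤ p := hprime.one_le
  have hT1 : 1 ≤ T := by
    have h1 : 1 ≤ 16 * p ^ 4 := by
      have := Nat.one_le_pow 4 p hp1
      omega
    simpa using hT 1 le_rfl h1
  have hAB : H * L * (D * M) ≤ 16 * p ^ 4 := by
    calc H * L * (D * M) ≤ p * p * (p * p) :=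
          Nat.mul_le_mul (Nat.mul_le_mul hH.le hL.le) (Nat.mul_le_mul hD.le hM.le)
      _ = p ^ 4 := by ring
      _ ≤ 16 * p ^ 4 := by omega
  have hp24 : p ^ 2 ≤ 16 * p ^ 4 := by
    have := Nat.pow_le_pow_right hp1 (show 2 ≤ 4 by norm_num)
    omega
  have hnz : ∀ k : ℕ, 1 ≤ k → k < p → (k : ZMod p) ≠ 0 := by
    intro k h1 h2 h
    rw [ZMod.natCast_eq_zero_iff] at h
    have := Nat.le_of_dvd (by omega) h
    omega
  have hmem : ∀ i ∈ ((Icc 1 H ×ˢ Icc 1 L) ×ˢ (Icc 1 D ×ˢ Icc 1 M)),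
      (1 ≤ i.1.1 ∧ i.1.1 ≤ H) ∧ (1 ≤ i.1.2 ∧ i.1.2 ≤ L) ∧ (1 ≤ i.2.1 ∧ i.2.1 ≤ D) ∧
        (1 ≤ i.2.2 ∧ i.2.2 ≤ M) := by
    intro i hi
    simp only [Finset.mem_product, Finset.mem_Icc] at hi
    tauto
  have key := coinc_general p ((Icc 1 H ×ˢ Icc 1 L) ×ˢ (Icc 1 D ×ˢ Icc 1 M))
    (fun i => i.1.1 * i.1.2) (fun i => i.2.1 * i.2.2) (H * L) (D * M) T (T ^ 2)
    (fun n h1 h2 => hT n h1 (h2.trans hAB)) (by positivity)
    (fun i hi => by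
      obtain ⟨⟨a1, a2⟩, ⟨b1, b2⟩, _, _⟩ := hmem i hi
      exact ⟨Nat.mul_pos a1 b1, Nat.mul_le_mul a2 b2⟩)
    (fun i hi => by
      obtain ⟨_, _, ⟨a1, a2⟩, ⟨b1, b2⟩⟩ := hmem i hi
      exact ⟨Nat.mul_pos a1 b1, Nat.mul_le_mul a2 b2⟩)
    (fun i hi => by
      obtain ⟨_, _, ⟨a1, a2⟩, ⟨b1, b2⟩⟩ := hmem i hi
      push_cast
      exact mul_ne_zero (hnz _ a1 (by omega)) (hnz _ b1 (by omega)))
    (fun a b => by
      rcases Finset.eq_empty_or_nonempty (((Icc 1 H ×ˢ Icc 1 L) ×ˢ (Icc 1 D ×ˢ Icc 1 M)).filter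
        (fun i => i.1.1 * i.1.2 = a ∧ i.2.1 * i.2.2 = b)) with he | ⟨i0, hi0⟩
      · rw [he]
        simp only [Finset.card_empty, Nat.cast_zero]
        positivity
      · rw [Finset.mem_filter] at hi0
        obtain ⟨hi0s, ha, hb⟩ := hi0
        obtain ⟨⟨a1, a2⟩, ⟨b1, b2⟩, ⟨c1, c2⟩, ⟨d1, d2⟩⟩ := hmem i0 hi0s
        have ha0 : 1 ≤ a := by rw [← ha]; exact Nat.mul_pos a1 b1
        have hb0 : 1 ≤ b := by rw [← hb]; exact Nat.mul_pos c1 d1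
        have ha1 : a ≤ 16 * p ^ 4 := by
          refine le_trans ?_ hp24
          rw [← ha, sq]
          exact Nat.mul_le_mul (by omega) (by omega)
        have hb1 : b ≤ 16 * p ^ 4 := by
          refine le_trans ?_ hp24
          rw [← hb, sq]
          exact Nat.mul_le_mul (by omega) (by omega)
        have hcard : (((Icc 1 H ×ˢ Icc 1 L) ×ˢ (Icc 1 D ×ˢ Icc 1 M)).filter
            (fun i => i.1.1 * i.1.2 = a ∧ i.2.1 * i.2.2 = b)).card ≤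
            (a.divisors ×ˢ b.divisors).card := by
          refine Finset.card_le_card_of_injOn (fun i => (i.1.1, i.2.1)) ?_ ?_
          · intro i hi
            rw [Finset.mem_coe, Finset.mem_filter] at hi
            rw [Finset.mem_coe, Finset.mem_product, Nat.mem_divisors, Nat.mem_divisors]
            refine ⟨⟨⟨i.1.2, hi.2.1.symm⟩, by omega⟩, ⟨⟨i.2.2, hi.2.2.symm⟩, by omega⟩⟩
          · intro i hi j hj hij
            rw [Finset.mem_coe, Finset.mem_filter] at hi hj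
            obtain ⟨his, hia, hib⟩ := hi
            obtain ⟨hjs, hja, hjb⟩ := hj
            obtain ⟨⟨e1, _⟩, _, ⟨e2, _⟩, _⟩ := hmem i his
            simp only [Prod.mk.injEq] at hij
            obtain ⟨f1, f2⟩ := hij
            have g1 : i.1.2 = j.1.2 := by
              have : i.1.1 * i.1.2 = i.1.1 * j.1.2 := by rw [hia, f1, hja]
              exact Nat.eq_of_mul_eq_mul_left e1 this
            have g2 : i.2.2 = j.2.2 := by
              have : i.2.1 * i.2.2 = i.2.1 * j.2.2 := by rw [hib, f2, hjb]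
              exact Nat.eq_of_mul_eq_mul_left e2 this
            exact Prod.ext (Prod.ext f1 g1) (Prod.ext f2 g2)
        have hc2 : ((((Icc 1 H ×ˢ Icc 1 L) ×ˢ (Icc 1 D ×ˢ Icc 1 M)).filter
            (fun i => i.1.1 * i.1.2 = a ∧ i.2.1 * i.2.2 = b)).card : ℝ) ≤
            ((a.divisors ×ˢ b.divisors).card : ℝ) := by exact_mod_cast hcard
        refine hc2.trans ?_
        rw [Finset.card_product, Nat.cast_mul, sq]
        exact mul_le_mul (hT a ha0 ha1) (hT b hb0 hb1) (Nat.cast_nonneg _) (by linarith))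
    x hx
  have hset : (((Icc 1 H ×ˢ Icc 1 L) ×ˢ (Icc 1 D ×ˢ Icc 1 M)) ×ˢ
      ((Icc 1 H ×ˢ Icc 1 L) ×ˢ (Icc 1 D ×ˢ Icc 1 M))).filter
      (fun q : ((ℕ × ℕ) × (ℕ × ℕ)) × ((ℕ × ℕ) × (ℕ × ℕ)) =>
        (q.1.1.2 : ZMod p) * (hd p x q.1.1.1 q.1.2.1 * ((q.1.2.2 : ZMod p))⁻¹) =
          (q.2.1.2 : ZMod p) * (hd p x q.2.1.1 q.2.2.1 * ((q.2.2.2 : ZMod p))⁻¹)) =
      (((Icc 1 H ×ˢ Icc 1 L) ×ˢ (Icc 1 D ×ˢ Icc 1 M)) ×ˢ
      ((Icc 1 H ×ˢ Icc 1 L) ×ˢ (Icc 1 D ×ˢ Icc 1 M))).filter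
      (fun q => x * ((q.1.1.1 * q.1.1.2 : ℕ) : ZMod p) * (((q.1.2.1 * q.1.2.2 : ℕ) : ZMod p))⁻¹ =
      x * ((q.2.1.1 * q.2.1.2 : ℕ) : ZMod p) * (((q.2.2.1 * q.2.2.2 : ℕ) : ZMod p))⁻¹) := by
    have hfr : ∀ h l d m : ℕ, (l : ZMod p) * (hd p x h d * ((m : ZMod p))⁻¹) =
        x * ((h * l : ℕ) : ZMod p) * (((d * m : ℕ) : ZMod p))⁻¹ := by
      intro h l d m
      rw [hd]
      push_cast
      rw [mul_inv]
      ring
    refine Finset.filter_congr fun q _ => ?_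
    rw [hfr, hfr]
  rw [hset]
  refine key.trans (le_of_eq ?_)
  push_cast
  ring

end Pool.Agent.EPK
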