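import Pool.Agent.EPK.D4a

/-!
# [EPK-D4b] linear sums: the moment bound for Kloosterman sums
-/

set_option autoImplicit false

namespace Pool.Agent.EPK

open Finset Pool.Agent.MP_2f88e5_nt

/-- [D4b] The moment bound for Kloosterman sums.

Proof. `holder4` for this index set, `ρ i = i.1.2 * (hd p x i.1.1 i.2.1 * (i.2.2)⁻¹)`, `F u = ‖kl p 1 u‖`, `coinc_four`,
`kl_fourth`. With `Q = H L D M`: `(sum)⁴ ≤ Q² T⁵ Q (Q / p + 1) 3 p³`. Fourth root: `(Q³ (Q / p + 1) p³)^(1/4) ≤ Q^(3/4) p^(3/4) +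
Q p^(1/2)`, `3^(1/4) ≤ 2`, `T^(5/4) ≤ T²` (`T ≥ 1`). -/
theorem moment_kl (p : ℕ) [Fact p.Prime] (H L D M : ℕ) (hH : H < p) (hL : L < p) (hD : D < p)
    (hM : M < p) (T : ℝ) (hT : TauLE (16 * p ^ 4) T) (x : ZMod p) (hx : x ≠ 0) :
    ∑ h ∈ Icc 1 H, ∑ d ∈ Icc 1 D, ∑ m ∈ Icc 1 M, ∑ l ∈ Icc 1 L,
      ‖kl p 1 ((l : ZMod p) * (hd p x h d * ((m : ZMod p))⁻¹))‖ ≤
      2 * T ^ 2 * (((H * L * D * M : ℕ) : ℝ) ^ (3 / 4 : ℝ) * (p : ℝ) ^ (3 / 4 : ℝ) +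
        ((H * L * D * M : ℕ) : ℝ) * (p : ℝ) ^ (1 / 2 : ℝ)) := by
  classical
  have hprime : p.Prime := Fact.out
  have hp0 : (0 : ℝ) < p := by exact_mod_cast hprime.pos
  have hT1 : 1 ≤ T := by
    have h1 : 1 ≤ 16 * p ^ 4 := by
      have := Nat.one_le_pow 4 p hprime.one_le
      omega
    simpa using hT 1 le_rfl h1
  set s := ((Icc 1 H ×ˢ Icc 1 L) ×ˢ (Icc 1 D ×ˢ Icc 1 M)) with hs
  have e1 : ∑ h ∈ Icc 1 H, ∑ d ∈ Icc 1 D, ∑ m ∈ Icc 1 M, ∑ l ∈ Icc 1 L,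
      ‖kl p 1 ((l : ZMod p) * (hd p x h d * ((m : ZMod p))⁻¹))‖ =
      ∑ i ∈ s, ‖kl p 1 ((i.1.2 : ZMod p) * (hd p x i.1.1 i.2.1 * ((i.2.2 : ZMod p))⁻¹))‖ := by
    rw [hs, Finset.sum_product, Finset.sum_product]
    refine sum_congr rfl fun h _ => ?_
    dsimp only
    have e2 : ∀ F : ℕ → ℕ → ℕ → ℝ, ∑ d ∈ Icc 1 D, ∑ m ∈ Icc 1 M, ∑ l ∈ Icc 1 L, F d m l =
        ∑ l ∈ Icc 1 L, ∑ y ∈ Icc 1 D ×ˢ Icc 1 M, F y.1 y.2 l := by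
      intro F
      symm
      rw [sum_comm, Finset.sum_product]
    exact e2 (fun d m l => ‖kl p 1 ((l : ZMod p) * (hd p x h d * ((m : ZMod p))⁻¹))‖)
  rw [e1]
  have key := holder4 p s
    (fun i => (i.1.2 : ZMod p) * (hd p x i.1.1 i.2.1 * ((i.2.2 : ZMod p))⁻¹))
    (fun u => ‖kl p 1 u‖) (fun _ => norm_nonneg _)
  have hco := coinc_four p H L D M hH hL hD hM T hT x hx
  rw [← hs] at hco
  have hkl := kl_fourth p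
  set Q : ℝ := ((H * L * D * M : ℕ) : ℝ) with hQ
  have hQ0 : 0 ≤ Q := Nat.cast_nonneg _
  have hcard : (s.card : ℝ) = Q := by
    rw [hs, Finset.card_product, Finset.card_product, Finset.card_product, hQ]
    simp only [Nat.card_Icc, Nat.add_sub_cancel]
    push_cast
    ring
  have hQ' : (H : ℝ) * L * D * M = Q := by
    rw [hQ]
    push_cast
    ring
  rw [hQ'] at hco
  set C := ((s ×ˢ s).filter
      (fun q : ((ℕ × ℕ) × (ℕ × ℕ)) × ((ℕ × ℕ) × (ℕ × ℕ)) =>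
        (q.1.1.2 : ZMod p) * (hd p x q.1.1.1 q.1.2.1 * ((q.1.2.2 : ZMod p))⁻¹) =
          (q.2.1.2 : ZMod p) * (hd p x q.2.1.1 q.2.2.1 * ((q.2.2.2 : ZMod p))⁻¹))).card with hC
  rw [hcard] at key
  have h1 : (∑ i ∈ s, ‖kl p 1 ((i.1.2 : ZMod p) *
      (hd p x i.1.1 i.2.1 * ((i.2.2 : ZMod p))⁻¹))‖) ^ 4 ≤
      Q ^ 2 * (T ^ 5 * Q * (Q / p + 1)) * (3 * (p : ℝ) ^ 3) := by
    refine key.trans ?_
    refine mul_le_mul (mul_le_mul_of_nonneg_left hco (by positivity)) hkl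
      (sum_nonneg fun _ _ => by positivity) (by positivity)
  have h2 : Q ^ 2 * (T ^ 5 * Q * (Q / p + 1)) * (3 * (p : ℝ) ^ 3) =
      3 * T ^ 5 * (Q ^ 3 * (p : ℝ) ^ 3 + Q ^ 4 * (p : ℝ) ^ 2) := by
    field_simp
    ring
  set A : ℝ := Q ^ (3 / 4 : ℝ) * (p : ℝ) ^ (3 / 4 : ℝ) with hA
  set B : ℝ := Q * (p : ℝ) ^ (1 / 2 : ℝ) with hB
  have hA0 : 0 ≤ A := by positivity
  have hB0 : 0 ≤ B := by positivity
  have hA4 : A ^ 4 = Q ^ 3 * (p : ℝ) ^ 3 := by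
    rw [hA, mul_pow, ← Real.rpow_natCast (Q ^ (3 / 4 : ℝ)) 4, ← Real.rpow_mul hQ0,
      ← Real.rpow_natCast ((p : ℝ) ^ (3 / 4 : ℝ)) 4, ← Real.rpow_mul hp0.le,
      ← Real.rpow_natCast Q 3, ← Real.rpow_natCast (p : ℝ) 3]
    norm_num
  have hB4 : B ^ 4 = Q ^ 4 * (p : ℝ) ^ 2 := by
    rw [hB, mul_pow, ← Real.rpow_natCast ((p : ℝ) ^ (1 / 2 : ℝ)) 4, ← Real.rpow_mul hp0.le,
      ← Real.rpow_natCast (p : ℝ) 2]
    norm_num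
  have h3 : A ^ 4 + B ^ 4 ≤ (A + B) ^ 4 := by
    have : (A + B) ^ 4 = A ^ 4 + B ^ 4 + (4 * A ^ 3 * B + 6 * A ^ 2 * B ^ 2 + 4 * A * B ^ 3) := by
      ring
    rw [this]
    have : 0 ≤ 4 * A ^ 3 * B + 6 * A ^ 2 * B ^ 2 + 4 * A * B ^ 3 := by positivity
    linarith
  have h4 : 3 * T ^ 5 * (A ^ 4 + B ^ 4) ≤ (2 * T ^ 2 * (A + B)) ^ 4 := by
    have h5 : (2 * T ^ 2 * (A + B)) ^ 4 = 16 * T ^ 8 * (A + B) ^ 4 := by ring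
    rw [h5]
    have h6 : T ^ 5 ≤ T ^ 8 := pow_le_pow_right₀ hT1 (by norm_num)
    have h7 : 0 ≤ T ^ 8 := by positivity
    refine mul_le_mul ?_ h3 (by positivity) (by positivity)
    linarith
  rw [h2, ← hA4, ← hB4] at h1
  exact le_of_pow_le_pow_left₀ (by norm_num) (by positivity) (h1.trans h4)

end Pool.Agent.EPK
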