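import Pool.Agent.EPK.C3
import Pool.Agent.EPK.D4

/-!
# [EPK-D5a] linear sums: one dyadic block
-/

set_option autoImplicit false

namespace Pool.Agent.EPK

open Finset Pool.Agent.MP_2f88e5_nt

/-- [D5a] The weighted sum over `l`.

Proof. Cover `[1, (p - 1)/2]` by the blocks `l ∈ (2^(i-1), 2^i]`, `2^(i-1) < (p - 1)/2` (so `2^i < p`), `i ≥ 0` (the block
`i = 0` is `{1}`; `(2^(i-1), 2^i]` with `2^(-1)` read as `0`), at most `2 + log p / log 2 ≤ 2 (3 + log p)` of them. In the block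
`min (1 / M) (1 / (2 l)) ≤ min (1 / M) (2^(-i)) =: w`. By `moment_kl` with `L = 2^i` (and `2 M` for `M`) the block is at most
`w · 2 T² ((2 H D M L)^(3/4) p^(3/4) + 2 H D M L p^(1/2))`, and `w ≤ M^(-1/4) L^(-3/4)`, `w ≤ 1 / L`. So each block is at most
`2 T² (2^(3/4) (H D)^(3/4) M^(1/2) p^(3/4) + 2 H D M p^(1/2)) ≤ 4 T² (...)`. -/
theorem weighted_kl (p : ℕ) [Fact p.Prime] (hp : 2 < p) (H D M : ℕ) (hH : H < p) (hD : D < p)
    (hM : 1 ≤ M) (hMp : 2 * M < p) (T : ℝ) (hT : TauLE (16 * p ^ 4) T) (x : ZMod p) (hx : x ≠ 0) :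
    ∑ h ∈ Icc 1 H, ∑ d ∈ Icc 1 D, ∑ m ∈ Icc 1 (2 * M), ∑ l ∈ Icc 1 ((p - 1) / 2),
      min (1 / (M : ℝ)) (1 / (2 * l)) * ‖kl p 1 ((l : ZMod p) * (hd p x h d * ((m : ZMod p))⁻¹))‖ ≤
      8 * T ^ 2 * (3 + Real.log p) *
        (((H * D : ℕ) : ℝ) ^ (3 / 4 : ℝ) * (M : ℝ) ^ (1 / 2 : ℝ) * (p : ℝ) ^ (3 / 4 : ℝ) +
          ((H * D : ℕ) : ℝ) * M * (p : ℝ) ^ (1 / 2 : ℝ)) := by
  classical
  have hprime : p.Prime := Fact.out
  have hp0 : (0 : ℝ) < p := by exact_mod_cast hprime.pos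
  have hp1 : (1 : ℝ) ≤ p := by exact_mod_cast hprime.one_le
  have hM0 : (0 : ℝ) < M := by exact_mod_cast (by omega : 0 < M)
  have hT1 : 1 ≤ T := by
    have h1 : 1 ≤ 16 * p ^ 4 := by
      have := Nat.one_le_pow 4 p hprime.one_le
      omega
    simpa using hT 1 le_rfl h1
  have hlog : 0 ≤ Real.log p := Real.log_nonneg hp1
  set q := (p - 1) / 2 with hq
  have hq1 : 1 ≤ q := by omega
  set n := Nat.clog 2 q + 1 with hn
  -- the powers of two are smaller than `p`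
  have hpow : ∀ i < n, 2 ^ i < p := by
    intro i hi
    have h1 : 2 ^ i ≤ 2 ^ (Nat.clog 2 q) := Nat.pow_le_pow_right (by norm_num) (by omega)
    rcases Nat.lt_or_ge 1 q with h2 | h2
    · have h3 := Nat.pow_pred_clog_lt_self (b := 2) (by norm_num) h2
      have h4 : 0 < Nat.clog 2 q := Nat.clog_pos (by norm_num) h2
      have h5 : 2 ^ (Nat.clog 2 q) = 2 * 2 ^ (Nat.clog 2 q).pred := by
        conv_lhs => rw [← Nat.succ_pred_eq_of_pos h4, pow_succ]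
        ring
      omega
    · have h3 : Nat.clog 2 q = 0 := Nat.clog_of_right_le_one h2 2
      rw [h3, pow_zero] at h1
      omega
  have hnbound : (n : ℝ) ≤ 2 * (3 + Real.log p) := by
    have h1 := hpow (n - 1) (by omega)
    have h3 : (2 : ℝ) ^ (n - 1) ≤ p := by exact_mod_cast h1.le
    have h4 : ((n - 1 : ℕ) : ℝ) * Real.log 2 ≤ Real.log p := by
      rw [← Real.log_pow]
      exact Real.log_le_log (by positivity) h3
    have h5 : ((n - 1 : ℕ) : ℝ) = (n : ℝ) - 1 := by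
      rw [Nat.cast_sub (by omega), Nat.cast_one]
    rw [h5] at h4
    have h6 : (0.69 : ℝ) < Real.log 2 := lt_trans (by norm_num) Real.log_two_gt_d9
    have h7 : (0 : ℝ) ≤ (n : ℝ) - 1 := by
      have : (1 : ℝ) ≤ n := by exact_mod_cast (by omega : 1 ≤ n)
      linarith
    nlinarith
  -- the weights
  set w : ℕ → ℝ := fun i => min (1 / (M : ℝ)) (1 / 2 ^ i) with hw
  have hw0 : ∀ i, 0 ≤ w i := fun i => le_min (by positivity) (by positivity)
  -- the pointwise bound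
  have hpt : ∀ l ∈ Icc 1 q, ∀ A : ℝ, 0 ≤ A →
      min (1 / (M : ℝ)) (1 / (2 * l)) * A ≤
        ∑ i ∈ range n, if l ≤ 2 ^ i then w i * A else 0 := by
    intro l hl A hA
    rw [mem_Icc] at hl
    have hc : Nat.clog 2 l ∈ range n := by
      rw [mem_range, hn]
      have := Nat.clog_mono_right 2 hl.2
      omega
    refine le_trans ?_ (Finset.single_le_sum (f := fun i => if l ≤ 2 ^ i then w i * A else 0)
      (fun i _ => by
        split_ifs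
        · exact mul_nonneg (hw0 i) hA
        · exact le_rfl) hc)
    rw [if_pos (Nat.le_pow_clog (by norm_num) l)]
    refine mul_le_mul_of_nonneg_right ?_ hA
    rw [hw]
    refine min_le_min le_rfl ?_
    have hl0 : (0 : ℝ) < l := by exact_mod_cast hl.1
    rcases Nat.lt_or_ge 1 l with h2 | h2
    · have h3 := Nat.pow_pred_clog_lt_self (b := 2) (by norm_num) h2
      have h4 : 0 < Nat.clog 2 l := Nat.clog_pos (by norm_num) h2
      have h5 : 2 ^ (Nat.clog 2 l) = 2 * 2 ^ (Nat.clog 2 l).pred := by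
        conv_lhs => rw [← Nat.succ_pred_eq_of_pos h4, pow_succ]
        ring
      have h6 : 2 ^ (Nat.clog 2 l) ≤ 2 * l := by omega
      exact one_div_le_one_div_of_le (by positivity) (by exact_mod_cast h6)
    · have h3 : Nat.clog 2 l = 0 := Nat.clog_of_right_le_one h2 2
      have h4 : l = 1 := by omega
      rw [h3, h4]
      norm_num
  set K : ℕ → ℕ → ℕ → ℕ → ℝ := fun h d m l =>
    ‖kl p 1 ((l : ZMod p) * (hd p x h d * ((m : ZMod p))⁻¹))‖ with hKdef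
  have hK0 : ∀ h d m l, 0 ≤ K h d m l := fun _ _ _ _ => norm_nonneg _
  -- the block bounds
  set Q : ℝ := ((H * D : ℕ) : ℝ) with hQ
  have hQ0 : 0 ≤ Q := Nat.cast_nonneg _
  set E : ℝ := Q ^ (3 / 4 : ℝ) * (M : ℝ) ^ (1 / 2 : ℝ) * (p : ℝ) ^ (3 / 4 : ℝ) +
    Q * M * (p : ℝ) ^ (1 / 2 : ℝ) with hE
  have hblock : ∀ i ∈ range n, w i * (∑ h ∈ Icc 1 H, ∑ d ∈ Icc 1 D, ∑ m ∈ Icc 1 (2 * M),
      ∑ l ∈ Icc 1 (2 ^ i), K h d m l) ≤
      4 * T ^ 2 * E := by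
    intro i hi
    have hi' := hpow i (mem_range.1 hi)
    have h1 : ∑ h ∈ Icc 1 H, ∑ d ∈ Icc 1 D, ∑ m ∈ Icc 1 (2 * M), ∑ l ∈ Icc 1 (2 ^ i), K h d m l ≤
        _ := moment_kl p H (2 ^ i) D (2 * M) hH hi' hD hMp T hT x hx
    have h2 : (((H * 2 ^ i * D * (2 * M) : ℕ)) : ℝ) = Q * (2 * M * 2 ^ i) := by
      rw [hQ]
      push_cast
      ring
    rw [h2] at h1
    set L : ℝ := 2 ^ i with hL
    have hL0 : 0 < L := by positivity
    have hw1 : w i ≤ 1 / M := min_le_left _ _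
    have hw2 : w i ≤ 1 / L := min_le_right _ _
    have hw3 : w i ≤ (M : ℝ) ^ (-(1 / 4) : ℝ) * L ^ (-(3 / 4) : ℝ) := by
      have h3 : w i = w i ^ (1 / 4 : ℝ) * w i ^ (3 / 4 : ℝ) := by
        have hpos : 0 < w i := lt_min (by positivity) (by positivity)
        rw [← Real.rpow_add hpos]
        norm_num
      rw [h3]
      have h4 : w i ^ (1 / 4 : ℝ) ≤ (M : ℝ) ^ (-(1 / 4) : ℝ) := by
        refine (Real.rpow_le_rpow (hw0 i) hw1 (by norm_num)).trans (le_of_eq ?_)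
        rw [one_div (M : ℝ), Real.inv_rpow hM0.le, Real.rpow_neg hM0.le]
      have h5 : w i ^ (3 / 4 : ℝ) ≤ L ^ (-(3 / 4) : ℝ) := by
        refine (Real.rpow_le_rpow (hw0 i) hw2 (by norm_num)).trans (le_of_eq ?_)
        rw [one_div L, Real.inv_rpow hL0.le, Real.rpow_neg hL0.le]
      exact mul_le_mul h4 h5 (Real.rpow_nonneg (hw0 i) _) (by positivity)
    have h6 : w i * (Q * (2 * M * L)) ^ (3 / 4 : ℝ) ≤ 2 * (Q ^ (3 / 4 : ℝ) * (M : ℝ) ^ (1 / 2 : ℝ)) := by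
      have h7 : (Q * (2 * M * L)) ^ (3 / 4 : ℝ) =
          Q ^ (3 / 4 : ℝ) * (2 ^ (3 / 4 : ℝ) * (M : ℝ) ^ (3 / 4 : ℝ) * L ^ (3 / 4 : ℝ)) := by
        rw [Real.mul_rpow hQ0 (by positivity), Real.mul_rpow (by positivity) hL0.le,
          Real.mul_rpow (by norm_num) hM0.le]
      have h8 : (M : ℝ) ^ (-(1 / 4) : ℝ) * (M : ℝ) ^ (3 / 4 : ℝ) = (M : ℝ) ^ (1 / 2 : ℝ) := by
        rw [← Real.rpow_add hM0]; norm_num
      have h9 : L ^ (-(3 / 4) : ℝ) * L ^ (3 / 4 : ℝ) = 1 := by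
        rw [← Real.rpow_add hL0]; norm_num
      have h10 : (2 : ℝ) ^ (3 / 4 : ℝ) ≤ 2 := by
        calc (2 : ℝ) ^ (3 / 4 : ℝ) ≤ 2 ^ (1 : ℝ) :=
              Real.rpow_le_rpow_of_exponent_le (by norm_num) (by norm_num)
          _ = 2 := Real.rpow_one 2
      calc w i * (Q * (2 * M * L)) ^ (3 / 4 : ℝ) ≤
            ((M : ℝ) ^ (-(1 / 4) : ℝ) * L ^ (-(3 / 4) : ℝ)) * (Q * (2 * M * L)) ^ (3 / 4 : ℝ) :=
            mul_le_mul_of_nonneg_right hw3 (by positivity)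
        _ = 2 ^ (3 / 4 : ℝ) * (Q ^ (3 / 4 : ℝ) *
            ((M : ℝ) ^ (-(1 / 4) : ℝ) * (M : ℝ) ^ (3 / 4 : ℝ)) *
            (L ^ (-(3 / 4) : ℝ) * L ^ (3 / 4 : ℝ))) := by rw [h7]; ring
        _ = 2 ^ (3 / 4 : ℝ) * (Q ^ (3 / 4 : ℝ) * (M : ℝ) ^ (1 / 2 : ℝ)) := by
            rw [h8, h9, mul_one]
        _ ≤ 2 * (Q ^ (3 / 4 : ℝ) * (M : ℝ) ^ (1 / 2 : ℝ)) :=
            mul_le_mul_of_nonneg_right h10 (by positivity)
    have h11 : w i * (Q * (2 * M * L)) ≤ 2 * (Q * M) := by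
      calc w i * (Q * (2 * M * L)) ≤ (1 / L) * (Q * (2 * M * L)) :=
            mul_le_mul_of_nonneg_right hw2 (by positivity)
        _ = 2 * (Q * M) := by field_simp
    calc w i * (∑ h ∈ Icc 1 H, ∑ d ∈ Icc 1 D, ∑ m ∈ Icc 1 (2 * M),
      ∑ l ∈ Icc 1 (2 ^ i), K h d m l) ≤
        w i * (2 * T ^ 2 * ((Q * (2 * M * L)) ^ (3 / 4 : ℝ) * (p : ℝ) ^ (3 / 4 : ℝ) +
          Q * (2 * M * L) * (p : ℝ) ^ (1 / 2 : ℝ))) := mul_le_mul_of_nonneg_left h1 (hw0 i)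
      _ = 2 * T ^ 2 * ((w i * (Q * (2 * M * L)) ^ (3 / 4 : ℝ)) * (p : ℝ) ^ (3 / 4 : ℝ) +
          (w i * (Q * (2 * M * L))) * (p : ℝ) ^ (1 / 2 : ℝ)) := by ring
      _ ≤ 2 * T ^ 2 * ((2 * (Q ^ (3 / 4 : ℝ) * (M : ℝ) ^ (1 / 2 : ℝ))) * (p : ℝ) ^ (3 / 4 : ℝ) +
          (2 * (Q * M)) * (p : ℝ) ^ (1 / 2 : ℝ)) := by
          refine mul_le_mul_of_nonneg_left ?_ (by positivity)
          exact add_le_add (mul_le_mul_of_nonneg_right h6 (by positivity))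
            (mul_le_mul_of_nonneg_right h11 (by positivity))
      _ = 4 * T ^ 2 * E := by rw [hE]; ring
  -- the assembly
  have hE0 : 0 ≤ E := by positivity
  calc ∑ h ∈ Icc 1 H, ∑ d ∈ Icc 1 D, ∑ m ∈ Icc 1 (2 * M), ∑ l ∈ Icc 1 q,
      min (1 / (M : ℝ)) (1 / (2 * l)) * K h d m l ≤
      ∑ h ∈ Icc 1 H, ∑ d ∈ Icc 1 D, ∑ m ∈ Icc 1 (2 * M), ∑ i ∈ range n, w i *
        ∑ l ∈ Icc 1 (2 ^ i), K h d m l := by
        refine sum_le_sum fun h _ => sum_le_sum fun d _ => sum_le_sum fun m _ => ?_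
        refine (sum_le_sum fun l hl => hpt l hl
          (K h d m l) (hK0 h d m l)).trans ?_
        rw [sum_comm]
        refine sum_le_sum fun i _ => ?_
        rw [mul_sum, ← sum_filter]
        refine sum_le_sum_of_subset_of_nonneg ?_ (fun l _ _ =>
          mul_nonneg (hw0 i) (hK0 h d m l))
        intro l hl
        rw [mem_filter, mem_Icc] at hl
        rw [mem_Icc]
        exact ⟨hl.1.1, hl.2⟩
    _ = ∑ i ∈ range n, w i * (∑ h ∈ Icc 1 H, ∑ d ∈ Icc 1 D, ∑ m ∈ Icc 1 (2 * M),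
      ∑ l ∈ Icc 1 (2 ^ i), K h d m l) := by
        symm
        rw [sum_congr rfl (g := fun i => ∑ h ∈ Icc 1 H, ∑ d ∈ Icc 1 D, ∑ m ∈ Icc 1 (2 * M), w i *
          ∑ l ∈ Icc 1 (2 ^ i), K h d m l)
          (fun i _ => by
            rw [mul_sum]
            refine sum_congr rfl fun h _ => ?_
            rw [mul_sum]
            refine sum_congr rfl fun d _ => ?_
            rw [mul_sum])]
        rw [sum_comm]
        refine sum_congr rfl fun h _ => ?_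
        rw [sum_comm]
        refine sum_congr rfl fun d _ => ?_
        rw [sum_comm]
    _ ≤ ∑ i ∈ range n, 4 * T ^ 2 * E := sum_le_sum hblock
    _ = (n : ℝ) * (4 * T ^ 2 * E) := by rw [sum_const, card_range, nsmul_eq_mul]
    _ ≤ (2 * (3 + Real.log p)) * (4 * T ^ 2 * E) :=
        mul_le_mul_of_nonneg_right hnbound (by positivity)
    _ = 8 * T ^ 2 * (3 + Real.log p) * E := by ring

end Pool.Agent.EPK
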