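import Pool.Agent.EPK.D5a

/-!
# [EPK-D5b] linear sums: one dyadic block
-/

set_option autoImplicit false

namespace Pool.Agent.EPK

open Finset Pool.Agent.MP_2f88e5_nt

/-- [D5b] One block `m ∈ [M, 2M]` of linear sums over intervals `(u m, v m]` with `m (v m) ≤ p - 1`.

Proof. The interval has length `≤ (p - 1) / m ≤ N := (p - 1) / M`, `N / p ≤ 1 / M`. `(m k)⁻¹ = m⁻¹ k⁻¹`. `incomplete_kl` for
`b = hd p x h d * m⁻¹` (`≠ 0`; `d < p`, `m < p`, `h < p`), `p > 2`: the sum is at most `H D 2 M` (from the `1`s; the number of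
`m ∈ [M, 2M]` is `M + 1 ≤ 2 M`) plus `weighted_kl` for `x` and for `- x` (`-(l * (hd p x h d * m⁻¹)) = l * (hd p (-x) h d * m⁻¹)`).
And `2 H D M ≤ 2 H D M p^(1/2)`, `‖α m‖ ≤ B`, `T ≥ 1`. -/
theorem typeI_block (p : ℕ) [Fact p.Prime] (hp : 2 < p) (H D M : ℕ) (hH : H < p) (hD : D < p)
    (hM : 1 ≤ M) (hMp : 2 * M < p) (T : ℝ) (hT : TauLE (16 * p ^ 4) T) (x : ZMod p) (hx : x ≠ 0)
    (α : ℕ → ℂ) (B : ℝ) (hB : 0 ≤ B) (hα : ∀ m, ‖α m‖ ≤ B) (u v : ℕ → ℕ)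
    (hv : ∀ m, m * v m ≤ p - 1) :
    ∑ h ∈ Icc 1 H, ∑ d ∈ Icc 1 D, ‖LL p α u v M (2 * M) (hd p x h d)‖ ≤
      18 * B * T ^ 2 * (3 + Real.log p) *
        (((H * D : ℕ) : ℝ) ^ (3 / 4 : ℝ) * (M : ℝ) ^ (1 / 2 : ℝ) * (p : ℝ) ^ (3 / 4 : ℝ) +
          ((H * D : ℕ) : ℝ) * M * (p : ℝ) ^ (1 / 2 : ℝ)) := by
  classical
  have hprime : p.Prime := Fact.out
  have hp0 : (0 : ℝ) < p := by exact_mod_cast hprime.pos
  have hp1 : (1 : ℝ) ≤ p := by exact_mod_cast hprime.one_le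
  have hM0 : (0 : ℝ) < M := by exact_mod_cast (by omega : 0 < M)
  have hT1 : 1 ≤ T := by
    have h1 : 1 ≤ 16 * p ^ 4 := by
      have := Nat.one_le_pow 4 p hprime.one_le
      omega
    simpa using hT 1 le_rfl h1
  have hlog : 0 ≤ Real.log p := Real.log_nonneg hp1
  have hnz : ∀ k : ℕ, 1 ≤ k → k < p → (k : ZMod p) ≠ 0 := by
    intro k h1 h2 h
    rw [ZMod.natCast_eq_zero_iff] at h
    have := Nat.le_of_dvd (by omega) h
    omega
  set Q : ℝ := ((H * D : ℕ) : ℝ) with hQ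
  have hQ0 : 0 ≤ Q := Nat.cast_nonneg _
  set E : ℝ := Q ^ (3 / 4 : ℝ) * (M : ℝ) ^ (1 / 2 : ℝ) * (p : ℝ) ^ (3 / 4 : ℝ) +
    Q * M * (p : ℝ) ^ (1 / 2 : ℝ) with hE
  have hE0 : 0 ≤ E := by positivity
  have hQM : Q * M ≤ E := by
    have h1 : (1 : ℝ) ≤ (p : ℝ) ^ (1 / 2 : ℝ) := Real.one_le_rpow hp1 (by norm_num)
    have h2 : Q * M * 1 ≤ Q * M * (p : ℝ) ^ (1 / 2 : ℝ) :=
      mul_le_mul_of_nonneg_left h1 (by positivity)
    have h3 : 0 ≤ Q ^ (3 / 4 : ℝ) * (M : ℝ) ^ (1 / 2 : ℝ) * (p : ℝ) ^ (3 / 4 : ℝ) := by positivity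
    rw [hE]
    linarith
  set q := (p - 1) / 2 with hq
  set K : ZMod p → ℕ → ℕ → ℕ → ℕ → ℝ := fun y h d m l =>
    ‖kl p 1 ((l : ZMod p) * (hd p y h d * ((m : ZMod p))⁻¹))‖ with hKdef
  have hK0 : ∀ y h d m l, 0 ≤ K y h d m l := fun _ _ _ _ _ => norm_nonneg _
  have hW : ∀ y : ZMod p, y ≠ 0 → ∑ h ∈ Icc 1 H, ∑ d ∈ Icc 1 D, ∑ m ∈ Icc 1 (2 * M),
      ∑ l ∈ Icc 1 q, min (1 / (M : ℝ)) (1 / (2 * l)) * K y h d m l ≤
      8 * T ^ 2 * (3 + Real.log p) * E :=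
    fun y hy => weighted_kl p hp H D M hH hD hM hMp T hT y hy
  -- one value of `m`
  have hone : ∀ h ∈ Icc 1 H, ∀ d ∈ Icc 1 D, ∀ m ∈ Icc M (2 * M),
      ‖α m * ∑ k ∈ Ioc (u m) (v m), ea p (hd p x h d * ((m : ZMod p) * (k : ZMod p))⁻¹)‖ ≤
      B * (1 + (∑ l ∈ Icc 1 q, min (1 / (M : ℝ)) (1 / (2 * l)) * K x h d m l +
        ∑ l ∈ Icc 1 q, min (1 / (M : ℝ)) (1 / (2 * l)) * K (-x) h d m l)) := by
    intro h hh d hd' m hm
    rw [mem_Icc] at hh hd' hm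
    rw [norm_mul]
    refine mul_le_mul (hα m) ?_ (norm_nonneg _) hB
    have hm1 : 1 ≤ m := by omega
    have hb : hd p x h d * ((m : ZMod p))⁻¹ ≠ 0 := by
      rw [hd]
      exact mul_ne_zero (mul_ne_zero (mul_ne_zero hx (hnz h hh.1 (by omega)))
        (inv_ne_zero (hnz d hd'.1 (by omega)))) (inv_ne_zero (hnz m hm1 (by omega)))
    have hvm : v m ≤ (p - 1) / m := by
      rw [Nat.le_div_iff_mul_le (by omega), mul_comm]
      exact hv m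
    have hvM : v m ≤ (p - 1) / M := hvm.trans (Nat.div_le_div_left hm.1 (by omega))
    have hvp : v m < p := by
      have h1 : v m ≤ m * v m := Nat.le_mul_of_pos_left _ (by omega)
      have := hv m
      omega
    have key := incomplete_kl p hp (u m) (v m) ((p - 1) / M) hvp (by omega)
      (hd p x h d * ((m : ZMod p))⁻¹) hb
    have e1 : ∑ k ∈ Ioc (u m) (v m), ea p (hd p x h d * ((m : ZMod p) * (k : ZMod p))⁻¹) =
        ∑ k ∈ Ioc (u m) (v m), ea p (hd p x h d * ((m : ZMod p))⁻¹ * ((k : ZMod p))⁻¹) := by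
      refine sum_congr rfl fun k _ => ?_
      rw [mul_inv, mul_assoc]
    rw [e1]
    refine key.trans ?_
    have hNp : (((p - 1) / M : ℕ) : ℝ) / p ≤ 1 / M := by
      rw [div_le_div_iff₀ hp0 hM0, one_mul]
      have h1 : (p - 1) / M * M ≤ p - 1 := Nat.div_mul_le_self _ _
      have h2 : (p - 1) / M * M ≤ p := by omega
      exact_mod_cast h2
    rw [← sum_add_distrib]
    refine add_le_add le_rfl (sum_le_sum fun l _ => ?_)
    have hneg : -((l : ZMod p) * (hd p x h d * ((m : ZMod p))⁻¹)) =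
        (l : ZMod p) * (hd p (-x) h d * ((m : ZMod p))⁻¹) := by
      rw [hd, hd]
      ring
    rw [hneg, ← mul_add]
    exact mul_le_mul_of_nonneg_right (min_le_min hNp le_rfl) (by positivity)
  have hsub : Icc M (2 * M) ⊆ Icc 1 (2 * M) := Finset.Icc_subset_Icc_left hM
  have hw0 : ∀ l : ℕ, 0 ≤ min (1 / (M : ℝ)) (1 / (2 * (l : ℝ))) :=
    fun l => le_min (by positivity) (by positivity)
  have hsum : ∀ y : ZMod p, ∀ h d : ℕ,
      ∑ m ∈ Icc M (2 * M), ∑ l ∈ Icc 1 q, min (1 / (M : ℝ)) (1 / (2 * l)) * K y h d m l ≤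
      ∑ m ∈ Icc 1 (2 * M), ∑ l ∈ Icc 1 q, min (1 / (M : ℝ)) (1 / (2 * l)) * K y h d m l := by
    intro y h d
    refine sum_le_sum_of_subset_of_nonneg hsub fun m _ _ => sum_nonneg fun l _ => ?_
    exact mul_nonneg (hw0 l) (hK0 _ _ _ _ _)
  have hLL : ∀ h ∈ Icc 1 H, ∀ d ∈ Icc 1 D, ‖LL p α u v M (2 * M) (hd p x h d)‖ ≤
      B * (2 * M + (∑ m ∈ Icc 1 (2 * M), ∑ l ∈ Icc 1 q,
          min (1 / (M : ℝ)) (1 / (2 * l)) * K x h d m l +
        ∑ m ∈ Icc 1 (2 * M), ∑ l ∈ Icc 1 q,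
          min (1 / (M : ℝ)) (1 / (2 * l)) * K (-x) h d m l)) := by
    intro h hh d hd'
    rw [LL]
    refine (norm_sum_le _ _).trans ((sum_le_sum fun m hm => hone h hh d hd' m hm).trans ?_)
    rw [← mul_sum]
    refine mul_le_mul_of_nonneg_left ?_ hB
    rw [sum_add_distrib, sum_add_distrib]
    refine add_le_add ?_ (add_le_add (hsum x h d) (hsum (-x) h d))
    rw [sum_const, Nat.card_Icc, nsmul_eq_mul, mul_one]
    have : 2 * M + 1 - M ≤ 2 * M := by omega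
    exact_mod_cast this
  calc ∑ h ∈ Icc 1 H, ∑ d ∈ Icc 1 D, ‖LL p α u v M (2 * M) (hd p x h d)‖ ≤
      ∑ h ∈ Icc 1 H, ∑ d ∈ Icc 1 D, B * (2 * M + (∑ m ∈ Icc 1 (2 * M), ∑ l ∈ Icc 1 q,
          min (1 / (M : ℝ)) (1 / (2 * l)) * K x h d m l +
        ∑ m ∈ Icc 1 (2 * M), ∑ l ∈ Icc 1 q,
          min (1 / (M : ℝ)) (1 / (2 * l)) * K (-x) h d m l)) :=
        sum_le_sum fun h hh => sum_le_sum fun d hd' => hLL h hh d hd'
    _ = B * (2 * (Q * M) + (∑ h ∈ Icc 1 H, ∑ d ∈ Icc 1 D, ∑ m ∈ Icc 1 (2 * M), ∑ l ∈ Icc 1 q,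
          min (1 / (M : ℝ)) (1 / (2 * l)) * K x h d m l +
        ∑ h ∈ Icc 1 H, ∑ d ∈ Icc 1 D, ∑ m ∈ Icc 1 (2 * M), ∑ l ∈ Icc 1 q,
          min (1 / (M : ℝ)) (1 / (2 * l)) * K (-x) h d m l)) := by
        simp only [← mul_sum, sum_add_distrib, sum_const, nsmul_eq_mul, Nat.card_Icc,
          Nat.add_sub_cancel]
        rw [hQ]
        push_cast
        ring
    _ ≤ B * (2 * E + (8 * T ^ 2 * (3 + Real.log p) * E + 8 * T ^ 2 * (3 + Real.log p) * E)) := by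
        refine mul_le_mul_of_nonneg_left ?_ hB
        exact add_le_add (mul_le_mul_of_nonneg_left hQM (by norm_num))
          (add_le_add (hW x hx) (hW (-x) (neg_ne_zero.2 hx)))
    _ ≤ 18 * B * T ^ 2 * (3 + Real.log p) * E := by
        have h1 : 1 ≤ T ^ 2 * (3 + Real.log p) := by
          have h2 : 1 ≤ T ^ 2 := one_le_pow₀ hT1
          nlinarith
        have h3 : B * (2 * E) * 1 ≤ B * (2 * E) * (T ^ 2 * (3 + Real.log p)) :=
          mul_le_mul_of_nonneg_left h1 (by positivity)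
        linarith

end Pool.Agent.EPK
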