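import Pool.Agent.EPK.D5b

/-!
# [EPK-D5c] linear sums: one dyadic block
-/

set_option autoImplicit false

namespace Pool.Agent.EPK

open Finset Pool.Agent.MP_2f88e5_nt

/-- splitting `[1, 2^n)` into dyadic blocks -/
theorem sum_blocks_one (G : ℕ → ℂ) (n : ℕ) :
    ∑ m ∈ Ico 1 (2 ^ n), G m = ∑ i ∈ range n, ∑ m ∈ Ico (2 ^ i) (2 ^ (i + 1)), G m := by
  induction n with
  | zero => simp
  | succ n ih =>
    rw [sum_range_succ, ← ih]
    exact (Finset.sum_Ico_consecutive G (Nat.one_le_two_pow)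
      (Nat.pow_le_pow_right (by norm_num) (by omega))).symm

/-- [D5c] The Type I bound, `m ≤ U ≤ p^(1/4)`.

Proof. Cover `[1, U]` by the blocks `[2^i, 2^(i+1)]`, `2^i ≤ U` (disjointify: the summand for `m` with `2^i ≤ m < 2^(i+1)`;
replace `α` by `α 1_{2^i ≤ m < 2^(i+1), m ≤ U}`), at most `1 + log p / log 2 ≤ 2 (3 + log p)` blocks, `typeI_block` with
`M = 2^i ≤ U ≤ p^(1/4)`: `M^(1/2) p^(3/4) ≤ p^(7/8)`, `M p^(1/2) ≤ p^(3/4)`. (`2 M < p` as `2 p^(1/4) < p` for `p ≥ 3`.) -/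
theorem typeI (p : ℕ) [Fact p.Prime] (hp : 2 < p) (H D U : ℕ) (hH : H < p) (hD : D < p)
    (hU : (U : ℝ) ≤ (p : ℝ) ^ (1 / 4 : ℝ)) (T : ℝ) (hT : TauLE (16 * p ^ 4) T)
    (x : ZMod p) (hx : x ≠ 0) (α : ℕ → ℂ) (B : ℝ) (hB : 0 ≤ B) (hα : ∀ m, ‖α m‖ ≤ B)
    (u v : ℕ → ℕ) (hv : ∀ m, m * v m ≤ p - 1) :
    ∑ h ∈ Icc 1 H, ∑ d ∈ Icc 1 D, ‖LL p α u v 1 U (hd p x h d)‖ ≤
      36 * B * T ^ 2 * (3 + Real.log p) ^ 2 *
        (((H * D : ℕ) : ℝ) ^ (3 / 4 : ℝ) * (p : ℝ) ^ (7 / 8 : ℝ) +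
          ((H * D : ℕ) : ℝ) * (p : ℝ) ^ (3 / 4 : ℝ)) := by
  classical
  have hprime : p.Prime := Fact.out
  have hp0 : (0 : ℝ) < p := by exact_mod_cast hprime.pos
  have hp1 : (1 : ℝ) ≤ p := by exact_mod_cast hprime.one_le
  have hT1 : 1 ≤ T := by
    have h1 : 1 ≤ 16 * p ^ 4 := by
      have := Nat.one_le_pow 4 p hprime.one_le
      omega
    simpa using hT 1 le_rfl h1
  have hlog : 0 ≤ Real.log p := Real.log_nonneg hp1
  set Q : ℝ := ((H * D : ℕ) : ℝ) with hQ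
  have hQ0 : 0 ≤ Q := Nat.cast_nonneg _
  set E : ℝ := Q ^ (3 / 4 : ℝ) * (p : ℝ) ^ (7 / 8 : ℝ) + Q * (p : ℝ) ^ (3 / 4 : ℝ) with hE
  have hE0 : 0 ≤ E := by positivity
  -- the blocks
  have hex : ∃ n, U < 2 ^ n := ⟨U, Nat.lt_two_pow_self⟩
  obtain ⟨n, hn1, hn2⟩ : ∃ n, U < 2 ^ n ∧ ∀ i < n, 2 ^ i ≤ U :=
    ⟨Nat.find hex, Nat.find_spec hex, fun i hi => not_lt.1 (Nat.find_min hex hi)⟩
  have hUp : (U : ℝ) ≤ p := hU.trans (by
    calc (p : ℝ) ^ (1 / 4 : ℝ) ≤ (p : ℝ) ^ (1 : ℝ) :=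
          Real.rpow_le_rpow_of_exponent_le hp1 (by norm_num)
      _ = p := Real.rpow_one _)
  have hnbound : (n : ℝ) ≤ 2 * (3 + Real.log p) := by
    rcases Nat.eq_zero_or_pos n with h0 | h0
    · rw [h0]
      push_cast
      linarith
    · have h1 := hn2 (n - 1) (by omega)
      have h3 : (2 : ℝ) ^ (n - 1) ≤ p := le_trans (by exact_mod_cast h1) hUp
      have h4 : ((n - 1 : ℕ) : ℝ) * Real.log 2 ≤ Real.log p := by
        rw [← Real.log_pow]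
        exact Real.log_le_log (by positivity) h3
      have h5 : ((n - 1 : ℕ) : ℝ) = (n : ℝ) - 1 := by
        rw [Nat.cast_sub h0, Nat.cast_one]
      rw [h5] at h4
      have h6 : (0.69 : ℝ) < Real.log 2 := lt_trans (by norm_num) Real.log_two_gt_d9
      have h7 : (0 : ℝ) ≤ (n : ℝ) - 1 := by
        have : (1 : ℝ) ≤ n := by exact_mod_cast h0
        linarith
      nlinarith
  set αi : ℕ → ℕ → ℂ := fun i m => if m < 2 ^ (i + 1) ∧ m ≤ U then α m else 0 with hαi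
  have hαiB : ∀ i m, ‖αi i m‖ ≤ B := by
    intro i m
    rw [hαi]
    dsimp only
    split_ifs
    · exact hα m
    · rw [norm_zero]; exact hB
  have hsplit : ∀ a : ZMod p, LL p α u v 1 U a =
      ∑ i ∈ range n, LL p (αi i) u v (2 ^ i) (2 * 2 ^ i) a := by
    intro a
    set F : ℕ → ℂ := fun m => ∑ k ∈ Ioc (u m) (v m), ea p (a * ((m : ZMod p) * (k : ZMod p))⁻¹)
      with hF
    have h1 := sum_blocks_one (fun m => if m ≤ U then α m * F m else 0) n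
    have h2 : LL p α u v 1 U a =
        ∑ m ∈ Ico 1 (2 ^ n), if m ≤ U then α m * F m else 0 := by
      rw [← sum_filter]
      have h3 : (Ico 1 (2 ^ n)).filter (fun m => m ≤ U) = Icc 1 U := by
        ext m
        simp only [mem_filter, mem_Ico, mem_Icc]
        constructor
        · rintro ⟨⟨h1, _⟩, h2⟩
          exact ⟨h1, h2⟩
        · rintro ⟨h1, h2⟩
          exact ⟨⟨h1, by omega⟩, h2⟩
      rw [h3]
      rfl
    rw [h2, h1]
    refine sum_congr rfl fun i _ => ?_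
    rw [LL]
    have hsub : Ico (2 ^ i) (2 ^ (i + 1)) ⊆ Icc (2 ^ i) (2 * 2 ^ i) := by
      intro m hm
      rw [mem_Ico, pow_succ] at hm
      rw [mem_Icc]
      omega
    symm
    rw [← Finset.sum_subset hsub]
    · refine sum_congr rfl fun m hm => ?_
      rw [mem_Ico] at hm
      rw [hαi]
      dsimp only
      by_cases hmU : m ≤ U
      · rw [if_pos ⟨hm.2, hmU⟩, if_pos hmU]
      · rw [if_neg (fun h => hmU h.2), if_neg hmU, zero_mul]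
    · intro m hm hm2
      rw [mem_Icc] at hm
      rw [mem_Ico] at hm2
      have h3 : ¬ m < 2 ^ (i + 1) := fun h => hm2 ⟨hm.1, h⟩
      rw [hαi]
      dsimp only
      rw [if_neg (fun h => h3 h.1), zero_mul]
  have hblock : ∀ i ∈ range n,
      ∑ h ∈ Icc 1 H, ∑ d ∈ Icc 1 D, ‖LL p (αi i) u v (2 ^ i) (2 * 2 ^ i) (hd p x h d)‖ ≤
      18 * B * T ^ 2 * (3 + Real.log p) * E := by
    intro i hi
    have hi' := hn2 i (mem_range.1 hi)
    set M := 2 ^ i with hM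
    have hM1 : 1 ≤ M := Nat.one_le_two_pow
    have hM0 : (0 : ℝ) < M := by exact_mod_cast hM1
    have hMU : (M : ℝ) ≤ (p : ℝ) ^ (1 / 4 : ℝ) := le_trans (by exact_mod_cast hi') hU
    have hM4 : M ^ 4 ≤ p := by
      have h1 : (M : ℝ) ^ 4 ≤ ((p : ℝ) ^ (1 / 4 : ℝ)) ^ 4 := pow_le_pow_left₀ hM0.le hMU 4
      rw [← Real.rpow_natCast ((p : ℝ) ^ (1 / 4 : ℝ)) 4, ← Real.rpow_mul hp0.le] at h1
      norm_num at h1
      exact_mod_cast h1
    have hMp : 2 * M < p := by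
      rcases Nat.lt_or_ge 1 M with h2 | h2
      · have h3 : 2 ^ 3 * M ≤ M ^ 3 * M := Nat.mul_le_mul_right _ (Nat.pow_le_pow_left h2 3)
        have h4 : M ^ 3 * M = M ^ 4 := by ring
        omega
      · omega
    refine (typeI_block p hp H D M hH hD hM1 hMp T hT x hx (αi i) B hB (hαiB i) u v hv).trans ?_
    refine mul_le_mul_of_nonneg_left ?_ (by positivity)
    rw [← hQ, hE]
    have c1 : (M : ℝ) ^ (1 / 2 : ℝ) * (p : ℝ) ^ (3 / 4 : ℝ) ≤ (p : ℝ) ^ (7 / 8 : ℝ) := by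
      calc (M : ℝ) ^ (1 / 2 : ℝ) * (p : ℝ) ^ (3 / 4 : ℝ) ≤
            ((p : ℝ) ^ (1 / 4 : ℝ)) ^ (1 / 2 : ℝ) * (p : ℝ) ^ (3 / 4 : ℝ) :=
            mul_le_mul_of_nonneg_right (Real.rpow_le_rpow hM0.le hMU (by norm_num)) (by positivity)
        _ = (p : ℝ) ^ (7 / 8 : ℝ) := by
            rw [← Real.rpow_mul hp0.le, ← Real.rpow_add hp0]; norm_num
    have c2 : (M : ℝ) * (p : ℝ) ^ (1 / 2 : ℝ) ≤ (p : ℝ) ^ (3 / 4 : ℝ) := by
      calc (M : ℝ) * (p : ℝ) ^ (1 / 2 : ℝ) ≤ (p : ℝ) ^ (1 / 4 : ℝ) * (p : ℝ) ^ (1 / 2 : ℝ) :=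
            mul_le_mul_of_nonneg_right hMU (by positivity)
        _ = (p : ℝ) ^ (3 / 4 : ℝ) := by
            rw [← Real.rpow_add hp0]; norm_num
    rw [mul_assoc (Q ^ (3 / 4 : ℝ)), mul_assoc Q]
    exact add_le_add (mul_le_mul_of_nonneg_left c1 (by positivity))
      (mul_le_mul_of_nonneg_left c2 hQ0)
  calc ∑ h ∈ Icc 1 H, ∑ d ∈ Icc 1 D, ‖LL p α u v 1 U (hd p x h d)‖ ≤
      ∑ h ∈ Icc 1 H, ∑ d ∈ Icc 1 D, ∑ i ∈ range n,
        ‖LL p (αi i) u v (2 ^ i) (2 * 2 ^ i) (hd p x h d)‖ := by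
        refine sum_le_sum fun h _ => sum_le_sum fun d _ => ?_
        rw [hsplit]
        exact norm_sum_le _ _
    _ = ∑ i ∈ range n, ∑ h ∈ Icc 1 H, ∑ d ∈ Icc 1 D,
        ‖LL p (αi i) u v (2 ^ i) (2 * 2 ^ i) (hd p x h d)‖ := by
        symm
        rw [sum_comm]
        refine sum_congr rfl fun h _ => ?_
        rw [sum_comm]
    _ ≤ ∑ i ∈ range n, 18 * B * T ^ 2 * (3 + Real.log p) * E := sum_le_sum hblock
    _ = (n : ℝ) * (18 * B * T ^ 2 * (3 + Real.log p) * E) := by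
        rw [sum_const, card_range, nsmul_eq_mul]
    _ ≤ (2 * (3 + Real.log p)) * (18 * B * T ^ 2 * (3 + Real.log p) * E) :=
        mul_le_mul_of_nonneg_right hnbound (by positivity)
    _ = 36 * B * T ^ 2 * (3 + Real.log p) ^ 2 * E := by ring

end Pool.Agent.EPK
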