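import Pool.Agent.EPK.D3
import Pool.Agent.EPK.D5
import Pool.Agent.EPK.V2
import Pool.Agent.Lib.helper69.DivisorBound

/-!
# [EPK-E1a] the central bound
-/

set_option autoImplicit false

namespace Pool.Agent.EPK

open Finset Pool.Agent.MP_2f88e5_nt

/-- [E1a] The divisor bound in the form used here: `τ(n) ≤ C p^ε` for `n ≤ 16 p⁴`. (`card_divisors_le_rpow` in
`Pool/Agent/Lib/helper69/DivisorBound.lean` with `ε / 4`, `16^(ε/4) ≤ 16`... absorb into `C`.) -/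
theorem tau_le (ε : ℝ) (hε : 0 < ε) : ∃ C : ℝ, 1 ≤ C ∧ ∀ p : ℕ, 1 ≤ p →
    TauLE (16 * p ^ 4) (C * (p : ℝ) ^ ε) := by
  obtain ⟨K, hK0, hK⟩ := Pool.Agent.Lib.helper69.card_divisors_le_rpow (ε / 4) (by linarith)
  refine ⟨max 1 (K * (16 : ℝ) ^ (ε / 4)), le_max_left _ _, fun p hp n hn1 hn2 => ?_⟩
  have hp0 : (0 : ℝ) < p := by exact_mod_cast hp
  have h1 := hK n (by omega)
  have h2 : (n : ℝ) ≤ 16 * (p : ℝ) ^ 4 := by exact_mod_cast hn2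
  have h3 : (n : ℝ) ^ (ε / 4) ≤ (16 : ℝ) ^ (ε / 4) * (p : ℝ) ^ ε := by
    calc (n : ℝ) ^ (ε / 4) ≤ (16 * (p : ℝ) ^ 4) ^ (ε / 4) :=
          Real.rpow_le_rpow (by positivity) h2 (by linarith)
      _ = (16 : ℝ) ^ (ε / 4) * ((p : ℝ) ^ 4) ^ (ε / 4) :=
          Real.mul_rpow (by norm_num) (by positivity)
      _ = (16 : ℝ) ^ (ε / 4) * (p : ℝ) ^ ε := by
          rw [← Real.rpow_natCast, ← Real.rpow_mul hp0.le]
          congr 2
          push_cast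
          ring
  calc (n.divisors.card : ℝ) ≤ K * (n : ℝ) ^ (ε / 4) := h1
    _ ≤ K * ((16 : ℝ) ^ (ε / 4) * (p : ℝ) ^ ε) := by gcongr
    _ = (K * (16 : ℝ) ^ (ε / 4)) * (p : ℝ) ^ ε := by ring
    _ ≤ max 1 (K * (16 : ℝ) ^ (ε / 4)) * (p : ℝ) ^ ε := by
        gcongr
        exact le_max_right _ _

/-- [E1b] Logarithms are absorbed: `(3 + log p)^j ≤ C p^ε`. (`Real.log_le_rpow_div`, or
`Real.add_one_le_exp`.) -/
theorem log_absorb (ε : ℝ) (hε : 0 < ε) (j : ℕ) : ∃ C : ℝ, 1 ≤ C ∧ ∀ p : ℕ, 1 ≤ p →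
    (3 + Real.log p) ^ j ≤ C * (p : ℝ) ^ ε := by
  set δ : ℝ := ε / (j + 1) with hδ
  have hj : (0 : ℝ) < (j : ℝ) + 1 := by positivity
  have hδ0 : 0 < δ := by rw [hδ]; positivity
  refine ⟨(3 + 1 / δ) ^ j, ?_, fun p hp => ?_⟩
  · refine one_le_pow₀ ?_
    have : 0 < 1 / δ := by positivity
    linarith
  have hp0 : (0 : ℝ) < p := by exact_mod_cast hp
  have hp1 : (1 : ℝ) ≤ p := by exact_mod_cast hp
  have h1 : Real.log p ≤ (p : ℝ) ^ δ / δ := Real.log_le_rpow_div hp0.le hδ0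
  have h2 : (1 : ℝ) ≤ (p : ℝ) ^ δ := Real.one_le_rpow hp1 hδ0.le
  have h3 : 3 + Real.log p ≤ (3 + 1 / δ) * (p : ℝ) ^ δ := by
    have h4 : (p : ℝ) ^ δ / δ = 1 / δ * (p : ℝ) ^ δ := by ring
    nlinarith
  have h5 : 0 ≤ 3 + Real.log p := by
    have := Real.log_nonneg hp1
    linarith
  calc (3 + Real.log p) ^ j ≤ ((3 + 1 / δ) * (p : ℝ) ^ δ) ^ j := by gcongr
    _ = (3 + 1 / δ) ^ j * (p : ℝ) ^ (δ * j) := by
        rw [mul_pow, ← Real.rpow_natCast ((p : ℝ) ^ δ) j, ← Real.rpow_mul hp0.le]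
    _ ≤ (3 + 1 / δ) ^ j * (p : ℝ) ^ ε := by
        have h6 : δ * j ≤ ε := by
          rw [hδ, div_mul_eq_mul_div, div_le_iff₀ hj]
          nlinarith
        have h7 : (p : ℝ) ^ (δ * j) ≤ (p : ℝ) ^ ε := Real.rpow_le_rpow_of_exponent_le hp1 h6
        have h8 : 0 ≤ (3 + 1 / δ) ^ j := by positivity
        gcongr

end Pool.Agent.EPK
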