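import Pool.Agent.EPK.C2
import Pool.Agent.EPK.E1

/-!
# [EPK-E2a] the level of distribution
-/

set_option autoImplicit false

namespace Pool.Agent.EPK

open Finset Pool.Agent.MP_2f88e5_nt

/-- `∑_{n < p} Λ(n)` -/
noncomputable def PS (p : ℕ) : ℝ := ∑ n ∈ Icc 1 (p - 1), ArithmeticFunction.vonMangoldt n

/-- [E2a] `‖TT (-a)‖ = ‖TT a‖` (conjugate; `ea_neg`, the weights are real). -/
theorem norm_TT_neg (p : ℕ) [Fact p.Prime] (a : ZMod p) : ‖TT p (-a)‖ = ‖TT p a‖ := by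
  have h : TT p (-a) = (starRingEnd ℂ) (TT p a) := by
    unfold TT
    rw [map_sum]
    refine sum_congr rfl fun n _ => ?_
    rw [map_mul, Complex.conj_ofReal, neg_mul, ea_neg]
  rw [h, RCLike.norm_conj]

/-- [E2b] The residue condition: for `1 ≤ d`, `Y < p`, `1 ≤ n < p`: `d ∣ rr p x n` and `rr p x n ≤ Y` if and only if `x / (d n)` is one
of `1, ..., ⌊Y / d⌋` modulo `p`.

Proof. `rr p x n` is the number in `[0, p)` congruent to `x / n`; it is not `0` as `x ≠ 0`. If it is `d k ≤ Y` then `1 ≤ k ≤ Y / d` and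
`x / (d n) = k` in `ZMod p` (`d` is a unit, as `0 < d < p`). Conversely `x / n = d k` in `ZMod p` and `d k ≤ Y < p`, so
`rr p x n = d k` (`ZMod.val_cast_of_lt`/`ZMod.val_natCast_of_lt`). -/
theorem rr_iff (p : ℕ) [Fact p.Prime] (x : ZMod p) (hx : x ≠ 0) (Y d n : ℕ) (hY : Y < p)
    (hd1 : 1 ≤ d) (hdp : d < p) (hn1 : 1 ≤ n) (hn : n < p) :
    (d ∣ rr p x n ∧ rr p x n ≤ Y) ↔
      ∃ k ∈ Ioc 0 (Y / d), (k : ZMod p) = x * ((d : ZMod p))⁻¹ * ((n : ZMod p))⁻¹ := by
  have hdz : (d : ZMod p) ≠ 0 := by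
    rw [Ne, ZMod.natCast_eq_zero_iff]
    exact fun h => absurd (Nat.le_of_dvd (by omega) h) (by omega)
  have hnz : (n : ZMod p) ≠ 0 := by
    rw [Ne, ZMod.natCast_eq_zero_iff]
    exact fun h => absurd (Nat.le_of_dvd (by omega) h) (by omega)
  have hr : ((rr p x n : ℕ) : ZMod p) = x * ((n : ZMod p))⁻¹ := ZMod.natCast_zmod_val _
  constructor
  · rintro ⟨⟨k, hk⟩, hY2⟩
    refine ⟨k, ?_, ?_⟩
    · rw [mem_Ioc]
      constructor
      · rw [Nat.pos_iff_ne_zero]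
        rintro rfl
        rw [mul_zero] at hk
        rw [hk, Nat.cast_zero] at hr
        exact (mul_ne_zero hx (inv_ne_zero hnz)) hr.symm
      · rw [Nat.le_div_iff_mul_le (by omega), mul_comm, ← hk]
        exact hY2
    · rw [hk, Nat.cast_mul] at hr
      have h1 : (k : ZMod p) = (d : ZMod p) * (k : ZMod p) * ((d : ZMod p))⁻¹ := by
        field_simp
      rw [h1, hr]
      ring
  · rintro ⟨k, hk, hkx⟩
    rw [mem_Ioc, Nat.le_div_iff_mul_le (by omega)] at hk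
    have h1 : x * ((n : ZMod p))⁻¹ = ((d * k : ℕ) : ZMod p) := by
      rw [Nat.cast_mul, hkx]
      field_simp
    have h2 : rr p x n = d * k := by
      unfold rr
      rw [h1, ZMod.val_natCast_of_lt]
      rw [mul_comm]
      omega
    rw [h2]
    refine ⟨Dvd.intro _ rfl, ?_⟩
    rw [mul_comm]
    exact hk.2

end Pool.Agent.EPK
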