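import Pool.Agent.EPK.E2a

/-!
# [EPK-E2b] the level of distribution
-/

set_option autoImplicit false

namespace Pool.Agent.EPK

open Finset Pool.Agent.MP_2f88e5_nt

/-- [E2c] The Fourier expansion of `AA`.

Proof. By `rr_iff`, `AA = ∑_n Λ(n) #{k ∈ (0, Y/d] : k = x / (d n)} = ∑_{k} f k`, `f r = ∑_n Λ(n) 1_{r = x/(d n)}` (at most one `k` for
each `n`, as `Y / d < p`). `fourier_interval` for `f`: `∑_r f r ea (t r) = ∑_n Λ(n) ea (t x / (d n)) = TT p (t x / d)`. The term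
`t = 0` is `p⁻¹ (Y / d) PS p`. The other terms: `sum_nonzero`, `interval_bound` and the trivial bound `Y / d` for the sum over
`k`: `p⁻¹ min (Y / d) (p / (2 h)) ≤ min (Y / (d p)) (1 / (2 h))`, `norm_TT_neg`, `h x / d = hd p x h d`. -/
theorem AA_fourier (p : ℕ) [Fact p.Prime] (hp : 2 < p) (x : ZMod p) (hx : x ≠ 0) (Y d : ℕ)
    (hY : Y < p) (hd1 : 1 ≤ d) (hdp : d < p) :
    |AA p x Y d - PS p * ((Y / d : ℕ) : ℝ) / p| ≤ 2 * ∑ h ∈ Icc 1 ((p - 1) / 2),
      min ((Y : ℝ) / (d * p)) (1 / (2 * h)) * ‖TT p (hd p x h d)‖ := by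
  classical
  have hpp : p.Prime := Fact.out
  have hp0 : (0 : ℝ) < p := by exact_mod_cast hpp.pos
  have hpc : (p : ℂ) ≠ 0 := by exact_mod_cast hpp.ne_zero
  set K : ℕ := Y / d with hK
  have hKp : K < p := by
    have : K ≤ Y := Nat.div_le_self _ _
    omega
  set f : ZMod p → ℂ := fun r => ∑ n ∈ Icc 1 (p - 1),
    if r = x * ((d : ZMod p))⁻¹ * ((n : ZMod p))⁻¹ then
      ((ArithmeticFunction.vonMangoldt n : ℝ) : ℂ) else 0 with hf
  -- `AA` as a sum of `f`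
  have h1 : ((AA p x Y d : ℝ) : ℂ) = ∑ k ∈ Ioc 0 K, f (k : ZMod p) := by
    simp only [hf]
    rw [sum_comm]
    unfold AA
    rw [sum_filter, Complex.ofReal_sum]
    refine sum_congr rfl fun n hn => ?_
    rw [mem_Icc] at hn
    have h2 := rr_iff p x hx Y d n hY hd1 hdp hn.1 (by omega)
    by_cases h : d ∣ rr p x n ∧ rr p x n ≤ Y
    · rw [if_pos h]
      obtain ⟨k, hk, hkx⟩ := h2.1 h
      rw [sum_eq_single k]
      · rw [if_pos hkx]
      · intro j hj hjk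
        rw [if_neg]
        intro hjx
        apply hjk
        have h3 : (j : ZMod p) = (k : ZMod p) := hjx.trans hkx.symm
        rw [mem_Ioc] at hj hk
        have h4 := (ZMod.natCast_eq_natCast_iff' _ _ _).1 h3
        rwa [Nat.mod_eq_of_lt (by omega), Nat.mod_eq_of_lt (by omega)] at h4
      · intro h3
        exact absurd hk h3
    · rw [if_neg h, Complex.ofReal_zero]
      symm
      refine sum_eq_zero fun k hk => ?_
      rw [if_neg]
      intro hkx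
      exact h (h2.2 ⟨k, hk, hkx⟩)
  -- the Fourier transform of `f`
  have h2 : ∀ t : ZMod p, ∑ r : ZMod p, f r * ea p (t * r) =
      TT p (t * (x * ((d : ZMod p))⁻¹)) := by
    intro t
    simp only [hf, sum_mul]
    rw [sum_comm]
    unfold TT
    refine sum_congr rfl fun n _ => ?_
    rw [sum_eq_single (x * ((d : ZMod p))⁻¹ * ((n : ZMod p))⁻¹)]
    · rw [if_pos rfl]
      congr 2
      ring
    · intro r _ hr
      rw [if_neg hr, zero_mul]
    · intro h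
      exact absurd (mem_univ _) h
  have h3 := fourier_interval p 0 K f
  rw [← h1] at h3
  simp only [h2] at h3
  set S : ZMod p → ℂ := fun t => ∑ k ∈ Ioc 0 K, ea p (-t * (k : ZMod p)) with hS
  -- the term `t = 0`
  have hea0 : ea p 0 = 1 := by
    unfold ea
    exact AddChar.map_zero_eq_one _
  have h4 : TT p ((0 : ZMod p) * (x * ((d : ZMod p))⁻¹)) = ((PS p : ℝ) : ℂ) := by
    unfold TT PS
    rw [Complex.ofReal_sum]
    refine sum_congr rfl fun n _ => ?_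
    rw [zero_mul, zero_mul, hea0, mul_one]
  have h5 : S 0 = (K : ℂ) := by
    rw [hS]
    simp only [neg_zero, zero_mul, hea0, sum_const, Nat.card_Ioc, nsmul_eq_mul, mul_one,
      Nat.sub_zero]
  have h6 : ((AA p x Y d - PS p * (K : ℝ) / p : ℝ) : ℂ) = (p : ℂ)⁻¹ *
      ∑ t ∈ univ.erase (0 : ZMod p), TT p (t * (x * ((d : ZMod p))⁻¹)) * S t := by
    have h7 : ∑ t : ZMod p, TT p (t * (x * ((d : ZMod p))⁻¹)) * S t =
        ((PS p : ℝ) : ℂ) * (K : ℂ) +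
        ∑ t ∈ univ.erase (0 : ZMod p), TT p (t * (x * ((d : ZMod p))⁻¹)) * S t := by
      rw [← add_sum_erase univ _ (mem_univ (0 : ZMod p)), h4, h5]
    have h3' : ((AA p x Y d : ℝ) : ℂ) = (p : ℂ)⁻¹ *
        ∑ t : ZMod p, TT p (t * (x * ((d : ZMod p))⁻¹)) * S t := h3
    push_cast
    linear_combination h3' + (p : ℂ)⁻¹ * h7
  have h8 : |AA p x Y d - PS p * (K : ℝ) / p| ≤ (p : ℝ)⁻¹ *
      ∑ t ∈ univ.erase (0 : ZMod p), ‖TT p (t * (x * ((d : ZMod p))⁻¹))‖ * ‖S t‖ := by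
    have h9 : |AA p x Y d - PS p * (K : ℝ) / p| =
        ‖((AA p x Y d - PS p * (K : ℝ) / p : ℝ) : ℂ)‖ := by
      rw [Complex.norm_real, Real.norm_eq_abs]
    rw [h9, h6, norm_mul, norm_inv, Complex.norm_natCast]
    gcongr
    refine le_trans (norm_sum_le _ _) (le_of_eq ?_)
    refine sum_congr rfl fun t _ => ?_
    rw [norm_mul]
  refine le_trans h8 ?_
  rw [sum_nonzero p hp (fun t => ‖TT p (t * (x * ((d : ZMod p))⁻¹))‖ * ‖S t‖), mul_sum, mul_sum]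
  refine sum_le_sum fun h hh => ?_
  rw [mem_Icc] at hh
  have hh0 : (0 : ℝ) < h := by exact_mod_cast hh.1
  have hd0 : (0 : ℝ) < d := by exact_mod_cast hd1
  have hhp : 2 * h < p := by omega
  have t1 : TT p ((h : ZMod p) * (x * ((d : ZMod p))⁻¹)) = TT p (hd p x h d) := by
    unfold hd
    congr 1
    ring
  have t2 : ‖TT p (-(h : ZMod p) * (x * ((d : ZMod p))⁻¹))‖ = ‖TT p (hd p x h d)‖ := by
    rw [neg_mul, norm_TT_neg, t1]
  have hK1 : (K : ℝ) ≤ (Y : ℝ) / d := Nat.cast_div_le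
  have striv : ∀ t : ZMod p, ‖S t‖ ≤ (Y : ℝ) / d := by
    intro t
    rw [hS]
    refine le_trans (norm_sum_le _ _) ?_
    refine le_trans (le_of_eq ?_) hK1
    simp only [norm_ea, sum_const, Nat.card_Ioc, nsmul_eq_mul, mul_one, Nat.sub_zero]
  have s1 : ‖S (h : ZMod p)‖ ≤ (p : ℝ) / (2 * h) :=
    interval_bound p h 0 K hh.1 hhp (-(h : ZMod p)) (Or.inr rfl)
  have s2 : ‖S (-(h : ZMod p))‖ ≤ (p : ℝ) / (2 * h) := by
    have := interval_bound p h 0 K hh.1 hhp (-(-(h : ZMod p))) (Or.inl (neg_neg _))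
    exact this
  have hmin : ∀ y : ℝ, y ≤ (Y : ℝ) / d → y ≤ (p : ℝ) / (2 * h) →
      (p : ℝ)⁻¹ * y ≤ min ((Y : ℝ) / (d * p)) (1 / (2 * h)) := by
    intro y hy1 hy2
    refine le_min ?_ ?_
    · calc (p : ℝ)⁻¹ * y ≤ (p : ℝ)⁻¹ * ((Y : ℝ) / d) := by gcongr
        _ = (Y : ℝ) / (d * p) := by field_simp
    · calc (p : ℝ)⁻¹ * y ≤ (p : ℝ)⁻¹ * ((p : ℝ) / (2 * h)) := by gcongr
        _ = 1 / (2 * h) := by field_simp
  have u1 := hmin _ (striv (h : ZMod p)) s1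
  have u2 := hmin _ (striv (-(h : ZMod p))) s2
  have hTT0 : 0 ≤ ‖TT p (hd p x h d)‖ := norm_nonneg _
  simp only [t1, t2]
  calc (p : ℝ)⁻¹ * (‖TT p (hd p x h d)‖ * ‖S (h : ZMod p)‖ +
        ‖TT p (hd p x h d)‖ * ‖S (-(h : ZMod p))‖)
      = ((p : ℝ)⁻¹ * ‖S (h : ZMod p)‖ + (p : ℝ)⁻¹ * ‖S (-(h : ZMod p))‖) *
          ‖TT p (hd p x h d)‖ := by ring
    _ ≤ (min ((Y : ℝ) / (d * p)) (1 / (2 * h)) + min ((Y : ℝ) / (d * p)) (1 / (2 * h))) *
          ‖TT p (hd p x h d)‖ := by gcongr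
    _ = _ := by ring

end Pool.Agent.EPK
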