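import Pool.Agent.EPK.E2

/-!
# [EPK-E3a] the level of distribution: dyadic decomposition
-/

set_option autoImplicit false

namespace Pool.Agent.EPK

open Finset Pool.Agent.MP_2f88e5_nt

/-- [E3a] A general dyadic decomposition of a double sum of nonnegative terms.

Proof. Every `h ∈ [1, P]` lies in exactly one block `i = Nat.clog 2 h`: `2^(i-1) < h ≤ 2^i` (for `h = 1`: `i = 0`), and there
`1 / (2 h) ≤ 1 / 2^i`; similarly `d` with `j = Nat.clog 2 d`: `1 / d ≤ 2 / 2^j`. (`Finset.sum_le_sum_of_subset`-type: bound the sum over the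
block of `(i, j)` by the sum over all `h ≤ 2^i`, `d ≤ 2^j`; sum over the values of `i`, `j`: `Finset.sum_fiberwise_of_maps_to`.) -/
theorem dyadic (P D : ℕ) (c : ℝ) (hc : 0 ≤ c) (f : ℕ → ℕ → ℝ) (hf : ∀ h d, 0 ≤ f h d) :
    ∑ d ∈ Icc 1 D, ∑ h ∈ Icc 1 P, min (c / d) (1 / (2 * h)) * f h d ≤
      ∑ i ∈ range (Nat.clog 2 P + 1), ∑ j ∈ range (Nat.clog 2 D + 1),
        min (2 * c / 2 ^ j) (1 / 2 ^ i) * ∑ h ∈ Icc 1 (2 ^ i), ∑ d ∈ Icc 1 (2 ^ j), f h d := by
  -- for a single number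
  have hblock : ∀ n : ℕ, 1 ≤ n → n ≤ 2 ^ (Nat.clog 2 n) ∧ 2 ^ (Nat.clog 2 n) ≤ 2 * n := by
    intro n hn
    refine ⟨Nat.le_pow_clog (by norm_num) n, ?_⟩
    rcases Nat.lt_or_ge 1 n with h1 | h1
    · have h2 := Nat.pow_pred_clog_lt_self (b := 2) (by norm_num) h1
      have h3 : 0 < Nat.clog 2 n := Nat.clog_pos (by norm_num) h1
      have h4 : 2 ^ (Nat.clog 2 n) = 2 * 2 ^ (Nat.clog 2 n).pred := by
        conv_lhs => rw [← Nat.succ_pred_eq_of_pos h3, pow_succ]
        ring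
      rw [h4]
      omega
    · have : n = 1 := by omega
      subst this
      simp
  have hmaps1 : ∀ h ∈ Icc 1 P, Nat.clog 2 h ∈ range (Nat.clog 2 P + 1) := by
    intro h hh
    rw [mem_Icc] at hh
    rw [mem_range]
    have := Nat.clog_mono_right 2 hh.2
    omega
  have hmaps2 : ∀ h ∈ Icc 1 D, Nat.clog 2 h ∈ range (Nat.clog 2 D + 1) := by
    intro h hh
    rw [mem_Icc] at hh
    rw [mem_range]
    have := Nat.clog_mono_right 2 hh.2
    omega
  rw [sum_comm, ← sum_fiberwise_of_maps_to hmaps1]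
  refine sum_le_sum fun i _ => ?_
  rw [sum_comm' (s' := fun _ => (Icc 1 P).filter (fun h => Nat.clog 2 h = i)) (t' := Icc 1 D)
    (by
      intro x y
      simp only [mem_filter])]
  rw [← sum_fiberwise_of_maps_to hmaps2]
  refine sum_le_sum fun j _ => ?_
  have hterm : ∀ d ∈ (Icc 1 D).filter (fun d => Nat.clog 2 d = j),
      ∀ h ∈ (Icc 1 P).filter (fun h => Nat.clog 2 h = i),
      min (c / d) (1 / (2 * h)) * f h d ≤ min (2 * c / 2 ^ j) (1 / 2 ^ i) * f h d := by
    intro d hd h hh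
    rw [mem_filter, mem_Icc] at hd hh
    obtain ⟨⟨hd1, hd2⟩, hd3⟩ := hd
    obtain ⟨⟨hh1, hh2⟩, hh3⟩ := hh
    have hd4 := (hblock d hd1).2
    have hh4 := (hblock h hh1).2
    rw [hd3] at hd4
    rw [hh3] at hh4
    have hd0 : (0 : ℝ) < d := by exact_mod_cast hd1
    have hh0 : (0 : ℝ) < h := by exact_mod_cast hh1
    have hd5 : (2 : ℝ) ^ j ≤ 2 * d := by exact_mod_cast hd4
    have hh5 : (2 : ℝ) ^ i ≤ 2 * h := by exact_mod_cast hh4
    refine mul_le_mul_of_nonneg_right (min_le_min ?_ ?_) (hf h d)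
    · rw [div_le_div_iff₀ hd0 (by positivity)]
      nlinarith
    · exact one_div_le_one_div_of_le (by positivity) hh5
  calc ∑ d ∈ (Icc 1 D).filter (fun d => Nat.clog 2 d = j),
        ∑ h ∈ (Icc 1 P).filter (fun h => Nat.clog 2 h = i), min (c / d) (1 / (2 * h)) * f h d
      ≤ ∑ d ∈ (Icc 1 D).filter (fun d => Nat.clog 2 d = j),
        ∑ h ∈ (Icc 1 P).filter (fun h => Nat.clog 2 h = i),
          min (2 * c / 2 ^ j) (1 / 2 ^ i) * f h d :=
        sum_le_sum fun d hd => sum_le_sum fun h hh => hterm d hd h hh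
    _ = min (2 * c / 2 ^ j) (1 / 2 ^ i) *
        ∑ h ∈ (Icc 1 P).filter (fun h => Nat.clog 2 h = i),
          ∑ d ∈ (Icc 1 D).filter (fun d => Nat.clog 2 d = j), f h d := by
        rw [sum_comm, mul_sum]
        refine sum_congr rfl fun h _ => ?_
        rw [mul_sum]
    _ ≤ _ := by
        have h0 : (0 : ℝ) ≤ min (2 * c / 2 ^ j) (1 / 2 ^ i) := by positivity
        refine mul_le_mul_of_nonneg_left ?_ h0
        have hs1 : (Icc 1 P).filter (fun h => Nat.clog 2 h = i) ⊆ Icc 1 (2 ^ i) := by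
          intro h hh
          rw [mem_filter, mem_Icc] at hh
          rw [mem_Icc]
          refine ⟨hh.1.1, ?_⟩
          have := (hblock h hh.1.1).1
          rwa [hh.2] at this
        have hs2 : (Icc 1 D).filter (fun h => Nat.clog 2 h = j) ⊆ Icc 1 (2 ^ j) := by
          intro h hh
          rw [mem_filter, mem_Icc] at hh
          rw [mem_Icc]
          refine ⟨hh.1.1, ?_⟩
          have := (hblock h hh.1.1).1
          rwa [hh.2] at this
        calc ∑ h ∈ (Icc 1 P).filter (fun h => Nat.clog 2 h = i),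
              ∑ d ∈ (Icc 1 D).filter (fun d => Nat.clog 2 d = j), f h d
            ≤ ∑ h ∈ (Icc 1 P).filter (fun h => Nat.clog 2 h = i),
              ∑ d ∈ Icc 1 (2 ^ j), f h d :=
              sum_le_sum fun h _ => sum_le_sum_of_subset_of_nonneg hs2 fun _ _ _ => hf _ _
          _ ≤ ∑ h ∈ Icc 1 (2 ^ i), ∑ d ∈ Icc 1 (2 ^ j), f h d :=
              sum_le_sum_of_subset_of_nonneg hs1 fun _ _ _ => sum_nonneg fun _ _ => hf _ _

end Pool.Agent.EPK
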