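import Pool.Agent.EPK.E3a

/-!
# [EPK-E3b] the level of distribution: dyadic decomposition
-/

set_option autoImplicit false

namespace Pool.Agent.EPK

open Finset Pool.Agent.MP_2f88e5_nt

theorem e3b_PS (p : ℕ) (hp : 1 ≤ p) : 0 ≤ PS p ∧ PS p ≤ 6 * p := by
  have l2 : Real.log 2 < 0.6931471808 := Real.log_two_lt_d9
  have h0 : PS p = Chebyshev.psi ((p - 1 : ℕ) : ℝ) := by
    unfold PS Chebyshev.psi
    rw [Nat.floor_natCast]
    rfl
  have hc : ((p - 1 : ℕ) : ℝ) ≤ p := by exact_mod_cast (by omega : p - 1 ≤ p)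
  refine ⟨sum_nonneg fun _ _ => ArithmeticFunction.vonMangoldt_nonneg, ?_⟩
  rw [h0]
  have h1 := Chebyshev.psi_le_const_mul_self (x := ((p - 1 : ℕ) : ℝ)) (by positivity)
  refine le_trans h1 ?_
  have h2 : Real.log 4 = 2 * Real.log 2 := by
    rw [show (4 : ℝ) = 2 ^ 2 by norm_num, Real.log_pow]
    norm_num
  rw [h2]
  have h3 : (0 : ℝ) ≤ ((p - 1 : ℕ) : ℝ) := by positivity
  nlinarith

theorem e3b_clog (n : ℕ) (hn : 1 ≤ n) : 2 ^ (Nat.clog 2 n) ≤ 2 * n := by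
  rcases Nat.lt_or_ge 1 n with h1 | h1
  · have h2 := Nat.pow_pred_clog_lt_self (b := 2) (by norm_num) h1
    have h3 : 0 < Nat.clog 2 n := Nat.clog_pos (by norm_num) h1
    have h4 : 2 ^ (Nat.clog 2 n) = 2 * 2 ^ (Nat.clog 2 n).pred := by
      conv_lhs => rw [← Nat.succ_pred_eq_of_pos h3, pow_succ]
      ring
    rw [h4]
    omega
  · have : n = 1 := by omega
    subst this
    simp

/-- number of dyadic blocks -/
theorem e3b_blocks (n p : ℕ) (hn : 1 ≤ n) (hnp : 2 * n ≤ p) :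
    ((Nat.clog 2 n + 1 : ℕ) : ℝ) ≤ 2 * (3 + Real.log p) := by
  have h1 := (e3b_clog n hn).trans hnp
  have l1 : 0.6931471803 < Real.log 2 := Real.log_two_gt_d9
  have h2 : (Nat.clog 2 n : ℝ) * Real.log 2 ≤ Real.log p := by
    rw [← Real.log_pow]
    refine Real.log_le_log (by positivity) ?_
    exact_mod_cast h1
  have h3 : (0 : ℝ) ≤ (Nat.clog 2 n : ℝ) := Nat.cast_nonneg _
  push_cast
  nlinarith

/-- `min a b ≤ a^(1/4) b^(3/4)` -/
theorem e3b_min (a b : ℝ) (ha : 0 ≤ a) (hb : 0 ≤ b) :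
    min a b ≤ a ^ (1 / 4 : ℝ) * b ^ (3 / 4 : ℝ) := by
  have hm : 0 ≤ min a b := le_min ha hb
  calc min a b = (min a b) ^ (1 / 4 : ℝ) * (min a b) ^ (3 / 4 : ℝ) := by
        rw [← Real.rpow_add_of_nonneg hm (by norm_num) (by norm_num)]
        norm_num
    _ ≤ a ^ (1 / 4 : ℝ) * b ^ (3 / 4 : ℝ) := by
        gcongr
        · exact min_le_left _ _
        · exact min_le_right _ _

/-- [E3b] The level of distribution.

Proof. Sum `AA_fourier` over `d ≤ D`, `dyadic` with `P = (p - 1) / 2`, `c = Y / p`, `f h d = ‖TT p (hd p x h d)‖`. In the block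
`(i, j)`: `H = 2^i < p` (`i ≤ clog 2 P`, `2^(clog 2 P) < 2 P ≤ p - 1` for `P ≥ 2`; treat `P ≤ 1` i.e. `p = 3` via `2^0 = 1`), `D' = 2^j < 2 D < p`
(or `1`). `central (ε / 2)`; the weight `w = min (2 c / D') (1 / H)` satisfies `w ≤ (2 c / D')^(1/4) (1 / H)^(3/4)` and `w ≤ 1 / H`.
So the block is at most `C p^(ε/2) (2^(1/4) c^(1/4) D'^(1/2) p^(15/16) + D' p^(7/8))`, and `D' ≤ 2 D`. The number of blocks is
at most `(2 + log p / log 2)² ≤ (2 (3 + log p))²`: `log_absorb (ε / 2) 2`. Finally replace `⌊Y / d⌋` by `Y / d`: the error is at most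
`PS p / p ≤ 6` for every `d` (`Chebyshev.psi_le_const_mul_self`; `PS p = ψ (p - 1)`), total `6 D ≤ 6 D p^(7/8)`. -/
theorem level (ε : ℝ) (hε : 0 < ε) : ∃ C : ℝ, 1 ≤ C ∧ ∀ (p : ℕ) [Fact p.Prime] (Y D : ℕ)
    (x : ZMod p), 2 < p → Y < p → 1 ≤ D → 2 * D < p → x ≠ 0 →
    ∑ d ∈ Icc 1 D, |AA p x Y d - PS p * (Y / p) / d| ≤
      C * (p : ℝ) ^ ε * ((D : ℝ) ^ (1 / 2 : ℝ) * ((Y : ℝ) / p) ^ (1 / 4 : ℝ) *
        (p : ℝ) ^ (15 / 16 : ℝ) + D * (p : ℝ) ^ (7 / 8 : ℝ)) := by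
  obtain ⟨C₁, hC₁1, hC₁⟩ := central (ε / 2) (by linarith)
  obtain ⟨C₂, hC₂1, hC₂⟩ := log_absorb (ε / 2) (by linarith) 2
  have hC10 : 0 ≤ C₁ := by linarith
  have hC20 : 0 ≤ C₂ := by linarith
  refine ⟨16 * C₁ * C₂ + 6, by nlinarith [mul_nonneg hC10 hC20], ?_⟩
  intro p _ Y D x hp hY hD1 hDp hx
  have hpp : p.Prime := Fact.out
  have hp0 : (0 : ℝ) < p := by exact_mod_cast hpp.pos
  have hp1 : (1 : ℝ) ≤ p := by exact_mod_cast hpp.one_le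
  have hD0 : (1 : ℝ) ≤ D := by exact_mod_cast hD1
  have hY0 : (0 : ℝ) ≤ Y := Nat.cast_nonneg _
  set c : ℝ := (Y : ℝ) / p with hc
  have hc0 : 0 ≤ c := by positivity
  set Z : ℝ := (D : ℝ) ^ (1 / 2 : ℝ) * c ^ (1 / 4 : ℝ) * (p : ℝ) ^ (15 / 16 : ℝ) +
    D * (p : ℝ) ^ (7 / 8 : ℝ) with hZ
  have hZ0 : 0 ≤ Z := by positivity
  have hDZ : (D : ℝ) ≤ Z := by
    rw [hZ]
    have h1 : 1 ≤ (p : ℝ) ^ (7 / 8 : ℝ) := Real.one_le_rpow hp1 (by norm_num)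
    have h2 : 0 ≤ (D : ℝ) ^ (1 / 2 : ℝ) * c ^ (1 / 4 : ℝ) * (p : ℝ) ^ (15 / 16 : ℝ) := by
      positivity
    nlinarith
  set f : ℕ → ℕ → ℝ := fun h d => ‖TT p (hd p x h d)‖ with hf
  have hf0 : ∀ h d, 0 ≤ f h d := fun _ _ => norm_nonneg _
  set P : ℕ := (p - 1) / 2 with hP
  have hP1 : 1 ≤ P := by omega
  -- one block
  have hblock : ∀ i ∈ range (Nat.clog 2 P + 1), ∀ j ∈ range (Nat.clog 2 D + 1),
      min (2 * c / 2 ^ j) (1 / 2 ^ i) * ∑ h ∈ Icc 1 (2 ^ i), ∑ d ∈ Icc 1 (2 ^ j), f h d ≤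
        2 * C₁ * (p : ℝ) ^ (ε / 2) * Z := by
    intro i hi j hj
    rw [mem_range] at hi hj
    have hH : 2 ^ i < p := by
      have h1 : 2 ^ i ≤ 2 ^ (Nat.clog 2 P) := Nat.pow_le_pow_right (by norm_num) (by omega)
      have h2 := e3b_clog P hP1
      omega
    have hD'2 : 2 ^ j ≤ 2 * D := by
      have h1 : 2 ^ j ≤ 2 ^ (Nat.clog 2 D) := Nat.pow_le_pow_right (by norm_num) (by omega)
      exact h1.trans (e3b_clog D hD1)
    have hD' : 2 ^ j < p := by omega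
    have h1 := hC₁ p (2 ^ i) (2 ^ j) x hH hD' hx
    set H : ℝ := (2 : ℝ) ^ i with hHdef
    set D' : ℝ := (2 : ℝ) ^ j with hD'def
    have hH0 : 0 < H := by positivity
    have hD'0 : 0 < D' := by positivity
    have hD'le : D' ≤ 2 * D := by
      rw [hD'def]
      exact_mod_cast hD'2
    have hcast : ((2 ^ i * 2 ^ j : ℕ) : ℝ) = H * D' := by push_cast; rfl
    rw [hcast] at h1
    set w : ℝ := min (2 * c / D') (1 / H) with hw
    have hw0 : 0 ≤ w := by positivity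
    have hw1 : w * (H * D') ≤ 2 * D := by
      calc w * (H * D') ≤ (1 / H) * (H * D') := by
            gcongr
            exact min_le_right _ _
        _ = D' := by field_simp
        _ ≤ 2 * D := hD'le
    have hw2 : w * (H * D') ^ (3 / 4 : ℝ) ≤ 2 * (c ^ (1 / 4 : ℝ) * (D : ℝ) ^ (1 / 2 : ℝ)) := by
      have e1 := e3b_min (2 * c / D') (1 / H) (by positivity) (by positivity)
      calc w * (H * D') ^ (3 / 4 : ℝ) ≤
            ((2 * c / D') ^ (1 / 4 : ℝ) * (1 / H) ^ (3 / 4 : ℝ)) * (H * D') ^ (3 / 4 : ℝ) := by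
            gcongr
        _ = (2 * c) ^ (1 / 4 : ℝ) * D' ^ (1 / 2 : ℝ) := by
            rw [Real.div_rpow (by positivity) hD'0.le, Real.div_rpow (by norm_num) hH0.le,
              Real.one_rpow, Real.mul_rpow hH0.le hD'0.le]
            have e2 : D' ^ (3 / 4 : ℝ) = D' ^ (1 / 4 : ℝ) * D' ^ (1 / 2 : ℝ) := by
              rw [← Real.rpow_add hD'0]
              norm_num
            rw [e2]
            have e3 : 0 < D' ^ (1 / 4 : ℝ) := by positivity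
            have e4 : 0 < H ^ (3 / 4 : ℝ) := by positivity
            field_simp
        _ ≤ (2 * c) ^ (1 / 4 : ℝ) * (2 * D) ^ (1 / 2 : ℝ) := by gcongr
        _ = ((2 : ℝ) ^ (1 / 4 : ℝ) * (2 : ℝ) ^ (1 / 2 : ℝ)) *
              (c ^ (1 / 4 : ℝ) * (D : ℝ) ^ (1 / 2 : ℝ)) := by
            rw [Real.mul_rpow (by norm_num) hc0, Real.mul_rpow (by norm_num) (by positivity)]
            ring
        _ ≤ 2 * (c ^ (1 / 4 : ℝ) * (D : ℝ) ^ (1 / 2 : ℝ)) := by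
            have e5 : (2 : ℝ) ^ (1 / 4 : ℝ) * (2 : ℝ) ^ (1 / 2 : ℝ) ≤ 2 := by
              rw [← Real.rpow_add (by norm_num)]
              calc (2 : ℝ) ^ (1 / 4 + 1 / 2 : ℝ) ≤ (2 : ℝ) ^ (1 : ℝ) :=
                    Real.rpow_le_rpow_of_exponent_le (by norm_num) (by norm_num)
                _ = 2 := Real.rpow_one 2
            gcongr
    calc w * ∑ h ∈ Icc 1 (2 ^ i), ∑ d ∈ Icc 1 (2 ^ j), f h d
        ≤ w * (C₁ * (p : ℝ) ^ (ε / 2) * ((H * D') ^ (3 / 4 : ℝ) * (p : ℝ) ^ (15 / 16 : ℝ) +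
            (H * D') * (p : ℝ) ^ (7 / 8 : ℝ))) := by gcongr
      _ = C₁ * (p : ℝ) ^ (ε / 2) * ((w * (H * D') ^ (3 / 4 : ℝ)) * (p : ℝ) ^ (15 / 16 : ℝ) +
            (w * (H * D')) * (p : ℝ) ^ (7 / 8 : ℝ)) := by ring
      _ ≤ C₁ * (p : ℝ) ^ (ε / 2) * ((2 * (c ^ (1 / 4 : ℝ) * (D : ℝ) ^ (1 / 2 : ℝ))) *
            (p : ℝ) ^ (15 / 16 : ℝ) + (2 * D) * (p : ℝ) ^ (7 / 8 : ℝ)) := by gcongr
      _ = 2 * C₁ * (p : ℝ) ^ (ε / 2) * Z := by
          rw [hZ]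
          ring
  -- the sum over `d`
  have hmain : ∑ d ∈ Icc 1 D, |AA p x Y d - PS p * ((Y / d : ℕ) : ℝ) / p| ≤
      16 * C₁ * C₂ * (p : ℝ) ^ ε * Z := by
    have e1 : ∑ d ∈ Icc 1 D, |AA p x Y d - PS p * ((Y / d : ℕ) : ℝ) / p| ≤
        2 * ∑ d ∈ Icc 1 D, ∑ h ∈ Icc 1 P, min (c / d) (1 / (2 * h)) * f h d := by
      rw [mul_sum]
      refine sum_le_sum fun d hd => ?_
      rw [mem_Icc] at hd
      refine le_trans (AA_fourier p hp x hx Y d hY hd.1 (by omega)) (le_of_eq ?_)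
      have e2 : (Y : ℝ) / (d * p) = c / d := by
        rw [hc]
        field_simp
      rw [e2]
    have e3 := dyadic P D c hc0 f hf0
    have e4 : ∑ i ∈ range (Nat.clog 2 P + 1), ∑ j ∈ range (Nat.clog 2 D + 1),
        min (2 * c / 2 ^ j) (1 / 2 ^ i) * ∑ h ∈ Icc 1 (2 ^ i), ∑ d ∈ Icc 1 (2 ^ j), f h d ≤
        ((Nat.clog 2 P + 1 : ℕ) : ℝ) * (((Nat.clog 2 D + 1 : ℕ) : ℝ) *
          (2 * C₁ * (p : ℝ) ^ (ε / 2) * Z)) := by
      refine le_trans (sum_le_sum fun i hi => sum_le_sum fun j hj => hblock i hi j hj) ?_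
      simp only [sum_const, card_range, nsmul_eq_mul]
      exact le_rfl
    have e5 := e3b_blocks P p hP1 (by omega)
    have e6 := e3b_blocks D p hD1 (by omega)
    have hlog0 : 0 ≤ Real.log p := Real.log_natCast_nonneg p
    have e7 : 0 ≤ 2 * C₁ * (p : ℝ) ^ (ε / 2) * Z := by positivity
    have e8 := hC₂ p hpp.one_le
    calc ∑ d ∈ Icc 1 D, |AA p x Y d - PS p * ((Y / d : ℕ) : ℝ) / p|
        ≤ 2 * (((Nat.clog 2 P + 1 : ℕ) : ℝ) * (((Nat.clog 2 D + 1 : ℕ) : ℝ) *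
          (2 * C₁ * (p : ℝ) ^ (ε / 2) * Z))) := by linarith
      _ ≤ 2 * ((2 * (3 + Real.log p)) * ((2 * (3 + Real.log p)) *
          (2 * C₁ * (p : ℝ) ^ (ε / 2) * Z))) := by gcongr
      _ = 16 * C₁ * (p : ℝ) ^ (ε / 2) * Z * (3 + Real.log p) ^ 2 := by ring
      _ ≤ 16 * C₁ * (p : ℝ) ^ (ε / 2) * Z * (C₂ * (p : ℝ) ^ (ε / 2)) := by gcongr
      _ = 16 * C₁ * C₂ * ((p : ℝ) ^ (ε / 2) * (p : ℝ) ^ (ε / 2)) * Z := by ring
      _ = 16 * C₁ * C₂ * (p : ℝ) ^ ε * Z := by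
          rw [← Real.rpow_add hp0]
          congr 3
          ring
  -- replace the floor
  obtain ⟨hPS0, hPS6⟩ := e3b_PS p hpp.one_le
  have hrest : ∀ d ∈ Icc 1 D, |AA p x Y d - PS p * (Y / p) / d| ≤
      |AA p x Y d - PS p * ((Y / d : ℕ) : ℝ) / p| + 6 := by
    intro d hd
    rw [mem_Icc] at hd
    have hd0 : (0 : ℝ) < d := by exact_mod_cast hd.1
    have e1 : AA p x Y d - PS p * (Y / p) / d =
        (AA p x Y d - PS p * ((Y / d : ℕ) : ℝ) / p) + PS p / p * (((Y / d : ℕ) : ℝ) - Y / d) := by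
      field_simp
      ring
    have e2 : ((Y / d : ℕ) : ℝ) ≤ (Y : ℝ) / d := Nat.cast_div_le
    have e3 : (Y : ℝ) / d - 1 ≤ ((Y / d : ℕ) : ℝ) := by
      have h3 : Y < d * (Y / d + 1) := Nat.lt_mul_div_succ _ (by omega)
      have h4 : (Y : ℝ) < d * (((Y / d : ℕ) : ℝ) + 1) := by exact_mod_cast h3
      rw [sub_le_iff_le_add, div_le_iff₀ hd0]
      linarith
    have e4 : |PS p / p * (((Y / d : ℕ) : ℝ) - Y / d)| ≤ 6 := by
      have e5 : PS p / p ≤ 6 := by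
        rw [div_le_iff₀ hp0]
        exact hPS6
      have e6 : 0 ≤ PS p / p := by positivity
      rw [abs_mul, abs_of_nonneg e6]
      have e7 : |((Y / d : ℕ) : ℝ) - Y / d| ≤ 1 := by
        rw [abs_le]
        constructor <;> linarith
      calc PS p / p * |((Y / d : ℕ) : ℝ) - Y / d| ≤ 6 * 1 := by gcongr
        _ = 6 := by ring
    rw [e1]
    exact le_trans (abs_add_le _ _) (by linarith)
  have hpε : 1 ≤ (p : ℝ) ^ ε := Real.one_le_rpow hp1 hε.le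
  calc ∑ d ∈ Icc 1 D, |AA p x Y d - PS p * (Y / p) / d|
      ≤ ∑ d ∈ Icc 1 D, (|AA p x Y d - PS p * ((Y / d : ℕ) : ℝ) / p| + 6) := sum_le_sum hrest
    _ = ∑ d ∈ Icc 1 D, |AA p x Y d - PS p * ((Y / d : ℕ) : ℝ) / p| + 6 * D := by
        rw [sum_add_distrib, sum_const, Nat.card_Icc, nsmul_eq_mul, Nat.add_sub_cancel]
        ring
    _ ≤ 16 * C₁ * C₂ * (p : ℝ) ^ ε * Z + 6 * (1 * Z) := by
        rw [one_mul]
        gcongr
    _ ≤ 16 * C₁ * C₂ * (p : ℝ) ^ ε * Z + 6 * ((p : ℝ) ^ ε * Z) := by gcongr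
    _ = (16 * C₁ * C₂ + 6) * (p : ℝ) ^ ε * Z := by ring

end Pool.Agent.EPK
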