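import Pool.Agent.EPK.S0
import Pool.Agent.EPK.E2

/-!
# [EPK-F1a] preparations for the final theorem
-/

set_option autoImplicit false

namespace Pool.Agent.EPK

open Finset

/-- [F1a] The number of prime factors of a good `m`.

Proof. `wl z l ≤ 0` for `l ≥ z⁵`, so `∑_{l ∣ m} wl z l ≤ ∑_{l ∈ P2 z, l ∣ m} wl z l < 37/20` (all prime factors of `m` are `> z`), and
`∑_{l ∣ m} wl z l = ω(m) - (∑_{l ∣ m} log l) / (5 log z) ≥ ω(m) - log m / (5 log z)` (`∏_{l ∣ m} l ≤ m`, `Nat.prod_primeFactors_dvd`). -/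
theorem good_omega (z m : ℕ) (hz : 2 ≤ z) (hm : 1 ≤ m) (h : Good z m) :
    (m.primeFactors.card : ℝ) < 37 / 20 + Real.log m / (5 * Real.log z) := by
  obtain ⟨h1, h2⟩ := h
  have hz0 : (1 : ℝ) < z := by exact_mod_cast hz
  have hlz : 0 < Real.log z := Real.log_pos hz0
  have h3 : ∑ l ∈ m.primeFactors, wl z l ≤ ∑ l ∈ (P2 z).filter (fun l => l ∣ m), wl z l := by
    have h4 : (P2 z).filter (fun l => l ∣ m) = m.primeFactors.filter (fun l => l < z ^ 5) := by
      ext l
      simp only [P2, mem_filter, mem_Ioo, Nat.mem_primeFactors]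
      constructor
      · rintro ⟨⟨⟨h5, h6⟩, h7⟩, h8⟩
        exact ⟨⟨h7, h8, by omega⟩, h6⟩
      · rintro ⟨⟨h5, h6, h7⟩, h8⟩
        exact ⟨⟨⟨h1 l (Nat.mem_primeFactors.2 ⟨h5, h6, h7⟩), h8⟩, h5⟩, h6⟩
    rw [h4, ← sum_filter_add_sum_filter_not m.primeFactors (fun l => l < z ^ 5)]
    have h5 : ∑ l ∈ m.primeFactors.filter (fun l => ¬ l < z ^ 5), wl z l ≤ 0 := by
      refine sum_nonpos fun l hl => ?_
      rw [mem_filter, not_lt] at hl
      unfold wl
      have h6 : 5 * Real.log z ≤ Real.log l := by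
        have h7 : ((z : ℝ)) ^ 5 ≤ l := by exact_mod_cast hl.2
        calc 5 * Real.log z = Real.log ((z : ℝ) ^ 5) := by rw [Real.log_pow]; norm_num
          _ ≤ Real.log l := Real.log_le_log (by positivity) h7
      have h8 : 1 ≤ Real.log l / (5 * Real.log z) := by
        rw [one_le_div (by positivity)]
        exact h6
      linarith
    linarith
  have h4 : ∑ l ∈ m.primeFactors, wl z l =
      (m.primeFactors.card : ℝ) - (∑ l ∈ m.primeFactors, Real.log l) / (5 * Real.log z) := by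
    unfold wl
    rw [sum_sub_distrib, sum_const, nsmul_eq_mul, mul_one, sum_div]
  have h5 : ∑ l ∈ m.primeFactors, Real.log l ≤ Real.log m := by
    rw [← Real.log_prod (fun l hl => by
      have := (Nat.mem_primeFactors.1 hl).1.pos
      positivity)]
    refine Real.log_le_log ?_ ?_
    · refine prod_pos fun l hl => ?_
      have := (Nat.mem_primeFactors.1 hl).1.pos
      positivity
    · have h6 := Nat.le_of_dvd (by omega) (Nat.prod_primeFactors_dvd m)
      have h7 : ((∏ l ∈ m.primeFactors, l : ℕ) : ℝ) ≤ m := by exact_mod_cast h6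
      rwa [Nat.cast_prod] at h7
  have h6 : (∑ l ∈ m.primeFactors, Real.log l) / (5 * Real.log z) ≤
      Real.log m / (5 * Real.log z) := by gcongr
  linarith

/-- [F1b] `rr p x` is injective on `[1, p - 1]`, has values in `[1, p - 1]`, and `n * rr p x n ≡ x`. -/
theorem rr_basic (p : ℕ) [Fact p.Prime] (x : ZMod p) (hx : x ≠ 0) :
    Set.InjOn (rr p x) (Set.Icc 1 (p - 1)) ∧
    ∀ n, 1 ≤ n → n < p → 1 ≤ rr p x n ∧ rr p x n < p ∧ ((n * rr p x n : ℕ) : ZMod p) = x := by
  have hpp : p.Prime := Fact.out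
  have hnz : ∀ n : ℕ, 1 ≤ n → n < p → (n : ZMod p) ≠ 0 := by
    intro n h1 h2
    rw [Ne, ZMod.natCast_eq_zero_iff]
    exact fun h => absurd (Nat.le_of_dvd (by omega) h) (by omega)
  have hr : ∀ n : ℕ, ((rr p x n : ℕ) : ZMod p) = x * ((n : ZMod p))⁻¹ :=
    fun n => ZMod.natCast_zmod_val _
  refine ⟨?_, ?_⟩
  · intro a ha b hb hab
    rw [Set.mem_Icc] at ha hb
    have hpos := hpp.pos
    have h1 : x * ((a : ZMod p))⁻¹ = x * ((b : ZMod p))⁻¹ := by rw [← hr a, ← hr b, hab]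
    have h2 : ((a : ZMod p))⁻¹ = ((b : ZMod p))⁻¹ := mul_left_cancel₀ hx h1
    have h3 : (a : ZMod p) = (b : ZMod p) := inv_injective h2
    have h4 := (ZMod.natCast_eq_natCast_iff' _ _ _).1 h3
    rwa [Nat.mod_eq_of_lt (by omega), Nat.mod_eq_of_lt (by omega)] at h4
  · intro n h1 h2
    refine ⟨?_, ZMod.val_lt _, ?_⟩
    · rw [Nat.succ_le_iff, Nat.pos_iff_ne_zero]
      intro h3
      have h4 := hr n
      rw [h3, Nat.cast_zero] at h4
      exact mul_ne_zero hx (inv_ne_zero (hnz n h1 h2)) h4.symm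
    · rw [Nat.cast_mul, hr n]
      have := hnz n h1 h2
      field_simp

end Pool.Agent.EPK
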