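import Pool.Agent.EPK.F1a

/-!
# [EPK-F1b] preparations for the final theorem
-/

set_option autoImplicit false

namespace Pool.Agent.EPK

open Finset

/-- the tail of the sum of reciprocal squares -/
theorem f1b_tail (z Y : ℕ) (hz : 1 ≤ z) : ∑ l ∈ Ioc z Y, (1 : ℝ) / (l : ℝ) ^ 2 ≤ 1 / z := by
  rcases Nat.lt_or_ge z Y with h | h
  · have h1 : ∀ Y, z ≤ Y → ∑ l ∈ Ioc z Y, (1 : ℝ) / (l : ℝ) ^ 2 ≤ 1 / z - 1 / Y := by
      intro Y hY
      induction Y, hY using Nat.le_induction with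
      | base => simp
      | succ n hn ih =>
        rw [sum_Ioc_succ_top hn]
        have hn0 : (0 : ℝ) < n := by exact_mod_cast (by omega : 0 < n)
        have h2 : (1 : ℝ) / ((n + 1 : ℕ) : ℝ) ^ 2 ≤ 1 / n - 1 / ((n + 1 : ℕ) : ℝ) := by
          push_cast
          rw [div_sub_div _ _ (by positivity) (by positivity), div_le_div_iff₀ (by positivity)
            (by positivity)]
          nlinarith
        linarith
    have h2 := h1 Y h.le
    have h3 : (0 : ℝ) ≤ 1 / Y := by positivity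
    linarith
  · rw [Ioc_eq_empty (by omega), sum_empty]
    positivity

/-- [F1c] The values that are not squarefree.

Proof. If `m = rr p x n ≤ Y` is not squarefree, then `l² ∣ m` for a prime `l > z`. The number of multiples of `l²` in `[1, Y]` is
`≤ Y / l²`, and `rr` is injective: at most `∑_{l > z} Y / l² ≤ Y / z` values `n` (`∑_{l > z} 1/l² ≤ ∑ (1/(l-1) - 1/l) ≤ 1/z`; only
`l ≤ Y` matter). And `Λ(n) ≤ log n ≤ log p`. -/
theorem sq_part (p : ℕ) [Fact p.Prime] (x : ZMod p) (hx : x ≠ 0) (Y z : ℕ) (hz : 1 ≤ z) :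
    ∑ n ∈ (Icc 1 (p - 1)).filter (fun n => rr p x n ≤ Y ∧ (∀ l ∈ (rr p x n).primeFactors, z < l) ∧
      ¬ Squarefree (rr p x n)), ArithmeticFunction.vonMangoldt n ≤ Real.log p * (Y / z) := by
  classical
  have hpp : p.Prime := Fact.out
  obtain ⟨hinj, hrr⟩ := rr_basic p x hx
  set A := (Icc 1 (p - 1)).filter (fun n => rr p x n ≤ Y ∧
    (∀ l ∈ (rr p x n).primeFactors, z < l) ∧ ¬ Squarefree (rr p x n)) with hA
  have hlogp : 0 ≤ Real.log p := Real.log_natCast_nonneg p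
  -- the number of elements
  have hcard : (A.card : ℝ) ≤ Y / z := by
    set B := (Ioc z Y).biUnion (fun l => (Ioc 0 Y).filter (fun m => l ^ 2 ∣ m)) with hB
    have h1 : A.card ≤ B.card := by
      refine card_le_card_of_injOn (rr p x) ?_ ?_
      · intro n hn
        rw [mem_coe, hA, mem_filter, mem_Icc] at hn
        obtain ⟨⟨hn1, hn2⟩, hn3, hn4, hn5⟩ := hn
        have hpos := (hrr n hn1 (by omega)).1
        rw [Nat.squarefree_iff_prime_squarefree] at hn5
        push Not at hn5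
        obtain ⟨l, hl, hl2⟩ := hn5
        rw [mem_coe, hB, mem_biUnion]
        have hlm : l ∣ rr p x n := (Dvd.intro _ rfl).trans hl2
        refine ⟨l, ?_, ?_⟩
        · rw [mem_Ioc]
          exact ⟨hn4 l (Nat.mem_primeFactors.2 ⟨hl, hlm, by omega⟩),
            (Nat.le_of_dvd (by omega) hlm).trans hn3⟩
        · rw [mem_filter, mem_Ioc, sq]
          exact ⟨⟨hpos, hn3⟩, hl2⟩
      · intro a ha b hb hab
        rw [mem_coe, hA, mem_filter, mem_Icc] at ha hb
        exact hinj (Set.mem_Icc.2 ha.1) (Set.mem_Icc.2 hb.1) hab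
    have h2 : (B.card : ℝ) ≤ ∑ l ∈ Ioc z Y, (Y : ℝ) * (1 / (l : ℝ) ^ 2) := by
      have h3 : B.card ≤ ∑ l ∈ Ioc z Y, ((Ioc 0 Y).filter (fun m => l ^ 2 ∣ m)).card :=
        card_biUnion_le
      calc (B.card : ℝ) ≤ ((∑ l ∈ Ioc z Y, ((Ioc 0 Y).filter (fun m => l ^ 2 ∣ m)).card : ℕ) : ℝ) := by
            exact_mod_cast h3
        _ = ∑ l ∈ Ioc z Y, (((Ioc 0 Y).filter (fun m => l ^ 2 ∣ m)).card : ℝ) := by push_cast; rfl
        _ ≤ ∑ l ∈ Ioc z Y, (Y : ℝ) * (1 / (l : ℝ) ^ 2) := by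
            refine sum_le_sum fun l _ => ?_
            rw [Nat.Ioc_filter_dvd_card_eq_div]
            calc ((Y / l ^ 2 : ℕ) : ℝ) ≤ (Y : ℝ) / ((l ^ 2 : ℕ) : ℝ) := Nat.cast_div_le
              _ = (Y : ℝ) * (1 / (l : ℝ) ^ 2) := by
                  push_cast
                  ring
    have h3 : (A.card : ℝ) ≤ B.card := by exact_mod_cast h1
    have h4 := f1b_tail z Y hz
    calc (A.card : ℝ) ≤ ∑ l ∈ Ioc z Y, (Y : ℝ) * (1 / (l : ℝ) ^ 2) := le_trans h3 h2
      _ = (Y : ℝ) * ∑ l ∈ Ioc z Y, (1 : ℝ) / (l : ℝ) ^ 2 := by rw [mul_sum]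
      _ ≤ (Y : ℝ) * (1 / z) := by gcongr
      _ = Y / z := by ring
  calc ∑ n ∈ A, ArithmeticFunction.vonMangoldt n ≤ ∑ n ∈ A, Real.log p := by
        refine sum_le_sum fun n hn => ?_
        rw [hA, mem_filter, mem_Icc] at hn
        refine le_trans ArithmeticFunction.vonMangoldt_le_log ?_
        exact Real.log_le_log (by exact_mod_cast hn.1.1) (by exact_mod_cast (by omega : n ≤ p))
    _ = (A.card : ℝ) * Real.log p := by rw [sum_const, nsmul_eq_mul]
    _ ≤ (Y / z) * Real.log p := by gcongr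
    _ = _ := by ring

end Pool.Agent.EPK
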