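import Pool.Agent.EPK.F1b

/-!
# [EPK-F1c] preparations for the final theorem
-/

set_option autoImplicit false

namespace Pool.Agent.EPK

open Finset

theorem f1c_PS (p : ℕ) : PS p = Chebyshev.psi ((p - 1 : ℕ) : ℝ) := by
  unfold PS Chebyshev.psi
  rw [Nat.floor_natCast]
  rfl

/-- [F1d] The proper prime powers, and Chebyshev's bounds. (`Chebyshev.psi_sub_theta_le`,
`Chebyshev.psi_sub_theta_eq_sum_not_prime`, `Chebyshev.psi_ge`, `Chebyshev.psi_le_const_mul_self`; `PS p = ψ (p - 1)` by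
`Chebyshev.psi_eq_sum_Icc`.) -/
theorem cheb (p : ℕ) (hp : 100 ≤ p) :
    ∑ n ∈ (Icc 1 (p - 1)).filter (fun n => ¬ n.Prime), ArithmeticFunction.vonMangoldt n ≤
      2 * Real.sqrt p * Real.log p ∧ (p : ℝ) / 2 ≤ PS p ∧ PS p ≤ 6 * p := by
  have hpr : (100 : ℝ) ≤ p := by exact_mod_cast hp
  have hc : ((p - 1 : ℕ) : ℝ) = p - 1 := by
    rw [Nat.cast_sub (by omega), Nat.cast_one]
  have l1 : 0.6931471803 < Real.log 2 := Real.log_two_gt_d9
  have l2 : Real.log 2 < 0.6931471808 := Real.log_two_lt_d9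
  refine ⟨?_, ?_, ?_⟩
  · have h1 := Chebyshev.psi_sub_theta_eq_sum_not_prime ((p - 1 : ℕ) : ℝ)
    rw [Nat.floor_natCast] at h1
    have h2 : (Icc 1 (p - 1)) = Ioc 0 (p - 1) := by
      ext n
      simp only [mem_Icc, mem_Ioc]
      omega
    rw [h2, ← h1]
    have h3 := Chebyshev.psi_sub_theta_le (x := ((p - 1 : ℕ) : ℝ)) (by rw [hc]; linarith)
    refine le_trans h3 ?_
    have h4 : ((p - 1 : ℕ) : ℝ) ≤ p := by rw [hc]; linarith
    have h5 : (0 : ℝ) < ((p - 1 : ℕ) : ℝ) := by rw [hc]; linarith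
    have h6 : 0 ≤ Real.log ((p - 1 : ℕ) : ℝ) := Real.log_natCast_nonneg _
    gcongr
  · rw [f1c_PS]
    have h1 := Chebyshev.psi_ge (p - 1)
    refine le_trans ?_ h1
    rw [hc]
    have h2 : (p : ℝ) - 1 + 1 = p := by ring
    rw [h2]
    have h3 : Real.log p ≤ 7 * Real.log 2 + (p / 100 - 1) := by
      have h4 : Real.log p = Real.log 100 + Real.log (p / 100) := by
        rw [← Real.log_mul (by norm_num) (by positivity)]
        congr 1
        field_simp
      have h5 : Real.log 100 ≤ 7 * Real.log 2 := by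
        calc Real.log 100 ≤ Real.log ((2 : ℝ) ^ 7) := Real.log_le_log (by norm_num) (by norm_num)
          _ = 7 * Real.log 2 := by rw [Real.log_pow]; norm_num
      have h6 := Real.log_le_sub_one_of_pos (show (0 : ℝ) < p / 100 by positivity)
      linarith
    nlinarith
  · rw [f1c_PS]
    have h1 := Chebyshev.psi_le_const_mul_self (x := ((p - 1 : ℕ) : ℝ)) (by positivity)
    refine le_trans h1 ?_
    rw [hc]
    have h2 : Real.log 4 = 2 * Real.log 2 := by
      rw [show (4 : ℝ) = 2 ^ 2 by norm_num, Real.log_pow]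
      norm_num
    rw [h2]
    nlinarith

end Pool.Agent.EPK
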