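import Pool.Agent.EPK.S3

/-!
# [EPK-S4] the weighted sieve
-/

set_option autoImplicit false

namespace Pool.Agent.EPK

open Finset

/-- [S4] The weighted sieve inequality.

Proof. By `WW_le`, the right side is at least `∑ a i WW z (m i)`. Expand: the first part is
`∑ a i ff(m i)² - ∑_{l ≤ z} ∑_{i : l ∣ m i} a i ff(m i)²` (exchange `∑_i` and `∑_l`), the second part is
`(20/37) ∑_{z < l < z⁵} wl z l ∑_{i : l ∣ m i} a i ff(m i)²`. `sum_ff_sq` for `q = 1` and `q = l` (`TauLE` is monotone in `N`: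
`R ≤ z ^ 5`), the values `quad1` (`lcm(_, 1)`), `quad2`, `quad3`: the main terms give at least `X * MW z`. Errors:
`rem_one`, `rem_small`, `rem_large` with `r t = |∑_{t ∣ m i} a i - X / t|`, `0 ≤ wl z l ≤ 1` on `P2 z`, `20/37 ≤ 1`, `T ≥ 1`:
`T² (T² + T³ + T³) E ≤ 3 T⁵ E`. -/
theorem sieve_ineq {ι : Type*} (I : Finset ι) (a : ι → ℝ) (m : ι → ℕ) (z : ℕ) (hz : 2 ≤ z)
    (X T E : ℝ) (hX : 0 ≤ X) (hT : TauLE (z ^ 5) T) (ha : ∀ i ∈ I, 0 ≤ a i)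
    (hm : ∀ i ∈ I, 1 ≤ m i)
    (hE : ∑ t ∈ Icc 1 (z ^ 5), |∑ i ∈ I.filter (fun i => t ∣ m i), a i - X / t| ≤ E)
    [∀ n, Decidable (Good z n)] :
    X * MW z - 3 * T ^ 5 * E ≤ ∑ i ∈ I.filter (fun i => Good z (m i)), a i := by
  have hz1 : 1 ≤ z := by omega
  have hT1 : 1 ≤ T := by
    have h1 := hT 1 le_rfl (Nat.one_le_pow _ _ (by omega))
    simpa using h1
  have hT0 : 0 ≤ T := by linarith
  set r : ℕ → ℝ := fun t => |∑ i ∈ I.filter (fun i => t ∣ m i), a i - X / t| with hr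
  have hr0 : ∀ t, 0 ≤ r t := fun t => abs_nonneg _
  have hE0 : 0 ≤ E := le_trans (sum_nonneg fun t _ => hr0 t) hE
  have hz25 : z ^ 2 ≤ z ^ 5 := Nat.pow_le_pow_right (by omega) (by norm_num)
  have hTmono : ∀ R, R ≤ z ^ 5 → TauLE R T := fun R hR n h1 h2 => hT n h1 (h2.trans hR)
  have hRl : ∀ l, Rl z l ≤ z ^ 5 := by
    intro l
    unfold Rl
    exact (Nat.sqrt_le_self _).trans (Nat.div_le_self _ _)
  -- the lower bound by the weights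
  have hW : ∑ i ∈ I, a i * WW z (m i) ≤ ∑ i ∈ I.filter (fun i => Good z (m i)), a i := by
    rw [sum_filter]
    refine sum_le_sum fun i hi => ?_
    have h1 := WW_le z (m i) hz (hm i hi)
    calc a i * WW z (m i) ≤ a i * (if Good z (m i) then 1 else 0) :=
          mul_le_mul_of_nonneg_left h1 (ha i hi)
      _ = if Good z (m i) then a i else 0 := by split_ifs <;> simp
  -- the expansion
  set A0 : ℝ := ∑ i ∈ I.filter (fun i => 1 ∣ m i), a i * ff z (z ^ 2) (m i) ^ 2 with hA0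
  set Al : ℕ → ℝ := fun l => ∑ i ∈ I.filter (fun i => l ∣ m i), a i * ff z (z ^ 2) (m i) ^ 2
    with hAl
  set Bl : ℕ → ℝ := fun l => ∑ i ∈ I.filter (fun i => l ∣ m i), a i * ff z (Rl z l) (m i) ^ 2
    with hBl
  have hexp : ∑ i ∈ I, a i * WW z (m i) =
      A0 - ∑ l ∈ P1 z, Al l - 20 / 37 * ∑ l ∈ P2 z, wl z l * Bl l := by
    have h1 : A0 = ∑ i ∈ I, a i * ff z (z ^ 2) (m i) ^ 2 := by
      rw [hA0]
      congr 1
      simp
    have h2 : ∑ l ∈ P1 z, Al l =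
        ∑ i ∈ I, a i * ((((P1 z).filter (fun l => l ∣ m i)).card : ℝ) * ff z (z ^ 2) (m i) ^ 2) := by
      simp only [hAl, sum_filter]
      rw [sum_comm]
      refine sum_congr rfl fun i _ => ?_
      rw [← sum_filter, sum_const, nsmul_eq_mul]
      ring
    have h3 : ∑ l ∈ P2 z, wl z l * Bl l =
        ∑ i ∈ I, a i * ∑ l ∈ (P2 z).filter (fun l => l ∣ m i), wl z l * ff z (Rl z l) (m i) ^ 2 := by
      simp only [hBl, sum_filter, mul_sum]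
      rw [sum_comm]
      refine sum_congr rfl fun i _ => ?_
      refine sum_congr rfl fun l _ => ?_
      split_ifs
      · ring
      · simp
    rw [h1, h2, h3, ← sum_sub_distrib, mul_sum, ← sum_sub_distrib]
    refine sum_congr rfl fun i _ => ?_
    unfold WW
    ring
  -- the main terms and the errors
  set G : ℝ := GG z (z ^ 2) with hG
  set E1 : ℝ := ∑ d ∈ SF z (z ^ 2), ∑ e ∈ SF z (z ^ 2), r (Nat.lcm (Nat.lcm d e) 1) with hE1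
  set E2 : ℕ → ℝ := fun l => ∑ d ∈ SF z (z ^ 2), ∑ e ∈ SF z (z ^ 2), r (Nat.lcm (Nat.lcm d e) l)
    with hE2
  set E3 : ℕ → ℝ := fun l => ∑ d ∈ SF z (Rl z l), ∑ e ∈ SF z (Rl z l), r (Nat.lcm (Nat.lcm d e) l)
    with hE3
  have hz2pos : 1 ≤ z ^ 2 := Nat.one_le_pow _ _ (by omega)
  have m0 : X * G⁻¹ - T ^ 2 * E1 ≤ A0 := by
    have h1 := sum_ff_sq I a m z (z ^ 2) 1 hz2pos X T (hTmono _ hz25)
    have h2 : ∑ d ∈ SF z (z ^ 2), ∑ e ∈ SF z (z ^ 2),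
        lam z (z ^ 2) d * lam z (z ^ 2) e / (Nat.lcm (Nat.lcm d e) 1 : ℝ) = G⁻¹ := by
      rw [hG, ← quad1 z (z ^ 2) hz2pos]
      simp only [Nat.lcm_one_right]
    rw [h2] at h1
    have h3 := (abs_le.1 h1).1
    have h4 : X * G⁻¹ - T ^ 2 * (∑ d ∈ SF z (z ^ 2), ∑ e ∈ SF z (z ^ 2),
        |∑ i ∈ I.filter (fun i => Nat.lcm (Nat.lcm d e) 1 ∣ m i), a i -
          X / (Nat.lcm (Nat.lcm d e) 1 : ℝ)|) ≤
        ∑ i ∈ I.filter (fun i => 1 ∣ m i), a i * ff z (z ^ 2) (m i) ^ 2 := by linarith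
    exact h4
  have m1 : ∀ l ∈ P1 z, Al l ≤ X * ((1 / (l : ℝ)) * (G - GG z (z ^ 2 / l)) / G ^ 2) +
      T ^ 2 * E2 l := by
    intro l hl
    rw [P1, mem_filter, mem_Icc] at hl
    have h1 := sum_ff_sq I a m z (z ^ 2) l hz2pos X T (hTmono _ hz25)
    have h2 := quad2 z (z ^ 2) l hz2pos hl.2 hl.1.2
    have h3 := (abs_le.1 h1).2
    have h4 := mul_le_mul_of_nonneg_left h2 hX
    have h5 : Al l ≤ X * ((1 / (l : ℝ)) * (G - GG z (z ^ 2 / l)) / G ^ 2) +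
      T ^ 2 * (∑ d ∈ SF z (z ^ 2), ∑ e ∈ SF z (z ^ 2),
        |∑ i ∈ I.filter (fun i => Nat.lcm (Nat.lcm d e) l ∣ m i), a i -
          X / (Nat.lcm (Nat.lcm d e) l : ℝ)|) := by
      have h6 : Al l = ∑ i ∈ I.filter (fun i => l ∣ m i), a i * ff z (z ^ 2) (m i) ^ 2 := rfl
      rw [h6]
      linarith
    exact h5
  have m2 : ∀ l ∈ P2 z, Bl l ≤ X * ((1 / (l : ℝ)) * (GG z (Rl z l))⁻¹) + T ^ 2 * E3 l := by
    intro l hl
    have hl' := hl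
    rw [P2, mem_filter, mem_Ioo] at hl'
    have h1 := sum_ff_sq I a m z (Rl z l) l (s3a_Rl z l hl) X T (hTmono _ (hRl l))
    have h2 := quad3 z (Rl z l) l (s3a_Rl z l hl) hl'.2 hl'.1.1
    have h3 := (abs_le.1 h1).2
    rw [h2] at h3
    have h5 : Bl l ≤ X * ((1 / (l : ℝ)) * (GG z (Rl z l))⁻¹) +
      T ^ 2 * (∑ d ∈ SF z (Rl z l), ∑ e ∈ SF z (Rl z l),
        |∑ i ∈ I.filter (fun i => Nat.lcm (Nat.lcm d e) l ∣ m i), a i -
          X / (Nat.lcm (Nat.lcm d e) l : ℝ)|) := by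
      have h6 : Bl l = ∑ i ∈ I.filter (fun i => l ∣ m i), a i * ff z (Rl z l) (m i) ^ 2 := rfl
      rw [h6]
      linarith
    exact h5
  have s1 : ∑ l ∈ P1 z, Al l ≤
      X * ((∑ l ∈ P1 z, (1 / (l : ℝ)) * (G - GG z (z ^ 2 / l))) / G ^ 2) +
        T ^ 2 * ∑ l ∈ P1 z, E2 l := by
    refine le_trans (sum_le_sum m1) (le_of_eq ?_)
    rw [sum_add_distrib, ← mul_sum, ← mul_sum, sum_div]
  have s2 : ∑ l ∈ P2 z, wl z l * Bl l ≤
      X * (∑ l ∈ P2 z, (1 / (l : ℝ)) * wl z l * (GG z (Rl z l))⁻¹) +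
        T ^ 2 * ∑ l ∈ P2 z, E3 l := by
    rw [mul_sum, mul_sum, ← sum_add_distrib]
    refine sum_le_sum fun l hl => ?_
    obtain ⟨hw0, hw1⟩ := s3a_wl z l hz hl
    have hE3l : 0 ≤ E3 l := sum_nonneg fun d _ => sum_nonneg fun e _ => hr0 _
    calc wl z l * Bl l ≤ wl z l * (X * ((1 / (l : ℝ)) * (GG z (Rl z l))⁻¹) + T ^ 2 * E3 l) :=
          mul_le_mul_of_nonneg_left (m2 l hl) hw0
      _ = X * (1 / (l : ℝ) * wl z l * (GG z (Rl z l))⁻¹) + wl z l * (T ^ 2 * E3 l) := by ring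
      _ ≤ X * (1 / (l : ℝ) * wl z l * (GG z (Rl z l))⁻¹) + 1 * (T ^ 2 * E3 l) := by gcongr
      _ = _ := by ring
  have e1 := rem_one z hz1 T hT r hr0
  have e2 := rem_small z hz1 T hT r hr0
  have e3 := rem_large z hz1 T hT r hr0
  have hEr : ∑ t ∈ Icc 1 (z ^ 5), r t ≤ E := hE
  have f1 : T ^ 2 * E1 ≤ T ^ 5 * E := by
    calc T ^ 2 * E1 ≤ T ^ 2 * (T ^ 2 * ∑ t ∈ Icc 1 (z ^ 5), r t) := by gcongr
      _ ≤ T ^ 2 * (T ^ 2 * E) := by gcongr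
      _ = T ^ 4 * E := by ring
      _ ≤ T ^ 5 * E := by
          have : T ^ 4 ≤ T ^ 5 := pow_le_pow_right₀ hT1 (by norm_num)
          gcongr
  have f2 : T ^ 2 * ∑ l ∈ P1 z, E2 l ≤ T ^ 5 * E := by
    calc T ^ 2 * ∑ l ∈ P1 z, E2 l ≤ T ^ 2 * (T ^ 3 * ∑ t ∈ Icc 1 (z ^ 5), r t) := by gcongr
      _ ≤ T ^ 2 * (T ^ 3 * E) := by gcongr
      _ = T ^ 5 * E := by ring
  have f3 : T ^ 2 * ∑ l ∈ P2 z, E3 l ≤ T ^ 5 * E := by
    calc T ^ 2 * ∑ l ∈ P2 z, E3 l ≤ T ^ 2 * (T ^ 3 * ∑ t ∈ Icc 1 (z ^ 5), r t) := by gcongr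
      _ ≤ T ^ 2 * (T ^ 3 * E) := by gcongr
      _ = T ^ 5 * E := by ring
  have hTE : 0 ≤ T ^ 5 * E := by positivity
  have hMW : X * MW z = X * G⁻¹ -
      X * ((∑ l ∈ P1 z, (1 / (l : ℝ)) * (G - GG z (z ^ 2 / l))) / G ^ 2) -
      20 / 37 * (X * (∑ l ∈ P2 z, (1 / (l : ℝ)) * wl z l * (GG z (Rl z l))⁻¹)) := by
    unfold MW
    ring
  rw [hMW]
  refine le_trans ?_ hW
  rw [hexp]
  linarith

end Pool.Agent.EPK
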