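import Pool.Agent.EPK.F1
import Pool.Agent.EPK.S4
import Pool.Agent.EPK.M5
import Pool.Agent.EPK.E3

/-!
# [EPK-F2] every class is a prime times a product of at most nine primes
-/

set_option autoImplicit false

namespace Pool.Agent.EPK

open Finset

/-- [F2a] From the sieve inequality to a number of primes: a general statement for one `p` and one `x`, in terms of the total
error `E` for the level `z⁵`.

Proof. `sieve_ineq` for `I = {n ∈ [1, p - 1] : rr p x n ≤ Y}`, `a = Λ`, `m = rr p x`, `X = PS p * (Y / p) ≥ Y / 2` (`cheb`); the sum over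
`t ∣ m i` is `AA p x Y t`. `MW_lower`'s conclusion `hMW`. Remove from the sum over the good `n` those with `rr p x n` not squarefree
(`sq_part`) and the proper prime powers (`cheb`). The remaining `n` are primes, `Λ(n) = log n ≤ log p`, so their number is at
least `(1 / log p)` times the rest. For such `q = n`: `m = rr p x q`, `cardFactors m = m.primeFactors.card` (squarefree;
`ArithmeticFunction.cardDistinctFactors_eq_cardFactors_iff_squarefree`), `good_omega`. -/
theorem count_primes (p : ℕ) [Fact p.Prime] (hp : 100 ≤ p) (x : ZMod p) (hx : x ≠ 0) (Y z : ℕ)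
    (hz : 2 ≤ z) (hY : Y < p) (T E : ℝ) (hT : TauLE (z ^ 5) T)
    (hE : ∑ d ∈ Icc 1 (z ^ 5), |AA p x Y d - PS p * (Y / p) / d| ≤ E)
    (hMW : 1 / (100 * Real.log z) ≤ MW z) :
    (Y / (200 * Real.log z) - 3 * T ^ 5 * E - Real.log p * (Y / z) - 2 * Real.sqrt p * Real.log p) /
      Real.log p ≤
    (Set.ncard {q : ℕ | q.Prime ∧ q < p ∧ ∃ m : ℕ, 0 < m ∧ m ≤ Y ∧ Squarefree m ∧
      (ArithmeticFunction.cardFactors m : ℝ) < 37 / 20 + Real.log Y / (5 * Real.log z) ∧
      (∀ l : ℕ, l.Prime → l ∣ m → z < l) ∧ ((q * m : ℕ) : ZMod p) = x} : ℝ) := by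
  classical
  have hpp : p.Prime := Fact.out
  have hp0 : (0 : ℝ) < p := by exact_mod_cast hpp.pos
  have hlogp : 0 < Real.log p := Real.log_pos (by exact_mod_cast hpp.one_lt)
  have hz2 : (2 : ℝ) ≤ z := by exact_mod_cast hz
  have hlogz : 0 < Real.log z := Real.log_pos (by linarith)
  obtain ⟨hinj, hrr⟩ := rr_basic p x hx
  obtain ⟨hch1, hch2, -⟩ := cheb p hp
  set I : Finset ℕ := (Icc 1 (p - 1)).filter (fun n => rr p x n ≤ Y) with hI
  have hmI : ∀ i ∈ I, 1 ≤ rr p x i := by
    intro i hi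
    rw [hI, mem_filter, mem_Icc] at hi
    exact (hrr i hi.1.1 (by omega)).1
  have hX0 : 0 ≤ PS p * ((Y : ℝ) / p) := by
    have : 0 ≤ PS p := by linarith
    positivity
  have hE' : ∑ t ∈ Icc 1 (z ^ 5), |∑ i ∈ I.filter (fun i => t ∣ rr p x i),
      ArithmeticFunction.vonMangoldt i - PS p * ((Y : ℝ) / p) / t| ≤ E := by
    refine le_of_eq_of_le ?_ hE
    refine sum_congr rfl fun t _ => ?_
    congr 2
    unfold AA
    rw [hI, filter_filter]
    refine sum_congr ?_ fun _ _ => rfl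
    ext n
    simp only [mem_filter]
    tauto
  have hs := sieve_ineq I (fun n => ArithmeticFunction.vonMangoldt n) (rr p x) z hz
    (PS p * ((Y : ℝ) / p)) T E hX0 hT (fun i _ => ArithmeticFunction.vonMangoldt_nonneg) hmI hE'
  -- main term
  have hmain : (Y : ℝ) / (200 * Real.log z) ≤ PS p * ((Y : ℝ) / p) * MW z := by
    have h1 : (Y : ℝ) / 2 ≤ PS p * ((Y : ℝ) / p) := by
      calc (Y : ℝ) / 2 = (p : ℝ) / 2 * ((Y : ℝ) / p) := by field_simp
        _ ≤ PS p * ((Y : ℝ) / p) := by gcongr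
    calc (Y : ℝ) / (200 * Real.log z) = (Y : ℝ) / 2 * (1 / (100 * Real.log z)) := by
          field_simp
          ring
      _ ≤ PS p * ((Y : ℝ) / p) * MW z := by gcongr
  -- the covering
  set S : Finset ℕ := I.filter (fun i => Good z (rr p x i)) with hS
  set A : Finset ℕ := (Icc 1 (p - 1)).filter (fun n => rr p x n ≤ Y ∧
      (∀ l ∈ (rr p x n).primeFactors, z < l) ∧ ¬ Squarefree (rr p x n)) with hA
  set B : Finset ℕ := (Icc 1 (p - 1)).filter (fun n => ¬ n.Prime) with hB
  set Q : Finset ℕ := (Icc 1 (p - 1)).filter (fun n => n.Prime ∧ rr p x n ≤ Y ∧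
      Good z (rr p x n) ∧ Squarefree (rr p x n)) with hQ
  have hcov : S ⊆ A ∪ (B ∪ Q) := by
    intro n hn
    rw [hS, mem_filter, hI, mem_filter] at hn
    obtain ⟨⟨hn1, hn2⟩, hn3⟩ := hn
    rw [mem_union, mem_union, hA, hB, hQ, mem_filter, mem_filter, mem_filter]
    by_cases hsq : Squarefree (rr p x n)
    · right
      by_cases hpr : n.Prime
      · right
        exact ⟨hn1, hpr, hn2, hn3, hsq⟩
      · left
        exact ⟨hn1, hpr⟩
    · left
      exact ⟨hn1, hn2, hn3.1, hsq⟩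
  have hsum : ∑ i ∈ S, ArithmeticFunction.vonMangoldt i ≤
      ∑ i ∈ A, ArithmeticFunction.vonMangoldt i + (∑ i ∈ B, ArithmeticFunction.vonMangoldt i +
        ∑ i ∈ Q, ArithmeticFunction.vonMangoldt i) := by
    have hnn : ∀ i, 0 ≤ ArithmeticFunction.vonMangoldt i :=
      fun i => ArithmeticFunction.vonMangoldt_nonneg
    calc ∑ i ∈ S, ArithmeticFunction.vonMangoldt i ≤
          ∑ i ∈ A ∪ (B ∪ Q), ArithmeticFunction.vonMangoldt i :=
          sum_le_sum_of_subset_of_nonneg hcov fun i _ _ => hnn i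
      _ ≤ ∑ i ∈ A, ArithmeticFunction.vonMangoldt i +
          ∑ i ∈ B ∪ Q, ArithmeticFunction.vonMangoldt i := by
          rw [← sum_union_inter]
          have : 0 ≤ ∑ i ∈ A ∩ (B ∪ Q), ArithmeticFunction.vonMangoldt i :=
            sum_nonneg fun i _ => hnn i
          linarith
      _ ≤ _ := by
          have h2 : ∑ i ∈ B ∪ Q, ArithmeticFunction.vonMangoldt i ≤
              ∑ i ∈ B, ArithmeticFunction.vonMangoldt i +
                ∑ i ∈ Q, ArithmeticFunction.vonMangoldt i := by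
            rw [← sum_union_inter]
            have : 0 ≤ ∑ i ∈ B ∩ Q, ArithmeticFunction.vonMangoldt i :=
              sum_nonneg fun i _ => hnn i
            linarith
          linarith
  have hAle := sq_part p x hx Y z (by omega)
  have hQle : ∑ i ∈ Q, ArithmeticFunction.vonMangoldt i ≤ (Q.card : ℝ) * Real.log p := by
    rw [← nsmul_eq_mul]
    refine sum_le_card_nsmul _ _ _ fun n hn => ?_
    rw [hQ, mem_filter, mem_Icc] at hn
    refine le_trans ArithmeticFunction.vonMangoldt_le_log ?_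
    exact Real.log_le_log (by exact_mod_cast hn.1.1) (by exact_mod_cast (by omega : n ≤ p))
  -- Q is contained in the target set
  have hfin : {q : ℕ | q.Prime ∧ q < p ∧ ∃ m : ℕ, 0 < m ∧ m ≤ Y ∧ Squarefree m ∧
      (ArithmeticFunction.cardFactors m : ℝ) < 37 / 20 + Real.log Y / (5 * Real.log z) ∧
      (∀ l : ℕ, l.Prime → l ∣ m → z < l) ∧ ((q * m : ℕ) : ZMod p) = x}.Finite :=
    (Set.finite_Iio p).subset fun q hq => hq.2.1
  have hQsub : (Q : Set ℕ) ⊆ {q : ℕ | q.Prime ∧ q < p ∧ ∃ m : ℕ, 0 < m ∧ m ≤ Y ∧ Squarefree m ∧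
      (ArithmeticFunction.cardFactors m : ℝ) < 37 / 20 + Real.log Y / (5 * Real.log z) ∧
      (∀ l : ℕ, l.Prime → l ∣ m → z < l) ∧ ((q * m : ℕ) : ZMod p) = x} := by
    intro n hn
    rw [mem_coe, hQ, mem_filter, mem_Icc] at hn
    obtain ⟨⟨hn1, hn2⟩, hpr, hnY, hgood, hsq⟩ := hn
    obtain ⟨hm1, hm2, hm3⟩ := hrr n hn1 (by omega)
    refine ⟨hpr, by omega, rr p x n, hm1, hnY, hsq, ?_, ?_, hm3⟩
    · have h1 := good_omega z (rr p x n) hz hm1 hgood
      have h2 : ArithmeticFunction.cardFactors (rr p x n) = (rr p x n).primeFactors.card := by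
        rw [← (ArithmeticFunction.cardDistinctFactors_eq_cardFactors_iff_squarefree
          (by omega)).2 hsq, ArithmeticFunction.cardDistinctFactors_apply]
        rfl
      rw [h2]
      refine lt_of_lt_of_le h1 ?_
      gcongr
    · intro l hl hlm
      exact hgood.1 l (Nat.mem_primeFactors.2 ⟨hl, hlm, by omega⟩)
  have hcard : (Q.card : ℝ) ≤ (Set.ncard {q : ℕ | q.Prime ∧ q < p ∧ ∃ m : ℕ, 0 < m ∧ m ≤ Y ∧
      Squarefree m ∧
      (ArithmeticFunction.cardFactors m : ℝ) < 37 / 20 + Real.log Y / (5 * Real.log z) ∧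
      (∀ l : ℕ, l.Prime → l ∣ m → z < l) ∧ ((q * m : ℕ) : ZMod p) = x} : ℝ) := by
    rw [← Set.ncard_coe_finset Q]
    exact_mod_cast Set.ncard_le_ncard hQsub hfin
  refine le_trans ?_ hcard
  rw [div_le_iff₀ hlogp]
  linarith

end Pool.Agent.EPK
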