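import Pool.Agent.EPK.F2

/-!
# [EPK-F3] every class is a prime times a product of at most nine primes
-/

set_option autoImplicit false

namespace Pool.Agent.EPK

open Finset Filter

/-- powers beat constants and logarithms -/
theorem f3_ev (K a b : ℝ) (j : ℕ) (hab : a < b) :
    ∀ᶠ p : ℕ in atTop, K * (p : ℝ) ^ a * (3 + Real.log p) ^ j ≤ (p : ℝ) ^ b := by
  obtain ⟨C, hC1, hC⟩ := log_absorb ((b - a) / 2) (by linarith) j
  have ht : Tendsto (fun p : ℕ => (p : ℝ) ^ ((b - a) / 2)) atTop atTop :=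
    (tendsto_rpow_atTop (by linarith)).comp tendsto_natCast_atTop_atTop
  filter_upwards [ht.eventually_ge_atTop (|K| * C), eventually_ge_atTop 1] with p h1 h2
  have hp : (0 : ℝ) < p := by exact_mod_cast h2
  have hpa : 0 < (p : ℝ) ^ a := Real.rpow_pos_of_pos hp a
  have hlog : 0 ≤ Real.log p := Real.log_natCast_nonneg p
  have h3 := hC p h2
  calc K * (p : ℝ) ^ a * (3 + Real.log p) ^ j
      ≤ |K| * (p : ℝ) ^ a * (3 + Real.log p) ^ j := by
        gcongr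
        exact le_abs_self K
    _ ≤ |K| * (p : ℝ) ^ a * (C * (p : ℝ) ^ ((b - a) / 2)) := by gcongr
    _ = (|K| * C) * ((p : ℝ) ^ a * (p : ℝ) ^ ((b - a) / 2)) := by ring
    _ ≤ (p : ℝ) ^ ((b - a) / 2) * ((p : ℝ) ^ a * (p : ℝ) ^ ((b - a) / 2)) := by gcongr
    _ = (p : ℝ) ^ b := by
        rw [← Real.rpow_add hp, ← Real.rpow_add hp]
        congr 1
        ring

/-- [F3] The main theorem. -/
theorem prime_times_P9 : ∃ (c : ℝ) (p₀ : ℕ), 0 < c ∧ ∀ p : ℕ, p.Prime → p₀ ≤ p → ∀ x : ℕ, ¬ p ∣ x →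
    c * (p : ℝ) ^ (999 / 1000 : ℝ) / Real.log p ^ 2 ≤
    (Set.ncard {q : ℕ | q.Prime ∧ q < p ∧ ∃ m : ℕ, 0 < m ∧
      (m : ℝ) ≤ (p : ℝ) ^ (999 / 1000 : ℝ) ∧ Squarefree m ∧
      ArithmeticFunction.cardFactors m ≤ 9 ∧
      (∀ l : ℕ, l.Prime → l ∣ m → (p : ℝ) ^ (1 / 41 : ℝ) < l) ∧ q * m ≡ x [MOD p]} : ℝ) := by
  obtain ⟨z₀, hz₀⟩ := MW_lower
  obtain ⟨C₁, hC₁1, hC₁⟩ := tau_le (1 / 100000) (by norm_num)
  obtain ⟨C₂, hC₂1, hC₂⟩ := level (1 / 100000) (by norm_num)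
  have ev : ∀ᶠ p : ℕ in atTop, 100 ≤ p ∧ (max (z₀ : ℝ) 2) + 1 ≤ (p : ℝ) ^ (246 / 10000 : ℝ) ∧
      8700 ≤ Real.log p ∧ 
      (6 * C₁ ^ 5 * C₂) * (p : ℝ) ^ (99881 / 100000 : ℝ) * (3 + Real.log p) ^ 0 ≤
        (p : ℝ) ^ (9989 / 10000 : ℝ) ∧
      1 * (p : ℝ) ^ (98 / 100 : ℝ) * (3 + Real.log p) ^ 1 ≤ (p : ℝ) ^ (9989 / 10000 : ℝ) ∧
      100 * (p : ℝ) ^ (9989 / 10000 : ℝ) * (3 + Real.log p) ^ 1 ≤ (p : ℝ) ^ (999 / 1000 : ℝ) := by
    refine (eventually_ge_atTop 100).and ?_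
    refine Eventually.and ?_ ?_
    · have ht : Tendsto (fun p : ℕ => (p : ℝ) ^ (246 / 10000 : ℝ)) atTop atTop :=
        (tendsto_rpow_atTop (by norm_num)).comp tendsto_natCast_atTop_atTop
      exact ht.eventually_ge_atTop _
    refine Eventually.and ?_ ?_
    · have ht : Tendsto (fun p : ℕ => Real.log (p : ℝ)) atTop atTop :=
        Real.tendsto_log_atTop.comp tendsto_natCast_atTop_atTop
      exact ht.eventually_ge_atTop _
    refine (f3_ev _ _ _ _ (by norm_num)).and ?_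
    exact (f3_ev _ _ _ _ (by norm_num)).and (f3_ev _ _ _ _ (by norm_num))
  obtain ⟨p₀, hp₀⟩ := eventually_atTop.1 ev
  refine ⟨1 / 10, p₀, by norm_num, ?_⟩
  intro p hpp hp x hx
  obtain ⟨h100, hz1, hL, he1, he2, he3⟩ := hp₀ p hp
  haveI : Fact p.Prime := ⟨hpp⟩
  have hp0 : (0 : ℝ) < p := by exact_mod_cast hpp.pos
  have hp1 : (1 : ℝ) ≤ p := by exact_mod_cast hpp.one_le
  have hp1' : (1 : ℝ) < p := by exact_mod_cast hpp.one_lt
  have hlogp : 0 < Real.log p := by linarith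
  have hxz : (x : ZMod p) ≠ 0 := by
    rw [Ne, ZMod.natCast_eq_zero_iff]
    exact hx
  set z : ℕ := ⌊(p : ℝ) ^ (246 / 10000 : ℝ)⌋₊ with hzdef
  set Y : ℕ := ⌊(p : ℝ) ^ (999 / 1000 : ℝ)⌋₊ with hYdef
  have hzle : (z : ℝ) ≤ (p : ℝ) ^ (246 / 10000 : ℝ) := Nat.floor_le (by positivity)
  have hzlt : (p : ℝ) ^ (246 / 10000 : ℝ) < z + 1 := Nat.lt_floor_add_one _
  have hYle : (Y : ℝ) ≤ (p : ℝ) ^ (999 / 1000 : ℝ) := Nat.floor_le (by positivity)
  have hYlt : (p : ℝ) ^ (999 / 1000 : ℝ) < Y + 1 := Nat.lt_floor_add_one _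
  have hzmax : max (z₀ : ℝ) 2 ≤ z := by linarith
  have hz2r : (2 : ℝ) ≤ z := le_trans (le_max_right _ _) hzmax
  have hz2 : 2 ≤ z := by exact_mod_cast hz2r
  have hzz : z₀ ≤ z := by exact_mod_cast le_trans (le_max_left _ _) hzmax
  have hYp : Y < p := by
    have h1 : (p : ℝ) ^ (999 / 1000 : ℝ) < (p : ℝ) ^ (1 : ℝ) :=
      Real.rpow_lt_rpow_of_exponent_lt hp1' (by norm_num)
    rw [Real.rpow_one] at h1
    exact_mod_cast lt_of_le_of_lt hYle h1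
  have hz5 : ((z ^ 5 : ℕ) : ℝ) ≤ (p : ℝ) ^ (123 / 1000 : ℝ) := by
    push_cast
    calc (z : ℝ) ^ 5 ≤ ((p : ℝ) ^ (246 / 10000 : ℝ)) ^ 5 := by gcongr
      _ = (p : ℝ) ^ (123 / 1000 : ℝ) := by
          rw [← Real.rpow_natCast, ← Real.rpow_mul hp0.le]
          norm_num
  have hz5p : 2 * z ^ 5 < p := by
    have h1 : (2 : ℝ) * (p : ℝ) ^ (123 / 1000 : ℝ) < p := by
      have h2 : (2 : ℝ) ≤ (p : ℝ) ^ (246 / 10000 : ℝ) := le_trans hz2r hzle
      calc (2 : ℝ) * (p : ℝ) ^ (123 / 1000 : ℝ) ≤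
            (p : ℝ) ^ (246 / 10000 : ℝ) * (p : ℝ) ^ (123 / 1000 : ℝ) := by gcongr
        _ = (p : ℝ) ^ (246 / 10000 + 123 / 1000 : ℝ) := (Real.rpow_add hp0 _ _).symm
        _ < (p : ℝ) ^ (1 : ℝ) := Real.rpow_lt_rpow_of_exponent_lt hp1' (by norm_num)
        _ = p := Real.rpow_one _
    have h3 : ((2 * z ^ 5 : ℕ) : ℝ) < p := by
      push_cast at hz5 ⊢
      linarith
    exact_mod_cast h3
  have hz5pos : 1 ≤ z ^ 5 := Nat.one_le_pow _ _ (by omega)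
  -- the divisor bound
  set T : ℝ := C₁ * (p : ℝ) ^ (1 / 100000 : ℝ) with hTdef
  have hT : TauLE (z ^ 5) T := by
    intro n hn1 hn2
    refine hC₁ p hpp.one_le n hn1 ?_
    have : p ≤ 16 * p ^ 4 := by
      calc p = 1 * p ^ 1 := by ring
        _ ≤ 16 * p ^ 4 := Nat.mul_le_mul (by norm_num) (Nat.pow_le_pow_right hpp.pos (by norm_num))
    omega
  -- the error
  set E : ℝ := C₂ * (p : ℝ) ^ (1 / 100000 : ℝ) * (((z ^ 5 : ℕ) : ℝ) ^ (1 / 2 : ℝ) *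
        ((Y : ℝ) / p) ^ (1 / 4 : ℝ) *
        (p : ℝ) ^ (15 / 16 : ℝ) + ((z ^ 5 : ℕ) : ℝ) * (p : ℝ) ^ (7 / 8 : ℝ)) with hEdef
  have hE := hC₂ p Y (z ^ 5) (x : ZMod p) (by omega) hYp hz5pos hz5p hxz
  have hEle : 3 * T ^ 5 * E ≤ (p : ℝ) ^ (9989 / 10000 : ℝ) := by
    have h1 : ((z ^ 5 : ℕ) : ℝ) ^ (1 / 2 : ℝ) ≤ (p : ℝ) ^ (615 / 10000 : ℝ) := by
      calc ((z ^ 5 : ℕ) : ℝ) ^ (1 / 2 : ℝ) ≤ ((p : ℝ) ^ (123 / 1000 : ℝ)) ^ (1 / 2 : ℝ) :=
            Real.rpow_le_rpow (by positivity) hz5 (by norm_num)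
        _ = (p : ℝ) ^ (615 / 10000 : ℝ) := by
            rw [← Real.rpow_mul hp0.le]
            norm_num
    have h2 : ((Y : ℝ) / p) ^ (1 / 4 : ℝ) ≤ (p : ℝ) ^ (-(25 / 100000) : ℝ) := by
      have h3 : (Y : ℝ) / p ≤ (p : ℝ) ^ (-(1 / 1000) : ℝ) := by
        rw [div_le_iff₀ hp0]
        calc (Y : ℝ) ≤ (p : ℝ) ^ (999 / 1000 : ℝ) := hYle
          _ = (p : ℝ) ^ (-(1 / 1000) : ℝ) * (p : ℝ) ^ (1 : ℝ) := by
              rw [← Real.rpow_add hp0]
              norm_num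
          _ = (p : ℝ) ^ (-(1 / 1000) : ℝ) * p := by rw [Real.rpow_one]
      calc ((Y : ℝ) / p) ^ (1 / 4 : ℝ) ≤ ((p : ℝ) ^ (-(1 / 1000) : ℝ)) ^ (1 / 4 : ℝ) :=
            Real.rpow_le_rpow (by positivity) h3 (by norm_num)
        _ = (p : ℝ) ^ (-(25 / 100000) : ℝ) := by
            rw [← Real.rpow_mul hp0.le]
            norm_num
    have h3 : ((z ^ 5 : ℕ) : ℝ) ^ (1 / 2 : ℝ) * ((Y : ℝ) / p) ^ (1 / 4 : ℝ) *
        (p : ℝ) ^ (15 / 16 : ℝ) ≤ (p : ℝ) ^ (99875 / 100000 : ℝ) := by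
      calc ((z ^ 5 : ℕ) : ℝ) ^ (1 / 2 : ℝ) * ((Y : ℝ) / p) ^ (1 / 4 : ℝ) * (p : ℝ) ^ (15 / 16 : ℝ)
          ≤ (p : ℝ) ^ (615 / 10000 : ℝ) * (p : ℝ) ^ (-(25 / 100000) : ℝ) *
            (p : ℝ) ^ (15 / 16 : ℝ) := by gcongr
        _ = (p : ℝ) ^ (99875 / 100000 : ℝ) := by
            rw [← Real.rpow_add hp0, ← Real.rpow_add hp0]
            norm_num
    have h4 : ((z ^ 5 : ℕ) : ℝ) * (p : ℝ) ^ (7 / 8 : ℝ) ≤ (p : ℝ) ^ (99875 / 100000 : ℝ) := by
      calc ((z ^ 5 : ℕ) : ℝ) * (p : ℝ) ^ (7 / 8 : ℝ)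
          ≤ (p : ℝ) ^ (123 / 1000 : ℝ) * (p : ℝ) ^ (7 / 8 : ℝ) := by gcongr
        _ = (p : ℝ) ^ (123 / 1000 + 7 / 8 : ℝ) := (Real.rpow_add hp0 _ _).symm
        _ ≤ (p : ℝ) ^ (99875 / 100000 : ℝ) :=
            Real.rpow_le_rpow_of_exponent_le hp1 (by norm_num)
    have h5 : E ≤ C₂ * (p : ℝ) ^ (1 / 100000 : ℝ) * (2 * (p : ℝ) ^ (99875 / 100000 : ℝ)) := by
      rw [hEdef]
      have : 0 ≤ C₂ := by linarith
      gcongr
      linarith
    have hT0 : 0 ≤ T := by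
      rw [hTdef]
      have : 0 ≤ C₁ := by linarith
      positivity
    calc 3 * T ^ 5 * E ≤ 3 * T ^ 5 *
          (C₂ * (p : ℝ) ^ (1 / 100000 : ℝ) * (2 * (p : ℝ) ^ (99875 / 100000 : ℝ))) := by gcongr
      _ = (6 * C₁ ^ 5 * C₂) * (((p : ℝ) ^ (1 / 100000 : ℝ)) ^ 5 * (p : ℝ) ^ (1 / 100000 : ℝ) *
            (p : ℝ) ^ (99875 / 100000 : ℝ)) := by
          rw [hTdef]
          ring
      _ = (6 * C₁ ^ 5 * C₂) * (p : ℝ) ^ (99881 / 100000 : ℝ) * (3 + Real.log p) ^ 0 := by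
          rw [← Real.rpow_natCast ((p : ℝ) ^ (1 / 100000 : ℝ)) 5, ← Real.rpow_mul hp0.le,
            ← Real.rpow_add hp0, ← Real.rpow_add hp0]
          norm_num
      _ ≤ _ := he1
  -- logarithm of z
  have hlogz_le : Real.log z ≤ 246 / 10000 * Real.log p := by
    calc Real.log z ≤ Real.log ((p : ℝ) ^ (246 / 10000 : ℝ)) :=
          Real.log_le_log (by linarith) hzle
      _ = 246 / 10000 * Real.log p := Real.log_rpow hp0 _
  have hlogz_ge : 2452 / 100000 * Real.log p ≤ Real.log z := by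
    have h1 : (p : ℝ) ^ (246 / 10000 : ℝ) ≤ 2 * z := by linarith
    have h2 : 246 / 10000 * Real.log p ≤ Real.log 2 + Real.log z := by
      rw [← Real.log_rpow hp0, ← Real.log_mul (by norm_num) (by linarith)]
      exact Real.log_le_log (by positivity) h1
    have h3 : Real.log 2 < 0.6931471808 := Real.log_two_lt_d9
    linarith
  have hlogz_pos : 0 < Real.log z := by nlinarith
  have hlogY : Real.log Y ≤ 999 / 1000 * Real.log p := by
    rcases Nat.eq_zero_or_pos Y with h0 | h0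
    · rw [h0]
      simp only [Nat.cast_zero, Real.log_zero]
      positivity
    · calc Real.log Y ≤ Real.log ((p : ℝ) ^ (999 / 1000 : ℝ)) :=
            Real.log_le_log (by exact_mod_cast h0) hYle
        _ = 999 / 1000 * Real.log p := Real.log_rpow hp0 _
  have hcount := count_primes p h100 (x : ZMod p) hxz Y z hz2 hYp T E hT hE (hz₀ z hzz)
  -- the main inequality
  have hmain : 1 / 10 * (p : ℝ) ^ (999 / 1000 : ℝ) / Real.log p ^ 2 ≤
      (Y / (200 * Real.log z) - 3 * T ^ 5 * E - Real.log p * (Y / z) -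
        2 * Real.sqrt p * Real.log p) / Real.log p := by
    rw [div_le_div_iff₀ (by positivity) hlogp]
    have h1 : (p : ℝ) ^ (999 / 1000 : ℝ) / (492 / 100 * Real.log p) - 1 ≤
        Y / (200 * Real.log z) := by
      have h2 : ((p : ℝ) ^ (999 / 1000 : ℝ) - 1) / (492 / 100 * Real.log p) ≤
          Y / (200 * Real.log z) := by
        have hY1 : (p : ℝ) ^ (999 / 1000 : ℝ) - 1 ≤ Y := by linarith
        have h3 : 200 * Real.log z ≤ 492 / 100 * Real.log p := by linarith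
        calc ((p : ℝ) ^ (999 / 1000 : ℝ) - 1) / (492 / 100 * Real.log p) ≤
              Y / (492 / 100 * Real.log p) := by gcongr
          _ ≤ Y / (200 * Real.log z) := by gcongr
      have h4 : 1 / (492 / 100 * Real.log p) ≤ 1 := by
        rw [div_le_one (by positivity)]
        linarith
      rw [sub_div] at h2
      linarith
    have h5 : Real.log p * (Y / z) ≤ (p : ℝ) ^ (9989 / 10000 : ℝ) := by
      have h6 : (Y : ℝ) / z ≤ (p : ℝ) ^ (98 / 100 : ℝ) := by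
        rw [div_le_iff₀ (by linarith)]
        have h7 : (p : ℝ) ^ (19 / 1000 : ℝ) ≤ z := by
          have h8 : Real.log ((p : ℝ) ^ (19 / 1000 : ℝ)) ≤ Real.log z := by
            rw [Real.log_rpow hp0]
            linarith
          exact (Real.log_le_log_iff (by positivity) (by linarith)).1 h8
        calc (Y : ℝ) ≤ (p : ℝ) ^ (999 / 1000 : ℝ) := hYle
          _ = (p : ℝ) ^ (98 / 100 : ℝ) * (p : ℝ) ^ (19 / 1000 : ℝ) := by
              rw [← Real.rpow_add hp0]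
              norm_num
          _ ≤ (p : ℝ) ^ (98 / 100 : ℝ) * z := by gcongr
      calc Real.log p * (Y / z) ≤ (3 + Real.log p) ^ 1 * (p : ℝ) ^ (98 / 100 : ℝ) := by
            rw [pow_one]
            gcongr
            linarith
        _ = 1 * (p : ℝ) ^ (98 / 100 : ℝ) * (3 + Real.log p) ^ 1 := by ring
        _ ≤ _ := he2
    have h6 : 2 * Real.sqrt p * Real.log p ≤ 2 * (p : ℝ) ^ (9989 / 10000 : ℝ) := by
      have h7 : Real.sqrt p ≤ (p : ℝ) ^ (98 / 100 : ℝ) := by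
        rw [Real.sqrt_eq_rpow]
        exact Real.rpow_le_rpow_of_exponent_le hp1 (by norm_num)
      have h8 : Real.sqrt p * Real.log p ≤ (p : ℝ) ^ (9989 / 10000 : ℝ) := by
        calc Real.sqrt p * Real.log p ≤ (p : ℝ) ^ (98 / 100 : ℝ) * (3 + Real.log p) ^ 1 := by
              rw [pow_one]
              gcongr
              linarith
          _ = 1 * (p : ℝ) ^ (98 / 100 : ℝ) * (3 + Real.log p) ^ 1 := by ring
          _ ≤ _ := he2
      linarith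
    have h9 : 1 ≤ (p : ℝ) ^ (9989 / 10000 : ℝ) := Real.one_le_rpow hp1 (by norm_num)
    have h10 : 100 * (p : ℝ) ^ (9989 / 10000 : ℝ) * Real.log p ≤ (p : ℝ) ^ (999 / 1000 : ℝ) := by
      refine le_trans ?_ he3
      rw [pow_one]
      gcongr
      linarith
    set A : ℝ := (p : ℝ) ^ (9989 / 10000 : ℝ) with hA
    set B : ℝ := (p : ℝ) ^ (999 / 1000 : ℝ) with hB
    set L : ℝ := Real.log p with hLdef
    -- the numerator is at least B / (4.92 L) - 1 - 4 A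
    have h11 : B / (492 / 100 * L) - 5 * A ≤ Y / (200 * Real.log z) - 3 * T ^ 5 * E -
        L * (Y / z) - 2 * Real.sqrt p * L := by linarith
    have h12 : B * (1 / 10) ≤ (B / (492 / 100 * L) - 5 * A) * L := by
      have h13 : (B / (492 / 100 * L)) * L = B / (492 / 100) := by
        field_simp
      rw [sub_mul, h13]
      have h14 : 0 ≤ B := by positivity
      have h15 : 5 * A * L ≤ B / 20 := by nlinarith
      have h16 : B / (492 / 100) ≥ B / 5 := by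
        apply div_le_div_of_nonneg_left h14 (by norm_num) (by norm_num)
      linarith
    calc 1 / 10 * B * L = (B * (1 / 10)) * L := by ring
      _ ≤ ((B / (492 / 100 * L) - 5 * A) * L) * L := by gcongr
      _ = (B / (492 / 100 * L) - 5 * A) * L ^ 2 := by ring
      _ ≤ _ := by gcongr
  refine le_trans hmain (le_trans hcount ?_)
  -- inclusion of sets
  have hsub : {q : ℕ | q.Prime ∧ q < p ∧ ∃ m : ℕ, 0 < m ∧ m ≤ Y ∧ Squarefree m ∧
      (ArithmeticFunction.cardFactors m : ℝ) < 37 / 20 + Real.log Y / (5 * Real.log z) ∧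
      (∀ l : ℕ, l.Prime → l ∣ m → z < l) ∧ ((q * m : ℕ) : ZMod p) = (x : ZMod p)} ⊆
      {q : ℕ | q.Prime ∧ q < p ∧ ∃ m : ℕ, 0 < m ∧
      (m : ℝ) ≤ (p : ℝ) ^ (999 / 1000 : ℝ) ∧ Squarefree m ∧
      ArithmeticFunction.cardFactors m ≤ 9 ∧
      (∀ l : ℕ, l.Prime → l ∣ m → (p : ℝ) ^ (1 / 41 : ℝ) < l) ∧ q * m ≡ x [MOD p]} := by
    rintro q ⟨hq, hqp, m, hm0, hmY, hsq, hcf, hrough, hcong⟩
    refine ⟨hq, hqp, m, hm0, ?_, hsq, ?_, ?_, ?_⟩
    · exact le_trans (by exact_mod_cast hmY) hYle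
    · have h1 : Real.log Y / (5 * Real.log z) ≤ 815 / 100 := by
        rw [div_le_iff₀ (by positivity)]
        linarith
      have h2 : (ArithmeticFunction.cardFactors m : ℝ) < 10 := by linarith
      have h3 : ArithmeticFunction.cardFactors m < 10 := by exact_mod_cast h2
      omega
    · intro l hl hlm
      have h1 : z + 1 ≤ l := hrough l hl hlm
      have h2 : ((z : ℝ) + 1) ≤ l := by exact_mod_cast h1
      have h3 : (p : ℝ) ^ (1 / 41 : ℝ) ≤ (p : ℝ) ^ (246 / 10000 : ℝ) :=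
        Real.rpow_le_rpow_of_exponent_le hp1 (by norm_num)
      linarith
    · exact (ZMod.natCast_eq_natCast_iff _ _ _).1 hcong
  have hfin : {q : ℕ | q.Prime ∧ q < p ∧ ∃ m : ℕ, 0 < m ∧
      (m : ℝ) ≤ (p : ℝ) ^ (999 / 1000 : ℝ) ∧ Squarefree m ∧
      ArithmeticFunction.cardFactors m ≤ 9 ∧
      (∀ l : ℕ, l.Prime → l ∣ m → (p : ℝ) ^ (1 / 41 : ℝ) < l) ∧ q * m ≡ x [MOD p]}.Finite :=
    (Set.finite_Iio p).subset fun q hq => hq.2.1
  exact_mod_cast Set.ncard_le_ncard hsub hfin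

end Pool.Agent.EPK
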