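import Pool.Agent.EPK.S0
import Pool.Agent.Lib.helper94.ANT.Mertens

/-!
# [EPK-M1a] Mertens' theorems
-/

set_option autoImplicit false

namespace Pool.Agent.EPK

open Finset

/-- a sum over the primes of an interval -/
theorem sum_primes_Ioc (F : ℕ → ℝ) (x y : ℕ) (hxy : x ≤ y) :
    ∑ l ∈ (Ioc x y).filter Nat.Prime, F l =
      ∑ l ∈ Nat.primesLE y, F l - ∑ l ∈ Nat.primesLE x, F l := by
  classical
  have h1 : Nat.primesLE y = Nat.primesLE x ∪ (Ioc x y).filter Nat.Prime := by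
    ext l
    simp only [Finset.mem_union, Nat.mem_primesLE, Finset.mem_filter, Finset.mem_Ioc]
    constructor
    · rintro ⟨h1, h2⟩
      rcases le_or_gt l x with h | h
      · exact Or.inl ⟨h, h2⟩
      · exact Or.inr ⟨⟨h, h1⟩, h2⟩
    · rintro (⟨h1, h2⟩ | ⟨⟨h1, h2⟩, h3⟩)
      · exact ⟨h1.trans hxy, h2⟩
      · exact ⟨h2, h3⟩
  have h2 : Disjoint (Nat.primesLE x) ((Ioc x y).filter Nat.Prime) := by
    rw [Finset.disjoint_left]
    intro l hl hl2
    rw [Nat.mem_primesLE] at hl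
    rw [Finset.mem_filter, Finset.mem_Ioc] at hl2
    omega
  rw [h1, Finset.sum_union h2]
  ring

/-- [M1a] `∑_{x < l ≤ y} log l / l = log y - log x + O(1)`. (`mA_bounds` in `Pool/Agent/Lib/helper94/ANT/Mertens.lean` for `x`
and `y`; the sum is `mA y - mA x`.) -/
theorem mertens_one (x y : ℕ) (hx : 1 ≤ x) (hxy : x ≤ y) :
    |∑ l ∈ (Ioc x y).filter Nat.Prime, Real.log l / l - (Real.log y - Real.log x)| ≤ 5 := by
  rw [sum_primes_Ioc (fun l : ℕ => Real.log l / l) x y hxy]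
  have h1 := Pool.Agent.Lib.helper94.ANT.mA_bounds (n := x) hx
  have h2 := Pool.Agent.Lib.helper94.ANT.mA_bounds (n := y) (hx.trans hxy)
  unfold Pool.Agent.Lib.helper94.ANT.mA at h1 h2
  rw [abs_le]
  constructor <;> linarith [h1.1, h1.2, h2.1, h2.2]

end Pool.Agent.EPK
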