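import Pool.Agent.EPK.M1a

/-!
# [EPK-M1b] Mertens' theorems
-/

set_option autoImplicit false

namespace Pool.Agent.EPK

open Finset Pool.Agent.Lib.helper94.ANT

/-- [M1b] Mertens' second theorem for an interval, with error `O(1 / log x)`.

Proof. Partial summation: with `A n = mA n` (`|A n - log n| ≤ 3`), the sum is `∑_{x < n ≤ y} (A n - A (n - 1)) / log n =
A y / log y - A x / log (x + 1) + ∑_{x < n < y} A n (1 / log n - 1 / log (n + 1))`; replace `A n` by `log n`: the error is at most
`3 / log y + 3 / log x + 3 / log x`, and for `A n = log n` the expression is `∑_{x < n ≤ y} (log n - log (n - 1)) / log n`, which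
differs from `log log y - log log x = ∑ (log log n - log log (n - 1))` by at most `1 / log x`-ish: each difference
`log log n - log log (n - 1)` lies between `(log n - log (n-1)) / log n` and `(log n - log (n-1)) / log (n-1)` (`log t ≤ t - 1`), and
`∑ (log n - log(n-1)) (1 / log (n-1) - 1 / log n) ≤ 1 / log x` (`log n - log (n - 1) ≤ 1`, telescoping). -/
theorem mertens_two : ∃ C : ℝ, 0 < C ∧ ∀ x y : ℕ, 2 ≤ x → x ≤ y →
    |∑ l ∈ (Ioc x y).filter Nat.Prime, (1 : ℝ) / l -
      (Real.log (Real.log y) - Real.log (Real.log x))| ≤ C / Real.log x := by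
  have hstep : ∀ n : ℕ, 2 ≤ n → mS (n + 1) - mA (n + 1) / Real.log ((n + 1 : ℕ) : ℝ) -
      (mS n - mA n / Real.log n) = mA n * (1 / Real.log n - 1 / Real.log ((n + 1 : ℕ) : ℝ)) := by
    intro n hn
    have h1 : 0 < Real.log n := Real.log_pos (by exact_mod_cast hn)
    have h2 : 0 < Real.log ((n + 1 : ℕ) : ℝ) := Real.log_pos (by exact_mod_cast (by omega : 1 < n + 1))
    rw [mA_succ n]
    field_simp
    ring
  have hmono : ∀ n : ℕ, 2 ≤ n → 0 ≤ 1 / Real.log n - 1 / Real.log ((n + 1 : ℕ) : ℝ) := by
    intro n hn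
    have h1 : 0 < Real.log n := Real.log_pos (by exact_mod_cast hn)
    have hlt : Real.log n ≤ Real.log ((n + 1 : ℕ) : ℝ) :=
      Real.log_le_log (by positivity) (by exact_mod_cast (Nat.lt_succ_self n).le)
    rw [sub_nonneg]
    exact one_div_le_one_div_of_le h1 hlt
  refine ⟨10, by norm_num, fun x y hx hxy => ?_⟩
  have hup : mS y - mA y / Real.log y - Real.log (Real.log y) + 2 / Real.log y ≤
      mS x - mA x / Real.log x - Real.log (Real.log x) + 2 / Real.log x := by
    induction y, hxy using Nat.le_induction with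
    | base => exact le_rfl
    | succ n hn ih =>
      have hn2 : 2 ≤ n := hx.trans hn
      have h1 := hstep n hn2
      have h2 := hmono n hn2
      have h3 := (loglog_step hn2).1
      have h4 := (mA_bounds (n := n) (by omega)).2
      have h5 : 0 < Real.log n := Real.log_pos (by exact_mod_cast hn2)
      have h6 : mA n * (1 / Real.log n - 1 / Real.log ((n + 1 : ℕ) : ℝ)) ≤
          (Real.log n + 2) * (1 / Real.log n - 1 / Real.log ((n + 1 : ℕ) : ℝ)) :=
        mul_le_mul_of_nonneg_right h4 h2
      have h7 : (Real.log n + 2) * (1 / Real.log n - 1 / Real.log ((n + 1 : ℕ) : ℝ)) =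
          1 - Real.log n / Real.log ((n + 1 : ℕ) : ℝ) +
            (2 / Real.log n - 2 / Real.log ((n + 1 : ℕ) : ℝ)) := by
        field_simp
      linarith
  have hlo : mS x - mA x / Real.log x - Real.log (Real.log x) - 4 / Real.log x ≤
      mS y - mA y / Real.log y - Real.log (Real.log y) - 4 / Real.log y := by
    clear hup
    induction y, hxy using Nat.le_induction with
    | base => exact le_rfl
    | succ n hn ih =>
      have hn2 : 2 ≤ n := hx.trans hn
      have h1 := hstep n hn2
      have h2 := hmono n hn2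
      have h3 := (loglog_step hn2).2
      have h4 := (mA_bounds (n := n) (by omega)).1
      have h5 : 0 < Real.log n := Real.log_pos (by exact_mod_cast hn2)
      have h6 : (Real.log n - 3) * (1 / Real.log n - 1 / Real.log ((n + 1 : ℕ) : ℝ)) ≤
          mA n * (1 / Real.log n - 1 / Real.log ((n + 1 : ℕ) : ℝ)) :=
        mul_le_mul_of_nonneg_right h4 h2
      have h7 : (Real.log n - 3) * (1 / Real.log n - 1 / Real.log ((n + 1 : ℕ) : ℝ)) =
          1 - Real.log n / Real.log ((n + 1 : ℕ) : ℝ) -
            3 * (1 / Real.log n - 1 / Real.log ((n + 1 : ℕ) : ℝ)) := by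
        field_simp
      have h8 : 4 / Real.log n = 4 * (1 / Real.log n) := by ring
      have h9 : 4 / Real.log ((n + 1 : ℕ) : ℝ) = 4 * (1 / Real.log ((n + 1 : ℕ) : ℝ)) := by ring
      linarith
  rw [sum_primes_Ioc (fun l : ℕ => (1 : ℝ) / l) x y hxy]
  change |mS y - mS x - (Real.log (Real.log y) - Real.log (Real.log x))| ≤ _
  have hratio : ∀ n : ℕ, x ≤ n → 1 - 3 / Real.log x ≤ mA n / Real.log n ∧
      mA n / Real.log n ≤ 1 + 2 / Real.log x := by
    intro n hn
    have h0 : 0 < Real.log x := Real.log_pos (by exact_mod_cast hx)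
    have h1 : 0 < Real.log n := Real.log_pos (by exact_mod_cast (by omega : 1 < n))
    have h1' : Real.log x ≤ Real.log n :=
      Real.log_le_log (by exact_mod_cast (by omega : 0 < x)) (by exact_mod_cast hn)
    have h4 := mA_bounds (n := n) (by omega)
    have h5 : mA n / Real.log n ≤ 1 + 2 / Real.log n := by
      rw [div_le_iff₀ h1]
      have : (1 + 2 / Real.log n) * Real.log n = Real.log n + 2 := by field_simp
      linarith [h4.2]
    have h6 : 1 - 3 / Real.log n ≤ mA n / Real.log n := by
      rw [le_div_iff₀ h1]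
      have : (1 - 3 / Real.log n) * Real.log n = Real.log n - 3 := by field_simp
      linarith [h4.1]
    have h7 : (3 : ℝ) / Real.log n ≤ 3 / Real.log x :=
      div_le_div_of_nonneg_left (by norm_num) h0 h1'
    have h8 : (2 : ℝ) / Real.log n ≤ 2 / Real.log x :=
      div_le_div_of_nonneg_left (by norm_num) h0 h1'
    constructor <;> linarith
  have hx1 := hratio x le_rfl
  have hy1 := hratio y hxy
  have h0 : 0 < Real.log x := Real.log_pos (by exact_mod_cast hx)
  have hy0 : 0 < Real.log y := Real.log_pos (by exact_mod_cast (by omega : 1 < y))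
  have e1 : 0 ≤ 1 / Real.log x := by positivity
  have e1' : 0 ≤ 1 / Real.log y := by positivity
  have e2 : (2 : ℝ) / Real.log x = 2 * (1 / Real.log x) := by ring
  have e3 : (3 : ℝ) / Real.log x = 3 * (1 / Real.log x) := by ring
  have e4 : (4 : ℝ) / Real.log x = 4 * (1 / Real.log x) := by ring
  have e5 : (10 : ℝ) / Real.log x = 10 * (1 / Real.log x) := by ring
  have e6 : (2 : ℝ) / Real.log y = 2 * (1 / Real.log y) := by ring
  have e7 : (4 : ℝ) / Real.log y = 4 * (1 / Real.log y) := by ring
  rw [e2, e3] at hx1 hy1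
  rw [e2, e6] at hup
  rw [e4, e7] at hlo
  rw [e5, abs_le]
  constructor <;> linarith [hx1.1, hx1.2, hy1.1, hy1.2]

end Pool.Agent.EPK
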