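import Pool.Agent.EPK.M1b

/-!
# [EPK-M1c] Mertens' theorems
-/

set_option autoImplicit false

namespace Pool.Agent.EPK

open Finset Pool.Agent.Lib.helper94.ANT

/-- [M1c] `∑_{l ≤ z} (log l)² / l ≤ (log z)² / 2 + C log z`.

Proof. `(log l)² / l = (log l / l) log l`; partial summation with `A n`: the sum is `A z log z - ∑_{1 ≤ n < z} A n (log (n + 1) - log n)`,
and `A n ≥ log n - 3`, `A z ≤ log z + 2`, `∑_{1 ≤ n < z} log n (log (n + 1) - log n) ≥ (log z)² / 2 - C log z`:
`log n (log (n+1) - log n) = ((log (n+1))² - (log n)²) / 2 - (log (n+1) - log n)² / 2` and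
`∑ (log (n+1) - log n)² ≤ ∑ (log (n + 1) - log n) = log z`. -/
theorem mertens_sq : ∃ C : ℝ, 0 < C ∧ ∀ z : ℕ, 2 ≤ z →
    ∑ l ∈ (Icc 1 z).filter Nat.Prime, Real.log l ^ 2 / l ≤
      Real.log z ^ 2 / 2 + C * Real.log z := by
  classical
  refine ⟨6, by norm_num, fun z hz => ?_⟩
  have hset : (Icc 1 z).filter Nat.Prime = Nat.primesLE z := by
    ext l
    rw [Finset.mem_filter, Finset.mem_Icc, Nat.mem_primesLE]
    constructor
    · rintro ⟨⟨_, h1⟩, h2⟩
      exact ⟨h1, h2⟩
    · rintro ⟨h1, h2⟩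
      exact ⟨⟨h2.one_le, h1⟩, h2⟩
  rw [hset]
  set Q : ℕ → ℝ := fun n => ∑ l ∈ Nat.primesLE n, Real.log l ^ 2 / l with hQ
  change Q z ≤ _
  have hQs : ∀ n : ℕ, Q (n + 1) = Q n + (mA (n + 1) - mA n) * Real.log ((n + 1 : ℕ) : ℝ) := by
    intro n
    rw [hQ]
    dsimp only
    unfold mA
    rw [Nat.primesLE_succ]
    split_ifs with h
    · rw [Finset.sum_insert (Nat.notMem_primesLE n), Finset.sum_insert (Nat.notMem_primesLE n)]
      ring
    · ring
  have key : ∀ n : ℕ, 1 ≤ n → Q n - mA n * Real.log n + Real.log n ^ 2 / 2 - 7 / 2 * Real.log n ≤ 0 := by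
    intro n hn
    induction n, hn using Nat.le_induction with
    | base =>
      have h1 : Nat.primesLE 1 = ∅ := by
        rw [Finset.eq_empty_iff_forall_notMem]
        intro l hl
        rw [Nat.mem_primesLE] at hl
        have := hl.2.two_le
        omega
      rw [hQ]
      dsimp only
      rw [h1]
      simp
    | succ n hn ih =>
      have h1 := hQs n
      have hn0 : (0 : ℝ) < n := by exact_mod_cast hn
      have h2 := (mA_bounds (n := n) hn).1
      have h3 : Real.log n ≤ Real.log ((n + 1 : ℕ) : ℝ) :=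
        Real.log_le_log hn0 (by exact_mod_cast (Nat.lt_succ_self n).le)
      have h4 : Real.log ((n + 1 : ℕ) : ℝ) - Real.log n ≤ 1 := by
        rw [← Real.log_div (by positivity) (by positivity)]
        have h2 := Real.log_le_sub_one_of_pos (x := ((n + 1 : ℕ) : ℝ) / n) (by positivity)
        have hn1 : (1 : ℝ) ≤ n := by exact_mod_cast hn
        have h3 : ((n + 1 : ℕ) : ℝ) / n ≤ 2 := by
          rw [div_le_iff₀ hn0]
          push_cast
          linarith
        linarith
      set a := Real.log n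
      set b := Real.log ((n + 1 : ℕ) : ℝ)
      have h5 : (a - 3) * (b - a) ≤ mA n * (b - a) :=
        mul_le_mul_of_nonneg_right h2 (by linarith)
      have h6 : (b - a) * (b - a) ≤ (b - a) * 1 := mul_le_mul_of_nonneg_left h4 (by linarith)
      rw [h1]
      nlinarith
  have hz1 := key z (by omega)
  have hz2 := (mA_bounds (n := z) (by omega)).2
  have hz3 : 0 ≤ Real.log z := Real.log_nonneg (by exact_mod_cast (by omega : 1 ≤ z))
  have hz4 : mA z * Real.log z ≤ (Real.log z + 2) * Real.log z :=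
    mul_le_mul_of_nonneg_right hz2 hz3
  nlinarith

end Pool.Agent.EPK
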