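import Pool.Agent.EPK.S0

/-!
# [EPK-M2a] the sum of `μ² / φ`
-/

set_option autoImplicit false

namespace Pool.Agent.EPK

open Finset

/-- the sum of `1 / φ(n)` over squarefree `n ≤ R` -/
noncomputable def G1 (R : ℕ) : ℝ := ∑ n ∈ (Icc 1 R).filter Squarefree, ((Nat.totient n : ℝ))⁻¹

/-- Sum of the reciprocals of the numbers with given radical. -/
theorem sum_radical_le1 (z n : ℕ) (hn0 : 0 < n) (hsq : Squarefree n) :
    ∑ m ∈ (Icc 1 z).filter (fun m => m.primeFactors = n.primeFactors), (m : ℝ)⁻¹ ≤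
      (Nat.totient n : ℝ)⁻¹ := by
  have hn0' : (n : ℝ) ≠ 0 := by positivity
  let f : ℕ →* ℝ :=
    { toFun := fun m => (m : ℝ)⁻¹
      map_one' := by simp
      map_mul' := by intro a b; push_cast; rw [mul_inv] }
  have hf : ∀ {p : ℕ}, p.Prime → ‖f p‖ < 1 := by
    intro p hp
    have : (1 : ℝ) < p := by exact_mod_cast hp.one_lt
    change ‖((p : ℝ))⁻¹‖ < 1
    rw [norm_inv, Real.norm_of_nonneg (by positivity)]
    exact inv_lt_one_of_one_lt₀ this
  have hE := EulerProduct.summable_and_hasSum_factoredNumbers_prod_filter_prime_geometric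
    hf n.primeFactors
  have hprod : ∏ p ∈ n.primeFactors with p.Prime, (1 - f p)⁻¹ = n / Nat.totient n := by
    have h1 : (n.primeFactors.filter fun p => p.Prime) = n.primeFactors := by
      apply Finset.filter_true_of_mem
      intro p hp
      exact Nat.prime_of_mem_primeFactors hp
    rw [h1]
    have h2 := Nat.totient_eq_mul_prod_factors n
    have h3 : (Nat.totient n : ℝ) = n * ∏ p ∈ n.primeFactors, (1 - (p : ℝ)⁻¹) := by
      have h2' := congrArg (fun q : ℚ => (q : ℝ)) h2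
      push_cast at h2'
      exact h2'
    rw [h3, Finset.prod_inv_distrib]
    have h4 : ∏ p ∈ n.primeFactors, (1 - (p : ℝ)⁻¹) ≠ 0 := by
      apply Finset.prod_ne_zero_iff.mpr
      intro p hp
      have : (1 : ℝ) < p := by exact_mod_cast (Nat.prime_of_mem_primeFactors hp).one_lt
      have := inv_lt_one_of_one_lt₀ this
      linarith
    change (∏ p ∈ n.primeFactors, (1 - (p : ℝ)⁻¹))⁻¹ = _
    field_simp
  rw [hprod] at hE
  have hbound : ∀ s : Finset (Nat.factoredNumbers n.primeFactors),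
      ∑ m ∈ s, ((m : ℕ) : ℝ)⁻¹ ≤ n / Nat.totient n := by
    intro s
    exact sum_le_hasSum s (fun _ _ => by change (0 : ℝ) ≤ _⁻¹; positivity) hE.2
  -- write m = n * j
  set s0 := (Icc 1 z).filter (fun m => m.primeFactors = n.primeFactors) with hs0
  have hdvd : ∀ m ∈ s0, n ∣ m := by
    intro m hm
    simp only [hs0, mem_filter, mem_Icc] at hm
    have h1 : ∏ p ∈ n.primeFactors, p = n := Nat.prod_primeFactors_of_squarefree hsq
    rw [← h1, ← hm.2]
    exact Nat.prod_primeFactors_dvd m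
  have hmem : ∀ m ∈ s0, m / n ∈ Nat.factoredNumbers n.primeFactors := by
    intro m hm
    have hd := hdvd m hm
    simp only [hs0, mem_filter, mem_Icc] at hm
    rw [Nat.mem_factoredNumbers']
    intro p hp hpd
    rw [← hm.2, Nat.mem_primeFactors]
    exact ⟨hp, hpd.trans (Nat.div_dvd_of_dvd hd), by omega⟩
  have hsum : ∑ m ∈ s0, (m : ℝ)⁻¹ = (n : ℝ)⁻¹ * ∑ m ∈ s0.attach, (((m : ℕ) / n : ℕ) : ℝ)⁻¹ := by
    rw [Finset.mul_sum, ← Finset.sum_attach]
    apply Finset.sum_congr rfl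
    intro m _
    have hd := hdvd m.1 m.2
    rw [Nat.cast_div hd hn0', inv_div, mul_comm]
    field_simp
  have himg : ∑ m ∈ s0.attach, (((m : ℕ) / n : ℕ) : ℝ)⁻¹ =
      ∑ j ∈ s0.attach.image (fun m : {x // x ∈ s0} => (⟨(m : ℕ) / n, hmem m.1 m.2⟩ :
        Nat.factoredNumbers n.primeFactors)), ((j : ℕ) : ℝ)⁻¹ := by
    rw [Finset.sum_image]
    intro a _ b _ hab
    have hab' : (a : ℕ) / n = (b : ℕ) / n := congrArg Subtype.val hab
    apply Subtype.ext
    have ha := Nat.div_mul_cancel (hdvd a.1 a.2)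
    have hb := Nat.div_mul_cancel (hdvd b.1 b.2)
    rw [← ha, ← hb, hab']
  rw [hsum, himg]
  calc (n : ℝ)⁻¹ * _ ≤ (n : ℝ)⁻¹ * (n / Nat.totient n) :=
        mul_le_mul_of_nonneg_left (hbound _) (by positivity)
    _ = (Nat.totient n : ℝ)⁻¹ := by field_simp

/-- The harmonic sum is at most `G1`. -/
theorem harmonic_le_G1 (R : ℕ) : ∑ m ∈ Icc 1 R, (m : ℝ)⁻¹ ≤ G1 R := by
  classical
  have h1 : ∑ m ∈ Icc 1 R, (m : ℝ)⁻¹ =
      ∑ n ∈ (Icc 1 R).filter Squarefree,
        ∑ m ∈ (Icc 1 R).filter (fun m => ∏ p ∈ m.primeFactors, p = n), (m : ℝ)⁻¹ := by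
    rw [Finset.sum_fiberwise_of_maps_to]
    intro m hm
    rw [mem_Icc] at hm
    have hdv : ∏ p ∈ m.primeFactors, p ∣ m := Nat.prod_primeFactors_dvd m
    rw [mem_filter, mem_Icc]
    refine ⟨⟨Nat.pos_of_dvd_of_pos hdv (by omega), (Nat.le_of_dvd (by omega) hdv).trans hm.2⟩, ?_⟩
    apply Finset.squarefree_prod_of_pairwise_isCoprime
    · intro p hp q hq hpq
      have h1 := Nat.prime_of_mem_primeFactors (Finset.mem_coe.mp hp)
      have h2 := Nat.prime_of_mem_primeFactors (Finset.mem_coe.mp hq)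
      exact Nat.coprime_iff_isRelPrime.mp ((Nat.coprime_primes h1 h2).mpr hpq)
    · intro p hp
      exact (Nat.prime_of_mem_primeFactors hp).squarefree
  rw [h1, G1]
  apply Finset.sum_le_sum
  intro n hn
  rw [mem_filter, mem_Icc] at hn
  refine le_trans ?_ (sum_radical_le1 R n hn.1.1 hn.2)
  apply Finset.sum_le_sum_of_subset_of_nonneg
  · intro m hm
    simp only [mem_filter] at hm ⊢
    refine ⟨hm.1, ?_⟩
    rw [← hm.2, Nat.primeFactors_prod]
    intro p hp
    exact Nat.prime_of_mem_primeFactors hp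
  · intro m _ _
    positivity

/-- [M2a] The lower bound.

Proof. `∑_{m ≤ R} 1 / m ≤ G1 R`: group the `m ≤ R` by their radical `n` (squarefree, `n ≤ R`), and
`∑_{m ≤ R, rad m = n} 1 / m ≤ 1 / φ(n) = ∏_{l ∣ n} 1 / (l - 1)`. See `sum_radical_le` and `odd_harmonic_le` in
`Pool/Agent/MP_2f88e5_nt/Selberg.lean` (the same for odd numbers): adapt. And `log (R + 1) ≤ ∑_{m ≤ R} 1 / m`
(`log_add_one_le_harmonic`). -/
theorem G1_lower (R : ℕ) : Real.log (R + 1) ≤ G1 R := by
  have h1 := log_add_one_le_harmonic R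
  have h2 : ((harmonic R : ℚ) : ℝ) = ∑ m ∈ Icc 1 R, (m : ℝ)⁻¹ := by
    rw [harmonic_eq_sum_Icc]
    push_cast
    rfl
  have h3 := harmonic_le_G1 R
  rw [← h2] at h3
  have h4 : Real.log (R + 1) = Real.log ((R + 1 : ℕ) : ℝ) := by push_cast; rfl
  rw [h4]
  exact h1.trans h3

end Pool.Agent.EPK
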