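import Pool.Agent.EPK.M2a

/-!
# [EPK-M2b] the sum of `μ² / φ`
-/

set_option autoImplicit false

namespace Pool.Agent.EPK

open Finset

/-- the terms of the double series -/
noncomputable def aK (n k : ℕ) : ℝ :=
  (n : ℝ)⁻¹ * if k ≠ 0 ∧ k.primeFactors ⊆ n.primeFactors then (k : ℝ)⁻¹ else 0

theorem aK_hasSum (n : ℕ) (hn0 : 0 < n) :
    HasSum (fun k => aK n k) ((Nat.totient n : ℝ))⁻¹ := by
  have hn0' : (n : ℝ) ≠ 0 := by positivity
  let f : ℕ →* ℝ :=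
    { toFun := fun m => (m : ℝ)⁻¹
      map_one' := by simp
      map_mul' := by intro a b; push_cast; rw [mul_inv] }
  have hf : ∀ {p : ℕ}, p.Prime → ‖f p‖ < 1 := by
    intro p hp
    have : (1 : ℝ) < p := by exact_mod_cast hp.one_lt
    change ‖((p : ℝ))⁻¹‖ < 1
    rw [norm_inv, Real.norm_of_nonneg (by positivity)]
    exact inv_lt_one_of_one_lt₀ this
  have hE := EulerProduct.summable_and_hasSum_factoredNumbers_prod_filter_prime_geometric
    hf n.primeFactors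
  have hprod : ∏ p ∈ n.primeFactors with p.Prime, (1 - f p)⁻¹ = n / Nat.totient n := by
    have h1 : (n.primeFactors.filter fun p => p.Prime) = n.primeFactors := by
      apply Finset.filter_true_of_mem
      intro p hp
      exact Nat.prime_of_mem_primeFactors hp
    rw [h1]
    have h2 := Nat.totient_eq_mul_prod_factors n
    have h3 : (Nat.totient n : ℝ) = n * ∏ p ∈ n.primeFactors, (1 - (p : ℝ)⁻¹) := by
      have h2' := congrArg (fun q : ℚ => (q : ℝ)) h2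
      push_cast at h2'
      exact h2'
    rw [h3, Finset.prod_inv_distrib]
    have h4 : ∏ p ∈ n.primeFactors, (1 - (p : ℝ)⁻¹) ≠ 0 := by
      apply Finset.prod_ne_zero_iff.mpr
      intro p hp
      have : (1 : ℝ) < p := by exact_mod_cast (Nat.prime_of_mem_primeFactors hp).one_lt
      have := inv_lt_one_of_one_lt₀ this
      linarith
    change (∏ p ∈ n.primeFactors, (1 - (p : ℝ)⁻¹))⁻¹ = _
    field_simp
  rw [hprod] at hE
  have h5 : HasSum ((Nat.factoredNumbers n.primeFactors).indicator (fun m : ℕ => (m : ℝ)⁻¹))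
      (n / Nat.totient n) := (hasSum_subtype_iff_indicator).1 hE.2
  have h6 := h5.mul_left ((n : ℝ)⁻¹)
  have h7 : (n : ℝ)⁻¹ * (n / Nat.totient n) = ((Nat.totient n : ℝ))⁻¹ := by field_simp
  rw [h7] at h6
  refine h6.congr_fun ?_ |> fun h => h
  intro k
  rw [aK, Set.indicator_apply]
  simp only [Nat.mem_factoredNumbers_iff_primeFactors_subset]

theorem aK_nonneg (n k : ℕ) : 0 ≤ aK n k := by
  rw [aK]
  split_ifs <;> positivity

/-- the radical -/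
def rd (k : ℕ) : ℕ := ∏ p ∈ k.primeFactors, p

theorem rd_pos (k : ℕ) : 0 < rd k :=
  Finset.prod_pos fun _ hp => (Nat.prime_of_mem_primeFactors hp).pos

theorem rd_dvd_of_subset (k n : ℕ) (h : k.primeFactors ⊆ n.primeFactors) : rd k ∣ n :=
  (Finset.prod_dvd_prod_of_subset _ _ (fun p => p) h).trans (Nat.prod_primeFactors_dvd n)

/-- the terms with `n k ≤ R` -/
theorem part_one (R : ℕ) (S : Finset ℕ) :
    ∑ k ∈ S, ∑ n ∈ (Icc 1 R).filter Squarefree, (if n * k ≤ R then aK n k else 0) ≤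
      ∑ m ∈ Icc 1 R, (m : ℝ)⁻¹ := by
  classical
  set N := (Icc 1 R).filter Squarefree with hN
  set Z := (S ×ˢ N).filter (fun q : ℕ × ℕ => q.2 * q.1 ≤ R ∧ q.1 ≠ 0 ∧
    q.1.primeFactors ⊆ q.2.primeFactors) with hZ
  have hmem : ∀ q ∈ Z, q.1 ≠ 0 ∧ (1 ≤ q.2 ∧ q.2 ≤ R) ∧ Squarefree q.2 ∧ q.2 * q.1 ≤ R ∧
      q.1.primeFactors ⊆ q.2.primeFactors := by
    intro q hq
    rw [hZ, mem_filter, mem_product, hN, mem_filter, mem_Icc] at hq
    tauto
  have e1 : ∑ k ∈ S, ∑ n ∈ N, (if n * k ≤ R then aK n k else 0) =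
      ∑ q ∈ Z, (((q.2 * q.1 : ℕ) : ℝ))⁻¹ := by
    rw [hZ, sum_filter, sum_product]
    refine sum_congr rfl fun k _ => sum_congr rfl fun n _ => ?_
    dsimp only
    by_cases h1 : n * k ≤ R
    · by_cases h2 : k ≠ 0 ∧ k.primeFactors ⊆ n.primeFactors
      · rw [if_pos h1, if_pos ⟨h1, h2.1, h2.2⟩, aK, if_pos h2]
        push_cast
        rw [mul_inv]
      · rw [if_pos h1, if_neg (fun h => h2 h.2), aK, if_neg h2, mul_zero]
    · rw [if_neg h1, if_neg (fun h => h1 h.1)]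
  have hinj : Set.InjOn (fun q : ℕ × ℕ => q.2 * q.1) (Z : Set (ℕ × ℕ)) := by
    intro q hq q' hq' hqq
    obtain ⟨a1, ⟨a2, _⟩, a3, _, a5⟩ := hmem q (Finset.mem_coe.1 hq)
    obtain ⟨b1, ⟨b2, _⟩, b3, _, b5⟩ := hmem q' (Finset.mem_coe.1 hq')
    have h1 : (q.2 * q.1).primeFactors = q.2.primeFactors := by
      rw [Nat.primeFactors_mul (by omega) a1, Finset.union_eq_left]
      exact a5
    have h2 : (q'.2 * q'.1).primeFactors = q'.2.primeFactors := by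
      rw [Nat.primeFactors_mul (by omega) b1, Finset.union_eq_left]
      exact b5
    dsimp only at hqq
    have h3 : q.2.primeFactors = q'.2.primeFactors := by rw [← h1, hqq, h2]
    have h4 : q.2 = q'.2 := by
      rw [← Nat.prod_primeFactors_of_squarefree a3, ← Nat.prod_primeFactors_of_squarefree b3, h3]
    rw [h4] at hqq
    exact Prod.ext (Nat.eq_of_mul_eq_mul_left (by omega) hqq) h4
  rw [e1, ← Finset.sum_image (f := fun m : ℕ => ((m : ℕ) : ℝ)⁻¹) hinj]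
  refine sum_le_sum_of_subset_of_nonneg ?_ (fun m _ _ => by positivity)
  intro m hm
  rw [mem_image] at hm
  obtain ⟨q, hq, rfl⟩ := hm
  obtain ⟨a1, ⟨a2, _⟩, _, a4, _⟩ := hmem q hq
  rw [mem_Icc]
  exact ⟨Nat.mul_pos (by omega) (Nat.pos_of_ne_zero a1), a4⟩

/-- a piece of the harmonic series -/
theorem harm_piece (A B k : ℕ) (hk : 1 ≤ k) (hB : B ≤ k * (A + 1)) :
    ∑ m ∈ Ioc A B, (m : ℝ)⁻¹ ≤ 1 + Real.log k := by
  have hlogk : 0 ≤ Real.log k := Real.log_nonneg (by exact_mod_cast hk)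
  rcases le_or_gt B A with h | h
  · rw [Ioc_eq_empty (by omega), sum_empty]
    linarith
  · have e1 : Icc 1 B = Icc 1 A ∪ Ioc A B := by
      ext x
      simp only [mem_union, mem_Icc, mem_Ioc]
      omega
    have e2 : Disjoint (Icc 1 A) (Ioc A B) := by
      rw [Finset.disjoint_left]
      intro x hx hx'
      rw [mem_Icc] at hx
      rw [mem_Ioc] at hx'
      omega
    have h1 : ∀ n : ℕ, ((harmonic n : ℚ) : ℝ) = ∑ m ∈ Icc 1 n, (m : ℝ)⁻¹ := by
      intro n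
      rw [harmonic_eq_sum_Icc]
      push_cast
      rfl
    have h2 := log_add_one_le_harmonic A
    have h3 := harmonic_le_one_add_log B
    rw [h1] at h2 h3
    rw [e1, sum_union e2] at h3
    have hB0 : (0 : ℝ) < B := by exact_mod_cast (by omega : 0 < B)
    have hk0 : (k : ℝ) ≠ 0 := by
      have : k ≠ 0 := by omega
      exact_mod_cast this
    have h4 : Real.log B ≤ Real.log k + Real.log ((A + 1 : ℕ) : ℝ) := by
      rw [← Real.log_mul hk0 (by positivity)]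
      exact Real.log_le_log hB0 (by exact_mod_cast hB)
    linarith

/-- the terms with `n k > R` -/
theorem part_two (R k : ℕ) (hk : k ≠ 0) :
    ∑ n ∈ (Icc 1 R).filter Squarefree, (if n * k ≤ R then 0 else aK n k) ≤
      (1 + Real.log k) * ((k : ℝ)⁻¹ * (rd k : ℝ)⁻¹) := by
  classical
  have hr := rd_pos k
  have hk1 : 1 ≤ k := Nat.pos_of_ne_zero hk
  have hr0 : (0 : ℝ) < rd k := by exact_mod_cast hr
  have hk0 : (0 : ℝ) < k := by exact_mod_cast hk1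
  set A := R / (k * rd k) with hA
  set B := R / rd k with hB
  have h1 : ∑ n ∈ (Icc 1 R).filter Squarefree, (if n * k ≤ R then 0 else aK n k) ≤
      ∑ n ∈ (Ioc A B).image (fun n' => rd k * n'), (n : ℝ)⁻¹ * (k : ℝ)⁻¹ := by
    rw [sum_ite, sum_const_zero, zero_add]
    have h2 : ∑ n ∈ ((Icc 1 R).filter Squarefree).filter (fun n => ¬ n * k ≤ R), aK n k =
        ∑ n ∈ (((Icc 1 R).filter Squarefree).filter (fun n => ¬ n * k ≤ R)).filter
          (fun n => k.primeFactors ⊆ n.primeFactors), (n : ℝ)⁻¹ * (k : ℝ)⁻¹ := by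
      rw [sum_filter (s := ((Icc 1 R).filter Squarefree).filter (fun n => ¬ n * k ≤ R))]
      refine sum_congr rfl fun n _ => ?_
      rw [aK]
      by_cases h3 : k.primeFactors ⊆ n.primeFactors
      · rw [if_pos ⟨hk, h3⟩, if_pos h3]
      · rw [if_neg (fun h => h3 h.2), if_neg h3, mul_zero]
    rw [h2]
    refine sum_le_sum_of_subset_of_nonneg ?_ (fun n _ _ => by positivity)
    intro n hn
    rw [mem_filter, mem_filter, mem_filter, mem_Icc] at hn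
    obtain ⟨⟨⟨⟨h3, h4⟩, _⟩, h5⟩, h6⟩ := hn
    obtain ⟨n', rfl⟩ := rd_dvd_of_subset k n h6
    rw [mem_image]
    refine ⟨n', ?_, rfl⟩
    rw [mem_Ioc, hA, hB, Nat.div_lt_iff_lt_mul (by positivity), Nat.le_div_iff_mul_le hr]
    constructor
    · rw [not_le] at h5
      calc R < rd k * n' * k := h5
        _ = n' * (k * rd k) := by ring
    · rw [mul_comm]; exact h4
  refine h1.trans ?_
  rw [sum_image (fun a _ b _ hab => Nat.eq_of_mul_eq_mul_left hr hab)]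
  have h3 : ∑ n' ∈ Ioc A B, ((rd k * n' : ℕ) : ℝ)⁻¹ * (k : ℝ)⁻¹ =
      (∑ n' ∈ Ioc A B, (n' : ℝ)⁻¹) * ((k : ℝ)⁻¹ * (rd k : ℝ)⁻¹) := by
    rw [sum_mul]
    refine sum_congr rfl fun n' _ => ?_
    push_cast
    rw [mul_inv]
    ring
  rw [h3]
  refine mul_le_mul_of_nonneg_right ?_ (by positivity)
  refine harm_piece A B k hk1 ?_
  have h4 : R < (A + 1) * (k * rd k) := by
    rw [hA]
    have h7 := Nat.lt_mul_div_succ R (show 0 < k * rd k by positivity)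
    rw [mul_comm]
    exact h7
  have h5 : B * rd k ≤ R := Nat.div_mul_le_self _ _
  have h6 : B * rd k < k * (A + 1) * rd k := by
    calc B * rd k ≤ R := h5
      _ < (A + 1) * (k * rd k) := h4
      _ = k * (A + 1) * rd k := by ring
  exact (Nat.lt_of_mul_lt_mul_right h6).le

/-- the tail constant is finite -/
theorem tail_bound : ∃ C : ℝ, 0 < C ∧ ∀ S : Finset ℕ, (∀ k ∈ S, k ≠ 0) →
    ∑ k ∈ S, (1 + Real.log k) * ((k : ℝ)⁻¹ * (rd k : ℝ)⁻¹) ≤ C := by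
  classical
  have hch : ∀ k : ℕ, ∃ q : ℕ × ℕ, q.2 ^ 2 * q.1 = k ∧ Squarefree q.1 := by
    intro k
    obtain ⟨a, b, h1, h2⟩ := Nat.sq_mul_squarefree k
    exact ⟨(a, b), h1, h2⟩
  choose q hq1 hq2 using hch
  have hs1 : Summable (fun n : ℕ => (n : ℝ) ^ (-(7 / 4) : ℝ)) :=
    Real.summable_nat_rpow.2 (by norm_num)
  have hs2 : Summable (fun n : ℕ => (n : ℝ) ^ (-(3 / 2) : ℝ)) :=
    Real.summable_nat_rpow.2 (by norm_num)
  set X : ℝ := ∑' n : ℕ, (n : ℝ) ^ (-(7 / 4) : ℝ) with hX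
  set Y : ℝ := ∑' n : ℕ, (n : ℝ) ^ (-(3 / 2) : ℝ) with hY
  have hX0 : 0 ≤ X := tsum_nonneg fun n => by positivity
  have hY0 : 0 ≤ Y := tsum_nonneg fun n => by positivity
  refine ⟨5 * (X * Y) + 1, by positivity, fun S hS => ?_⟩
  have hterm : ∀ k ∈ S, (1 + Real.log k) * ((k : ℝ)⁻¹ * (rd k : ℝ)⁻¹) ≤
      5 * (((q k).1 : ℝ) ^ (-(7 / 4) : ℝ) * ((q k).2 : ℝ) ^ (-(3 / 2) : ℝ)) := by
    intro k hk
    have hk0 := hS k hk
    have hkpos : (0 : ℝ) < k := by exact_mod_cast Nat.pos_of_ne_zero hk0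
    have h1 := hq1 k
    have ha0 : (q k).1 ≠ 0 := by
      intro h
      rw [h, mul_zero] at h1
      exact hk0 h1.symm
    have hb0 : (q k).2 ≠ 0 := by
      intro h
      rw [h] at h1
      simp at h1
      exact hk0 h1.symm
    have ha : (0 : ℝ) < (q k).1 := by exact_mod_cast Nat.pos_of_ne_zero ha0
    have hb : (0 : ℝ) < (q k).2 := by exact_mod_cast Nat.pos_of_ne_zero hb0
    have h2 : (q k).1 ≤ rd k := by
      have h3 : (q k).1 ∣ k := ⟨(q k).2 ^ 2, by rw [mul_comm]; exact h1.symm⟩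
      have h4 : (q k).1.primeFactors ⊆ k.primeFactors := Nat.primeFactors_mono h3 hk0
      have h5 : (q k).1 ∣ rd k := by
        conv_lhs => rw [← Nat.prod_primeFactors_of_squarefree (hq2 k)]
        exact Finset.prod_dvd_prod_of_subset _ _ (fun p => p) h4
      exact Nat.le_of_dvd (rd_pos k) h5
    have h3 : ((rd k : ℝ))⁻¹ ≤ ((q k).1 : ℝ)⁻¹ :=
      inv_anti₀ ha (by exact_mod_cast h2)
    have h4 : 1 + Real.log k ≤ 5 * (k : ℝ) ^ (1 / 4 : ℝ) := by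
      have h5 := Real.log_le_rpow_div hkpos.le (show (0 : ℝ) < 1 / 4 by norm_num)
      have h6 : (1 : ℝ) ≤ (k : ℝ) ^ (1 / 4 : ℝ) :=
        Real.one_le_rpow (by exact_mod_cast Nat.pos_of_ne_zero hk0) (by norm_num)
      have h7 : (k : ℝ) ^ (1 / 4 : ℝ) / (1 / 4) = 4 * (k : ℝ) ^ (1 / 4 : ℝ) := by ring
      rw [h7] at h5
      linarith
    have hlog : 0 ≤ 1 + Real.log k := by
      have := Real.log_nonneg (show (1 : ℝ) ≤ k by exact_mod_cast Nat.pos_of_ne_zero hk0)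
      linarith
    have h8 : (k : ℝ) ^ (1 / 4 : ℝ) * (k : ℝ)⁻¹ = (k : ℝ) ^ (-(3 / 4) : ℝ) := by
      rw [← Real.rpow_neg_one, ← Real.rpow_add hkpos]
      norm_num
    have h9 : (k : ℝ) ^ (-(3 / 4) : ℝ) =
        ((q k).2 : ℝ) ^ (-(3 / 2) : ℝ) * ((q k).1 : ℝ) ^ (-(3 / 4) : ℝ) := by
      have h10 : (k : ℝ) = ((q k).2 : ℝ) ^ 2 * ((q k).1 : ℝ) := by
        have : ((k : ℕ) : ℝ) = (((q k).2 ^ 2 * (q k).1 : ℕ) : ℝ) := by rw [h1]
        rw [this]
        push_cast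
        ring
      rw [h10, Real.mul_rpow (by positivity) ha.le, ← Real.rpow_natCast ((q k).2 : ℝ) 2,
        ← Real.rpow_mul hb.le]
      norm_num
    have h11 : ((q k).1 : ℝ) ^ (-(3 / 4) : ℝ) * ((q k).1 : ℝ)⁻¹ = ((q k).1 : ℝ) ^ (-(7 / 4) : ℝ) := by
      rw [← Real.rpow_neg_one ((q k).1 : ℝ), ← Real.rpow_add ha]
      norm_num
    calc (1 + Real.log k) * ((k : ℝ)⁻¹ * (rd k : ℝ)⁻¹) ≤
          (5 * (k : ℝ) ^ (1 / 4 : ℝ)) * ((k : ℝ)⁻¹ * ((q k).1 : ℝ)⁻¹) := by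
          refine mul_le_mul h4 (mul_le_mul_of_nonneg_left h3 (by positivity)) (by positivity)
            (by positivity)
      _ = 5 * (((k : ℝ) ^ (1 / 4 : ℝ) * (k : ℝ)⁻¹) * ((q k).1 : ℝ)⁻¹) := by ring
      _ = 5 * ((((q k).1 : ℝ) ^ (-(3 / 4) : ℝ) * ((q k).1 : ℝ)⁻¹) *
          ((q k).2 : ℝ) ^ (-(3 / 2) : ℝ)) := by rw [h8, h9]; ring
      _ = _ := by rw [h11]
  have hinj : Set.InjOn q (S : Set ℕ) := by
    intro k _ k' _ h
    rw [← hq1 k, ← hq1 k', h]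
  calc ∑ k ∈ S, (1 + Real.log k) * ((k : ℝ)⁻¹ * (rd k : ℝ)⁻¹) ≤
      ∑ k ∈ S, 5 * (((q k).1 : ℝ) ^ (-(7 / 4) : ℝ) * ((q k).2 : ℝ) ^ (-(3 / 2) : ℝ)) :=
        sum_le_sum hterm
    _ = 5 * ∑ k ∈ S, ((q k).1 : ℝ) ^ (-(7 / 4) : ℝ) * ((q k).2 : ℝ) ^ (-(3 / 2) : ℝ) := by
        rw [mul_sum]
    _ = 5 * ∑ u ∈ S.image q, (u.1 : ℝ) ^ (-(7 / 4) : ℝ) * (u.2 : ℝ) ^ (-(3 / 2) : ℝ) := by
        rw [sum_image hinj]
    _ ≤ 5 * ∑ u ∈ (S.image q).image Prod.fst ×ˢ (S.image q).image Prod.snd,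
          (u.1 : ℝ) ^ (-(7 / 4) : ℝ) * (u.2 : ℝ) ^ (-(3 / 2) : ℝ) := by
        refine mul_le_mul_of_nonneg_left ?_ (by norm_num)
        refine sum_le_sum_of_subset_of_nonneg ?_ (fun u _ _ => by positivity)
        intro u hu
        rw [mem_product]
        exact ⟨mem_image_of_mem _ hu, mem_image_of_mem _ hu⟩
    _ = 5 * ((∑ a ∈ (S.image q).image Prod.fst, (a : ℝ) ^ (-(7 / 4) : ℝ)) *
          ∑ b ∈ (S.image q).image Prod.snd, (b : ℝ) ^ (-(3 / 2) : ℝ)) := by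
        rw [sum_product, sum_mul_sum]
    _ ≤ 5 * (X * Y) := by
        refine mul_le_mul_of_nonneg_left ?_ (by norm_num)
        exact mul_le_mul (hs1.sum_le_tsum _ fun n _ => by positivity)
          (hs2.sum_le_tsum _ fun n _ => by positivity)
          (sum_nonneg fun n _ => by positivity) hX0
    _ ≤ 5 * (X * Y) + 1 := by linarith

/-- [M2b] The upper bound `G1 R ≤ log R + C`.

Proof. For squarefree `n`: `n / φ(n) = ∏_{l ∣ n} (1 + 1/(l-1))`. The multiplicative function `g n = μ(n)² n / φ(n)` is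
`g = 1 * h` with the multiplicative `h`: `h(l) = 1/(l-1)`, `h(l²) = - l/(l-1)`, `h(l^k) = 0` for `k ≥ 3`. So
`G1 R = ∑_{n ≤ R} g(n)/n = ∑_{d ≤ R} (h(d)/d) ∑_{m ≤ R/d} 1/m`, `∑_{m ≤ y} 1/m = log y + γ + O(1/y)`, and
`∑ |h(d)| d^(-1) (1 + log d) < ∞`, `∑_{d ≤ R} |h(d)| ≤ C R^(...)`... and `∑_d h(d) / d = ∏ (1 + 1/(l(l-1)) - 1/(l(l-1))) = 1`.
ALTERNATIVE (elementary, recommended). By the radical argument, `G1 R = ∑_{m ≥ 1, rad m ≤ R} 1/m`; so it suffices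
that for every finite set `F` of `m > R` with `rad m ≤ R` one has `∑_{m ∈ F} 1/m ≤ C` (finite truncations of
`1/(l - 1) = ∑_k l^(-k)`). Write `m = n s`, `n = rad m`, `rad s ∣ n`, `R / s < n ≤ R`; for fixed `s`, with `q = rad s`, `n = q n'`:
`∑ 1/n ≤ (1/q) ∑_{R/(s q) < n' ≤ R/q} 1/n' ≤ (1/q) (1 + log s)`-ish. So the sum is at most `∑_s (1 + log s) / (s rad s) ≤
2 ∑_s s^(-3/4) / rad s`, hmm `≤ 2 ∏_l (1 + l^(-1) ∑_{k ≥ 1} l^(-3k/4)) < ∞`; to bound `∑_{s ≤ S} s^(-3/4) / rad s` without Euler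
products: `s rad s` is at least a square-full number: `s = a² b`... e.g. write `s = a b²` with `a` squarefree (`Nat.sq_mul_squarefree`), then
`rad s ≥ a` and `s^(3/4) rad s ≥ a^(3/4) b^(3/2) a = a^(7/4) b^(3/2)`, so the sum is at most `∑_a a^(-7/4) ∑_b b^(-3/2) < ∞`. -/
theorem G1_upper : ∃ C : ℝ, 0 < C ∧ ∀ R : ℕ, 1 ≤ R → G1 R ≤ Real.log R + C := by
  classical
  obtain ⟨C, hC, h⟩ := tail_bound
  refine ⟨C + 1, by linarith, fun R _ => ?_⟩
  have h1 : HasSum (fun k => ∑ n ∈ (Icc 1 R).filter Squarefree, aK n k) (G1 R) := by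
    rw [G1]
    refine hasSum_sum fun n hn => ?_
    rw [mem_filter, mem_Icc] at hn
    exact aK_hasSum n hn.1.1
  refine hasSum_le_of_sum_le h1 fun S => ?_
  set S' := S.filter (fun k => k ≠ 0) with hS'
  have h2 : ∑ k ∈ S, ∑ n ∈ (Icc 1 R).filter Squarefree, aK n k =
      ∑ k ∈ S', ∑ n ∈ (Icc 1 R).filter Squarefree, aK n k := by
    rw [hS', sum_filter]
    refine sum_congr rfl fun k _ => ?_
    by_cases hk : k = 0
    · rw [if_neg (not_not.2 hk)]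
      refine sum_eq_zero fun n _ => ?_
      rw [aK, if_neg (fun h => h.1 hk), mul_zero]
    · rw [if_pos hk]
  have h3 : ∑ k ∈ S', ∑ n ∈ (Icc 1 R).filter Squarefree, aK n k =
      ∑ k ∈ S', ∑ n ∈ (Icc 1 R).filter Squarefree, (if n * k ≤ R then aK n k else 0) +
      ∑ k ∈ S', ∑ n ∈ (Icc 1 R).filter Squarefree, (if n * k ≤ R then 0 else aK n k) := by
    rw [← sum_add_distrib]
    refine sum_congr rfl fun k _ => ?_
    rw [← sum_add_distrib]
    refine sum_congr rfl fun n _ => ?_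
    split_ifs <;> simp
  have h4 := part_one R S'
  have h5 : ∑ k ∈ S', ∑ n ∈ (Icc 1 R).filter Squarefree, (if n * k ≤ R then 0 else aK n k) ≤
      ∑ k ∈ S', (1 + Real.log k) * ((k : ℝ)⁻¹ * (rd k : ℝ)⁻¹) :=
    sum_le_sum fun k hk => part_two R k (mem_filter.1 hk).2
  have h6 := h S' (fun k hk => (mem_filter.1 hk).2)
  have h7 : ∑ m ∈ Icc 1 R, (m : ℝ)⁻¹ ≤ 1 + Real.log R := by
    have h8 := harmonic_le_one_add_log R
    have h9 : ((harmonic R : ℚ) : ℝ) = ∑ m ∈ Icc 1 R, (m : ℝ)⁻¹ := by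
      rw [harmonic_eq_sum_Icc]
      push_cast
      rfl
    rwa [h9] at h8
  rw [h2, h3]
  linarith

end Pool.Agent.EPK
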