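import Pool.Agent.EPK.M2b

/-!
# [EPK-M2c] the sum of `μ² / φ`
-/

set_option autoImplicit false

namespace Pool.Agent.EPK

open Finset

/-- [M2c] `GG z R` for `R ≤ z` (all prime factors of `n ≤ R` are `≤ z`). -/
theorem GG_eq_G1 (z R : ℕ) (h : R ≤ z) : GG z R = G1 R := by
  classical
  have h1 : SF z R = (Icc 1 R).filter Squarefree := by
    ext d
    simp only [SF, mem_filter, mem_Icc]
    constructor
    · rintro ⟨h1, h2, _⟩
      exact ⟨h1, h2⟩
    · rintro ⟨h1, h2⟩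
      exact ⟨h1, h2, fun l hl => (Nat.le_of_mem_primeFactors hl).trans (h1.2.trans h)⟩
  rw [GG, G1, h1]

/-- the squarefree multiples of a large prime -/
theorem sum_mult (z R l : ℕ) (h2 : R ≤ z ^ 2) (hl : l.Prime) (hzl : z < l) :
    ∑ n ∈ ((Icc 1 R).filter Squarefree).filter (fun n => l ∣ n), ((Nat.totient n : ℝ))⁻¹ =
      (1 / ((l : ℝ) - 1)) * G1 (R / l) := by
  classical
  have hl1 : (1 : ℝ) < l := by exact_mod_cast hl.one_lt
  have hRl : R / l < l := by
    rw [Nat.div_lt_iff_lt_mul hl.pos]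
    have : z ^ 2 < l * l := by nlinarith
    omega
  rw [G1, mul_sum]
  symm
  refine sum_bij (fun n' _ => l * n') ?_ ?_ ?_ ?_
  · intro n' hn'
    rw [mem_filter, mem_Icc] at hn'
    obtain ⟨⟨h3, h4⟩, h5⟩ := hn'
    rw [mem_filter, mem_filter, mem_Icc]
    have hcop : Nat.Coprime l n' := by
      rw [hl.coprime_iff_not_dvd]
      intro hd
      have := Nat.le_of_dvd (by omega) hd
      omega
    refine ⟨⟨⟨Nat.mul_pos hl.pos (by omega), ?_⟩, ?_⟩, Dvd.intro _ rfl⟩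
    · rw [mul_comm]
      exact (Nat.le_div_iff_mul_le hl.pos).1 h4
    · exact (Nat.squarefree_mul hcop).2 ⟨hl.squarefree, h5⟩
  · intro a _ b _ hab
    exact Nat.eq_of_mul_eq_mul_left hl.pos hab
  · intro n hn
    rw [mem_filter, mem_filter, mem_Icc] at hn
    obtain ⟨⟨⟨h3, h4⟩, h5⟩, k, rfl⟩ := hn
    refine ⟨k, ?_, rfl⟩
    rw [mem_filter, mem_Icc]
    refine ⟨⟨?_, ?_⟩, ?_⟩
    · rcases Nat.eq_zero_or_pos k with h | h
      · subst h
        simp at h3
      · exact h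
    · rw [Nat.le_div_iff_mul_le hl.pos, mul_comm]
      exact h4
    · exact h5.squarefree_of_dvd (Dvd.intro_left _ rfl)
  · intro n' hn'
    rw [mem_filter, mem_Icc] at hn'
    obtain ⟨⟨h3, h4⟩, h5⟩ := hn'
    have hcop : Nat.Coprime l n' := by
      rw [hl.coprime_iff_not_dvd]
      intro hd
      have := Nat.le_of_dvd (by omega) hd
      omega
    rw [Nat.totient_mul hcop, Nat.totient_prime hl, Nat.cast_mul, Nat.cast_sub hl.one_le,
      Nat.cast_one, mul_inv, one_div]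

/-- [M2d] `GG z R` for `z ≤ R ≤ z²`.

Proof. A squarefree `n ≤ R ≤ z²` that has a prime factor `l > z` has exactly one (two would give `n ≥ (z+1)² > z²`), and
`n = l n'`, `n' ≤ R / l ≤ z`, `l ∤ n'`, `φ(n) = (l - 1) φ(n')`; conversely every prime `l ∈ (z, R]` and squarefree `n' ≤ R / l` give such
an `n`. -/
theorem GG_split (z R : ℕ) (h1 : z ≤ R) (h2 : R ≤ z ^ 2) :
    GG z R = G1 R - ∑ l ∈ (Ioc z R).filter Nat.Prime, (1 / ((l : ℝ) - 1)) * G1 (R / l) := by
  classical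
  have e1 : ∑ l ∈ (Ioc z R).filter Nat.Prime, (1 / ((l : ℝ) - 1)) * G1 (R / l) =
      ∑ l ∈ (Ioc z R).filter Nat.Prime,
        ∑ n ∈ ((Icc 1 R).filter Squarefree).filter (fun n => l ∣ n), ((Nat.totient n : ℝ))⁻¹ := by
    refine sum_congr rfl fun l hl => ?_
    rw [mem_filter, mem_Ioc] at hl
    exact (sum_mult z R l h2 hl.2 hl.1.1).symm
  have e2 : ∑ l ∈ (Ioc z R).filter Nat.Prime,
        ∑ n ∈ ((Icc 1 R).filter Squarefree).filter (fun n => l ∣ n), ((Nat.totient n : ℝ))⁻¹ =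
      ∑ n ∈ ((Ioc z R).filter Nat.Prime).biUnion
        (fun l => ((Icc 1 R).filter Squarefree).filter (fun n => l ∣ n)),
        ((Nat.totient n : ℝ))⁻¹ := by
    rw [Finset.sum_biUnion]
    intro l hl l' hl' hne
    rw [Finset.mem_coe, mem_filter, mem_Ioc] at hl hl'
    rw [Function.onFun, Finset.disjoint_left]
    intro n hn hn'
    rw [mem_filter, mem_filter, mem_Icc] at hn hn'
    have hcop : Nat.Coprime l l' := (Nat.coprime_primes hl.2 hl'.2).2 hne
    have h3 : l * l' ∣ n := hcop.mul_dvd_of_dvd_of_dvd hn.2 hn'.2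
    have h4 := Nat.le_of_dvd (by omega) h3
    have h5 : z ^ 2 < l * l' := by
      have h6 := hl.1.1
      have h7 := hl'.1.1
      nlinarith
    have := hn.1.1.2
    omega
  have e3 : ((Ioc z R).filter Nat.Prime).biUnion
        (fun l => ((Icc 1 R).filter Squarefree).filter (fun n => l ∣ n)) =
      ((Icc 1 R).filter Squarefree).filter (fun n => ¬ ∀ l ∈ n.primeFactors, l ≤ z) := by
    ext n
    simp only [mem_biUnion, mem_filter, mem_Icc, mem_Ioc]
    constructor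
    · rintro ⟨l, ⟨⟨h3, h4⟩, h5⟩, ⟨⟨h6, h7⟩, h8⟩, h9⟩
      refine ⟨⟨⟨h6, h7⟩, h8⟩, fun h => ?_⟩
      have := h l (Nat.mem_primeFactors.2 ⟨h5, h9, by omega⟩)
      omega
    · rintro ⟨⟨⟨h6, h7⟩, h8⟩, h⟩
      push Not at h
      obtain ⟨l, hl, hlz⟩ := h
      have hle := Nat.le_of_mem_primeFactors hl
      exact ⟨l, ⟨⟨hlz, by omega⟩, Nat.prime_of_mem_primeFactors hl⟩, ⟨⟨h6, h7⟩, h8⟩,
        Nat.dvd_of_mem_primeFactors hl⟩
  have e4 : SF z R = ((Icc 1 R).filter Squarefree).filter (fun n => ∀ l ∈ n.primeFactors, l ≤ z) := by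
    rw [SF, Finset.filter_filter]
  rw [e1, e2, e3, GG, e4, G1, ← Finset.sum_filter_add_sum_filter_not ((Icc 1 R).filter Squarefree)
    (fun n => ∀ l ∈ n.primeFactors, l ≤ z)]
  ring

end Pool.Agent.EPK
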