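import Pool.Agent.EPK.M1
import Pool.Agent.EPK.M2

/-!
# [EPK-M3a] the asymptotic formula for `GG z R`, `z ≤ R ≤ z²`
-/

set_option autoImplicit false

namespace Pool.Agent.EPK

open Finset

/-- the main term of `GG z R` as a function of `u = log R`, `L = log z` -/
noncomputable def Fu (L u : ℝ) : ℝ := 2 * u - L - u * Real.log (u / L)

/-- the tail -/
theorem m3a_tail (z R : ℕ) (hz : 1 ≤ z) (h : z ≤ R) :
    ∑ l ∈ Ioc z R, (1 : ℝ) / ((l : ℝ) * ((l : ℝ) - 1)) ≤ 1 / z := by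
  have h1 : ∑ l ∈ Ioc z R, (1 : ℝ) / ((l : ℝ) * ((l : ℝ) - 1)) ≤ 1 / z - 1 / R := by
    induction R, h using Nat.le_induction with
    | base => simp
    | succ n hn ih =>
      rw [sum_Ioc_succ_top hn]
      have hn0 : (0 : ℝ) < n := by exact_mod_cast (by omega : 0 < n)
      have h2 : (1 : ℝ) / (((n + 1 : ℕ) : ℝ) * (((n + 1 : ℕ) : ℝ) - 1)) =
          1 / n - 1 / ((n + 1 : ℕ) : ℝ) := by
        push_cast
        rw [add_sub_cancel_right]
        field_simp
        ring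
      linarith
  have h3 : (0 : ℝ) ≤ 1 / R := by positivity
  linarith

/-- [M3a] The asymptotic formula.

Proof. `GG_split`. `log R ≤ G1 R ≤ log R + C`; for `z < l ≤ R`: `log (R / l) ≤ G1 (R / l) ≤ log (R / l) + C` (floor in the index:
`R / l < ⌊R / l⌋ + 1`, `G1_lower`; `⌊R/l⌋ ≤ R / l`, `G1_upper`). `1/(l-1) = 1/l + 1/(l(l-1))`, and
`∑_{l > z} log R / (l (l - 1)) ≤ 2 log z / z ≤ 2`. So `GG = log R - ∑_{z < l ≤ R} (log R - log l) / l + O(1 + ∑_{z < l ≤ R} 1/l)`. By
`mertens_two`: `∑ 1/l = log (log R / log z) + O(1 / log z)`, where `log (log R / log z) ≤ log 2`; multiplied by `log R ≤ 2 log z` the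
error is `O(1)`. By `mertens_one`: `∑ log l / l = log R - log z + O(1)`. Total:
`log R - log R log (log R / log z) + log R - log z + O(1)`. -/
theorem GG_asymp : ∃ C : ℝ, 0 < C ∧ ∀ z R : ℕ, 2 ≤ z → z ≤ R → R ≤ z ^ 2 →
    |GG z R - Fu (Real.log z) (Real.log R)| ≤ C := by
  obtain ⟨C₁, hC₁0, hC₁⟩ := G1_upper
  obtain ⟨C₂, hC₂0, hC₂⟩ := mertens_two
  refine ⟨2 * C₁ + C₁ * (1 + 2 * C₂) + 2 * C₂ + 7, by positivity, ?_⟩
  intro z R hz hzR hRz
  have hz0 : (2 : ℝ) ≤ z := by exact_mod_cast hz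
  have hR0 : (2 : ℝ) ≤ R := by exact_mod_cast (le_trans hz hzR)
  have l1 : 0.6931471803 < Real.log 2 := Real.log_two_gt_d9
  have l2 : Real.log 2 < 0.6931471808 := Real.log_two_lt_d9
  set L : ℝ := Real.log z with hL
  set u : ℝ := Real.log R with hu
  have hL69 : Real.log 2 ≤ L := Real.log_le_log (by norm_num) hz0
  have hL0 : 0 < L := by linarith
  have hLu : L ≤ u := Real.log_le_log (by linarith) (by exact_mod_cast hzR)
  have hu0 : 0 < u := by linarith
  have hu2 : u ≤ 2 * L := by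
    have h1 : (R : ℝ) ≤ (z : ℝ) ^ 2 := by exact_mod_cast hRz
    calc u ≤ Real.log ((z : ℝ) ^ 2) := Real.log_le_log (by linarith) h1
      _ = 2 * L := by rw [Real.log_pow]; norm_num; rfl
  set W : Finset ℕ := (Ioc z R).filter Nat.Prime with hW
  set A : ℝ := ∑ l ∈ W, (1 : ℝ) / l with hA
  set B : ℝ := ∑ l ∈ W, Real.log l / l with hB
  have hA1 := hC₂ z R hz hzR
  have hB1 := mertens_one z R (by omega) hzR
  have hlogdiv : Real.log u - Real.log L = Real.log (u / L) :=
    (Real.log_div hu0.ne' hL0.ne').symm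
  have hA2 : |A - Real.log (u / L)| ≤ C₂ / L := by
    rw [← hlogdiv]
    exact hA1
  have hB2 : |B - (u - L)| ≤ 5 := hB1
  obtain ⟨hA3, hA4⟩ := abs_le.1 hA2
  obtain ⟨hB3, hB4⟩ := abs_le.1 hB2
  have hCL : C₂ / L ≤ 2 * C₂ := by
    rw [div_le_iff₀ hL0]
    nlinarith
  have huCL : u * (C₂ / L) ≤ 2 * C₂ := by
    calc u * (C₂ / L) ≤ (2 * L) * (C₂ / L) := by gcongr
      _ = 2 * C₂ := by field_simp
  have hmemW : ∀ l ∈ W, z < l ∧ l ≤ R ∧ l.Prime := by
    intro l hl
    rw [hW, mem_filter, mem_Ioc] at hl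
    exact ⟨hl.1.1, hl.1.2, hl.2⟩
  -- lower and upper bounds of `G1 (R / l)`
  have hlow : ∀ l ∈ W, u - Real.log l ≤ G1 (R / l) ∧ 0 ≤ u - Real.log l := by
    intro l hl
    obtain ⟨h1, h2, h3⟩ := hmemW l hl
    have hl0 : (0 : ℝ) < l := by exact_mod_cast h3.pos
    have h4 : Real.log l ≤ u := Real.log_le_log hl0 (by exact_mod_cast h2)
    refine ⟨?_, by linarith⟩
    refine le_trans ?_ (G1_lower (R / l))
    rw [hu, ← Real.log_div (by positivity) hl0.ne']
    refine Real.log_le_log (by positivity) ?_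
    have h5 : R < l * (R / l + 1) := Nat.lt_mul_div_succ _ h3.pos
    have h6 : (R : ℝ) < l * (((R / l : ℕ) : ℝ) + 1) := by exact_mod_cast h5
    rw [div_le_iff₀ hl0]
    linarith
  have hupp : ∀ l ∈ W, G1 (R / l) ≤ u - Real.log l + C₁ := by
    intro l hl
    obtain ⟨h1, h2, h3⟩ := hmemW l hl
    have hl0 : (0 : ℝ) < l := by exact_mod_cast h3.pos
    have h4 : 1 ≤ R / l := by
      rw [Nat.le_div_iff_mul_le h3.pos]
      omega
    refine le_trans (hC₁ (R / l) h4) ?_
    have h5 : Real.log ((R / l : ℕ) : ℝ) ≤ u - Real.log l := by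
      rw [hu, ← Real.log_div (by positivity) hl0.ne']
      refine Real.log_le_log (by exact_mod_cast h4) Nat.cast_div_le
    linarith
  have hsumuA : ∑ l ∈ W, (1 / (l : ℝ)) * (u - Real.log l) = u * A - B := by
    rw [hA, hB, mul_sum, ← sum_sub_distrib]
    refine sum_congr rfl fun l _ => ?_
    ring
  rw [GG_split z R hzR hRz]
  have hG1u := hC₁ R (by omega)
  have hG1l : u ≤ G1 R := by
    refine le_trans ?_ (G1_lower R)
    exact Real.log_le_log (by linarith) (by linarith)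
  have hFu : Fu L u = 2 * u - L - u * Real.log (u / L) := rfl
  rw [hFu, abs_le]
  constructor
  · -- lower bound of `GG`
    have h1 : ∑ l ∈ W, (1 / ((l : ℝ) - 1)) * G1 (R / l) ≤
        ∑ l ∈ W, ((1 / (l : ℝ)) * (u - Real.log l) + C₁ * (1 / (l : ℝ)) +
          (u + C₁) * (1 / ((l : ℝ) * ((l : ℝ) - 1)))) := by
      refine sum_le_sum fun l hl => ?_
      obtain ⟨h1, h2, h3⟩ := hmemW l hl
      have hl1 : (1 : ℝ) < l := by exact_mod_cast h3.one_lt
      have hl2 : 0 < (l : ℝ) - 1 := by linarith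
      have h5 := hupp l hl
      have h6 : 0 ≤ Real.log l := Real.log_nonneg hl1.le
      calc (1 / ((l : ℝ) - 1)) * G1 (R / l) ≤ (1 / ((l : ℝ) - 1)) * (u - Real.log l + C₁) := by
            gcongr
        _ = (1 / (l : ℝ)) * (u - Real.log l) + C₁ * (1 / (l : ℝ)) +
          (u - Real.log l + C₁) * (1 / ((l : ℝ) * ((l : ℝ) - 1))) := by
            field_simp
            ring
        _ ≤ (1 / (l : ℝ)) * (u - Real.log l) + C₁ * (1 / (l : ℝ)) +
          (u + C₁) * (1 / ((l : ℝ) * ((l : ℝ) - 1))) := by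
            gcongr
            linarith
    have h2 : ∑ l ∈ W, ((1 / (l : ℝ)) * (u - Real.log l) + C₁ * (1 / (l : ℝ)) +
          (u + C₁) * (1 / ((l : ℝ) * ((l : ℝ) - 1)))) =
        (u * A - B) + C₁ * A + (u + C₁) * ∑ l ∈ W, (1 / ((l : ℝ) * ((l : ℝ) - 1))) := by
      rw [sum_add_distrib, sum_add_distrib, hsumuA, ← mul_sum, ← mul_sum]
    have h3 : ∑ l ∈ W, (1 / ((l : ℝ) * ((l : ℝ) - 1))) ≤ 1 / z := by
      refine le_trans ?_ (m3a_tail z R (by omega) hzR)
      refine sum_le_sum_of_subset_of_nonneg (filter_subset _ _) fun l hl _ => ?_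
      rw [mem_Ioc] at hl
      have : (1 : ℝ) ≤ l := by exact_mod_cast (by omega : 1 ≤ l)
      have h4 : 0 ≤ (l : ℝ) - 1 := by linarith
      positivity
    have h4 : (u + C₁) * (1 / z) ≤ 2 + C₁ := by
      have h5 : L ≤ z := by
        have := Real.log_le_sub_one_of_pos (show (0 : ℝ) < z by linarith)
        linarith
      rw [mul_one_div, div_le_iff₀ (by linarith)]
      nlinarith
    have h5 : C₁ * A ≤ C₁ * (1 + 2 * C₂) := by
      have h6 : Real.log (u / L) ≤ Real.log 2 :=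
        Real.log_le_log (by positivity) (by rw [div_le_iff₀ hL0]; linarith)
      gcongr
      linarith
    have h6 : (u + C₁) * ∑ l ∈ W, (1 / ((l : ℝ) * ((l : ℝ) - 1))) ≤ 2 + C₁ := by
      refine le_trans ?_ h4
      gcongr
    have h7 : u * A ≤ u * Real.log (u / L) + 2 * C₂ := by
      have h8 : u * A ≤ u * (Real.log (u / L) + C₂ / L) := by
        gcongr
        linarith
      linarith
    linarith
  · -- upper bound of `GG`
    have h1 : ∑ l ∈ W, (1 / (l : ℝ)) * (u - Real.log l) ≤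
        ∑ l ∈ W, (1 / ((l : ℝ) - 1)) * G1 (R / l) := by
      refine sum_le_sum fun l hl => ?_
      obtain ⟨h1, h2, h3⟩ := hmemW l hl
      have hl1 : (1 : ℝ) < l := by exact_mod_cast h3.one_lt
      have hl2 : 0 < (l : ℝ) - 1 := by linarith
      obtain ⟨h5, h6⟩ := hlow l hl
      have h7 : 1 / (l : ℝ) ≤ 1 / ((l : ℝ) - 1) := one_div_le_one_div_of_le hl2 (by linarith)
      exact mul_le_mul h7 h5 h6 (by positivity)
    rw [hsumuA] at h1
    have h7 : u * Real.log (u / L) - 2 * C₂ ≤ u * A := by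
      have h8 : u * (Real.log (u / L) - C₂ / L) ≤ u * A := by
        gcongr
        linarith
      linarith
    have h9 : 0 ≤ C₁ * (1 + 2 * C₂) := by positivity
    linarith

end Pool.Agent.EPK
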