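import Pool.Agent.EPK.M3a

/-!
# [EPK-M3b] the asymptotic formula for `GG z R`, `z ≤ R ≤ z²`
-/

set_option autoImplicit false

namespace Pool.Agent.EPK

open Finset

/-- `x log x` grows at least with slope one to the right of 1 -/
theorem m3b_slope (L u u' : ℝ) (hL : 0 < L) (h1 : L ≤ u) (h2 : u ≤ u') :
    u' - u ≤ u' * Real.log (u' / L) - u * Real.log (u / L) := by
  have hu : 0 < u := by linarith
  have hu' : 0 < u' := by linarith
  have h3 : 0 ≤ Real.log (u / L) := Real.log_nonneg ((one_le_div hL).2 h1)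
  have h4 : Real.log (u' / L) = Real.log (u / L) + Real.log (u' / u) := by
    rw [← Real.log_mul (by positivity) (by positivity)]
    congr 1
    field_simp
  have h5 : 1 - u / u' ≤ Real.log (u' / u) := by
    have := Real.one_sub_inv_le_log_of_pos (show (0 : ℝ) < u' / u by positivity)
    rwa [inv_div] at this
  have h6 : u' - u ≤ u' * Real.log (u' / u) := by
    calc u' - u = u' * (1 - u / u') := by field_simp
      _ ≤ u' * Real.log (u' / u) := by gcongr
  rw [h4]
  nlinarith

/-- [M3b] Properties of `Fu` on `L ≤ u ≤ 2L` (`L > 0`): the value at `2L`, the lower bound, Lipschitz, and the increment.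

Proof. (1) direct. (2) `Fu L u / u = 2 - L/u - log (u/L) =: h(v)`, `v = u/L ∈ [1, 2]`, `h' = 1/v² - 1/v ≤ 0`, `h(2) = 3/2 - log 2`; or:
`2 - 1/v - log v ≥ 3/2 - log 2` is `log (2 / v) ≥ 1/v - 1/2`, and `log y ≥ 1 - 1/y` for `y = 2/v`: `1 - v/2 ≥ 1/v - 1/2 ⟺
(v - 1)(2 - v) ≥ 0` after multiplying by `2v`... check: `2v - v² ≥ 2 - v ⟺ -(v-1)(v-2) ≥ 0`, true.
(3) the derivative in `u` is `1 - log (u/L) ∈ [0, 1]`; or: `Fu L u' - Fu L u = 2 (u' - u) - u' log (u'/L) + u log (u/L)` and
`u' log (u'/L) - u log (u/L) ≥ (u' - u)` as `x log x` has derivative `1 + log x ≥ 1`.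
(4) with `t = (2L - u)/L ∈ [0, 1]`: `Fu L (2L) - Fu L u = L q(t)`, `q(t) = 2 t - 2 log 2 + (2 - t) log (2 - t)`, and
`log (2 - t) = log 2 + log (1 - t/2) ≤ log 2 - t/2 - t²/8`, so `q(t) ≤ (1 - log 2) t + t²/4 + t³/8 ≤ (1 - log 2) t + 3 t² / 8`. -/
theorem Fu_props (L u : ℝ) (hL : 0 < L) (h1 : L ≤ u) (h2 : u ≤ 2 * L) :
    Fu L (2 * L) = (3 - 2 * Real.log 2) * L ∧ (3 / 2 - Real.log 2) * u ≤ Fu L u ∧
    (∀ u', u ≤ u' → u' ≤ 2 * L → Fu L u ≤ Fu L u' ∧ Fu L u' ≤ Fu L u + (u' - u)) ∧
    Fu L (2 * L) - Fu L u ≤ (1 - Real.log 2) * (2 * L - u) + 3 / 8 * (2 * L - u) ^ 2 / L := by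
  have hu : 0 < u := by linarith
  have hval : Fu L (2 * L) = (3 - 2 * Real.log 2) * L := by
    unfold Fu
    rw [mul_div_assoc, div_self hL.ne', mul_one]
    ring
  refine ⟨hval, ?_, ?_, ?_⟩
  · -- (2)
    unfold Fu
    have h3 : Real.log (u / L) = Real.log 2 - Real.log (2 * L / u) := by
      rw [← Real.log_div (by norm_num) (by positivity)]
      congr 1
      field_simp
    have h4 : 1 - u / (2 * L) ≤ Real.log (2 * L / u) := by
      have := Real.one_sub_inv_le_log_of_pos (show (0 : ℝ) < 2 * L / u by positivity)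
      rwa [inv_div] at this
    have h5 : u * (1 - u / (2 * L)) ≤ u * Real.log (2 * L / u) := by gcongr
    have h6 : L - u / 2 ≤ u * (1 - u / (2 * L)) := by
      have h7 : u * (1 - u / (2 * L)) - (L - u / 2) = (u - L) * (2 * L - u) / (2 * L) := by
        field_simp
      have h8 : 0 ≤ (u - L) * (2 * L - u) / (2 * L) := by
        apply div_nonneg _ (by positivity)
        exact mul_nonneg (by linarith) (by linarith)
      linarith
    rw [h3]
    nlinarith
  · -- (3)
    intro u' h3 h4
    have h5 := m3b_slope L u u' hL h1 h3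
    refine ⟨?_, ?_⟩
    · -- the upper bound of the slope of `x log x`
      have hu' : 0 < u' := by linarith
      have h6 : Real.log (u' / L) ≤ Real.log 2 :=
        Real.log_le_log (by positivity) (by rw [div_le_iff₀ hL]; linarith)
      have h7 : Real.log (u / L) = Real.log (u' / L) - Real.log (u' / u) := by
        rw [← Real.log_div (by positivity) (by positivity)]
        congr 1
        field_simp
      have h8 : Real.log (u' / u) ≤ u' / u - 1 :=
        Real.log_le_sub_one_of_pos (by positivity)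
      have h9 : u * Real.log (u' / u) ≤ u' - u := by
        calc u * Real.log (u' / u) ≤ u * (u' / u - 1) := by gcongr
          _ = u' - u := by field_simp
      have l2 : Real.log 2 < 0.6931471808 := Real.log_two_lt_d9
      have h10 : 0 ≤ u' - u := by linarith
      have h11 : (u' - u) * Real.log (u' / L) ≤ (u' - u) * 1 := by
        gcongr
        linarith
      unfold Fu
      rw [h7]
      nlinarith
    · unfold Fu
      linarith
  · -- (4)
    rw [hval]
    set t : ℝ := 2 * L - u with ht
    have ht0 : 0 ≤ t := by linarith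
    have htL : t ≤ L := by linarith
    have hu2 : u = 2 * L - t := by linarith
    have h3 : Real.log (u / L) = Real.log 2 + Real.log (1 - t / (2 * L)) := by
      have h3a : 0 < 1 - t / (2 * L) := by
        have : t / (2 * L) < 1 := by
          rw [div_lt_one (by positivity)]
          linarith
        linarith
      rw [← Real.log_mul (by norm_num) h3a.ne']
      congr 1
      rw [hu2]
      field_simp
    -- `log (1 - y) ≤ - y - y²/2` for `0 ≤ y < 1`
    set y : ℝ := t / (2 * L) with hy
    have hy0 : 0 ≤ y := by positivity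
    have hy1 : y ≤ 1 / 2 := by
      rw [hy, div_le_iff₀ (by positivity)]
      linarith
    have h4 : Real.log (1 - y) ≤ -y - y ^ 2 / 2 := by
      have h5 := Real.hasSum_pow_div_log_of_abs_lt_one (x := y) (by rw [abs_of_nonneg hy0]; linarith)
      have h6 := h5.summable.sum_le_tsum (range 2) (fun i _ => by positivity)
      rw [h5.tsum_eq] at h6
      simp only [sum_range_succ, sum_range_zero] at h6
      norm_num at h6
      linarith
    have hFu : Fu L u = 2 * u - L - u * (Real.log 2 + Real.log (1 - y)) := by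
      unfold Fu
      rw [h3]
    rw [hFu]
    have h5 : u * Real.log (1 - y) ≤ u * (-y - y ^ 2 / 2) := by gcongr
    have hty : t = 2 * L * y := by
      rw [hy]
      field_simp
    have h6 : 3 / 8 * t ^ 2 / L = 3 / 2 * L * y ^ 2 := by
      rw [hty]
      field_simp
      ring
    rw [h6]
    have h7 : u = 2 * L - 2 * L * y := by rw [hu2, hty]
    have h8 : (3 - 2 * Real.log 2) * L - (2 * u - L - u * (Real.log 2 + Real.log (1 - y))) =
        (3 - 2 * Real.log 2) * L - 2 * u + L + u * Real.log 2 + u * Real.log (1 - y) := by ring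
    rw [h8, hty]
    have h9 : 0 ≤ L * y ^ 2 := by positivity
    have h10 : 0 ≤ L * y ^ 3 := by positivity
    have h11 : u * (-y - y ^ 2 / 2) = -2 * L * y + L * y ^ 2 + L * y ^ 3 := by
      rw [h7]
      ring
    have h12 : L * y ^ 3 ≤ 1 / 2 * (L * y ^ 2) := by
      have : L * y ^ 3 = y * (L * y ^ 2) := by ring
      rw [this]
      gcongr
    rw [h11] at h5
    have h13 : u * Real.log 2 = 2 * L * Real.log 2 - 2 * L * y * Real.log 2 := by
      rw [h7]
      ring
    rw [h13]
    linarith [h7]

end Pool.Agent.EPK
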