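import Pool.Agent.EPK.S0
import Pool.Agent.EPK.M3

/-!
# [EPK-M4a] the two sums in the main term
-/

set_option autoImplicit false

namespace Pool.Agent.EPK

open Finset Filter

/-- constants and logarithms are small -/
theorem m4a_ev (K₁ K₂ η : ℝ) (hη : 0 < η) :
    ∀ᶠ z : ℕ in atTop, K₁ + K₂ * Real.log (Real.log z) ≤ η * Real.log z := by
  have h1 : (fun x : ℝ => K₁ + K₂ * Real.log x) =o[atTop] (fun x : ℝ => x) :=
    (Asymptotics.isLittleO_const_id_atTop K₁).add (Real.isLittleO_log_id_atTop.const_mul_left K₂)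
  have h2 := h1.bound hη
  have ht : Tendsto (fun z : ℕ => Real.log (z : ℝ)) atTop atTop :=
    Real.tendsto_log_atTop.comp tendsto_natCast_atTop_atTop
  have h3 := ht.eventually h2
  filter_upwards [h3, ht.eventually_ge_atTop 0] with z h4 h5
  rw [Real.norm_eq_abs, Real.norm_eq_abs, abs_of_nonneg h5] at h4
  exact le_trans (le_abs_self _) h4

/-- [M4a] The sum over the primes `l ≤ z`.

Proof. `R = z² / l` (floor) satisfies `z ≤ R ≤ z²`, and `log R ≥ log (z² / l) - 1` (as `z² / l ≥ z ≥ 2`, `⌊y⌋ ≥ y / 2 ≥ y / e`). `GG_asymp` for `z²` and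
`R`: `GG z (z²) - GG z R ≤ Fu(2L) - Fu(log R) + 2 C ≤ Fu(2L) - Fu(2L - log l) + 1 + 2C` (`Fu_props` (3); `L ≤ 2 L - log l`; if
`log R < L`... it is `≥ L` since `R ≥ z`) `≤ (1 - log 2) log l + (3/8) (log l)² / L + 1 + 2 C` (`Fu_props` (4) for `u = 2L - log l`). Multiply by
`1 / l` and sum: `∑ log l / l ≤ L + 5` (`mertens_one` with `x = 1`), `mertens_sq`, `∑_{l ≤ z} 1 / l ≤ log log z + C'` (`mertens` in
Mertens.lean, or `mertens_two` with `x = 2`). Result: `(1 - log 2 + 3/16) L + O(1 + log log z)`, and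
`1 + log log z ≤ η L + C_η`. -/
theorem sum_P1 (η : ℝ) (hη : 0 < η) : ∃ z₀ : ℕ, ∀ z : ℕ, z₀ ≤ z →
    ∑ l ∈ P1 z, (1 / (l : ℝ)) * (GG z (z ^ 2) - GG z (z ^ 2 / l)) ≤
      (1 - Real.log 2 + 3 / 16 + η) * Real.log z := by
  obtain ⟨C, hC0, hC⟩ := GG_asymp
  obtain ⟨C₂, hC₂0, hC₂⟩ := mertens_two
  obtain ⟨C₃, hC₃0, hC₃⟩ := mertens_sq
  have l1 : 0.6931471803 < Real.log 2 := Real.log_two_gt_d9
  have l2 : Real.log 2 < 0.6931471808 := Real.log_two_lt_d9
  set C₄ : ℝ := -Real.log (Real.log 2) + C₂ / Real.log 2 + 1 / 2 with hC₄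
  obtain ⟨z₁, hz₁⟩ := eventually_atTop.1
    (m4a_ev (5 + 3 / 8 * C₃ + (1 + 2 * C) * C₄) (1 + 2 * C) η hη)
  refine ⟨max z₁ 2, fun z hz => ?_⟩
  have hz2 : 2 ≤ z := le_trans (le_max_right _ _) hz
  have hev := hz₁ z (le_trans (le_max_left _ _) hz)
  have hz0 : (2 : ℝ) ≤ z := by exact_mod_cast hz2
  set L : ℝ := Real.log z with hL
  have hL69 : Real.log 2 ≤ L := Real.log_le_log (by norm_num) hz0
  have hL0 : 0 < L := by linarith
  -- each prime
  have hterm : ∀ l ∈ P1 z, GG z (z ^ 2) - GG z (z ^ 2 / l) ≤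
      (1 - Real.log 2) * Real.log l + 3 / 8 * Real.log l ^ 2 / L + (1 + 2 * C) := by
    intro l hl
    rw [P1, mem_filter, mem_Icc] at hl
    obtain ⟨⟨hl1, hlz⟩, hlp⟩ := hl
    have hl0 : (0 : ℝ) < l := by exact_mod_cast hlp.pos
    have hlog0 : 0 ≤ Real.log l := Real.log_natCast_nonneg l
    have hloglL : Real.log l ≤ L := Real.log_le_log hl0 (by exact_mod_cast hlz)
    set R : ℕ := z ^ 2 / l with hR
    have hzR : z ≤ R := by
      rw [hR, Nat.le_div_iff_mul_le hlp.pos, sq]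
      exact Nat.mul_le_mul_left _ hlz
    have hRz : R ≤ z ^ 2 := Nat.div_le_self _ _
    have hR0 : (2 : ℝ) ≤ R := by exact_mod_cast hz2.trans hzR
    have hy : (z : ℝ) ^ 2 / l < R + 1 := by
      have h5 : z ^ 2 < l * (z ^ 2 / l + 1) := Nat.lt_mul_div_succ _ hlp.pos
      have h6 : (z : ℝ) ^ 2 < l * ((R : ℝ) + 1) := by exact_mod_cast h5
      rw [div_lt_iff₀ hl0]
      linarith
    have hlogR1 : 2 * L - Real.log l ≤ Real.log R + 1 := by
      have h5 : (z : ℝ) ^ 2 / l ≤ 2 * R := by linarith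
      have h6 : Real.log ((z : ℝ) ^ 2 / l) = 2 * L - Real.log l := by
        rw [Real.log_div (by positivity) hl0.ne', Real.log_pow]
        norm_num
        rfl
      rw [← h6]
      calc Real.log ((z : ℝ) ^ 2 / l) ≤ Real.log (2 * R) := Real.log_le_log (by positivity) h5
        _ = Real.log 2 + Real.log R := Real.log_mul (by norm_num) (by linarith)
        _ ≤ Real.log R + 1 := by linarith
    have hlogRL : L ≤ Real.log R := Real.log_le_log (by linarith) (by exact_mod_cast hzR)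
    have hlogR2 : Real.log R ≤ 2 * L - Real.log l := by
      have h6 : Real.log ((z : ℝ) ^ 2 / l) = 2 * L - Real.log l := by
        rw [Real.log_div (by positivity) hl0.ne', Real.log_pow]
        norm_num
        rfl
      rw [← h6]
      refine Real.log_le_log (by linarith) ?_
      have : ((R : ℕ) : ℝ) ≤ ((z ^ 2 : ℕ) : ℝ) / l := Nat.cast_div_le
      push_cast at this
      exact this
    have hlog2 : Real.log ((z ^ 2 : ℕ) : ℝ) = 2 * L := by
      push_cast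
      rw [Real.log_pow]
      norm_num
      rfl
    have g1 := hC z (z ^ 2) hz2 (by nlinarith) le_rfl
    have g2 := hC z R hz2 hzR hRz
    rw [hlog2] at g1
    have g3 := (abs_le.1 g1).2
    have g4 := (abs_le.1 g2).1
    have g5 := ((Fu_props L (Real.log R) hL0 hlogRL (by linarith)).2.2.1
      (2 * L - Real.log l) hlogR2 (by linarith)).2
    have g6 := (Fu_props L (2 * L - Real.log l) hL0 (by linarith) (by linarith)).2.2.2
    have g7 : 2 * L - (2 * L - Real.log l) = Real.log l := by ring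
    rw [g7] at g6
    linarith
  -- the three sums
  have hP1eq : P1 z = (Ioc 1 z).filter Nat.Prime := by
    ext l
    simp only [P1, mem_filter, mem_Icc, mem_Ioc]
    constructor
    · rintro ⟨⟨h1, h2⟩, h3⟩
      exact ⟨⟨h3.one_lt, h2⟩, h3⟩
    · rintro ⟨⟨h1, h2⟩, h3⟩
      exact ⟨⟨h1.le, h2⟩, h3⟩
  have s1 : ∑ l ∈ P1 z, Real.log l / l ≤ L + 5 := by
    have h1 := (abs_le.1 (mertens_one 1 z le_rfl (by omega))).2
    rw [← hP1eq, Nat.cast_one, Real.log_one] at h1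
    linarith
  have s2 : ∑ l ∈ P1 z, Real.log l ^ 2 / l ≤ L ^ 2 / 2 + C₃ * L := hC₃ z hz2
  have s3 : ∑ l ∈ P1 z, (1 : ℝ) / l ≤ Real.log L + C₄ := by
    have h1 := (abs_le.1 (hC₂ 2 z le_rfl hz2)).2
    have h2 : P1 z ⊆ insert 2 ((Ioc 2 z).filter Nat.Prime) := by
      intro l hl
      rw [P1, mem_filter, mem_Icc] at hl
      rw [mem_insert, mem_filter, mem_Ioc]
      have := hl.2.two_le
      rcases Nat.eq_or_lt_of_le this with h3 | h3
      · left
        exact h3.symm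
      · right
        exact ⟨⟨h3, hl.1.2⟩, hl.2⟩
    have h3 : ∑ l ∈ P1 z, (1 : ℝ) / l ≤ ∑ l ∈ insert 2 ((Ioc 2 z).filter Nat.Prime), (1 : ℝ) / l :=
      sum_le_sum_of_subset_of_nonneg h2 fun _ _ _ => by positivity
    rw [sum_insert (by simp)] at h3
    rw [hC₄]
    push_cast at h1 h3
    linarith
  have hsplit : ∑ l ∈ P1 z, (1 / (l : ℝ)) * (GG z (z ^ 2) - GG z (z ^ 2 / l)) ≤
      (1 - Real.log 2) * ∑ l ∈ P1 z, Real.log l / l +
        3 / 8 / L * ∑ l ∈ P1 z, Real.log l ^ 2 / l + (1 + 2 * C) * ∑ l ∈ P1 z, (1 : ℝ) / l := by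
    rw [mul_sum, mul_sum, mul_sum, ← sum_add_distrib, ← sum_add_distrib]
    refine sum_le_sum fun l hl => ?_
    have h1 := hterm l hl
    have h2 : (0 : ℝ) ≤ 1 / (l : ℝ) := by positivity
    calc (1 / (l : ℝ)) * (GG z (z ^ 2) - GG z (z ^ 2 / l)) ≤
          (1 / (l : ℝ)) * ((1 - Real.log 2) * Real.log l + 3 / 8 * Real.log l ^ 2 / L +
            (1 + 2 * C)) := by gcongr
      _ = _ := by ring
  have t1 : (1 - Real.log 2) * ∑ l ∈ P1 z, Real.log l / l ≤ (1 - Real.log 2) * (L + 5) := by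
    have : 0 ≤ 1 - Real.log 2 := by linarith
    gcongr
  have t2 : 3 / 8 / L * ∑ l ∈ P1 z, Real.log l ^ 2 / l ≤ 3 / 16 * L + 3 / 8 * C₃ := by
    calc 3 / 8 / L * ∑ l ∈ P1 z, Real.log l ^ 2 / l ≤ 3 / 8 / L * (L ^ 2 / 2 + C₃ * L) := by gcongr
      _ = 3 / 16 * L + 3 / 8 * C₃ := by
          field_simp
          ring
  have t3 : (1 + 2 * C) * ∑ l ∈ P1 z, (1 : ℝ) / l ≤ (1 + 2 * C) * (Real.log L + C₄) := by gcongr
  nlinarith

end Pool.Agent.EPK
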