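import Pool.Agent.EPK.M4a

/-!
# [EPK-M4b] the two sums in the main term
-/

set_option autoImplicit false

namespace Pool.Agent.EPK

open Finset Filter

/-- the level for `l`: `u₀ < log (Rl z l + 1)` -/
theorem m4b_Rl (z l : ℕ) (hz : 2 ≤ z) (hl : 1 ≤ l) :
    (5 * Real.log z - Real.log l) / 2 ≤ Real.log ((Rl z l : ℝ) + 1) := by
  have hz0 : (0 : ℝ) < z := by exact_mod_cast (by omega : 0 < z)
  have hl0 : (0 : ℝ) < l := by exact_mod_cast hl
  have h1 : z ^ 5 / l < (Rl z l + 1) * (Rl z l + 1) := Nat.lt_succ_sqrt _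
  have h2 : z ^ 5 < l * (z ^ 5 / l + 1) := Nat.lt_mul_div_succ _ (by omega)
  have h3 : z ^ 5 < l * ((Rl z l + 1) * (Rl z l + 1)) :=
    lt_of_lt_of_le h2 (Nat.mul_le_mul_left _ h1)
  have h4 : (z : ℝ) ^ 5 ≤ l * (((Rl z l : ℝ) + 1) * ((Rl z l : ℝ) + 1)) := by exact_mod_cast h3.le
  have hR : (0 : ℝ) < (Rl z l : ℝ) + 1 := by positivity
  have h5 : Real.log ((z : ℝ) ^ 5) ≤ Real.log (l * (((Rl z l : ℝ) + 1) * ((Rl z l : ℝ) + 1))) :=
    Real.log_le_log (by positivity) h4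
  rw [Real.log_pow, Real.log_mul hl0.ne' (by positivity), Real.log_mul hR.ne' hR.ne'] at h5
  push_cast at h5
  linarith

theorem m4b_wl (z l : ℕ) (hz : 2 ≤ z) :
    wl z l = 2 / (5 * Real.log z) * ((5 * Real.log z - Real.log l) / 2) := by
  have hz0 : (1 : ℝ) < z := by exact_mod_cast (by omega : 1 < z)
  have hL : 0 < Real.log z := Real.log_pos hz0
  unfold wl
  field_simp

/-- [M4b] One prime `z < l ≤ z³`: `R = Rl z l` satisfies `z ≤ R ≤ z²`; `wl z l = 2 u₀ / (5 L)` with `u₀ = (5 L - log l) / 2`, and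
`log R ≥ u₀ - 1`: `(R + 1)² ≥ ⌊z⁵ / l⌋ + 1 > z⁵ / l`, so `log (R + 1) > u₀`, `log (R + 1) ≤ log R + 1`. `GG_asymp`, `Fu_props` (2):
`GG z R ≥ (3/2 - log 2) (u₀ - 1) - C ≥ (3/2 - log 2) u₀ / (1 + η)` for large `z` (`u₀ ≥ L`). So
`wl z l / GG z R ≤ (2 / (5 L)) (1 + η) / (3/2 - log 2)`. -/
theorem term_mid (η : ℝ) (hη : 0 < η) : ∃ z₀ : ℕ, ∀ z : ℕ, z₀ ≤ z → ∀ l : ℕ, z < l → l ≤ z ^ 3 →
    wl z l * (GG z (Rl z l))⁻¹ ≤ 2 / (5 * Real.log z) * ((1 + η) / (3 / 2 - Real.log 2)) := by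
  obtain ⟨C, hC0, hC⟩ := GG_asymp
  have l1 : 0.6931471803 < Real.log 2 := Real.log_two_gt_d9
  have l2 : Real.log 2 < 0.6931471808 := Real.log_two_lt_d9
  set c : ℝ := 3 / 2 - Real.log 2 with hc
  have hc0 : 0 < c := by linarith
  have ht : Tendsto (fun z : ℕ => Real.log (z : ℝ)) atTop atTop :=
    Real.tendsto_log_atTop.comp tendsto_natCast_atTop_atTop
  obtain ⟨z₁, hz₁⟩ := eventually_atTop.1
    (ht.eventually_ge_atTop ((c + C) * (1 + η) / (c * η)))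
  refine ⟨max z₁ 2, fun z hz l hzl hlz => ?_⟩
  have hz2 : 2 ≤ z := le_trans (le_max_right _ _) hz
  have hev := hz₁ z (le_trans (le_max_left _ _) hz)
  have hz0 : (2 : ℝ) ≤ z := by exact_mod_cast hz2
  have hl0 : (0 : ℝ) < l := by exact_mod_cast (by omega : 0 < l)
  have hwl := m4b_wl z l hz2
  have hRl := m4b_Rl z l hz2 (by omega)
  set L : ℝ := Real.log z with hL
  have hL69 : Real.log 2 ≤ L := Real.log_le_log (by norm_num) hz0
  have hL0 : 0 < L := by linarith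
  set u₀ : ℝ := (5 * L - Real.log l) / 2 with hu₀
  have hlogl : Real.log l ≤ 3 * L := by
    have h1 : (l : ℝ) ≤ (z : ℝ) ^ 3 := by exact_mod_cast hlz
    calc Real.log l ≤ Real.log ((z : ℝ) ^ 3) := Real.log_le_log hl0 h1
      _ = 3 * L := by rw [Real.log_pow]; norm_num; rfl
  have hu₀L : L ≤ u₀ := by linarith
  set R : ℕ := Rl z l with hR
  have hzR : z ≤ R := by
    rw [hR, Rl, Nat.le_sqrt, Nat.le_div_iff_mul_le (by omega)]
    calc z * z * l ≤ z * z * z ^ 3 := Nat.mul_le_mul_left _ hlz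
      _ = z ^ 5 := by ring
  have hRz : R ≤ z ^ 2 := by
    have h1 : R * R ≤ z ^ 5 / l := Nat.sqrt_le _
    have h2 : z ^ 5 / l ≤ z ^ 4 := by
      refine Nat.div_le_of_le_mul ?_
      calc z ^ 5 = z * z ^ 4 := by ring
        _ ≤ l * z ^ 4 := Nat.mul_le_mul_right _ hzl.le
    have h3 : R * R ≤ z ^ 2 * z ^ 2 := by
      calc R * R ≤ z ^ 4 := h1.trans h2
        _ = z ^ 2 * z ^ 2 := by ring
    exact Nat.mul_self_le_mul_self_iff.1 h3
  have hR0 : (2 : ℝ) ≤ R := by exact_mod_cast hz2.trans hzR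
  have hlogR : u₀ - 1 ≤ Real.log R := by
    have h1 : Real.log ((R : ℝ) + 1) ≤ Real.log (2 * R) :=
      Real.log_le_log (by linarith) (by linarith)
    rw [Real.log_mul (by norm_num) (by linarith)] at h1
    linarith
  have hlogRL : L ≤ Real.log R := Real.log_le_log (by linarith) (by exact_mod_cast hzR)
  have hlogR2L : Real.log R ≤ 2 * L := by
    have h1 : (R : ℝ) ≤ (z : ℝ) ^ 2 := by exact_mod_cast hRz
    calc Real.log R ≤ Real.log ((z : ℝ) ^ 2) := Real.log_le_log (by linarith) h1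
      _ = 2 * L := by rw [Real.log_pow]; norm_num; rfl
  have g1 := (abs_le.1 (hC z R hz2 hzR hRz)).1
  have g2 := (Fu_props L (Real.log R) hL0 hlogRL hlogR2L).2.1
  rw [← hL] at g1
  rw [← hc] at g2
  have hGG : c * u₀ / (1 + η) ≤ GG z R := by
    have h1 : c * (u₀ - 1) - C ≤ GG z R := by
      have : c * (u₀ - 1) ≤ c * Real.log R := by gcongr
      linarith
    refine le_trans ?_ h1
    rw [div_le_iff₀ (by linarith)]
    have h2 : (c + C) * (1 + η) ≤ u₀ * (c * η) := by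
      have h3 : (c + C) * (1 + η) / (c * η) ≤ u₀ := le_trans hev hu₀L
      rwa [div_le_iff₀ (by positivity)] at h3
    nlinarith
  have hu₀0 : 0 < u₀ := by linarith
  have hGG0 : 0 < c * u₀ / (1 + η) := by positivity
  rw [hwl]
  calc 2 / (5 * L) * u₀ * (GG z R)⁻¹ ≤ 2 / (5 * L) * u₀ * (c * u₀ / (1 + η))⁻¹ := by gcongr
    _ = 2 / (5 * L) * ((1 + η) / c) := by
        field_simp

/-- [M4c] One prime `z³ < l < z⁵`: `R = Rl z l < z`, so `GG z R = G1 R ≥ log (R + 1) > u₀` (see `term_mid`), and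
`wl z l = 2 u₀ / (5 L)`. -/
theorem term_high (z l : ℕ) (hz : 2 ≤ z) (h1 : z ^ 3 < l) (h2 : l < z ^ 5) :
    wl z l * (GG z (Rl z l))⁻¹ ≤ 2 / (5 * Real.log z) := by
  have hz0 : (2 : ℝ) ≤ z := by exact_mod_cast hz
  have hl1 : 0 < l := by omega
  have hl0 : (0 : ℝ) < l := by exact_mod_cast hl1
  have hwl := m4b_wl z l hz
  have hRl := m4b_Rl z l hz (by omega)
  have hL0 : 0 < Real.log z := Real.log_pos (by linarith)
  set u₀ : ℝ := (5 * Real.log z - Real.log l) / 2 with hu₀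
  have hu₀0 : 0 < u₀ := by
    have h3 : Real.log l < 5 * Real.log z := by
      have h4 : (l : ℝ) < (z : ℝ) ^ 5 := by exact_mod_cast h2
      calc Real.log l < Real.log ((z : ℝ) ^ 5) := Real.log_lt_log hl0 h4
        _ = 5 * Real.log z := by rw [Real.log_pow]; norm_num
    rw [hu₀]
    linarith
  have hRz : Rl z l ≤ z := by
    have h3 : Rl z l * Rl z l ≤ z ^ 5 / l := Nat.sqrt_le _
    have h4 : z ^ 5 / l ≤ z ^ 2 := by
      refine Nat.div_le_of_le_mul ?_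
      calc z ^ 5 = z ^ 3 * z ^ 2 := by ring
        _ ≤ l * z ^ 2 := Nat.mul_le_mul_right _ h1.le
    have h5 : Rl z l * Rl z l ≤ z * z := by
      calc Rl z l * Rl z l ≤ z ^ 2 := h3.trans h4
        _ = z * z := by ring
    exact Nat.mul_self_le_mul_self_iff.1 h5
  have hGG : u₀ ≤ GG z (Rl z l) := by
    rw [GG_eq_G1 z _ hRz]
    exact le_trans hRl (G1_lower _)
  rw [hwl]
  calc 2 / (5 * Real.log z) * u₀ * (GG z (Rl z l))⁻¹ ≤ 2 / (5 * Real.log z) * u₀ * u₀⁻¹ := by gcongr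
    _ = 2 / (5 * Real.log z) := by
        field_simp

end Pool.Agent.EPK
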