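import Pool.Agent.EPK.M4b

/-!
# [EPK-M4c] the two sums in the main term
-/

set_option autoImplicit false

namespace Pool.Agent.EPK

open Finset Filter

/-- [M4d] The sum over the primes `z < l < z⁵`.

Proof. Split at `z³`: `term_mid`, `term_high`, and `mertens_two`: `∑_{z < l ≤ z³} 1/l ≤ log 3 + C / log z`,
`∑_{z³ < l < z⁵} 1/l ≤ log (5/3) + C / log z`. -/
theorem sum_P2 (η : ℝ) (hη : 0 < η) : ∃ z₀ : ℕ, ∀ z : ℕ, z₀ ≤ z →
    ∑ l ∈ P2 z, (1 / (l : ℝ)) * wl z l * (GG z (Rl z l))⁻¹ ≤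
      2 / (5 * Real.log z) * (Real.log 3 / (3 / 2 - Real.log 2) + Real.log (5 / 3) + η) := by
  have l1 : 0.6931471803 < Real.log 2 := Real.log_two_gt_d9
  have l2 : Real.log 2 < 0.6931471808 := Real.log_two_lt_d9
  set c : ℝ := 3 / 2 - Real.log 2 with hc
  have hc0 : 0.8 < c := by linarith
  obtain ⟨z₁, hz₁⟩ := term_mid (η / 8) (by linarith)
  obtain ⟨C₂, hC₂0, hC₂⟩ := mertens_two
  set K : ℝ := (1 + η / 8) / c with hK
  have hK0 : 0 < K := by positivity
  have ht : Tendsto (fun z : ℕ => Real.log (z : ℝ)) atTop atTop :=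
    Real.tendsto_log_atTop.comp tendsto_natCast_atTop_atTop
  obtain ⟨z₂, hz₂⟩ := eventually_atTop.1
    (ht.eventually_ge_atTop (4 * (K + 1) * C₂ / η))
  refine ⟨max (max z₁ z₂) 2, fun z hz => ?_⟩
  have hz2 : 2 ≤ z := le_trans (le_max_right _ _) hz
  have hmid := hz₁ z (le_trans (le_trans (le_max_left _ _) (le_max_left _ _)) hz)
  have hev := hz₂ z (le_trans (le_trans (le_max_right _ _) (le_max_left _ _)) hz)
  have hz0 : (2 : ℝ) ≤ z := by exact_mod_cast hz2
  set L : ℝ := Real.log z with hL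
  have hL69 : Real.log 2 ≤ L := Real.log_le_log (by norm_num) hz0
  have hL0 : 0 < L := by linarith
  have hz3 : z ≤ z ^ 3 := Nat.le_self_pow (by norm_num) z
  have hz35 : z ^ 3 ≤ z ^ 5 := Nat.pow_le_pow_right (by omega) (by norm_num)
  have hlog3 : Real.log ((z ^ 3 : ℕ) : ℝ) = 3 * L := by
    push_cast
    rw [Real.log_pow]
    norm_num
    rfl
  have hlog5 : Real.log ((z ^ 5 : ℕ) : ℝ) = 5 * L := by
    push_cast
    rw [Real.log_pow]
    norm_num
    rfl
  -- Mertens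
  set W1 : Finset ℕ := (Ioc z (z ^ 3)).filter Nat.Prime with hW1
  set W2 : Finset ℕ := (Ioc (z ^ 3) (z ^ 5)).filter Nat.Prime with hW2
  have m1 : ∑ l ∈ W1, (1 : ℝ) / l ≤ Real.log 3 + C₂ / L := by
    have h1 := (abs_le.1 (hC₂ z (z ^ 3) hz2 hz3)).2
    rw [hlog3, Real.log_mul (by norm_num) hL0.ne'] at h1
    linarith
  have m2 : ∑ l ∈ W2, (1 : ℝ) / l ≤ Real.log (5 / 3) + C₂ / L := by
    have h1 := (abs_le.1 (hC₂ (z ^ 3) (z ^ 5) (hz2.trans hz3) hz35)).2
    rw [hlog3, hlog5, Real.log_mul (by norm_num) hL0.ne', Real.log_mul (by norm_num) hL0.ne'] at h1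
    have h2 : Real.log (5 / 3) = Real.log 5 - Real.log 3 := Real.log_div (by norm_num) (by norm_num)
    have h3 : C₂ / (3 * L) ≤ C₂ / L := by
      gcongr
      linarith
    linarith
  -- splitting
  have hsub : P2 z ⊆ W1 ∪ (W2.filter (fun l => l < z ^ 5)) := by
    intro l hl
    rw [P2, mem_filter, mem_Ioo] at hl
    rw [mem_union, hW1, hW2, mem_filter, mem_filter, mem_filter, mem_Ioc, mem_Ioc]
    by_cases h : l ≤ z ^ 3
    · left
      exact ⟨⟨hl.1.1, h⟩, hl.2⟩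
    · right
      exact ⟨⟨⟨by omega, hl.1.2.le⟩, hl.2⟩, hl.1.2⟩
  have hbound : ∀ l ∈ P2 z, (1 / (l : ℝ)) * wl z l * (GG z (Rl z l))⁻¹ ≤
      2 / (5 * L) * ((if l ≤ z ^ 3 then K else 1) * (1 / (l : ℝ))) := by
    intro l hl
    rw [P2, mem_filter, mem_Ioo] at hl
    by_cases h : l ≤ z ^ 3
    · rw [if_pos h]
      have h1 := hmid l hl.1.1 h
      calc (1 / (l : ℝ)) * wl z l * (GG z (Rl z l))⁻¹ =
            (1 / (l : ℝ)) * (wl z l * (GG z (Rl z l))⁻¹) := by ring
        _ ≤ (1 / (l : ℝ)) * (2 / (5 * L) * K) := by gcongr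
        _ = _ := by ring
    · rw [if_neg h]
      have h1 := term_high z l hz2 (by omega) hl.1.2
      calc (1 / (l : ℝ)) * wl z l * (GG z (Rl z l))⁻¹ =
            (1 / (l : ℝ)) * (wl z l * (GG z (Rl z l))⁻¹) := by ring
        _ ≤ (1 / (l : ℝ)) * (2 / (5 * L)) := by gcongr
        _ = _ := by ring
  have hsum : ∑ l ∈ P2 z, (if l ≤ z ^ 3 then K else 1) * (1 / (l : ℝ)) ≤
      K * ∑ l ∈ W1, (1 : ℝ) / l + ∑ l ∈ W2, (1 : ℝ) / l := by
    have h0 : ∀ l : ℕ, 0 ≤ (if l ≤ z ^ 3 then K else 1) * (1 / (l : ℝ)) := by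
      intro l
      split_ifs <;> positivity
    calc ∑ l ∈ P2 z, (if l ≤ z ^ 3 then K else 1) * (1 / (l : ℝ))
        ≤ ∑ l ∈ W1 ∪ (W2.filter (fun l => l < z ^ 5)),
            (if l ≤ z ^ 3 then K else 1) * (1 / (l : ℝ)) :=
          sum_le_sum_of_subset_of_nonneg hsub fun l _ _ => h0 l
      _ ≤ ∑ l ∈ W1, (if l ≤ z ^ 3 then K else 1) * (1 / (l : ℝ)) +
          ∑ l ∈ W2.filter (fun l => l < z ^ 5), (if l ≤ z ^ 3 then K else 1) * (1 / (l : ℝ)) := by
          rw [← sum_union_inter]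
          have : 0 ≤ ∑ l ∈ W1 ∩ (W2.filter (fun l => l < z ^ 5)),
              (if l ≤ z ^ 3 then K else 1) * (1 / (l : ℝ)) := sum_nonneg fun l _ => h0 l
          linarith
      _ ≤ ∑ l ∈ W1, K * (1 / (l : ℝ)) + ∑ l ∈ W2, (1 : ℝ) / l := by
          refine add_le_add (sum_le_sum fun l hl => ?_) ?_
          · rw [hW1, mem_filter, mem_Ioc] at hl
            rw [if_pos hl.1.2]
          · refine le_trans (sum_le_sum (g := fun l : ℕ => (1 : ℝ) / l) fun l hl => ?_)
              (sum_le_sum_of_subset_of_nonneg (filter_subset _ _) fun _ _ _ => by positivity)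
            rw [mem_filter, hW2, mem_filter, mem_Ioc] at hl
            rw [if_neg (by omega), one_mul]
      _ = _ := by rw [mul_sum]
  calc ∑ l ∈ P2 z, (1 / (l : ℝ)) * wl z l * (GG z (Rl z l))⁻¹
      ≤ ∑ l ∈ P2 z, 2 / (5 * L) * ((if l ≤ z ^ 3 then K else 1) * (1 / (l : ℝ))) :=
        sum_le_sum hbound
    _ = 2 / (5 * L) * ∑ l ∈ P2 z, (if l ≤ z ^ 3 then K else 1) * (1 / (l : ℝ)) := by
        rw [mul_sum]
    _ ≤ 2 / (5 * L) * (K * (Real.log 3 + C₂ / L) + (Real.log (5 / 3) + C₂ / L)) := by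
        gcongr
        refine le_trans hsum ?_
        gcongr
    _ ≤ 2 / (5 * L) * (Real.log 3 / c + Real.log (5 / 3) + η) := by
        refine mul_le_mul_of_nonneg_left ?_ (by positivity)
        have h1 : (K + 1) * (C₂ / L) ≤ η / 4 := by
          rw [div_le_iff₀ hη] at hev
          rw [mul_div_assoc', div_le_iff₀ hL0]
          linarith
        have h2 : K * Real.log 3 = Real.log 3 / c + η / 8 * (Real.log 3 / c) := by
          rw [hK]
          ring
        have h3 : Real.log 3 / c ≤ 2 := by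
          rw [div_le_iff₀ (by linarith)]
          have h4 : Real.log 3 ≤ Real.log 4 := Real.log_le_log (by norm_num) (by norm_num)
          have h5 : Real.log 4 = 2 * Real.log 2 := by
            rw [show (4 : ℝ) = 2 ^ 2 by norm_num, Real.log_pow]
            norm_num
          linarith
        have h4 : η / 8 * (Real.log 3 / c) ≤ η / 8 * 2 := by gcongr
        have h5 : K * (Real.log 3 + C₂ / L) + (Real.log (5 / 3) + C₂ / L) =
            K * Real.log 3 + Real.log (5 / 3) + (K + 1) * (C₂ / L) := by ring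
        rw [h5, h2]
        linarith

end Pool.Agent.EPK
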