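import Pool.Agent.EPK.M4

/-!
# [EPK-M5a] the main term is positive
-/

set_option autoImplicit false

namespace Pool.Agent.EPK

open Finset

theorem m5a_log32 : Real.log (3 / 2) ≤ 0.4061 := by
  have h := Real.abs_log_sub_add_sum_range_le (x := 1 / 3) (by norm_num [abs_of_pos]) 6
  have h2 : Real.log (3 / 2) = -Real.log (1 - 1 / 3) := by
    rw [← Real.log_inv]
    norm_num
  rw [h2]
  have h3 := neg_abs_le (∑ i ∈ range 6, (1 / 3 : ℝ) ^ (i + 1) / (i + 1) + Real.log (1 - 1 / 3))
  simp only [Finset.sum_range_succ, Finset.sum_range_zero] at h h3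
  norm_num [abs_of_pos] at h h3 ⊢
  linarith

theorem m5a_log53 : Real.log (5 / 3) ≤ 0.5113 := by
  have h := Real.abs_log_sub_add_sum_range_le (x := 2 / 5) (by norm_num [abs_of_pos]) 8
  have h2 : Real.log (5 / 3) = -Real.log (1 - 2 / 5) := by
    rw [← Real.log_inv]
    norm_num
  rw [h2]
  have h3 := neg_abs_le (∑ i ∈ range 8, (2 / 5 : ℝ) ^ (i + 1) / (i + 1) + Real.log (1 - 2 / 5))
  simp only [Finset.sum_range_succ, Finset.sum_range_zero] at h h3
  norm_num [abs_of_pos] at h h3 ⊢
  linarith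

/-- [M5a] The numerical inequality. The left side is `0.42985... - 0.40485... = 0.0250...`; use
`0.69314718 < log 2 < 0.69314719` (`Real.log_two_gt_d9`, `Real.log_two_lt_d9`), `log 3 < 1.0987`, `log (5/3) < 0.511`
(e.g. `log 3 = log 2 + log (3/2)`, and `log (3/2)`, `log (5/3)` bounded by the series or by `Real.log_le_sub_one_of_pos` applied to
roots; or `Real.exp_one_gt_d9`-type estimates; slack is 0.005). -/
theorem numeric : (1 : ℝ) / 50 ≤ (3 - 2 * Real.log 2 - (1 - Real.log 2 + 3 / 16)) /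
    (3 - 2 * Real.log 2) ^ 2 - 20 / 37 * (2 / 5) * (Real.log 3 / (3 / 2 - Real.log 2) +
      Real.log (5 / 3)) := by
  have h1 : 0.6931471803 < Real.log 2 := Real.log_two_gt_d9
  have h2 : Real.log 2 < 0.6931471808 := Real.log_two_lt_d9
  have h3 : Real.log 3 ≤ 1.0993 := by
    have h4 : Real.log 3 = Real.log 2 + Real.log (3 / 2) := by
      rw [← Real.log_mul (by norm_num) (by norm_num)]
      norm_num
    have := m5a_log32
    rw [h4]
    linarith
  have h5 := m5a_log53
  have h6 : Real.log 3 / (3 / 2 - Real.log 2) ≤ 1.3626 := by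
    rw [div_le_iff₀ (by linarith)]
    linarith
  have h7 : 0.4298 ≤ (3 - 2 * Real.log 2 - (1 - Real.log 2 + 3 / 16)) /
      (3 - 2 * Real.log 2) ^ 2 := by
    rw [le_div_iff₀ (by nlinarith)]
    nlinarith
  linarith

end Pool.Agent.EPK
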