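import Pool.Agent.EPK.M5a

/-!
# [EPK-M5b] the main term is positive
-/

set_option autoImplicit false

namespace Pool.Agent.EPK

open Finset Filter

/-- [M5b] The main term is positive for large `z`.

Proof. Let `g = 3 - 2 log 2`, `s = 1 - log 2 + 3/16`, `L = log z`, `G = GG z (z²)`, `S` the sum over `P1 z`. `|G - g L| ≤ C` (`GG_asymp`,
`Fu_props` (1), `log (z²) = 2 L`), `S ≤ (s + η) L` (`sum_P1`). So `G⁻¹ - S / G² = (G - S) / G² ≥ ((g - s - η) L - C) / (g L + C)²`, and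
`L` times this tends to a number `≥ (g - s - η) / g²`; `sum_P2`. With small `η` and large `z`, `numeric` gives
`L * MW z ≥ 1/50 - 1/100`. -/
theorem MW_lower : ∃ z₀ : ℕ, ∀ z : ℕ, z₀ ≤ z → 1 / (100 * Real.log z) ≤ MW z := by
  obtain ⟨z₁, hz₁⟩ := sum_P1 (1 / 1000) (by norm_num)
  obtain ⟨z₂, hz₂⟩ := sum_P2 (1 / 1000) (by norm_num)
  obtain ⟨C, hC0, hC⟩ := GG_asymp
  have ht : Tendsto (fun z : ℕ => Real.log (z : ℝ)) atTop atTop :=
    Real.tendsto_log_atTop.comp tendsto_natCast_atTop_atTop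
  obtain ⟨z₃, hz₃⟩ := eventually_atTop.1 (ht.eventually_ge_atTop (1000 * C + 1))
  refine ⟨max (max z₁ z₂) (max z₃ 2), fun z hz => ?_⟩
  have h1 : z₁ ≤ z := le_trans (le_trans (le_max_left _ _) (le_max_left _ _)) hz
  have h2 : z₂ ≤ z := le_trans (le_trans (le_max_right _ _) (le_max_left _ _)) hz
  have h3 : z₃ ≤ z := le_trans (le_trans (le_max_left _ _) (le_max_right _ _)) hz
  have h4 : 2 ≤ z := le_trans (le_trans (le_max_right _ _) (le_max_right _ _)) hz
  have hL : 1000 * C + 1 ≤ Real.log z := hz₃ z h3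
  have hS1 := hz₁ z h1
  have hS2 := hz₂ z h2
  have hGa := hC z (z ^ 2) h4 (by nlinarith) le_rfl
  set L : ℝ := Real.log z with hLdef
  have hL0 : 0 < L := by linarith
  have hF := (Fu_props L (2 * L) hL0 (by linarith) le_rfl).1
  have hlog2 : Real.log ((z ^ 2 : ℕ) : ℝ) = 2 * L := by
    push_cast
    rw [Real.log_pow]
    norm_num
    exact hLdef.symm
  rw [hlog2, hF] at hGa
  set G : ℝ := GG z (z ^ 2) with hG
  obtain ⟨hG1, hG2⟩ := abs_le.1 hGa
  set S : ℝ := ∑ l ∈ P1 z, (1 / (l : ℝ)) * (G - GG z (z ^ 2 / l)) with hS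
  have l1 : 0.6931471803 < Real.log 2 := Real.log_two_gt_d9
  have l2 : Real.log 2 < 0.6931471808 := Real.log_two_lt_d9
  set a : ℝ := Real.log 2 with ha
  have hCL : C ≤ L / 1000 := by linarith
  -- bounds for `G`
  have hGle : G ≤ 1.614706 * L := by nlinarith
  have hGge : 1.61270 * L ≤ G := by nlinarith
  have hGpos : 0 < G := by nlinarith
  have hSle : S ≤ (1 - a + 3 / 16 + 1 / 1000) * L := hS1
  have hSle' : S ≤ 0.49536 * L := by nlinarith
  -- `(G - S)/G²`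
  have hA : 0.4283 / L ≤ G⁻¹ - S / G ^ 2 := by
    have e1 : G⁻¹ - S / G ^ 2 = (G - S) / G ^ 2 := by
      field_simp
    rw [e1, div_le_div_iff₀ hL0 (by positivity)]
    have e2 : 1.11734 * L ≤ G - S := by linarith
    have e3 : G ^ 2 ≤ (1.614706 * L) ^ 2 := by gcongr
    nlinarith
  have hB : 20 / 37 * ∑ l ∈ P2 z, (1 / (l : ℝ)) * wl z l * (GG z (Rl z l))⁻¹ ≤
      0.4102 / L := by
    have e1 : ∑ l ∈ P2 z, (1 / (l : ℝ)) * wl z l * (GG z (Rl z l))⁻¹ ≤
        2 / (5 * L) * (Real.log 3 / (3 / 2 - a) + Real.log (5 / 3) + 1 / 1000) := hS2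
    have e2 := numeric
    rw [← ha] at e2
    have e3 : (3 - 2 * a - (1 - a + 3 / 16)) / (3 - 2 * a) ^ 2 ≤ 0.4299 := by
      rw [div_le_iff₀ (by nlinarith)]
      nlinarith
    have e4 : 20 / 37 * (2 / 5) * (Real.log 3 / (3 / 2 - a) + Real.log (5 / 3)) ≤ 0.4099 := by
      linarith
    calc 20 / 37 * ∑ l ∈ P2 z, (1 / (l : ℝ)) * wl z l * (GG z (Rl z l))⁻¹
        ≤ 20 / 37 * (2 / (5 * L) * (Real.log 3 / (3 / 2 - a) + Real.log (5 / 3) + 1 / 1000)) := by
          gcongr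
      _ = (20 / 37 * (2 / 5) * (Real.log 3 / (3 / 2 - a) + Real.log (5 / 3)) +
            20 / 37 * (2 / 5) * (1 / 1000)) / L := by
          field_simp
      _ ≤ 0.4102 / L := by
          rw [div_le_div_iff_of_pos_right hL0]
          linarith
  have hfin : 1 / (100 * L) ≤ 0.4283 / L - 0.4102 / L := by
    rw [← sub_div, div_le_div_iff₀ (by positivity) hL0]
    linarith
  unfold MW
  linarith

end Pool.Agent.EPK
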