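import Mathlib

/-!
# [EPK-S0] the weighted Selberg sieve: definitions
-/

set_option autoImplicit false

namespace Pool.Agent.EPK

open Finset

/-- the squarefree numbers `d ≤ R` all of whose prime factors are `≤ z` -/
def SF (z R : ℕ) : Finset ℕ :=
  (Icc 1 R).filter (fun d => Squarefree d ∧ ∀ l ∈ d.primeFactors, l ≤ z)

/-- Selberg's sum `G` -/
noncomputable def GG (z R : ℕ) : ℝ := ∑ d ∈ SF z R, ((Nat.totient d : ℝ))⁻¹

/-- Selberg's weights -/
noncomputable def lam (z R d : ℕ) : ℝ :=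
  if d ∈ SF z R then ((ArithmeticFunction.moebius d : ℤ) : ℝ) * (d / GG z R) *
    ∑ e ∈ (SF z R).filter (fun e => d ∣ e), ((Nat.totient e : ℝ))⁻¹ else 0

/-- the sum of the weights over the divisors of `m` -/
noncomputable def ff (z R m : ℕ) : ℝ := ∑ d ∈ (SF z R).filter (fun d => d ∣ m), lam z R d

/-- the level for the prime `l` -/
def Rl (z l : ℕ) : ℕ := Nat.sqrt (z ^ 5 / l)

/-- the primes `l ≤ z` -/
def P1 (z : ℕ) : Finset ℕ := (Icc 1 z).filter Nat.Prime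

/-- the primes `z < l < z⁵` -/
def P2 (z : ℕ) : Finset ℕ := (Ioo z (z ^ 5)).filter Nat.Prime

/-- the logarithmic weight of the prime `l` -/
noncomputable def wl (z l : ℕ) : ℝ := 1 - Real.log l / (5 * Real.log z)

/-- the sieve weight of `m` -/
noncomputable def WW (z m : ℕ) : ℝ :=
  (1 - (((P1 z).filter (fun l => l ∣ m)).card : ℝ)) * ff z (z ^ 2) m ^ 2 -
    20 / 37 * ∑ l ∈ (P2 z).filter (fun l => l ∣ m), wl z l * ff z (Rl z l) m ^ 2

/-- no prime factors `≤ z` and a small weighted number of prime factors `< z⁵` -/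
def Good (z m : ℕ) : Prop :=
  (∀ l ∈ m.primeFactors, z < l) ∧ ∑ l ∈ (P2 z).filter (fun l => l ∣ m), wl z l < 37 / 20

/-- the main term -/
noncomputable def MW (z : ℕ) : ℝ :=
  (GG z (z ^ 2))⁻¹ -
    (∑ l ∈ P1 z, (1 / (l : ℝ)) * (GG z (z ^ 2) - GG z (z ^ 2 / l))) / GG z (z ^ 2) ^ 2 -
    20 / 37 * ∑ l ∈ P2 z, (1 / (l : ℝ)) * wl z l * (GG z (Rl z l))⁻¹

end Pool.Agent.EPK
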