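import Pool.Agent.EPK.S0

/-!
# [EPK-S1a] Selberg's quadratic form
-/

set_option autoImplicit false

namespace Pool.Agent.EPK

open Finset

theorem s1a_mem {z R d : ℕ} : d ∈ SF z R ↔
    (1 ≤ d ∧ d ≤ R) ∧ Squarefree d ∧ ∀ l ∈ d.primeFactors, l ≤ z := by
  simp [SF]

theorem s1a_dvd {z R d e : ℕ} (hd : d ∈ SF z R) (h : e ∣ d) : e ∈ SF z R := by
  rw [s1a_mem] at hd ⊢
  obtain ⟨⟨h1, h2⟩, h3, h4⟩ := hd
  refine ⟨⟨Nat.pos_of_dvd_of_pos h (by omega), (Nat.le_of_dvd (by omega) h).trans h2⟩,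
    h3.squarefree_of_dvd h, fun l hl => h4 l (Nat.primeFactors_mono h (by omega) hl)⟩

theorem s1a_totient_pos {z R d : ℕ} (hd : d ∈ SF z R) : (0 : ℝ) < Nat.totient d := by
  rw [s1a_mem] at hd
  exact_mod_cast Nat.totient_pos.mpr (by omega)

theorem s1a_one {z R : ℕ} (hR : 1 ≤ R) : 1 ∈ SF z R := by
  rw [s1a_mem]
  simp [hR]

theorem s1a_pos {z R : ℕ} (hR : 1 ≤ R) : 0 < GG z R := by
  apply Finset.sum_pos
  · intro n hn
    exact inv_pos.mpr (s1a_totient_pos hn)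
  · exact ⟨1, s1a_one hR⟩

/-- [S1a] The set `SF z R` contains 1 and is closed under divisors; `GG` is positive. -/
theorem SF_basic (z R : ℕ) (hR : 1 ≤ R) : 1 ∈ SF z R ∧
    (∀ d ∈ SF z R, ∀ e, e ∣ d → e ∈ SF z R) ∧ 0 < GG z R ∧ lam z R 1 = 1 := by
  refine ⟨s1a_one hR, fun d hd e he => s1a_dvd hd he, s1a_pos hR, ?_⟩
  have h0 := (s1a_pos (z := z) hR).ne'
  unfold lam
  rw [if_pos (s1a_one hR)]
  have h1 : ∑ e ∈ (SF z R).filter (fun e => 1 ∣ e), ((Nat.totient e : ℝ))⁻¹ = GG z R := by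
    unfold GG
    congr 1
    simp
  rw [h1, ArithmeticFunction.moebius_apply_one]
  field_simp
  simp

end Pool.Agent.EPK
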