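import Pool.Agent.EPK.S1a

/-!
# [EPK-S1b] Selberg's quadratic form
-/

set_option autoImplicit false

namespace Pool.Agent.EPK

open Finset

/-- Sum of the Möbius function over the divisors. -/
theorem s1b_moebius_divisors (n : ℕ) :
    ∑ g ∈ n.divisors, ArithmeticFunction.moebius g = if n = 1 then 1 else 0 := by
  have h := congrArg (fun f : ArithmeticFunction ℤ => f n) ArithmeticFunction.coe_zeta_mul_moebius
  simp only [ArithmeticFunction.coe_zeta_mul_apply, ArithmeticFunction.one_apply] at h
  exact h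

/-- Sum of the Möbius function over an interval in the divisibility order. -/
theorem s1b_moebius_interval (e f : ℕ) (hf : Squarefree f) (hef : e ∣ f) :
    ∑ d ∈ f.divisors.filter (fun d => e ∣ d), ArithmeticFunction.moebius d =
      if f = e then ArithmeticFunction.moebius e else 0 := by
  obtain ⟨k, rfl⟩ := hef
  have hne : e * k ≠ 0 := hf.ne_zero
  have he : e ≠ 0 := left_ne_zero_of_mul hne
  have hk : k ≠ 0 := right_ne_zero_of_mul hne
  have hcop : Nat.Coprime e k := Nat.coprime_of_squarefree_mul hf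
  have key : ∑ d ∈ (e * k).divisors.filter (fun d => e ∣ d), ArithmeticFunction.moebius d =
      ∑ g ∈ k.divisors, ArithmeticFunction.moebius e * ArithmeticFunction.moebius g := by
    symm
    apply Finset.sum_bij (fun g _ => e * g)
    · intro g hg
      simp only [mem_filter, Nat.mem_divisors] at hg ⊢
      exact ⟨⟨Nat.mul_dvd_mul_left e hg.1, hne⟩, Dvd.intro _ rfl⟩
    · intro a _ b _ hab
      exact Nat.eq_of_mul_eq_mul_left (Nat.pos_of_ne_zero he) hab
    · intro b hb
      simp only [mem_filter, Nat.mem_divisors] at hb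
      obtain ⟨c, rfl⟩ := hb.2
      exact ⟨c, by
        simp only [Nat.mem_divisors]
        exact ⟨Nat.dvd_of_mul_dvd_mul_left (Nat.pos_of_ne_zero he) hb.1.1, hk⟩, rfl⟩
    · intro g hg
      rw [Nat.mem_divisors] at hg
      exact (ArithmeticFunction.isMultiplicative_moebius.map_mul_of_coprime
        (hcop.coprime_dvd_right hg.1)).symm
  rw [key, ← Finset.mul_sum, s1b_moebius_divisors k]
  by_cases h1 : k = 1
  · subst h1; simp
  · have : e * k ≠ e := by
      intro h
      apply h1
      exact Nat.eq_of_mul_eq_mul_left (Nat.pos_of_ne_zero he) (by rw [h, mul_one])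
    simp [h1, this]

/-- [S1b] The sums `∑_{r ∣ d} λ_d / d`.

Proof. For `r ∈ SF z R`: `∑_{d ∈ SF, r ∣ d} λ_d / d = (1 / G) ∑_{e ∈ SF} (1 / φ(e)) ∑_{r ∣ d ∣ e} μ(d)`, and the inner sum is `μ(r)` if
`e = r`, else `0` (`d = r d'`, `d'` runs through the divisors of `e / r`, `μ(r d') = μ(r) μ(d')` as `e` is squarefree). See
`sum_moebius_interval` and `sum_selL_div` in `Pool/Agent/MP_2f88e5_nt/Selberg.lean` (the same for odd numbers): adapt. -/
theorem sum_lam_div (z R : ℕ) (hR : 1 ≤ R) (r : ℕ) (hr : r ∈ SF z R) :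
    ∑ d ∈ (SF z R).filter (fun d => r ∣ d), lam z R d / d =
      ((ArithmeticFunction.moebius r : ℤ) : ℝ) / (Nat.totient r * GG z R) := by
  have hG := s1a_pos (z := z) hR
  have h1 : ∀ d ∈ (SF z R).filter (fun d => r ∣ d), lam z R d / d =
      (GG z R)⁻¹ * ∑ f ∈ SF z R, if r ∣ d ∧ d ∣ f then
        ((ArithmeticFunction.moebius d : ℤ) : ℝ) * (Nat.totient f : ℝ)⁻¹ else 0 := by
    intro d hd
    rw [mem_filter] at hd
    have hd0 : (d : ℝ) ≠ 0 := by
      have := (s1a_mem.mp hd.1).1.1
      positivity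
    rw [lam, if_pos hd.1, Finset.sum_filter, Finset.mul_sum, Finset.mul_sum, Finset.sum_div]
    apply Finset.sum_congr rfl
    intro f _
    by_cases hdf : d ∣ f
    · simp only [hdf, hd.2, and_self, if_true]
      field_simp
    · simp [hdf]
  rw [Finset.sum_congr rfl h1, ← Finset.mul_sum, Finset.sum_comm]
  have h2 : ∀ f ∈ SF z R, ∑ d ∈ (SF z R).filter (fun d => r ∣ d), (if r ∣ d ∧ d ∣ f then
        ((ArithmeticFunction.moebius d : ℤ) : ℝ) * (Nat.totient f : ℝ)⁻¹ else 0) =
      if f = r then ((ArithmeticFunction.moebius r : ℤ) : ℝ) * (Nat.totient r : ℝ)⁻¹ else 0 := by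
    intro f hf
    by_cases hef : r ∣ f
    · have hsq : Squarefree f := (s1a_mem.mp hf).2.1
      have := s1b_moebius_interval r f hsq hef
      rw [← Finset.sum_filter, Finset.filter_filter]
      have hset : (SF z R).filter (fun d => r ∣ d ∧ r ∣ d ∧ d ∣ f) =
          f.divisors.filter (fun d => r ∣ d) := by
        ext d
        simp only [mem_filter, Nat.mem_divisors]
        constructor
        · rintro ⟨_, h1, _, h2⟩
          exact ⟨⟨h2, hsq.ne_zero⟩, h1⟩
        · rintro ⟨⟨h1, _⟩, h2⟩
          exact ⟨s1a_dvd hf h1, h2, h2, h1⟩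
      rw [hset, ← Finset.sum_mul]
      have hcast : (∑ d ∈ f.divisors.filter (fun d => r ∣ d),
          ((ArithmeticFunction.moebius d : ℤ) : ℝ)) =
          ((if f = r then ArithmeticFunction.moebius r else 0 : ℤ) : ℝ) := by
        rw [← this]; push_cast; rfl
      rw [hcast]
      by_cases hfe : f = r
      · subst hfe; simp
      · simp [hfe]
    · have hfe : f ≠ r := by rintro rfl; exact hef dvd_rfl
      rw [if_neg hfe]
      apply Finset.sum_eq_zero
      intro d _
      rw [if_neg]
      rintro ⟨h1, h2⟩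
      exact hef (h1.trans h2)
  rw [Finset.sum_congr rfl h2, Finset.sum_ite_eq' (SF z R) r, if_pos hr]
  rw [div_eq_mul_inv, mul_inv]
  ring

end Pool.Agent.EPK
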