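import Pool.Agent.EPK.S1b

/-!
# [EPK-S1c] Selberg's quadratic form
-/

set_option autoImplicit false

namespace Pool.Agent.EPK

open Finset

/-- Diagonalisation of the quadratic form on a set closed under divisors. -/
theorem s1c_diag (S : Finset ℕ) (hS : ∀ d ∈ S, ∀ e, e ∣ d → e ∈ S) (hpos : ∀ d ∈ S, 0 < d)
    (w : ℕ → ℝ) :
    ∑ d ∈ S, ∑ e ∈ S, w d * w e / (Nat.lcm d e : ℝ) =
      ∑ r ∈ S, (Nat.totient r : ℝ) * (∑ d ∈ S.filter (fun d => r ∣ d), w d / d) ^ 2 := by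
  have h1 : ∀ d1 ∈ S, ∀ d2 ∈ S,
      w d1 * w d2 / (Nat.lcm d1 d2 : ℝ) =
      ∑ e ∈ S, (Nat.totient e : ℝ) * ((if e ∣ d1 then w d1 / d1 else 0) *
        (if e ∣ d2 then w d2 / d2 else 0)) := by
    intro d1 hd1 d2 hd2
    have p1 : 0 < d1 := hpos d1 hd1
    have p2 : 0 < d2 := hpos d2 hd2
    have hlcm : (Nat.lcm d1 d2 : ℝ) * (Nat.gcd d1 d2 : ℝ) = d1 * d2 := by
      rw [mul_comm]; exact_mod_cast Nat.gcd_mul_lcm d1 d2
    have hgpos : 0 < Nat.gcd d1 d2 := Nat.gcd_pos_of_pos_left _ p1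
    have hlpos : 0 < Nat.lcm d1 d2 := Nat.lcm_pos p1 p2
    have hgcd : (Nat.gcd d1 d2 : ℝ) = ∑ e ∈ S, if e ∣ d1 ∧ e ∣ d2 then
        (Nat.totient e : ℝ) else 0 := by
      rw [← Finset.sum_filter]
      have hset : S.filter (fun e => e ∣ d1 ∧ e ∣ d2) = (Nat.gcd d1 d2).divisors := by
        ext e
        simp only [mem_filter, Nat.mem_divisors]
        constructor
        · rintro ⟨_, h1, h2⟩
          exact ⟨Nat.dvd_gcd h1 h2, hgpos.ne'⟩
        · rintro ⟨h1, _⟩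
          exact ⟨hS d1 hd1 e (h1.trans (Nat.gcd_dvd_left _ _)), h1.trans (Nat.gcd_dvd_left _ _),
            h1.trans (Nat.gcd_dvd_right _ _)⟩
      rw [hset]
      have := Nat.sum_totient (Nat.gcd d1 d2)
      exact_mod_cast this.symm
    have hmain : w d1 * w d2 / (Nat.lcm d1 d2 : ℝ) =
        (Nat.gcd d1 d2 : ℝ) * ((w d1 / d1) * (w d2 / d2)) := by
      have q1 : (d1 : ℝ) ≠ 0 := by positivity
      have q2 : (d2 : ℝ) ≠ 0 := by positivity
      have q3 : (Nat.lcm d1 d2 : ℝ) ≠ 0 := by positivity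
      field_simp
      linear_combination (w d1 * w d2) * (-hlcm)
    rw [hmain, hgcd, Finset.sum_mul]
    apply Finset.sum_congr rfl
    intro e _
    by_cases ha : e ∣ d1
    · by_cases hb : e ∣ d2
      · simp [ha, hb]
      · simp [hb]
    · simp [ha]
  calc ∑ d1 ∈ S, ∑ d2 ∈ S, w d1 * w d2 / (Nat.lcm d1 d2 : ℝ)
      = ∑ d1 ∈ S, ∑ d2 ∈ S, ∑ e ∈ S,
        (Nat.totient e : ℝ) * ((if e ∣ d1 then w d1 / d1 else 0) *
        (if e ∣ d2 then w d2 / d2 else 0)) := by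
        apply Finset.sum_congr rfl
        intro d1 hd1
        exact Finset.sum_congr rfl (fun d2 hd2 => h1 d1 hd1 d2 hd2)
    _ = ∑ e ∈ S, (Nat.totient e : ℝ) *
        ((∑ d ∈ S, if e ∣ d then w d / d else 0) *
          (∑ d ∈ S, if e ∣ d then w d / d else 0)) := by
        rw [Finset.sum_congr rfl (fun d1 _ => Finset.sum_comm), Finset.sum_comm]
        apply Finset.sum_congr rfl
        intro e _
        rw [Finset.sum_mul_sum, Finset.mul_sum]
        apply Finset.sum_congr rfl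
        intro d1 _
        rw [Finset.mul_sum]
    _ = _ := by
        apply Finset.sum_congr rfl
        intro e _
        rw [← Finset.sum_filter, sq]

/-- [S1c] The quadratic form.

Proof. `1 / lcm(d, e) = gcd(d, e) / (d e) = (1 / (d e)) ∑_{r ∣ d, r ∣ e} φ(r)` (`Nat.sum_totient`). So the form is
`∑_{r ∈ SF} φ(r) (∑_{r ∣ d} λ_d / d)² = ∑_r φ(r) / (φ(r) G)² = 1 / G` by `sum_lam_div` (`μ(r)² = 1`). See `quad_form` in
`Pool/Agent/MP_2f88e5_nt/Selberg.lean` (the same for odd numbers): adapt. -/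
theorem quad1 (z R : ℕ) (hR : 1 ≤ R) :
    ∑ d ∈ SF z R, ∑ e ∈ SF z R, lam z R d * lam z R e / (Nat.lcm d e : ℝ) = (GG z R)⁻¹ := by
  have hG := s1a_pos (z := z) hR
  rw [s1c_diag (SF z R) (fun d hd e he => s1a_dvd hd he) (fun d hd => (s1a_mem.1 hd).1.1)
    (lam z R)]
  have h1 : ∀ r ∈ SF z R, (Nat.totient r : ℝ) *
      (∑ d ∈ (SF z R).filter (fun d => r ∣ d), lam z R d / d) ^ 2 =
      (GG z R)⁻¹ * (GG z R)⁻¹ * (Nat.totient r : ℝ)⁻¹ := by
    intro e he
    rw [sum_lam_div z R hR e he]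
    have ht := (s1a_totient_pos he).ne'
    have hm : (((ArithmeticFunction.moebius e : ℤ) : ℝ)) ^ 2 = 1 := by
      exact_mod_cast ArithmeticFunction.moebius_sq_eq_one_of_squarefree (s1a_mem.mp he).2.1
    field_simp
    linear_combination hm
  rw [sum_congr rfl h1, ← Finset.mul_sum]
  change _ * GG z R = _
  field_simp

end Pool.Agent.EPK
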