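import Pool.Agent.EPK.S1c

/-!
# [EPK-S1d] Selberg's quadratic form
-/

set_option autoImplicit false

namespace Pool.Agent.EPK

open Finset

/-- `∑_{k ∣ d} 1/φ(k) = d/φ(d)` for squarefree `d`. -/
theorem s1d_sum_inv_totient (d : ℕ) (hd : Squarefree d) :
    ∑ k ∈ d.divisors, (Nat.totient k : ℝ)⁻¹ = d / Nat.totient d := by
  have hd0 : d ≠ 0 := hd.ne_zero
  have hdp : (0 : ℝ) < Nat.totient d := by
    exact_mod_cast Nat.totient_pos.mpr (Nat.pos_of_ne_zero hd0)
  have h : ∀ k ∈ d.divisors, (Nat.totient k : ℝ)⁻¹ = (Nat.totient (d / k) : ℝ) / Nat.totient d := by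
    intro k hk
    rw [Nat.mem_divisors] at hk
    obtain ⟨c, rfl⟩ := hk.1
    have hk0 : k ≠ 0 := left_ne_zero_of_mul hd0
    have hc0 : c ≠ 0 := right_ne_zero_of_mul hd0
    rw [Nat.mul_div_cancel_left c (Nat.pos_of_ne_zero hk0),
      Nat.totient_mul (Nat.coprime_of_squarefree_mul hd)]
    have h1 : (0 : ℝ) < Nat.totient k := by
      exact_mod_cast Nat.totient_pos.mpr (Nat.pos_of_ne_zero hk0)
    have h2 : (0 : ℝ) < Nat.totient c := by
      exact_mod_cast Nat.totient_pos.mpr (Nat.pos_of_ne_zero hc0)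
    push_cast
    field_simp
  rw [Finset.sum_congr rfl h, ← Finset.sum_div]
  congr 1
  have h2 := Nat.sum_div_divisors d (fun k => (Nat.totient k : ℝ))
  rw [h2]
  have := Nat.sum_totient d
  exact_mod_cast this

/-- The key inequality for the bound of the weights. -/
theorem s1d_tail_le {z R d : ℕ} (hd : d ∈ SF z R) :
    (d : ℝ) * ∑ e ∈ (SF z R).filter (fun e => d ∣ e), ((Nat.totient e : ℝ))⁻¹ ≤ GG z R := by
  have hdm := s1a_mem.mp hd
  have hd0 : 0 < d := hdm.1.1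
  have hsq : Squarefree d := hdm.2.1
  set Gd : Finset ℕ := (SF z R).filter (fun g => d * g ≤ R ∧ Nat.Coprime d g) with hGd
  have hφd := s1a_totient_pos hd
  -- the tail sum
  have hS : ∑ e ∈ (SF z R).filter (fun e => d ∣ e), ((Nat.totient e : ℝ))⁻¹ =
      (Nat.totient d : ℝ)⁻¹ * ∑ g ∈ Gd, (Nat.totient g : ℝ)⁻¹ := by
    rw [Finset.mul_sum]
    symm
    apply Finset.sum_bij (fun g _ => d * g)
    · intro g hg
      simp only [hGd, mem_filter] at hg
      obtain ⟨g0, g5, g6⟩ := hg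
      obtain ⟨⟨g1, g2⟩, g3, g4⟩ := s1a_mem.1 g0
      rw [mem_filter, s1a_mem]
      refine ⟨⟨⟨Nat.mul_pos hd0 g1, g5⟩, (Nat.squarefree_mul g6).mpr ⟨hsq, g3⟩, ?_⟩,
        Dvd.intro _ rfl⟩
      intro l hl
      rw [Nat.primeFactors_mul (by omega) (by omega), mem_union] at hl
      rcases hl with hl | hl
      · exact hdm.2.2 l hl
      · exact g4 l hl
    · intro a _ b _ hab
      exact Nat.eq_of_mul_eq_mul_left hd0 hab
    · intro e he
      simp only [mem_filter] at he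
      obtain ⟨he1, c, rfl⟩ := he
      have hm := s1a_mem.mp he1
      refine ⟨c, ?_, rfl⟩
      simp only [hGd, mem_filter]
      exact ⟨s1a_dvd he1 (Dvd.intro_left _ rfl), hm.1.2, Nat.coprime_of_squarefree_mul hm.2.1⟩
    · intro g hg
      simp only [hGd, mem_filter] at hg
      rw [Nat.totient_mul hg.2.2, Nat.cast_mul, mul_inv]
  have hprod : (∑ k ∈ d.divisors, (Nat.totient k : ℝ)⁻¹) * (∑ g ∈ Gd, (Nat.totient g : ℝ)⁻¹) ≤
      GG z R := by
    rw [Finset.sum_mul_sum, ← Finset.sum_product']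
    have hinj : ∀ x ∈ d.divisors ×ˢ Gd, ∀ y ∈ d.divisors ×ˢ Gd,
        x.1 * x.2 = y.1 * y.2 → x = y := by
      have hg : ∀ x ∈ d.divisors ×ˢ Gd, Nat.gcd d (x.1 * x.2) = x.1 := by
        intro x hx
        simp only [mem_product, Nat.mem_divisors, hGd, mem_filter] at hx
        rw [Nat.Coprime.gcd_mul_right_cancel_right _ hx.2.2.2.symm]
        exact Nat.gcd_eq_right hx.1.1
      intro x hx y hy hxy
      have h1 : x.1 = y.1 := by rw [← hg x hx, ← hg y hy, hxy]
      have hx1 : 0 < x.1 := by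
        simp only [mem_product, Nat.mem_divisors] at hx
        exact Nat.pos_of_dvd_of_pos hx.1.1 hd0
      rw [h1] at hxy
      exact Prod.ext h1 (Nat.eq_of_mul_eq_mul_left (h1 ▸ hx1) hxy)
    calc ∑ x ∈ d.divisors ×ˢ Gd, (Nat.totient x.1 : ℝ)⁻¹ * (Nat.totient x.2 : ℝ)⁻¹
        = ∑ x ∈ d.divisors ×ˢ Gd, (Nat.totient (x.1 * x.2) : ℝ)⁻¹ := by
          apply Finset.sum_congr rfl
          intro x hx
          simp only [mem_product, Nat.mem_divisors, hGd, mem_filter] at hx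
          rw [Nat.totient_mul (hx.2.2.2.coprime_dvd_left hx.1.1), Nat.cast_mul, mul_inv]
      _ = ∑ n ∈ (d.divisors ×ˢ Gd).image (fun x => x.1 * x.2), (Nat.totient n : ℝ)⁻¹ := by
          rw [Finset.sum_image hinj]
      _ ≤ GG z R := by
          apply Finset.sum_le_sum_of_subset_of_nonneg
          · intro n hn
            simp only [mem_image, mem_product, Nat.mem_divisors, hGd, mem_filter] at hn
            obtain ⟨x, ⟨⟨hx1, _⟩, hx2, hx3, hx4⟩, rfl⟩ := hn
            have hxm := s1a_mem.mp hx2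
            have hx1m := s1a_mem.mp (s1a_dvd hd hx1)
            rw [s1a_mem]
            refine ⟨⟨Nat.mul_pos hx1m.1.1 hxm.1.1, ?_⟩, ?_, ?_⟩
            · exact (Nat.mul_le_mul_right _ (Nat.le_of_dvd hd0 hx1)).trans hx3
            · exact (Nat.squarefree_mul (hx4.coprime_dvd_left hx1)).mpr ⟨hx1m.2.1, hxm.2.1⟩
            · intro l hl
              rw [Nat.primeFactors_mul (by omega) (by omega), mem_union] at hl
              rcases hl with hl | hl
              · exact hx1m.2.2 l hl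
              · exact hxm.2.2 l hl
          · intro n _ _
            positivity
  rw [s1d_sum_inv_totient d hsq] at hprod
  rw [hS]
  calc (d : ℝ) * ((Nat.totient d : ℝ)⁻¹ * ∑ g ∈ Gd, (Nat.totient g : ℝ)⁻¹)
      = (d : ℝ) / Nat.totient d * ∑ g ∈ Gd, (Nat.totient g : ℝ)⁻¹ := by ring
    _ ≤ GG z R := hprod

/-- [S1d] The bound `|λ_d| ≤ τ(d)`.

Proof. `∑_{e ∈ SF, d ∣ e} 1 / φ(e) ≤ (1 / φ(d)) G` (`e = d e'`, `e' ∈ SF`, `φ(e) = φ(d) φ(e')` as `gcd(d, e') = 1`), so
`|λ_d| ≤ d / φ(d) = ∑_{k ∣ d} 1 / φ(k) ≤ τ(d)` (`sum_inv_totient` in `Pool/Agent/MP_2f88e5_nt/Selberg.lean`; or: `d / φ(d) =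
∏_{l ∣ d} l / (l - 1) ≤ ∏_{l ∣ d} 2 = τ(d)`). -/
theorem abs_lam (z R d : ℕ) (hR : 1 ≤ R) (hd : 1 ≤ d) : |lam z R d| ≤ (d.divisors.card : ℝ) := by
  have h1 : (1 : ℝ) ≤ (d.divisors.card : ℝ) := by
    have : 0 < d.divisors.card := Finset.card_pos.2 ⟨1, Nat.one_mem_divisors.2 (by omega)⟩
    exact_mod_cast this
  refine le_trans ?_ h1
  unfold lam
  split_ifs with hmem
  · have hG := s1a_pos (z := z) hR
    have h2 := s1d_tail_le hmem
    have hmu : |((ArithmeticFunction.moebius d : ℤ) : ℝ)| ≤ 1 := by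
      have h3 : |ArithmeticFunction.moebius d| ≤ 1 := ArithmeticFunction.abs_moebius_le_one
      exact_mod_cast h3
    have hnn : 0 ≤ (d / GG z R) *
        ∑ e ∈ (SF z R).filter (fun e => d ∣ e), ((Nat.totient e : ℝ))⁻¹ := by positivity
    rw [mul_assoc, abs_mul, abs_of_nonneg hnn]
    calc |((ArithmeticFunction.moebius d : ℤ) : ℝ)| * ((d / GG z R) *
        ∑ e ∈ (SF z R).filter (fun e => d ∣ e), ((Nat.totient e : ℝ))⁻¹)
        ≤ 1 * ((d / GG z R) *
          ∑ e ∈ (SF z R).filter (fun e => d ∣ e), ((Nat.totient e : ℝ))⁻¹) := by gcongr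
      _ = ((d : ℝ) * ∑ e ∈ (SF z R).filter (fun e => d ∣ e), ((Nat.totient e : ℝ))⁻¹) / GG z R := by
          ring
      _ ≤ 1 := by
          rw [div_le_one hG]
          exact h2
  · simp

end Pool.Agent.EPK
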