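import Pool.Agent.EPK.S1

/-!
# [EPK-S2a] Selberg's quadratic form: multiples of a prime
-/

set_option autoImplicit false

namespace Pool.Agent.EPK

open Finset

/-- [S2a] Multiples of a prime `l > z`: `lcm(lcm(d, e), l) = l lcm(d, e)` for `d, e ∈ SF z R`; `quad1`. -/
theorem quad3 (z R l : ℕ) (hR : 1 ≤ R) (hl : l.Prime) (hlz : z < l) :
    ∑ d ∈ SF z R, ∑ e ∈ SF z R, lam z R d * lam z R e / (Nat.lcm (Nat.lcm d e) l : ℝ) =
      (1 / (l : ℝ)) * (GG z R)⁻¹ := by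
  rw [← quad1 z R hR, mul_sum]
  refine sum_congr rfl fun d hd => ?_
  rw [mul_sum]
  refine sum_congr rfl fun e he => ?_
  have hl0 : (l : ℝ) ≠ 0 := by exact_mod_cast hl.ne_zero
  have hcop : ∀ d ∈ SF z R, Nat.Coprime l d := by
    intro d hd
    rw [Nat.Prime.coprime_iff_not_dvd hl]
    intro h
    have h1 := s1a_mem.1 hd
    have h2 := h1.2.2 l (Nat.mem_primeFactors.2 ⟨hl, h, by omega⟩)
    omega
  have h1 : Nat.Coprime (Nat.lcm d e) l := by
    have h2 : Nat.Coprime l (d * e) := Nat.Coprime.mul_right (hcop d hd) (hcop e he)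
    exact (Nat.Coprime.coprime_dvd_right (Nat.lcm_dvd_mul d e) h2).symm
  rw [h1.lcm_eq_mul]
  push_cast
  rw [div_mul_eq_div_div, div_eq_mul_one_div _ (l : ℝ)]
  ring

end Pool.Agent.EPK
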