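import Pool.Agent.EPK.S2a

/-!
# [EPK-S2b] Selberg's quadratic form: multiples of a prime
-/

set_option autoImplicit false

namespace Pool.Agent.EPK

open Finset

/-- numbers in `SF` not divisible by `l` -/
def s2bS (z R l : ℕ) : Finset ℕ := (SF z R).filter (fun d => ¬ l ∣ d)

theorem s2b_lam_out (z R d : ℕ) (hd : d ∉ SF z R) : lam z R d = 0 := by
  unfold lam
  rw [if_neg hd]

theorem s2b_mul_mem (z R l d : ℕ) (hl : l.Prime) (hlz : l ≤ z) (hd : d ∈ s2bS z R l)
    (h : l * d ≤ R) : l * d ∈ SF z R := by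
  rw [s2bS, mem_filter] at hd
  obtain ⟨h1, h2⟩ := hd
  obtain ⟨⟨h3, h4⟩, h5, h6⟩ := s1a_mem.1 h1
  rw [s1a_mem]
  refine ⟨⟨Nat.mul_pos hl.pos h3, h⟩, ?_, ?_⟩
  · exact (Nat.squarefree_mul ((Nat.Prime.coprime_iff_not_dvd hl).2 h2)).2 ⟨hl.squarefree, h5⟩
  · intro q hq
    rw [Nat.primeFactors_mul hl.ne_zero (by omega), mem_union] at hq
    rcases hq with hq | hq
    · rw [Nat.Prime.primeFactors hl, mem_singleton] at hq
      omega
    · exact h6 q hq

/-- the sum over the multiples of `l` -/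
theorem s2b_multiples (z R l : ℕ) (hl : l.Prime) (f : ℕ → ℝ)
    (hf : ∀ d, d ∉ SF z R → f d = 0) (P : ℕ → Prop) [DecidablePred P]
    (hP : ∀ d ∈ s2bS z R l, (P (l * d) ↔ P d)) :
    ∑ d ∈ (SF z R).filter (fun d => P d ∧ l ∣ d), f d =
      ∑ d ∈ (s2bS z R l).filter P, f (l * d) := by
  have h1 : ∑ d ∈ (s2bS z R l).filter P, f (l * d) =
      ∑ d ∈ (((s2bS z R l).filter P).filter (fun d => l * d ∈ SF z R)), f (l * d) := by
    rw [sum_filter (fun d => l * d ∈ SF z R)]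
    refine sum_congr rfl fun d _ => ?_
    split_ifs with h
    · rfl
    · exact hf _ h
  rw [h1]
  symm
  refine sum_bij (fun d _ => l * d) ?_ ?_ ?_ ?_
  · intro d hd
    rw [mem_filter, mem_filter] at hd
    rw [mem_filter]
    exact ⟨hd.2, (hP d hd.1.1).2 hd.1.2, Dvd.intro _ rfl⟩
  · intro a _ b _ hab
    exact Nat.eq_of_mul_eq_mul_left hl.pos hab
  · intro e he
    rw [mem_filter] at he
    obtain ⟨he1, he2, c, rfl⟩ := he
    have hsq := (s1a_mem.1 he1).2.1
    have hcS : c ∈ s2bS z R l := by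
      rw [s2bS, mem_filter]
      refine ⟨s1a_dvd he1 (Dvd.intro_left _ rfl), ?_⟩
      intro hlc
      have := hsq l (mul_dvd_mul_left l hlc)
      exact hl.one_lt.ne' (Nat.isUnit_iff.1 this)
    refine ⟨c, ?_, rfl⟩
    rw [mem_filter, mem_filter]
    exact ⟨⟨hcS, (hP c hcS).1 he2⟩, he1⟩
  · intro d _
    rfl

/-- splitting the sum over `SF` -/
theorem s2b_split (z R l : ℕ) (hl : l.Prime) (f : ℕ → ℝ)
    (hf : ∀ d, d ∉ SF z R → f d = 0) :
    ∑ d ∈ SF z R, f d = ∑ d ∈ s2bS z R l, (f d + f (l * d)) := by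
  have h1 := s2b_multiples z R l hl f hf (fun _ => True) (fun _ _ => Iff.rfl)
  simp only [true_and, filter_true] at h1
  rw [sum_add_distrib, ← h1, ← sum_filter_add_sum_filter_not (SF z R) (fun d => l ∣ d) f,
    add_comm]
  rfl

theorem s2b_lcm (z R l d e : ℕ) (hl : l.Prime) (hd : d ∈ s2bS z R l) (he : e ∈ s2bS z R l) :
    Nat.lcm (Nat.lcm d e) l = l * Nat.lcm d e ∧ Nat.lcm (Nat.lcm d (l * e)) l = l * Nat.lcm d e ∧
    Nat.lcm (Nat.lcm (l * d) e) l = l * Nat.lcm d e ∧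
    Nat.lcm (Nat.lcm (l * d) (l * e)) l = l * Nat.lcm d e := by
  rw [s2bS, mem_filter] at hd he
  have hcd : Nat.Coprime l d := (Nat.Prime.coprime_iff_not_dvd hl).2 hd.2
  have hce : Nat.Coprime l e := (Nat.Prime.coprime_iff_not_dvd hl).2 he.2
  have hc : Nat.Coprime l (Nat.lcm d e) :=
    Nat.Coprime.coprime_dvd_right (Nat.lcm_dvd_mul d e) (Nat.Coprime.mul_right hcd hce)
  have h0 : Nat.lcm (Nat.lcm d e) l = l * Nat.lcm d e := by
    rw [hc.symm.lcm_eq_mul, mul_comm]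
  have hd' : l * d = Nat.lcm l d := (hcd.lcm_eq_mul).symm
  have he' : l * e = Nat.lcm l e := (hce.lcm_eq_mul).symm
  have hmul : l * Nat.lcm d e = Nat.lcm l (Nat.lcm d e) := (hc.lcm_eq_mul).symm
  refine ⟨h0, ?_, ?_, ?_⟩
  · rw [he', hmul, ← Nat.lcm_assoc d l e, Nat.lcm_comm d l, Nat.lcm_assoc l d e,
      Nat.lcm_comm _ l, ← Nat.lcm_assoc, Nat.lcm_self]
  · rw [hd', hmul, Nat.lcm_assoc l d e, Nat.lcm_comm _ l, ← Nat.lcm_assoc, Nat.lcm_self]
  · rw [Nat.lcm_mul_left, Nat.lcm_comm]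
    exact Nat.lcm_eq_right (Dvd.intro _ rfl)

/-- [S2b] Multiples of a prime `l ≤ z`.

Proof. Let `S = SF z R`, `S' = {d ∈ S : l ∤ d}`, `G = GG z R`. Every `d ∈ S` is `d'` or `l d'` with `d' ∈ S'`, and
`lcm(lcm(d, e), l) = l lcm(d', e')`. So the form is `(1 / l) ∑_{d, e ∈ S'} λ'_d λ'_e / lcm(d, e)`, `λ'_d = λ_d + λ_{l d}` (`λ = 0` outside of
`S`), and, as in `quad1`, it is `(1 / l) ∑_{r ∈ S'} φ(r) y_r²`, `y_r = ∑_{d ∈ S', r ∣ d} λ'_d / d`. Now
`∑_{d ∈ S', r ∣ d} λ_d / d = Y_r - Y_{l r}` and `∑_{d ∈ S', r ∣ d} λ_{l d} / d = l Y_{l r}`, where `Y_r = ∑_{d ∈ S, r ∣ d} λ_d / d`, so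
`y_r = Y_r + (l - 1) Y_{l r}`. By `sum_lam_div`, `Y_r = μ(r) / (φ(r) G)`, and `Y_{l r} = - μ(r) / ((l - 1) φ(r) G)` if `l r ∈ S`, `0`
otherwise. Hence `y_r = 0` if `l r ∈ S` and `y_r = μ(r) / (φ(r) G)` otherwise; the form is
`(1 / l) G^(-2) ∑_{r ∈ S', l r ∉ S} 1 / φ(r)`. For `r ∈ S'`, `l r ∉ S` means `l r > R`, i.e. `r > R / l`; so the last sum is at most
`GG z R - GG z (R / l)`. (Checked numerically.) -/
theorem quad2 (z R l : ℕ) (hR : 1 ≤ R) (hl : l.Prime) (hlz : l ≤ z) :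
    ∑ d ∈ SF z R, ∑ e ∈ SF z R, lam z R d * lam z R e / (Nat.lcm (Nat.lcm d e) l : ℝ) ≤
      (1 / (l : ℝ)) * (GG z R - GG z (R / l)) / GG z R ^ 2 := by
  have hG := s1a_pos (z := z) hR
  have hl0 : (l : ℝ) ≠ 0 := by exact_mod_cast hl.ne_zero
  have hlpos : (0 : ℝ) < l := by exact_mod_cast hl.pos
  have hl1 : (1 : ℝ) < l := by exact_mod_cast hl.one_lt
  set S' := s2bS z R l with hS'
  set w : ℕ → ℝ := fun d => lam z R d + lam z R (l * d) with hw
  -- step 1
  have step1 : ∑ d ∈ SF z R, ∑ e ∈ SF z R,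
      lam z R d * lam z R e / (Nat.lcm (Nat.lcm d e) l : ℝ) =
      (1 / (l : ℝ)) * ∑ d ∈ S', ∑ e ∈ S', w d * w e / (Nat.lcm d e : ℝ) := by
    rw [s2b_split z R l hl (fun d => ∑ e ∈ SF z R,
      lam z R d * lam z R e / (Nat.lcm (Nat.lcm d e) l : ℝ))
      (fun d hd => by
        refine sum_eq_zero fun e _ => ?_
        rw [s2b_lam_out z R d hd, zero_mul, zero_div])]
    rw [mul_sum]
    refine sum_congr rfl fun d hd => ?_
    rw [s2b_split z R l hl (fun e => lam z R d * lam z R e / (Nat.lcm (Nat.lcm d e) l : ℝ))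
      (fun e he => by rw [s2b_lam_out z R e he, mul_zero, zero_div]),
      s2b_split z R l hl
      (fun e => lam z R (l * d) * lam z R e / (Nat.lcm (Nat.lcm (l * d) e) l : ℝ))
      (fun e he => by rw [s2b_lam_out z R e he, mul_zero, zero_div]), ← sum_add_distrib, mul_sum]
    refine sum_congr rfl fun e he => ?_
    obtain ⟨h1, h2, h3, h4⟩ := s2b_lcm z R l d e hl hd he
    rw [h1, h2, h3, h4, hw]
    have h5 : (Nat.lcm d e : ℝ) ≠ 0 := by
      rw [hS', s2bS, mem_filter] at hd he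
      have p1 := (s1a_mem.1 hd.1).1.1
      have p2 := (s1a_mem.1 he.1).1.1
      have := Nat.lcm_pos p1 p2
      positivity
    push_cast
    field_simp
  -- step 2
  have hclosed : ∀ d ∈ S', ∀ e, e ∣ d → e ∈ S' := by
    intro d hd e he
    rw [hS', s2bS, mem_filter] at hd ⊢
    exact ⟨s1a_dvd hd.1 he, fun h => hd.2 (h.trans he)⟩
  have step2 := s1c_diag S' hclosed
    (fun d hd => by
      rw [hS', s2bS, mem_filter] at hd
      exact (s1a_mem.1 hd.1).1.1) w
  -- step 3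
  have step3 : ∀ r ∈ S', (Nat.totient r : ℝ) * (∑ d ∈ S'.filter (fun d => r ∣ d), w d / d) ^ 2 =
      if l * r ∈ SF z R then 0 else ((GG z R) ^ 2)⁻¹ * (Nat.totient r : ℝ)⁻¹ := by
    intro r hr
    have hr' := hr
    rw [hS', s2bS, mem_filter] at hr'
    obtain ⟨hrS, hlr⟩ := hr'
    have hcop : Nat.Coprime l r := (Nat.Prime.coprime_iff_not_dvd hl).2 hlr
    have hφ := s1a_totient_pos hrS
    set Yr : ℝ := ∑ d ∈ (SF z R).filter (fun d => r ∣ d), lam z R d / d with hYr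
    set Ylr : ℝ := ∑ d ∈ (SF z R).filter (fun d => l * r ∣ d), lam z R d / d with hYlr
    have hdvd : ∀ d, (r ∣ d ∧ l ∣ d) ↔ l * r ∣ d := by
      intro d
      constructor
      · rintro ⟨h1, h2⟩
        exact hcop.mul_dvd_of_dvd_of_dvd h2 h1
      · intro h
        exact ⟨(Dvd.intro_left _ rfl).trans h, (Dvd.intro _ rfl).trans h⟩
    have e1 : ∑ d ∈ S'.filter (fun d => r ∣ d), lam z R d / d = Yr - Ylr := by
      have h1 : Yr = ∑ d ∈ (SF z R).filter (fun d => r ∣ d ∧ l ∣ d), lam z R d / d +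
          ∑ d ∈ (SF z R).filter (fun d => r ∣ d ∧ ¬ l ∣ d), lam z R d / d := by
        rw [hYr, ← sum_filter_add_sum_filter_not ((SF z R).filter (fun d => r ∣ d)) (fun d => l ∣ d),
          filter_filter, filter_filter]
      have h2 : ∑ d ∈ (SF z R).filter (fun d => r ∣ d ∧ l ∣ d), lam z R d / d = Ylr := by
        rw [hYlr]
        refine sum_congr ?_ fun _ _ => rfl
        ext d
        simp only [mem_filter, hdvd]
      have h3 : S'.filter (fun d => r ∣ d) = (SF z R).filter (fun d => r ∣ d ∧ ¬ l ∣ d) := by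
        ext d
        simp only [hS', s2bS, mem_filter]
        tauto
      rw [h3]
      linarith
    have e2 : ∑ d ∈ S'.filter (fun d => r ∣ d), lam z R (l * d) / d = l * Ylr := by
      have h1 := s2b_multiples z R l hl (fun d => lam z R d / d)
        (fun d hd => by rw [s2b_lam_out z R d hd, zero_div]) (fun d => r ∣ d)
        (fun d _ => ⟨fun h => hcop.symm.dvd_of_dvd_mul_left h, fun h => h.mul_left l⟩)
      have h2 : ∑ d ∈ (SF z R).filter (fun d => r ∣ d ∧ l ∣ d), lam z R d / d = Ylr := by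
        rw [hYlr]
        refine sum_congr ?_ fun _ _ => rfl
        ext d
        simp only [mem_filter, hdvd]
      rw [h2] at h1
      rw [h1, mul_sum]
      refine sum_congr rfl fun d hd => ?_
      have hd0 : (d : ℝ) ≠ 0 := by
        rw [mem_filter, s2bS, mem_filter] at hd
        have := (s1a_mem.1 hd.1.1).1.1
        positivity
      push_cast
      field_simp
    have e3 : ∑ d ∈ S'.filter (fun d => r ∣ d), w d / d = Yr + (l - 1) * Ylr := by
      have h1 : ∑ d ∈ S'.filter (fun d => r ∣ d), w d / d =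
          ∑ d ∈ S'.filter (fun d => r ∣ d), lam z R d / d +
            ∑ d ∈ S'.filter (fun d => r ∣ d), lam z R (l * d) / d := by
        rw [← sum_add_distrib]
        refine sum_congr rfl fun d _ => ?_
        rw [hw]
        ring
      rw [h1, e1, e2]
      ring
    have hY : Yr = ((ArithmeticFunction.moebius r : ℤ) : ℝ) / (Nat.totient r * GG z R) :=
      sum_lam_div z R hR r hrS
    have hm : (((ArithmeticFunction.moebius r : ℤ) : ℝ)) ^ 2 = 1 := by
      exact_mod_cast ArithmeticFunction.moebius_sq_eq_one_of_squarefree (s1a_mem.mp hrS).2.1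
    rw [e3]
    split_ifs with hmem
    · have hY2 : Ylr = ((ArithmeticFunction.moebius (l * r) : ℤ) : ℝ) /
          (Nat.totient (l * r) * GG z R) := sum_lam_div z R hR (l * r) hmem
      rw [ArithmeticFunction.isMultiplicative_moebius.map_mul_of_coprime hcop,
        ArithmeticFunction.moebius_apply_prime hl, Nat.totient_mul hcop,
        Nat.totient_prime hl] at hY2
      have h1 : Yr + (l - 1) * Ylr = 0 := by
        rw [hY, hY2]
        push_cast [Nat.cast_sub hl.one_le]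
        have h2 : (l : ℝ) - 1 ≠ 0 := by linarith
        field_simp
        ring
      rw [h1]
      ring
    · have hY2 : Ylr = 0 := by
        rw [hYlr]
        refine sum_eq_zero fun d hd => ?_
        rw [mem_filter] at hd
        exact absurd (s1a_dvd hd.1 hd.2) hmem
      rw [hY2, mul_zero, add_zero, hY]
      field_simp
      linear_combination hm
  -- step 4
  rw [step1, step2, sum_congr rfl step3]
  have step4 : ∑ r ∈ S', (if l * r ∈ SF z R then (0 : ℝ) else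
      ((GG z R) ^ 2)⁻¹ * (Nat.totient r : ℝ)⁻¹) ≤
      ((GG z R) ^ 2)⁻¹ * (GG z R - GG z (R / l)) := by
    have h1 : ∑ r ∈ S', (if l * r ∈ SF z R then (0 : ℝ) else
      ((GG z R) ^ 2)⁻¹ * (Nat.totient r : ℝ)⁻¹) =
        ((GG z R) ^ 2)⁻¹ * ∑ r ∈ S'.filter (fun r => l * r ∉ SF z R), (Nat.totient r : ℝ)⁻¹ := by
      rw [mul_sum, sum_filter]
      refine sum_congr rfl fun r _ => ?_
      by_cases h : l * r ∈ SF z R
      · rw [if_pos h, if_neg (not_not.2 h)]
      · rw [if_neg h, if_pos h]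
    rw [h1]
    have hsub : SF z (R / l) ⊆ SF z R := by
      intro d hd
      rw [s1a_mem] at hd ⊢
      exact ⟨⟨hd.1.1, hd.1.2.trans (Nat.div_le_self _ _)⟩, hd.2⟩
    have h2 : GG z R - GG z (R / l) = ∑ r ∈ SF z R \ SF z (R / l), (Nat.totient r : ℝ)⁻¹ := by
      unfold GG
      rw [← sum_sdiff hsub]
      ring
    rw [h2]
    gcongr
    intro r hr
    rw [mem_filter] at hr
    obtain ⟨hr1, hr2⟩ := hr
    have hr3 := hr1
    rw [hS', s2bS, mem_filter] at hr3
    rw [mem_sdiff]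
    refine ⟨hr3.1, fun h => hr2 ?_⟩
    have h4 := (s1a_mem.1 h).1.2
    refine s2b_mul_mem z R l r hl hlz hr1 ?_
    rw [Nat.le_div_iff_mul_le hl.pos] at h4
    rw [mul_comm]
    exact h4
  calc (1 / (l : ℝ)) * ∑ r ∈ S', (if l * r ∈ SF z R then (0 : ℝ) else
      ((GG z R) ^ 2)⁻¹ * (Nat.totient r : ℝ)⁻¹)
      ≤ (1 / (l : ℝ)) * (((GG z R) ^ 2)⁻¹ * (GG z R - GG z (R / l))) := by gcongr
    _ = _ := by ring

end Pool.Agent.EPK
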