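import Pool.Agent.EPK.S2
import Pool.Agent.EPK.D0

/-!
# [EPK-S3a] the weighted sieve: expansion
-/

set_option autoImplicit false

namespace Pool.Agent.EPK

open Finset

theorem s3a_wl (z l : ℕ) (hz : 2 ≤ z) (hl : l ∈ P2 z) : 0 ≤ wl z l ∧ wl z l ≤ 1 := by
  rw [P2, mem_filter, mem_Ioo] at hl
  obtain ⟨⟨h1, h2⟩, h3⟩ := hl
  have hz0 : (1 : ℝ) < z := by exact_mod_cast hz
  have hlz : 0 < Real.log z := Real.log_pos hz0
  have hl0 : (1 : ℝ) ≤ l := by exact_mod_cast h3.one_le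
  have h4 : Real.log l ≤ 5 * Real.log z := by
    have h5 : (l : ℝ) ≤ (z : ℝ) ^ 5 := by exact_mod_cast h2.le
    calc Real.log l ≤ Real.log ((z : ℝ) ^ 5) := Real.log_le_log (by linarith) h5
      _ = 5 * Real.log z := by rw [Real.log_pow]; norm_num
  have h6 : 0 ≤ Real.log l := Real.log_nonneg hl0
  unfold wl
  have h7 : Real.log l / (5 * Real.log z) ≤ 1 := by
    rw [div_le_one (by positivity)]
    exact h4
  have h8 : 0 ≤ Real.log l / (5 * Real.log z) := by positivity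
  constructor <;> linarith

theorem s3a_Rl (z l : ℕ) (hl : l ∈ P2 z) : 1 ≤ Rl z l := by
  rw [P2, mem_filter, mem_Ioo] at hl
  obtain ⟨⟨h1, h2⟩, h3⟩ := hl
  unfold Rl
  rw [Nat.succ_le_iff, Nat.sqrt_pos]
  exact Nat.div_pos h2.le h3.pos

theorem s3a_ff (z R m : ℕ) (hR : 1 ≤ R) (hm : 1 ≤ m) (h : ∀ l ∈ m.primeFactors, z < l) :
    ff z R m = 1 := by
  obtain ⟨h1, -, -, h4⟩ := SF_basic z R hR
  have hf : (SF z R).filter (fun d => d ∣ m) = {1} := by
    ext d
    rw [mem_filter, mem_singleton]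
    constructor
    · rintro ⟨hd, hdm⟩
      by_contra hne
      have hd' := s1a_mem.1 hd
      have h5 := Nat.minFac_prime hne
      have h6 : d.minFac ∈ d.primeFactors :=
        Nat.mem_primeFactors.2 ⟨h5, Nat.minFac_dvd d, by omega⟩
      have h7 := hd'.2.2 _ h6
      have h8 : d.minFac ∈ m.primeFactors :=
        Nat.mem_primeFactors.2 ⟨h5, (Nat.minFac_dvd d).trans hdm, by omega⟩
      have h9 := h _ h8
      omega
    · rintro rfl
      exact ⟨h1, one_dvd _⟩
  unfold ff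
  rw [hf, sum_singleton, h4]

/-- [S3a] The weight is at most the indicator of `Good`.

Proof. If `m` has no prime factor `≤ z`, then `d ∣ m`, `d ∈ SF z R` only for `d = 1`, so `ff z R m = lam z R 1 = 1` (`R ≥ 1`: `z ^ 2 ≥ 1`,
`Rl z l ≥ 1` for `l < z ^ 5`), and `WW = 1 - (20/37) ∑ wl`: it is `≤ 1` (`wl ≥ 0` for `l < z ^ 5`) and `≤ 0` if the sum is `≥ 37/20`.
If `m` has a prime factor `≤ z`, then the first factor is `≤ 0`, so `WW ≤ 0`. -/
theorem WW_le (z m : ℕ) (hz : 2 ≤ z) (hm : 1 ≤ m) [Decidable (Good z m)] :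
    WW z m ≤ if Good z m then 1 else 0 := by
  have hsum0 : 0 ≤ ∑ l ∈ (P2 z).filter (fun l => l ∣ m), wl z l * ff z (Rl z l) m ^ 2 := by
    refine sum_nonneg fun l hl => ?_
    rw [mem_filter] at hl
    exact mul_nonneg (s3a_wl z l hz hl.1).1 (sq_nonneg _)
  by_cases hB : ∀ l ∈ m.primeFactors, z < l
  · -- no small prime factors
    have h1 : (P1 z).filter (fun l => l ∣ m) = ∅ := by
      rw [filter_eq_empty_iff]
      intro l hl hlm
      rw [P1, mem_filter, mem_Icc] at hl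
      have h2 := hB l (Nat.mem_primeFactors.2 ⟨hl.2, hlm, by omega⟩)
      omega
    have h2 : WW z m = 1 - 20 / 37 * ∑ l ∈ (P2 z).filter (fun l => l ∣ m), wl z l := by
      unfold WW
      rw [h1, card_empty, s3a_ff z (z ^ 2) m (Nat.one_le_pow _ _ (by omega)) hm hB]
      have h3 : ∑ l ∈ (P2 z).filter (fun l => l ∣ m), wl z l * ff z (Rl z l) m ^ 2 =
          ∑ l ∈ (P2 z).filter (fun l => l ∣ m), wl z l := by
        refine sum_congr rfl fun l hl => ?_
        rw [mem_filter] at hl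
        rw [s3a_ff z (Rl z l) m (s3a_Rl z l hl.1) hm hB]
        ring
      rw [h3]
      push_cast
      ring
    have h4 : 0 ≤ ∑ l ∈ (P2 z).filter (fun l => l ∣ m), wl z l := by
      refine sum_nonneg fun l hl => ?_
      rw [mem_filter] at hl
      exact (s3a_wl z l hz hl.1).1
    rw [h2]
    by_cases hG : Good z m
    · rw [if_pos hG]
      linarith
    · rw [if_neg hG]
      have h5 : 37 / 20 ≤ ∑ l ∈ (P2 z).filter (fun l => l ∣ m), wl z l := by
        by_contra hcon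
        exact hG ⟨hB, not_le.1 hcon⟩
      linarith
  · have hG : ¬ Good z m := fun h => hB h.1
    rw [if_neg hG]
    push Not at hB
    obtain ⟨l, hl, hlz⟩ := hB
    have h1 : 1 ≤ ((P1 z).filter (fun l => l ∣ m)).card := by
      rw [Nat.succ_le_iff, card_pos]
      have h2 := Nat.mem_primeFactors.1 hl
      exact ⟨l, by rw [mem_filter, P1, mem_filter, mem_Icc]; exact ⟨⟨⟨h2.1.one_le, hlz⟩, h2.1⟩, h2.2.1⟩⟩
    have h2 : (1 : ℝ) ≤ (((P1 z).filter (fun l => l ∣ m)).card : ℝ) := by exact_mod_cast h1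
    unfold WW
    have h3 : (1 - (((P1 z).filter (fun l => l ∣ m)).card : ℝ)) * ff z (z ^ 2) m ^ 2 ≤ 0 :=
      mul_nonpos_of_nonpos_of_nonneg (by linarith) (sq_nonneg _)
    linarith

end Pool.Agent.EPK
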