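import Pool.Agent.EPK.S3a

/-!
# [EPK-S3b] the weighted sieve: expansion
-/

set_option autoImplicit false

namespace Pool.Agent.EPK

open Finset

/-- [S3b] The sum of the squares over the multiples of `q`, in terms of the remainders.

Proof. `ff z R m ^ 2 = ∑_{d, e ∈ SF, d ∣ m, e ∣ m} λ_d λ_e`, and `d ∣ m`, `e ∣ m`, `q ∣ m` if and only if `lcm(lcm(d, e), q) ∣ m`
(`Nat.lcm_dvd_iff`). Exchange the sums. `|λ_d| ≤ τ(d) ≤ T` for `d ∈ SF z R`, `d ≤ R` (`abs_lam`). -/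
theorem sum_ff_sq {ι : Type*} (I : Finset ι) (a : ι → ℝ) (m : ι → ℕ) (z R q : ℕ) (hR : 1 ≤ R)
    (X T : ℝ) (hT : TauLE R T) :
    |∑ i ∈ I.filter (fun i => q ∣ m i), a i * ff z R (m i) ^ 2 -
      X * ∑ d ∈ SF z R, ∑ e ∈ SF z R, lam z R d * lam z R e / (Nat.lcm (Nat.lcm d e) q : ℝ)| ≤
      T ^ 2 * ∑ d ∈ SF z R, ∑ e ∈ SF z R,
        |∑ i ∈ I.filter (fun i => Nat.lcm (Nat.lcm d e) q ∣ m i), a i -
          X / (Nat.lcm (Nat.lcm d e) q : ℝ)| := by
  have hlam : ∀ d ∈ SF z R, |lam z R d| ≤ T := by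
    intro d hd
    have h1 := s1a_mem.1 hd
    exact le_trans (abs_lam z R d hR h1.1.1) (hT d h1.1.1 h1.1.2)
  have hT0 : 0 ≤ T := by
    have h1 := hT 1 le_rfl hR
    exact le_trans (by positivity) h1
  have hexp : ∑ i ∈ I.filter (fun i => q ∣ m i), a i * ff z R (m i) ^ 2 =
      ∑ d ∈ SF z R, ∑ e ∈ SF z R, lam z R d * lam z R e *
        ∑ i ∈ I.filter (fun i => Nat.lcm (Nat.lcm d e) q ∣ m i), a i := by
    have h1 : ∀ i ∈ I.filter (fun i => q ∣ m i), a i * ff z R (m i) ^ 2 =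
        ∑ d ∈ SF z R, ∑ e ∈ SF z R, (if d ∣ m i ∧ e ∣ m i then lam z R d * lam z R e * a i else 0) := by
      intro i _
      unfold ff
      rw [sum_filter, sq, sum_mul_sum, mul_sum]
      refine sum_congr rfl fun d _ => ?_
      rw [mul_sum]
      refine sum_congr rfl fun e _ => ?_
      by_cases hd : d ∣ m i <;> by_cases he : e ∣ m i <;> simp [hd, he]
      ring
    rw [sum_congr rfl h1, sum_comm]
    refine sum_congr rfl fun d _ => ?_
    rw [sum_comm]
    refine sum_congr rfl fun e _ => ?_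
    rw [mul_sum, ← sum_filter, filter_filter]
    refine sum_congr ?_ fun _ _ => rfl
    ext i
    simp only [mem_filter]
    refine and_congr_right fun _ => ?_
    constructor
    · rintro ⟨h2, h3, h4⟩
      exact Nat.lcm_dvd (Nat.lcm_dvd h3 h4) h2
    · intro h2
      have h3 := (Nat.dvd_lcm_left (Nat.lcm d e) q).trans h2
      exact ⟨(Nat.dvd_lcm_right (Nat.lcm d e) q).trans h2, (Nat.dvd_lcm_left d e).trans h3,
        (Nat.dvd_lcm_right d e).trans h3⟩
  rw [hexp, mul_sum, ← sum_sub_distrib, mul_sum]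
  refine le_trans (abs_sum_le_sum_abs _ _) (sum_le_sum fun d hd => ?_)
  rw [mul_sum, ← sum_sub_distrib, mul_sum]
  refine le_trans (abs_sum_le_sum_abs _ _) (sum_le_sum fun e he => ?_)
  have h2 : lam z R d * lam z R e *
        ∑ i ∈ I.filter (fun i => Nat.lcm (Nat.lcm d e) q ∣ m i), a i -
      X * (lam z R d * lam z R e / (Nat.lcm (Nat.lcm d e) q : ℝ)) =
      (lam z R d * lam z R e) * (∑ i ∈ I.filter (fun i => Nat.lcm (Nat.lcm d e) q ∣ m i), a i -
          X / (Nat.lcm (Nat.lcm d e) q : ℝ)) := by ring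
  rw [h2, abs_mul, abs_mul]
  have h3 : |lam z R d| * |lam z R e| ≤ T ^ 2 := by
    rw [sq]
    exact mul_le_mul (hlam d hd) (hlam e he) (abs_nonneg _) hT0
  gcongr

end Pool.Agent.EPK
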