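import Pool.Agent.EPK.S3b

/-!
# [EPK-S3c] the weighted sieve: expansion
-/

set_option autoImplicit false

namespace Pool.Agent.EPK

open Finset

/-- fibres of bounded size -/
theorem s3c_fiber {κ : Type*} [DecidableEq κ] (s : Finset κ) (g : κ → ℕ) (N : ℕ) (K : ℝ)
    (r : ℕ → ℝ) (hr : ∀ t, 0 ≤ r t) (hg : ∀ x ∈ s, g x ∈ Icc 1 N)
    (hK : ∀ t ∈ Icc 1 N, ((s.filter (fun x => g x = t)).card : ℝ) ≤ K) :
    ∑ x ∈ s, r (g x) ≤ K * ∑ t ∈ Icc 1 N, r t := by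
  rw [← sum_fiberwise_of_maps_to hg, mul_sum]
  refine sum_le_sum fun t ht => ?_
  have h1 : ∑ x ∈ s.filter (fun x => g x = t), r (g x) =
      ((s.filter (fun x => g x = t)).card : ℝ) * r t := by
    rw [← nsmul_eq_mul, ← sum_const]
    refine sum_congr rfl fun x hx => ?_
    rw [mem_filter] at hx
    rw [hx.2]
  rw [h1]
  exact mul_le_mul_of_nonneg_right (hK t ht) (hr t)

/-- triples -/
theorem s3c_triples (A : Finset ℕ) (S : ℕ → Finset ℕ) (N : ℕ) (T : ℝ) (hT : TauLE N T)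
    (r : ℕ → ℝ) (hr : ∀ t, 0 ≤ r t)
    (hlcm : ∀ l ∈ A, ∀ d ∈ S l, ∀ e ∈ S l, Nat.lcm (Nat.lcm d e) l ∈ Icc 1 N) :
    ∑ l ∈ A, ∑ d ∈ S l, ∑ e ∈ S l, r (Nat.lcm (Nat.lcm d e) l) ≤
      T ^ 3 * ∑ t ∈ Icc 1 N, r t := by
  have h1 : ∑ l ∈ A, ∑ d ∈ S l, ∑ e ∈ S l, r (Nat.lcm (Nat.lcm d e) l) =
      ∑ x ∈ A.sigma (fun l => S l ×ˢ S l), r (Nat.lcm (Nat.lcm x.2.1 x.2.2) x.1) := by
    rw [sum_sigma]
    refine sum_congr rfl fun l _ => ?_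
    rw [sum_product]
  rw [h1]
  refine s3c_fiber _ _ N _ r hr ?_ ?_
  · rintro ⟨l, d, e⟩ hx
    rw [mem_sigma, mem_product] at hx
    exact hlcm l hx.1 d hx.2.1 e hx.2.2
  · intro t ht
    rw [mem_Icc] at ht
    have h2 : (A.sigma (fun l => S l ×ˢ S l)).filter
        (fun x => Nat.lcm (Nat.lcm x.2.1 x.2.2) x.1 = t) ⊆
        (t.divisors).sigma (fun _ => t.divisors ×ˢ t.divisors) := by
      rintro ⟨l, d, e⟩ hx
      rw [mem_filter, mem_sigma, mem_product] at hx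
      rw [mem_sigma, mem_product, Nat.mem_divisors, Nat.mem_divisors, Nat.mem_divisors]
      have h3 := hx.2
      simp only at h3 ⊢
      refine ⟨⟨?_, by omega⟩, ⟨?_, by omega⟩, ⟨?_, by omega⟩⟩
      · rw [← h3]
        exact Nat.dvd_lcm_right _ _
      · rw [← h3]
        exact (Nat.dvd_lcm_left d e).trans (Nat.dvd_lcm_left _ _)
      · rw [← h3]
        exact (Nat.dvd_lcm_right d e).trans (Nat.dvd_lcm_left _ _)
    have h3 := card_le_card h2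
    rw [card_sigma, sum_const, card_product, smul_eq_mul] at h3
    have h4 : (t.divisors.card : ℝ) ≤ T := hT t ht.1 ht.2
    have h5 : (0 : ℝ) ≤ t.divisors.card := Nat.cast_nonneg _
    calc (((A.sigma (fun l => S l ×ˢ S l)).filter
        (fun x => Nat.lcm (Nat.lcm x.2.1 x.2.2) x.1 = t)).card : ℝ)
        ≤ ((t.divisors.card * (t.divisors.card * t.divisors.card) : ℕ) : ℝ) := by
          exact_mod_cast h3
      _ = (t.divisors.card : ℝ) ^ 3 := by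
          push_cast
          ring
      _ ≤ T ^ 3 := by gcongr

/-- [S3c] Remainders indexed by `(d, e)`, `q = 1`: every `t = lcm(lcm(d, e), 1)` is at most `z⁵` (`d, e ≤ z²`), and arises from at most
`τ(t)² ≤ T²` pairs of divisors. -/
theorem rem_one (z : ℕ) (hz : 1 ≤ z) (T : ℝ) (hT : TauLE (z ^ 5) T) (r : ℕ → ℝ)
    (hr : ∀ t, 0 ≤ r t) :
    ∑ d ∈ SF z (z ^ 2), ∑ e ∈ SF z (z ^ 2), r (Nat.lcm (Nat.lcm d e) 1) ≤
      T ^ 2 * ∑ t ∈ Icc 1 (z ^ 5), r t := by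
  rw [← sum_product']
  refine s3c_fiber _ _ (z ^ 5) _ r hr ?_ ?_
  · rintro ⟨d, e⟩ hx
    rw [mem_product] at hx
    obtain ⟨hd, he⟩ := hx
    have hd' := s1a_mem.1 hd
    have he' := s1a_mem.1 he
    simp only at hd' he'
    rw [mem_Icc, Nat.lcm_one_right]
    refine ⟨Nat.lcm_pos hd'.1.1 he'.1.1, ?_⟩
    calc Nat.lcm d e ≤ d * e := Nat.le_of_dvd (Nat.mul_pos hd'.1.1 he'.1.1) (Nat.lcm_dvd_mul d e)
      _ ≤ z ^ 2 * z ^ 2 := Nat.mul_le_mul hd'.1.2 he'.1.2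
      _ = z ^ 4 := by ring
      _ ≤ z ^ 5 := Nat.pow_le_pow_right hz (by norm_num)
  · intro t ht
    rw [mem_Icc] at ht
    have h2 : (SF z (z ^ 2) ×ˢ SF z (z ^ 2)).filter
        (fun x => Nat.lcm (Nat.lcm x.1 x.2) 1 = t) ⊆ t.divisors ×ˢ t.divisors := by
      rintro ⟨d, e⟩ hx
      rw [mem_filter, mem_product] at hx
      rw [mem_product, Nat.mem_divisors, Nat.mem_divisors]
      have h3 := hx.2
      simp only at h3 ⊢
      refine ⟨⟨?_, by omega⟩, ⟨?_, by omega⟩⟩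
      · rw [← h3]
        exact (Nat.dvd_lcm_left d e).trans (Nat.dvd_lcm_left _ _)
      · rw [← h3]
        exact (Nat.dvd_lcm_right d e).trans (Nat.dvd_lcm_left _ _)
    have h3 := card_le_card h2
    rw [card_product] at h3
    have h4 : (t.divisors.card : ℝ) ≤ T := hT t ht.1 ht.2
    have h5 : (0 : ℝ) ≤ t.divisors.card := Nat.cast_nonneg _
    calc (((SF z (z ^ 2) ×ˢ SF z (z ^ 2)).filter
        (fun x => Nat.lcm (Nat.lcm x.1 x.2) 1 = t)).card : ℝ)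
        ≤ ((t.divisors.card * t.divisors.card : ℕ) : ℝ) := by exact_mod_cast h3
      _ = (t.divisors.card : ℝ) ^ 2 := by
          push_cast
          ring
      _ ≤ T ^ 2 := by gcongr

/-- [S3d] Remainders indexed by `(l, d, e)`, `l ≤ z` prime: `t = lcm(lcm(d, e), l) ≤ z⁴ · z` arises from at most `τ(t)³ ≤ T³` triples of
divisors. -/
theorem rem_small (z : ℕ) (hz : 1 ≤ z) (T : ℝ) (hT : TauLE (z ^ 5) T) (r : ℕ → ℝ)
    (hr : ∀ t, 0 ≤ r t) :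
    ∑ l ∈ P1 z, ∑ d ∈ SF z (z ^ 2), ∑ e ∈ SF z (z ^ 2), r (Nat.lcm (Nat.lcm d e) l) ≤
      T ^ 3 * ∑ t ∈ Icc 1 (z ^ 5), r t := by
  refine s3c_triples (P1 z) (fun _ => SF z (z ^ 2)) (z ^ 5) T hT r hr ?_
  intro l hl d hd e he
  have hd' := s1a_mem.1 hd
  have he' := s1a_mem.1 he
  rw [P1, mem_filter, mem_Icc] at hl
  have hlpos := hl.2.pos
  have hde := Nat.lcm_pos hd'.1.1 he'.1.1
  rw [mem_Icc]
  refine ⟨Nat.lcm_pos hde hlpos, ?_⟩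
  calc Nat.lcm (Nat.lcm d e) l ≤ Nat.lcm d e * l :=
        Nat.le_of_dvd (Nat.mul_pos hde hlpos) (Nat.lcm_dvd_mul _ _)
    _ ≤ (d * e) * l := Nat.mul_le_mul_right _
        (Nat.le_of_dvd (Nat.mul_pos hd'.1.1 he'.1.1) (Nat.lcm_dvd_mul d e))
    _ ≤ (z ^ 2 * z ^ 2) * z := Nat.mul_le_mul (Nat.mul_le_mul hd'.1.2 he'.1.2) hl.1.2
    _ = z ^ 5 := by ring

/-- [S3e] Remainders indexed by `(l, d, e)`, `z < l < z⁵` prime, `d, e ≤ Rl z l`: `t = lcm(lcm(d, e), l) ≤ (Rl z l)² l ≤ z⁵`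
(`Nat.sqrt_le'`, `Nat.div_mul_le_self`). -/
theorem rem_large (z : ℕ) (hz : 1 ≤ z) (T : ℝ) (hT : TauLE (z ^ 5) T) (r : ℕ → ℝ)
    (hr : ∀ t, 0 ≤ r t) :
    ∑ l ∈ P2 z, ∑ d ∈ SF z (Rl z l), ∑ e ∈ SF z (Rl z l), r (Nat.lcm (Nat.lcm d e) l) ≤
      T ^ 3 * ∑ t ∈ Icc 1 (z ^ 5), r t := by
  refine s3c_triples (P2 z) (fun l => SF z (Rl z l)) (z ^ 5) T hT r hr ?_
  intro l hl d hd e he
  have hd' := s1a_mem.1 hd
  have he' := s1a_mem.1 he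
  rw [P2, mem_filter, mem_Ioo] at hl
  have hlpos := hl.2.pos
  have hde := Nat.lcm_pos hd'.1.1 he'.1.1
  rw [mem_Icc]
  refine ⟨Nat.lcm_pos hde hlpos, ?_⟩
  calc Nat.lcm (Nat.lcm d e) l ≤ Nat.lcm d e * l :=
        Nat.le_of_dvd (Nat.mul_pos hde hlpos) (Nat.lcm_dvd_mul _ _)
    _ ≤ (d * e) * l := Nat.mul_le_mul_right _
        (Nat.le_of_dvd (Nat.mul_pos hd'.1.1 he'.1.1) (Nat.lcm_dvd_mul d e))
    _ ≤ (Rl z l * Rl z l) * l := Nat.mul_le_mul_right _ (Nat.mul_le_mul hd'.1.2 he'.1.2)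
    _ ≤ (z ^ 5 / l) * l := Nat.mul_le_mul_right _ (by
        unfold Rl
        exact Nat.sqrt_le _)
    _ ≤ z ^ 5 := Nat.div_mul_le_self _ _

end Pool.Agent.EPK
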