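import Pool.Agent.EPK.D0

/-!
# [EPK-V1a] Vaughan's identity
-/

set_option autoImplicit false

namespace Pool.Agent.EPK

open Finset Pool.Agent.MP_2f88e5_nt

open scoped ArithmeticFunction.vonMangoldt ArithmeticFunction.Moebius

/-- `Λ` truncated at `U`, convolved with `μ` truncated at `U` -/
noncomputable def va (U m : ℕ) : ℝ :=
  ∑ q ∈ (m.divisorsAntidiagonal).filter (fun q => q.1 ≤ U ∧ q.2 ≤ U),
    ArithmeticFunction.vonMangoldt q.1 * ((ArithmeticFunction.moebius q.2 : ℤ) : ℝ)

/-- the sum of `μ(d)` over the divisors `d > U` of `k` -/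
noncomputable def vb (U k : ℕ) : ℝ :=
  ∑ d ∈ (k.divisors).filter (fun d => U < d), ((ArithmeticFunction.moebius d : ℤ) : ℝ)

/-- `Λ` truncated -/
noncomputable def v1L (U : ℕ) : ArithmeticFunction ℝ :=
  ⟨fun n => if n ≤ U then ArithmeticFunction.vonMangoldt n else 0, by simp⟩

/-- `μ` truncated -/
noncomputable def v1M (U : ℕ) : ArithmeticFunction ℝ :=
  ⟨fun n => if n ≤ U then ((ArithmeticFunction.moebius n : ℤ) : ℝ) else 0, by simp⟩

theorem v1L_apply (U n : ℕ) :
    v1L U n = if n ≤ U then ArithmeticFunction.vonMangoldt n else 0 := rfl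

theorem v1M_apply (U n : ℕ) :
    v1M U n = if n ≤ U then ((ArithmeticFunction.moebius n : ℤ) : ℝ) else 0 := rfl

theorem v1_sub (f g : ArithmeticFunction ℝ) (n : ℕ) : (f - g) n = f n - g n := by
  have h : (f - g) + g = f := sub_add_cancel f g
  have h2 := congrArg (fun F : ArithmeticFunction ℝ => F n) h
  simp only [ArithmeticFunction.add_apply] at h2
  linarith

theorem v1_ident (U : ℕ) : (ArithmeticFunction.vonMangoldt : ArithmeticFunction ℝ) =
    v1L U + v1M U * ArithmeticFunction.log -
      (v1L U * v1M U) * (ArithmeticFunction.zeta : ArithmeticFunction ℝ) +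
      (ArithmeticFunction.vonMangoldt - v1L U) *
        (((ArithmeticFunction.moebius : ArithmeticFunction ℝ) - v1M U) *
          (ArithmeticFunction.zeta : ArithmeticFunction ℝ)) := by
  have h1 : (ArithmeticFunction.moebius : ArithmeticFunction ℝ) *
      (ArithmeticFunction.zeta : ArithmeticFunction ℝ) = 1 :=
    ArithmeticFunction.coe_moebius_mul_coe_zeta
  have h2 : (ArithmeticFunction.vonMangoldt : ArithmeticFunction ℝ) *
      (ArithmeticFunction.zeta : ArithmeticFunction ℝ) = ArithmeticFunction.log :=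
    ArithmeticFunction.vonMangoldt_mul_zeta
  linear_combination (-(ArithmeticFunction.vonMangoldt - v1L U)) * h1 + v1M U * h2

/-- [V1a] Vaughan's identity, pointwise.

Proof. Let `Λ₀`, `μ₀` be the truncations at `U` (as arithmetic functions) and `Λ₁ = Λ - Λ₀`, `μ₁ = μ - μ₀`. With `ζ * μ = 1`,
`Λ * ζ = log` (`ArithmeticFunction.vonMangoldt_mul_zeta`, `coe_moebius_mul_coe_zeta`):
`Λ = Λ₀ + Λ₁ = Λ₀ + μ₀ * ζ * Λ₁ + μ₁ * ζ * Λ₁` and `μ₀ * ζ * Λ₁ = μ₀ * log - μ₀ * ζ * Λ₀`. -/
theorem vaughan_point (U n : ℕ) (hn : 1 ≤ n) :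
    ArithmeticFunction.vonMangoldt n =
      (if n ≤ U then ArithmeticFunction.vonMangoldt n else 0) +
      (∑ q ∈ (n.divisorsAntidiagonal).filter (fun q => q.1 ≤ U),
        ((ArithmeticFunction.moebius q.1 : ℤ) : ℝ) * Real.log q.2) -
      (∑ q ∈ n.divisorsAntidiagonal, va U q.1) +
      (∑ q ∈ (n.divisorsAntidiagonal).filter (fun q => U < q.1),
        ArithmeticFunction.vonMangoldt q.1 * vb U q.2) := by
  have h := congrArg (fun f : ArithmeticFunction ℝ => f n) (v1_ident U)
  simp only [ArithmeticFunction.add_apply, v1_sub] at h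
  have h1 : v1L U n = if n ≤ U then ArithmeticFunction.vonMangoldt n else 0 := rfl
  have h2 : (v1M U * ArithmeticFunction.log) n =
      ∑ q ∈ (n.divisorsAntidiagonal).filter (fun q => q.1 ≤ U),
        ((ArithmeticFunction.moebius q.1 : ℤ) : ℝ) * Real.log q.2 := by
    rw [ArithmeticFunction.mul_apply, sum_filter]
    refine sum_congr rfl fun q _ => ?_
    rw [v1M_apply, ArithmeticFunction.log_apply]
    split_ifs <;> simp
  have h3 : ((v1L U * v1M U) * (ArithmeticFunction.zeta : ArithmeticFunction ℝ)) n =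
      ∑ q ∈ n.divisorsAntidiagonal, va U q.1 := by
    rw [ArithmeticFunction.mul_apply]
    refine sum_congr rfl fun q hq => ?_
    have hq2 : q.2 ≠ 0 := by
      rw [Nat.mem_divisorsAntidiagonal] at hq
      rintro h0
      rw [h0, mul_zero] at hq
      exact hq.2 hq.1.symm
    rw [ArithmeticFunction.natCoe_apply, ArithmeticFunction.zeta_apply_ne hq2, Nat.cast_one,
      mul_one, ArithmeticFunction.mul_apply]
    unfold va
    rw [sum_filter]
    refine sum_congr rfl fun r _ => ?_
    rw [v1L_apply, v1M_apply]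
    by_cases ha : r.1 ≤ U <;> by_cases hb : r.2 ≤ U <;> simp [ha, hb]
  have h4 : ((ArithmeticFunction.vonMangoldt - v1L U) *
        (((ArithmeticFunction.moebius : ArithmeticFunction ℝ) - v1M U) *
          (ArithmeticFunction.zeta : ArithmeticFunction ℝ))) n =
      ∑ q ∈ (n.divisorsAntidiagonal).filter (fun q => U < q.1),
        ArithmeticFunction.vonMangoldt q.1 * vb U q.2 := by
    rw [ArithmeticFunction.mul_apply, sum_filter]
    refine sum_congr rfl fun q _ => ?_
    rw [v1_sub, v1L_apply, ArithmeticFunction.coe_mul_zeta_apply]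
    have h5 : ∑ i ∈ q.2.divisors, ((ArithmeticFunction.moebius : ArithmeticFunction ℝ) - v1M U) i =
        vb U q.2 := by
      unfold vb
      rw [sum_filter]
      refine sum_congr rfl fun d _ => ?_
      rw [v1_sub, v1M_apply, ArithmeticFunction.intCoe_apply]
      by_cases hd : d ≤ U
      · rw [if_pos hd, if_neg (by omega), sub_self]
      · rw [if_neg hd, if_pos (by omega), sub_zero]
    rw [h5]
    by_cases hd : q.1 ≤ U
    · rw [if_pos hd, if_neg (by omega), sub_self, zero_mul]
    · rw [if_neg hd, if_pos (by omega), sub_zero]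
  rw [h1, h2, h3, h4] at h
  exact h

end Pool.Agent.EPK
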