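import Pool.Agent.EPK.V1a

/-!
# [EPK-V1b] Vaughan's identity
-/

set_option autoImplicit false

namespace Pool.Agent.EPK

open Finset Pool.Agent.MP_2f88e5_nt

open scoped ArithmeticFunction.vonMangoldt ArithmeticFunction.Moebius

/-- [V1b] Bounds for the coefficients: `|va U m| ≤ ∑_{q ∣ m} Λ(q) = log m` (`ArithmeticFunction.vonMangoldt_sum`),
`|vb U k| ≤ τ(k)`; `va U m = 0` for `m > U²` (`q.1 q.2 = m`), `vb U k = 0` for `k ≤ U`. -/
theorem va_vb (U : ℕ) : (∀ m, 1 ≤ m → |va U m| ≤ Real.log m) ∧ (∀ m, U ^ 2 < m → va U m = 0) ∧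
    (∀ k, |vb U k| ≤ (k.divisors.card : ℝ)) ∧ (∀ k, k ≤ U → vb U k = 0) := by
  have hmu : ∀ n : ℕ, |((ArithmeticFunction.moebius n : ℤ) : ℝ)| ≤ 1 := by
    intro n
    have h1 : |ArithmeticFunction.moebius n| ≤ 1 := ArithmeticFunction.abs_moebius_le_one
    exact_mod_cast h1
  refine ⟨?_, ?_, ?_, ?_⟩
  · intro m hm
    unfold va
    rw [← ArithmeticFunction.vonMangoldt_sum,
      ← Nat.sum_divisorsAntidiagonal (fun d _ : ℕ => (ArithmeticFunction.vonMangoldt d : ℝ))]
    refine le_trans (abs_sum_le_sum_abs _ _) ?_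
    refine le_trans (sum_le_sum (f := fun q : ℕ × ℕ =>
      |Λ q.1 * ((ArithmeticFunction.moebius q.2 : ℤ) : ℝ)|) (g := fun q : ℕ × ℕ => Λ q.1)
      fun q _ => ?_) ?_
    · rw [abs_mul, abs_of_nonneg (ArithmeticFunction.vonMangoldt_nonneg (n := q.1))]
      exact mul_le_of_le_one_right ArithmeticFunction.vonMangoldt_nonneg (hmu _)
    · exact sum_le_sum_of_subset_of_nonneg (filter_subset _ _)
        fun _ _ _ => ArithmeticFunction.vonMangoldt_nonneg
  · intro m hm
    unfold va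
    refine sum_eq_zero fun q hq => ?_
    exfalso
    rw [mem_filter, Nat.mem_divisorsAntidiagonal] at hq
    obtain ⟨⟨h1, -⟩, h2, h3⟩ := hq
    have : q.1 * q.2 ≤ U * U := Nat.mul_le_mul h2 h3
    rw [h1] at this
    nlinarith
  · intro k
    unfold vb
    refine le_trans (abs_sum_le_sum_abs _ _) ?_
    refine le_trans (sum_le_sum (g := fun _ => (1 : ℝ)) fun q _ => hmu q) ?_
    rw [sum_const, nsmul_eq_mul, mul_one]
    exact_mod_cast card_le_card (filter_subset _ _)
  · intro k hk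
    unfold vb
    refine sum_eq_zero fun d hd => ?_
    exfalso
    rw [mem_filter, Nat.mem_divisors] at hd
    obtain ⟨⟨h1, h2⟩, h3⟩ := hd
    have := Nat.le_of_dvd (Nat.pos_of_ne_zero h2) h1
    omega

end Pool.Agent.EPK
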