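import Pool.Agent.EPK.V1

/-!
# [EPK-V2a] Vaughan's identity for the sums `TT`
-/

set_option autoImplicit false

namespace Pool.Agent.EPK

open Finset Pool.Agent.MP_2f88e5_nt

/-- [V2a] Rearrangement: a sum over `n ≤ N` and `n = m k` is a sum over `m` and `k ≤ N / m`.
(`Nat.sum_Icc_..`; `Finset.sum_sigma'`, `Finset.sum_bij'`, or `Finset.sum_comm'` after writing the inner sums with
indicators.) -/
theorem sum_antidiag (N : ℕ) (f : ℕ → ℕ → ℂ) :
    ∑ n ∈ Icc 1 N, ∑ q ∈ n.divisorsAntidiagonal, f q.1 q.2 =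
      ∑ m ∈ Icc 1 N, ∑ k ∈ Icc 1 (N / m), f m k := by
  rw [sum_sigma', sum_sigma']
  refine sum_bij' (fun a _ => ⟨a.2.1, a.2.2⟩) (fun b _ => ⟨b.1 * b.2, (b.1, b.2)⟩) ?_ ?_ ?_ ?_ ?_
  · rintro ⟨n, q⟩ h
    simp only [mem_sigma, mem_Icc, Nat.mem_divisorsAntidiagonal] at h ⊢
    obtain ⟨⟨h1, h2⟩, h3, h4⟩ := h
    have hq1 : 0 < q.1 := by
      rcases Nat.eq_zero_or_pos q.1 with h0 | h0
      · rw [h0, zero_mul] at h3
        omega
      · exact h0
    have hq2 : 0 < q.2 := by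
      rcases Nat.eq_zero_or_pos q.2 with h0 | h0
      · rw [h0, mul_zero] at h3
        omega
      · exact h0
    refine ⟨⟨hq1, ?_⟩, hq2, ?_⟩
    · calc q.1 = q.1 * 1 := (mul_one _).symm
        _ ≤ q.1 * q.2 := Nat.mul_le_mul_left _ hq2
        _ ≤ N := by omega
    · rw [Nat.le_div_iff_mul_le hq1, mul_comm]
      omega
  · rintro ⟨m, k⟩ h
    simp only [mem_sigma, mem_Icc, Nat.mem_divisorsAntidiagonal] at h ⊢
    obtain ⟨⟨h1, h2⟩, h3, h4⟩ := h
    rw [Nat.le_div_iff_mul_le (by omega)] at h4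
    have : 0 < m * k := Nat.mul_pos (by omega) (by omega)
    refine ⟨⟨this, ?_⟩, trivial, this.ne'⟩
    rw [mul_comm]
    exact h4
  · rintro ⟨n, q⟩ h
    simp only [mem_sigma, mem_Icc, Nat.mem_divisorsAntidiagonal] at h
    obtain ⟨⟨h1, h2⟩, h3, h4⟩ := h
    simp only [Prod.mk.eta, h3]
  · rintro ⟨m, k⟩ _
    rfl
  · rintro ⟨n, q⟩ _
    rfl

/-- [V2b] The logarithm is removed by partial summation:
`log k = ∑_{2 ≤ j ≤ k} log (j / (j - 1))`, so `∑_{k ≤ K} log k g k = ∑_{2 ≤ j ≤ P} log (j / (j - 1)) ∑_{j - 1 < k ≤ K} g k` for `K ≤ P`. -/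
theorem log_abel (K P : ℕ) (hK : K ≤ P) (g : ℕ → ℂ) :
    ∑ k ∈ Icc 1 K, (Real.log k : ℂ) * g k =
      ∑ j ∈ Icc 2 P, (Real.log ((j : ℝ) / ((j : ℝ) - 1)) : ℂ) * ∑ k ∈ Ioc (j - 1) K, g k := by
  have hlog : ∀ k : ℕ, 1 ≤ k → Real.log k = ∑ j ∈ Icc 2 k, Real.log ((j : ℝ) / ((j : ℝ) - 1)) := by
    intro k hk
    induction k, hk using Nat.le_induction with
    | base => simp
    | succ n hn ih =>
      rw [sum_Icc_succ_top (by omega), ← ih]
      have h1 : (0 : ℝ) < n := by exact_mod_cast hn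
      have h2 : (((n + 1 : ℕ) : ℝ)) - 1 = n := by push_cast; ring
      rw [h2, Real.log_div (by positivity) (by positivity)]
      ring
  calc ∑ k ∈ Icc 1 K, (Real.log k : ℂ) * g k
      = ∑ k ∈ Icc 1 K, ∑ j ∈ Icc 2 k, (Real.log ((j : ℝ) / ((j : ℝ) - 1)) : ℂ) * g k := by
        refine sum_congr rfl fun k hk => ?_
        rw [mem_Icc] at hk
        rw [← sum_mul]
        congr 1
        rw [hlog k hk.1]
        push_cast
        rfl
    _ = ∑ j ∈ Icc 2 P, ∑ k ∈ Ioc (j - 1) K, (Real.log ((j : ℝ) / ((j : ℝ) - 1)) : ℂ) * g k := by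
        refine sum_comm' ?_
        intro k j
        simp only [mem_Icc, mem_Ioc]
        omega
    _ = _ := by
        refine sum_congr rfl fun j _ => ?_
        rw [mul_sum]

end Pool.Agent.EPK
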