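import Pool.Agent.EPK.C2
import Pool.Agent.EPK.F1

/-!
# [EPK-X1] the inequality of Pólya and Vinogradov
-/

set_option autoImplicit false

namespace Pool.Agent.EPK

open Finset Pool.Agent.MP_2f88e5_nt

/-- Parseval for the additive characters -/
theorem x1_parseval (p : ℕ) [Fact p.Prime] (f : ZMod p → ℂ) :
    ∑ t : ZMod p, ‖∑ r : ZMod p, f r * ea p (t * r)‖ ^ 2 = p * ∑ r : ZMod p, ‖f r‖ ^ 2 := by
  have h1 : ((∑ t : ZMod p, ‖∑ r : ZMod p, f r * ea p (t * r)‖ ^ 2 : ℝ) : ℂ) =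
      ((p * ∑ r : ZMod p, ‖f r‖ ^ 2 : ℝ) : ℂ) := by
    rw [Complex.ofReal_sum]
    have h2 : ∀ t : ZMod p, ((‖∑ r : ZMod p, f r * ea p (t * r)‖ ^ 2 : ℝ) : ℂ) =
        ∑ r : ZMod p, ∑ s : ZMod p, f r * (starRingEnd ℂ) (f s) *
          (ZMod.stdAddChar (t * (r - s)) : ℂ) := by
      intro t
      rw [Complex.ofReal_pow, ← Complex.mul_conj', map_sum, Finset.sum_mul_sum]
      refine sum_congr rfl fun r _ => sum_congr rfl fun s _ => ?_
      unfold ea
      rw [map_mul (starRingEnd ℂ), conj_char]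
      have h3 : (ZMod.stdAddChar (t * (r - s)) : ℂ) =
          (ZMod.stdAddChar (t * r) : ℂ) * (ZMod.stdAddChar (-(t * s)) : ℂ) := by
        rw [← AddChar.map_add_eq_mul]
        congr 1
        ring
      rw [h3]
      ring
    rw [sum_congr rfl fun t _ => h2 t, sum_comm, Complex.ofReal_mul, Complex.ofReal_sum, mul_sum]
    refine sum_congr rfl fun r _ => ?_
    rw [sum_comm]
    have h4 : ∀ s : ZMod p, ∑ t : ZMod p, f r * (starRingEnd ℂ) (f s) *
          (ZMod.stdAddChar (t * (r - s)) : ℂ) =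
        if s = r then f r * (starRingEnd ℂ) (f s) * (p : ℂ) else 0 := by
      intro s
      rw [← mul_sum, sum_char]
      by_cases h : s = r
      · rw [if_pos (by rw [h, sub_self]), if_pos h]
      · rw [if_neg (fun h5 => h (sub_eq_zero.1 h5).symm), if_neg h, mul_zero]
    rw [sum_congr rfl fun s _ => h4 s, sum_ite_eq' univ r, if_pos (mem_univ _), Complex.mul_conj']
    push_cast
    ring
  exact_mod_cast h1

theorem x1_norm (p : ℕ) [Fact p.Prime] (χ : MulChar (ZMod p) ℂ) (a : ZMod p) (ha : a ≠ 0) :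
    ‖χ a‖ = 1 := by
  obtain ⟨u, hu⟩ := (isUnit_iff_ne_zero.2 ha)
  rw [← hu]
  have h3 : (χ (u : ZMod p)) ^ (Fintype.card (ZMod p)ˣ) = 1 := by
    rw [← map_pow, ← Units.val_pow_eq_pow_val, pow_card_eq_one, Units.val_one, map_one]
  exact Complex.norm_eq_one_of_pow_eq_one h3 Fintype.card_ne_zero

/-- the Gauss sums have absolute value at most `√p` -/
theorem x1_gauss (p : ℕ) [Fact p.Prime] (χ : MulChar (ZMod p) ℂ) (t : ZMod p) (ht : t ≠ 0) :
    ‖∑ r : ZMod p, χ r * ea p (t * r)‖ ≤ Real.sqrt p := by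
  have hpp : p.Prime := Fact.out
  have hp1 : (1 : ℝ) < p := by exact_mod_cast hpp.one_lt
  set g : ZMod p → ℂ := fun t => ∑ r : ZMod p, χ r * ea p (t * r) with hg
  have h1 : ∀ t : ZMod p, t ≠ 0 → ‖g t‖ = ‖g 1‖ := by
    intro t ht
    have h2 : g t = χ (t⁻¹) * g 1 := by
      simp only [hg, mul_sum]
      refine (Fintype.sum_equiv (Equiv.mulRight₀ (t⁻¹) (inv_ne_zero ht)) _ _ fun s => ?_).symm
      simp only [Equiv.mulRight₀_apply, map_mul, one_mul]
      have h3 : t * (s * t⁻¹) = s := by field_simp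
      rw [h3]
      ring
    rw [h2, norm_mul, x1_norm p χ _ (inv_ne_zero ht), one_mul]
  have h2 := x1_parseval p (fun r => χ r)
  have h3 : ∑ r : ZMod p, ‖χ r‖ ^ 2 = (p : ℝ) - 1 := by
    rw [← add_sum_erase univ _ (mem_univ (0 : ZMod p))]
    have h4 : χ (0 : ZMod p) = 0 := MulChar.map_zero χ
    rw [h4, norm_zero]
    have h5 : ∑ r ∈ univ.erase (0 : ZMod p), ‖χ r‖ ^ 2 = ∑ r ∈ univ.erase (0 : ZMod p), (1 : ℝ) := by
      refine sum_congr rfl fun r hr => ?_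
      rw [x1_norm p χ r (ne_of_mem_erase hr), one_pow]
    rw [h5, sum_const, card_erase_of_mem (mem_univ _), card_univ, ZMod.card, nsmul_eq_mul,
      Nat.cast_sub hpp.one_le]
    norm_num
  have h4 : ((p : ℝ) - 1) * ‖g 1‖ ^ 2 ≤ ∑ t : ZMod p, ‖g t‖ ^ 2 := by
    rw [← add_sum_erase univ _ (mem_univ (0 : ZMod p))]
    have h5 : ∑ t ∈ univ.erase (0 : ZMod p), ‖g t‖ ^ 2 = ((p : ℝ) - 1) * ‖g 1‖ ^ 2 := by
      have h6 : ∑ t ∈ univ.erase (0 : ZMod p), ‖g t‖ ^ 2 =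
          ∑ t ∈ univ.erase (0 : ZMod p), ‖g 1‖ ^ 2 := by
        refine sum_congr rfl fun t ht => ?_
        rw [h1 t (ne_of_mem_erase ht)]
      rw [h6, sum_const, card_erase_of_mem (mem_univ _), card_univ, ZMod.card, nsmul_eq_mul,
        Nat.cast_sub hpp.one_le, Nat.cast_one]
    rw [h5]
    have : 0 ≤ ‖g 0‖ ^ 2 := sq_nonneg _
    linarith
  have h5 : ‖g 1‖ ^ 2 ≤ p := by
    have h6 : ((p : ℝ) - 1) * ‖g 1‖ ^ 2 ≤ ((p : ℝ) - 1) * p := by
      refine le_trans h4 (le_of_eq ?_)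
      have h7 : ∑ t : ZMod p, ‖g t‖ ^ 2 = p * ∑ r : ZMod p, ‖χ r‖ ^ 2 := h2
      rw [h7, h3]
      ring
    exact le_of_mul_le_mul_left h6 (by linarith)
  change ‖g t‖ ≤ Real.sqrt p
  rw [h1 t ht]
  exact Real.le_sqrt_of_sq_le h5

/-- [X1] The inequality of Pólya and Vinogradov for a nonprincipal multiplicative character modulo `p`.

Proof. `fourier_interval` for `f = χ` on `(0, K]`: `∑_r χ(r) ea (t r) = χ⁻¹(t) τ(χ)` for `t ≠ 0` (substitute `r ↦ r / t`) and `0` for `t = 0`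
(`MulChar.sum_eq_zero_of_ne_one`), where `τ(χ) = gaussSum χ stdAddChar` has `|τ(χ)|² = p` (Mathlib: `gaussSum_mul_gaussSum_eq_card`
or `gaussSum` API with `χ⁻¹` and the conjugate character; or directly: `∑_t |∑_r χ(r) ea(t r)|² = p ∑_r |χ(r)|² = p (p - 1)` and the
terms `t ≠ 0` are equal). So the norm is at most `(1/p) ∑_{t ≠ 0} √p |∑_{k ≤ K} ea(- t k)| ≤ (1/√p) · 2 ∑_{h ≤ (p-1)/2} p / (2h) ≤
√p (1 + log p)` (`sum_nonzero`, `interval_bound`). -/
theorem polya_vinogradov (p : ℕ) [Fact p.Prime] (hp : 2 < p) (χ : MulChar (ZMod p) ℂ) (hχ : χ ≠ 1)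
    (K : ℕ) (hK : K < p) :
    ‖∑ k ∈ Ioc 0 K, χ (k : ZMod p)‖ ≤ Real.sqrt p * (3 + Real.log p) := by
  have hpp : p.Prime := Fact.out
  have hp0 : (0 : ℝ) < p := by exact_mod_cast hpp.pos
  have h1 := fourier_interval p 0 K (fun a => χ a)
  rw [h1, norm_mul, norm_inv, Complex.norm_natCast]
  set S : ZMod p → ℂ := fun t => ∑ k ∈ Ioc 0 K, ea p (-t * (k : ZMod p)) with hS
  have h2 : ‖∑ t : ZMod p, (∑ r : ZMod p, χ r * ea p (t * r)) * S t‖ ≤
      Real.sqrt p * ∑ t ∈ univ.erase (0 : ZMod p), ‖S t‖ := by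
    rw [← add_sum_erase univ _ (mem_univ (0 : ZMod p))]
    have h3 : ∑ r : ZMod p, χ r * ea p (0 * r) = 0 := by
      have h4 : ∀ r : ZMod p, ea p (0 * r) = 1 := by
        intro r
        unfold ea
        rw [zero_mul]
        exact AddChar.map_zero_eq_one _
      simp only [h4, mul_one]
      exact MulChar.sum_eq_zero_of_ne_one hχ
    rw [h3, zero_mul, zero_add, mul_sum]
    refine le_trans (norm_sum_le _ _) (sum_le_sum fun t ht => ?_)
    rw [norm_mul]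
    gcongr
    exact x1_gauss p χ t (ne_of_mem_erase ht)
  have h3 : ∑ t ∈ univ.erase (0 : ZMod p), ‖S t‖ ≤ p * (3 + Real.log p) := by
    rw [sum_nonzero p hp (fun t => ‖S t‖)]
    have h4 : ∀ h ∈ Icc 1 ((p - 1) / 2), ‖S (h : ZMod p)‖ + ‖S (-(h : ZMod p))‖ ≤
        p * ((h : ℝ))⁻¹ := by
      intro h hh
      rw [mem_Icc] at hh
      have hh0 : (0 : ℝ) < h := by exact_mod_cast hh.1
      have hhp : 2 * h < p := by omega
      have s1 : ‖S (h : ZMod p)‖ ≤ (p : ℝ) / (2 * h) :=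
        interval_bound p h 0 K hh.1 hhp (-(h : ZMod p)) (Or.inr rfl)
      have s2 : ‖S (-(h : ZMod p))‖ ≤ (p : ℝ) / (2 * h) :=
        interval_bound p h 0 K hh.1 hhp (-(-(h : ZMod p))) (Or.inl (neg_neg _))
      have s3 : (p : ℝ) / (2 * h) + (p : ℝ) / (2 * h) = p * ((h : ℝ))⁻¹ := by
        field_simp
        ring
      linarith
    refine le_trans (sum_le_sum h4) ?_
    rw [← mul_sum]
    have h5 : ∑ h ∈ Icc 1 ((p - 1) / 2), ((h : ℝ))⁻¹ ≤ 1 + Real.log (((p - 1) / 2 : ℕ) : ℝ) := by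
      have h6 := harmonic_le_one_add_log ((p - 1) / 2)
      rw [harmonic_eq_sum_Icc] at h6
      push_cast at h6
      exact h6
    have h6 : Real.log (((p - 1) / 2 : ℕ) : ℝ) ≤ Real.log p := by
      refine Real.log_le_log ?_ ?_
      · exact_mod_cast (by omega : 0 < (p - 1) / 2)
      · exact_mod_cast (by omega : (p - 1) / 2 ≤ p)
    gcongr
    linarith
  calc (p : ℝ)⁻¹ * ‖∑ t : ZMod p, (∑ r : ZMod p, χ r * ea p (t * r)) * S t‖
      ≤ (p : ℝ)⁻¹ * (Real.sqrt p * (p * (3 + Real.log p))) := by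
        gcongr
        refine le_trans h2 ?_
        gcongr
    _ = Real.sqrt p * (3 + Real.log p) := by
        field_simp

end Pool.Agent.EPK
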