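import Pool.Agent.EPK.X1

/-!
# [EPK-X2a] the variance over the classes
-/

set_option autoImplicit false

namespace Pool.Agent.EPK

open Finset Pool.Agent.MP_2f88e5_nt

/-- Parseval -/
theorem x2a_parseval (p : ℕ) [Fact p.Prime] (Φ : (ZMod p)ˣ → ℂ) :
    ∑ χ : DirichletCharacter ℂ p, ‖∑ u : (ZMod p)ˣ, Φ u * χ (u : ZMod p)‖ ^ 2 =
      ((p : ℝ) - 1) * ∑ u : (ZMod p)ˣ, ‖Φ u‖ ^ 2 := by
  have hpp : p.Prime := Fact.out
  have h1 : ∀ χ : DirichletCharacter ℂ p,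
      ((‖∑ u : (ZMod p)ˣ, Φ u * χ (u : ZMod p)‖ ^ 2 : ℝ) : ℂ) =
      ∑ u : (ZMod p)ˣ, ∑ v : (ZMod p)ˣ, Φ u * (starRingEnd ℂ) (Φ v) *
        (χ ((v : ZMod p)⁻¹) * χ (u : ZMod p)) := by
    intro χ
    rw [Complex.ofReal_pow, ← Complex.mul_conj', map_sum, Finset.sum_mul_sum]
    refine sum_congr rfl fun u _ => sum_congr rfl fun v _ => ?_
    have h2 : (starRingEnd ℂ) (χ (v : ZMod p)) = χ ((v : ZMod p)⁻¹) := by
      have h3 := MulChar.star_apply' χ (v : ZMod p)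
      rw [RCLike.star_def] at h3
      rw [h3, MulChar.inv_apply']
    rw [map_mul, h2]
    ring
  have h2 : ((∑ χ : DirichletCharacter ℂ p, ‖∑ u : (ZMod p)ˣ, Φ u * χ (u : ZMod p)‖ ^ 2 : ℝ) : ℂ) =
      ((((p : ℝ) - 1) * ∑ u : (ZMod p)ˣ, ‖Φ u‖ ^ 2 : ℝ) : ℂ) := by
    rw [Complex.ofReal_sum]
    rw [sum_congr rfl fun χ _ => h1 χ, sum_comm]
    rw [Complex.ofReal_mul, Complex.ofReal_sum, mul_sum]
    refine sum_congr rfl fun u _ => ?_
    rw [sum_comm]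
    have h3 : ∀ v : (ZMod p)ˣ, ∑ χ : DirichletCharacter ℂ p,
        Φ u * (starRingEnd ℂ) (Φ v) * (χ ((v : ZMod p)⁻¹) * χ (u : ZMod p)) =
        if v = u then ((p : ℂ) - 1) * (Φ u * (starRingEnd ℂ) (Φ v)) else 0 := by
      intro v
      rw [← mul_sum]
      have h4 := DirichletCharacter.sum_char_inv_mul_char_eq ℂ v.isUnit (u : ZMod p)
      rw [h4]
      by_cases h : v = u
      · rw [if_pos h, if_pos (by rw [h]), Nat.totient_prime hpp, Nat.cast_sub hpp.one_le]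
        push_cast
        ring
      · rw [if_neg h, if_neg (fun h5 => h (Units.ext h5)), mul_zero]
    rw [sum_congr rfl fun v _ => h3 v, sum_ite_eq' univ u]
    rw [if_pos (mem_univ _), Complex.mul_conj']
    push_cast
    ring
  exact_mod_cast h2

/-- [X2a] Plancherel for the group of units: a multiplicative convolution has small variance if all nontrivial Fourier
coefficients of one factor are small. Here `F`, `G` are functions on the units.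

Proof. Let `H x = ∑_{u} F u G (x / u)`. For a character `χ` of the (finite abelian) group of units let `^F(χ) = ∑ F u χ(u)`.
Orthogonality (`DirichletCharacter.sum_char_inv_mul_char_eq`, or `MulChar` versions; or Parseval in the form: for every
function `Φ` on the units `∑_χ |^Φ(χ)|² = (p - 1) ∑ |Φ|²`): `^H = ^F ^G`, `^H(1) = ∑F ∑G`, and
`∑_x |H x - ∑F ∑G / (p-1)|² = (1/(p-1)) ∑_{χ ≠ 1} |^F(χ)|² |^G(χ)|² ≤ V² (1/(p-1)) ∑_χ |^F(χ)|² = V² ∑_u |F u|²`. -/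
theorem conv_variance (p : ℕ) [Fact p.Prime] (F G : (ZMod p)ˣ → ℂ) (V : ℝ) (hV : 0 ≤ V)
    (hG : ∀ χ : MulChar (ZMod p) ℂ, χ ≠ 1 → ‖∑ u : (ZMod p)ˣ, G u * χ (u : ZMod p)‖ ≤ V) :
    ∑ x : (ZMod p)ˣ, ‖∑ u : (ZMod p)ˣ, F u * G (x * u⁻¹) -
      (∑ u : (ZMod p)ˣ, F u) * (∑ u : (ZMod p)ˣ, G u) / ((p : ℂ) - 1)‖ ^ 2 ≤
      V ^ 2 * ∑ u : (ZMod p)ˣ, ‖F u‖ ^ 2 := by
  have hpp : p.Prime := Fact.out
  have hp1 : (1 : ℝ) < p := by exact_mod_cast hpp.one_lt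
  have hp1' : (p : ℂ) - 1 ≠ 0 := by
    intro h
    have h2 : (p : ℂ) = ((1 : ℕ) : ℂ) := by
      push_cast
      linear_combination h
    have h3 : p = 1 := by exact_mod_cast h2
    exact hpp.one_lt.ne' h3
  set c : ℂ := (∑ u : (ZMod p)ˣ, F u) * (∑ u : (ZMod p)ˣ, G u) / ((p : ℂ) - 1) with hc
  set Δ : (ZMod p)ˣ → ℂ := fun x => ∑ u : (ZMod p)ˣ, F u * G (x * u⁻¹) - c with hΔ
  -- the Fourier coefficients of the convolution
  have hconv : ∀ χ : DirichletCharacter ℂ p,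
      ∑ x : (ZMod p)ˣ, (∑ u : (ZMod p)ˣ, F u * G (x * u⁻¹)) * χ (x : ZMod p) =
      (∑ u : (ZMod p)ˣ, F u * χ (u : ZMod p)) * ∑ u : (ZMod p)ˣ, G u * χ (u : ZMod p) := by
    intro χ
    simp only [sum_mul]
    rw [sum_comm]
    refine sum_congr rfl fun u _ => ?_
    rw [mul_sum]
    refine (Fintype.sum_equiv (Equiv.mulRight u) _ _ fun y => ?_).symm
    simp only [Equiv.coe_mulRight, mul_inv_cancel_right, Units.val_mul, map_mul]
    ring
  have hone : ∀ χ : DirichletCharacter ℂ p, χ ≠ 1 → ∑ x : (ZMod p)ˣ, χ (x : ZMod p) = 0 := by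
    intro χ hχ
    obtain ⟨a, ha⟩ := (MulChar.ne_one_iff).1 hχ
    have h1 : χ (a : ZMod p) * ∑ x : (ZMod p)ˣ, χ (x : ZMod p) = ∑ x : (ZMod p)ˣ, χ (x : ZMod p) := by
      rw [mul_sum]
      refine Fintype.sum_equiv (Equiv.mulLeft a) _ _ fun y => ?_
      simp only [Equiv.coe_mulLeft, Units.val_mul, map_mul]
    have h2 : (χ (a : ZMod p) - 1) * ∑ x : (ZMod p)ˣ, χ (x : ZMod p) = 0 := by
      linear_combination h1
    rcases mul_eq_zero.1 h2 with h3 | h3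
    · exact absurd (by linear_combination h3) ha
    · exact h3
  have hcoef : ∀ χ : DirichletCharacter ℂ p, ‖∑ x : (ZMod p)ˣ, Δ x * χ (x : ZMod p)‖ ^ 2 ≤
      V ^ 2 * ‖∑ u : (ZMod p)ˣ, F u * χ (u : ZMod p)‖ ^ 2 := by
    intro χ
    have h1 : ∑ x : (ZMod p)ˣ, Δ x * χ (x : ZMod p) =
        (∑ u : (ZMod p)ˣ, F u * χ (u : ZMod p)) * (∑ u : (ZMod p)ˣ, G u * χ (u : ZMod p)) -
          c * ∑ x : (ZMod p)ˣ, χ (x : ZMod p) := by
      rw [← hconv χ, mul_sum, ← sum_sub_distrib]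
      refine sum_congr rfl fun x _ => ?_
      rw [hΔ]
      ring
    by_cases hχ : χ = 1
    · have h2 : ∑ x : (ZMod p)ˣ, Δ x * χ (x : ZMod p) = 0 := by
        rw [h1, hχ]
        have h3 : ∀ u : (ZMod p)ˣ, (1 : DirichletCharacter ℂ p) (u : ZMod p) = 1 :=
          fun u => MulChar.one_apply_coe u
        simp only [h3, mul_one, sum_const, card_univ, ZMod.card_units_eq_totient,
          Nat.totient_prime hpp, nsmul_eq_mul, Nat.cast_sub hpp.one_le, Nat.cast_one]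
        rw [hc]
        field_simp
        ring
      rw [h2, norm_zero, zero_pow two_ne_zero]
      positivity
    · rw [h1, hone χ hχ, mul_zero, sub_zero, norm_mul, mul_pow, mul_comm]
      gcongr
      exact hG χ hχ
  have hpar := x2a_parseval p Δ
  have hparF := x2a_parseval p F
  have hle : ((p : ℝ) - 1) * ∑ u : (ZMod p)ˣ, ‖Δ u‖ ^ 2 ≤
      ((p : ℝ) - 1) * (V ^ 2 * ∑ u : (ZMod p)ˣ, ‖F u‖ ^ 2) := by
    rw [← hpar]
    calc ∑ χ : DirichletCharacter ℂ p, ‖∑ u : (ZMod p)ˣ, Δ u * χ (u : ZMod p)‖ ^ 2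
        ≤ ∑ χ : DirichletCharacter ℂ p, V ^ 2 * ‖∑ u : (ZMod p)ˣ, F u * χ (u : ZMod p)‖ ^ 2 :=
          sum_le_sum fun χ _ => hcoef χ
      _ = V ^ 2 * (((p : ℝ) - 1) * ∑ u : (ZMod p)ˣ, ‖F u‖ ^ 2) := by rw [← mul_sum, hparF]
      _ = _ := by ring
  exact le_of_mul_le_mul_left hle (by linarith)

end Pool.Agent.EPK
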