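import Pool.Agent.EPK.X2a

/-!
# [EPK-X2b] the variance over the classes
-/

set_option autoImplicit false

namespace Pool.Agent.EPK

open Finset Pool.Agent.MP_2f88e5_nt

/-- sums over units -/
theorem x2b_units (p : ℕ) [Fact p.Prime] {M : Type*} [AddCommMonoid M] (f : ZMod p → M) :
    ∑ u : (ZMod p)ˣ, f (u : ZMod p) = ∑ n ∈ Icc 1 (p - 1), f (n : ZMod p) := by
  have hpp : p.Prime := Fact.out
  refine sum_bij' (fun u _ => ((u : (ZMod p)ˣ) : ZMod p).val)
    (fun n hn => ZMod.unitOfCoprime n (by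
      rw [mem_Icc] at hn
      exact (Nat.Coprime.symm ((Nat.Prime.coprime_iff_not_dvd hpp).2 fun h =>
        absurd (Nat.le_of_dvd (by omega) h) (by omega))))) ?_ ?_ ?_ ?_ ?_
  · intro u _
    rw [mem_Icc]
    have h1 : ((u : (ZMod p)ˣ) : ZMod p) ≠ 0 := u.ne_zero
    have h2 : 0 < ((u : (ZMod p)ˣ) : ZMod p).val := by
      rw [Nat.pos_iff_ne_zero]
      intro h3
      exact h1 ((ZMod.val_eq_zero _).1 h3)
    have h3 := ZMod.val_lt ((u : (ZMod p)ˣ) : ZMod p)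
    omega
  · intro n _
    exact mem_univ _
  · intro u _
    ext
    rw [ZMod.coe_unitOfCoprime, ZMod.natCast_zmod_val]
  · intro n hn
    rw [mem_Icc] at hn
    rw [ZMod.coe_unitOfCoprime, ZMod.val_natCast_of_lt (by omega)]
  · intro u _
    rw [ZMod.natCast_zmod_val]

/-- [X2b] The variance of `AA` over the classes `x`, for `Y = p - 1`.

Proof. `rr_iff` with `Y = p - 1`: `AA p x (p - 1) d = ∑_n Λ(n) 1[x / (d n) ∈ {1, ..., K}]`, `K = (p - 1) / d`. `conv_variance` with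
`F u = Λ(n)` for `u = n` (`n = u.val ∈ [1, p - 1]`) and `G v = 1` if `(v / d).val ∈ [1, K]`, else `0`: the Fourier coefficient of `G` is
`χ(d) ∑_{k ≤ K} χ(k)`, `V = √p (3 + log p)` by `polya_vinogradov`. `∑_u |F u|² = ∑ Λ(n)² ≤ (p - 1) log² p`. The mean is
`PS p * K / (p - 1)`. Replace it by `PS p / d`: the difference is at most `PS p / (p - 1) ≤ 12`. (`(a + b)² ≤ 2 a² + 2 b²`;
`288 p ≤ 288 p² ...` fine.) -/
theorem AA_variance (p : ℕ) [Fact p.Prime] (hp : 100 ≤ p) (d : ℕ) (hd1 : 1 ≤ d) (hdp : d < p) :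
    ∑ x ∈ Icc 1 (p - 1), (AA p (x : ZMod p) (p - 1) d - PS p / d) ^ 2 ≤
      300 * (p : ℝ) ^ 2 * (3 + Real.log p) ^ 4 := by
  classical
  have hpp : p.Prime := Fact.out
  have hp0 : (0 : ℝ) < p := by exact_mod_cast hpp.pos
  have hp1 : (1 : ℝ) ≤ p := by exact_mod_cast hpp.one_le
  have hlogp : 0 ≤ Real.log p := Real.log_natCast_nonneg p
  set K : ℕ := (p - 1) / d with hK
  have hKp : K < p := by
    have : K ≤ p - 1 := Nat.div_le_self _ _
    omega
  have hdz : (d : ZMod p) ≠ 0 := by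
    rw [Ne, ZMod.natCast_eq_zero_iff]
    exact fun h => absurd (Nat.le_of_dvd (by omega) h) (by omega)
  set F' : ZMod p → ℂ := fun a => ((ArithmeticFunction.vonMangoldt a.val : ℝ) : ℂ) with hF'
  set F : (ZMod p)ˣ → ℂ := fun u => F' (u : ZMod p) with hF
  set G' : ZMod p → ℂ := fun a => if ∃ k ∈ Ioc 0 K, (k : ZMod p) = a * ((d : ZMod p))⁻¹ then 1 else 0
    with hG'
  set G : (ZMod p)ˣ → ℂ := fun u => G' (u : ZMod p) with hG
  -- `G'` as a sum
  have hG'sum : ∀ a : ZMod p, G' a = ∑ k ∈ Ioc 0 K, if a = (k : ZMod p) * (d : ZMod p) then (1 : ℂ) else 0 := by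
    intro a
    have hiff : ∀ k : ℕ, ((k : ZMod p) = a * ((d : ZMod p))⁻¹) ↔ a = (k : ZMod p) * (d : ZMod p) := by
      intro k
      constructor
      · intro h
        rw [h, inv_mul_cancel_right₀ hdz]
      · intro h
        rw [h, mul_inv_cancel_right₀ hdz]
    rw [hG']
    simp only [hiff]
    by_cases h : ∃ k ∈ Ioc 0 K, a = (k : ZMod p) * (d : ZMod p)
    · rw [if_pos h]
      obtain ⟨k, hk, hka⟩ := h
      rw [sum_eq_single k]
      · rw [if_pos hka]
      · intro j hj hjk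
        rw [if_neg]
        intro hja
        apply hjk
        have h1 : (j : ZMod p) = (k : ZMod p) := mul_right_cancel₀ hdz (hja.symm.trans hka)
        rw [mem_Ioc] at hj hk
        have h2 := (ZMod.natCast_eq_natCast_iff' _ _ _).1 h1
        rwa [Nat.mod_eq_of_lt (by omega), Nat.mod_eq_of_lt (by omega)] at h2
      · intro h1
        exact absurd hk h1
    · rw [if_neg h]
      push Not at h
      refine (sum_eq_zero fun k hk => ?_).symm
      rw [if_neg (h k hk)]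
  -- the Fourier coefficients
  have hsumG : ∀ f : ZMod p → ℂ, ∑ u : (ZMod p)ˣ, G u * f (u : ZMod p) =
      ∑ k ∈ Ioc 0 K, f ((k : ZMod p) * (d : ZMod p)) := by
    intro f
    have h1 : ∑ u : (ZMod p)ˣ, G u * f (u : ZMod p) =
        ∑ n ∈ Icc 1 (p - 1), G' (n : ZMod p) * f (n : ZMod p) :=
      x2b_units p (fun a => G' a * f a)
    rw [h1]
    simp only [hG'sum, sum_mul]
    rw [sum_comm]
    refine sum_congr rfl fun k hk => ?_
    rw [mem_Ioc] at hk
    have hkz : (k : ZMod p) ≠ 0 := by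
      rw [Ne, ZMod.natCast_eq_zero_iff]
      exact fun h => absurd (Nat.le_of_dvd (by omega) h) (by omega)
    have hkd : (k : ZMod p) * (d : ZMod p) ≠ 0 := mul_ne_zero hkz hdz
    set n₀ : ℕ := ((k : ZMod p) * (d : ZMod p)).val with hn₀
    have hn₀c : (n₀ : ZMod p) = (k : ZMod p) * (d : ZMod p) := ZMod.natCast_zmod_val _
    have hn₀pos : 0 < n₀ := by
      rw [Nat.pos_iff_ne_zero]
      intro h3
      exact hkd ((ZMod.val_eq_zero _).1 h3)
    have hn₀lt : n₀ < p := ZMod.val_lt _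
    rw [sum_eq_single n₀]
    · rw [if_pos hn₀c, one_mul, hn₀c]
    · intro n hn hne
      rw [mem_Icc] at hn
      rw [if_neg, zero_mul]
      intro h2
      apply hne
      rw [← hn₀c] at h2
      have h3 := (ZMod.natCast_eq_natCast_iff' _ _ _).1 h2
      rwa [Nat.mod_eq_of_lt (by omega), Nat.mod_eq_of_lt (by omega)] at h3
    · intro h2
      exfalso
      apply h2
      rw [mem_Icc]
      omega
  set V : ℝ := Real.sqrt p * (3 + Real.log p) with hV
  have hV0 : 0 ≤ V := by positivity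
  have hGχ : ∀ χ : MulChar (ZMod p) ℂ, χ ≠ 1 → ‖∑ u : (ZMod p)ˣ, G u * χ (u : ZMod p)‖ ≤ V := by
    intro χ hχ
    rw [hsumG (fun a => χ a)]
    have h1 : ∑ k ∈ Ioc 0 K, χ ((k : ZMod p) * (d : ZMod p)) =
        (∑ k ∈ Ioc 0 K, χ (k : ZMod p)) * χ (d : ZMod p) := by
      rw [sum_mul]
      refine sum_congr rfl fun k _ => ?_
      rw [map_mul]
    rw [h1, norm_mul]
    have h2 : ‖χ (d : ZMod p)‖ ≤ 1 := by
      obtain ⟨u, hu⟩ := (isUnit_iff_ne_zero.2 hdz)
      rw [← hu]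
      have h3 : (χ (u : ZMod p)) ^ (Fintype.card (ZMod p)ˣ) = 1 := by
        rw [← map_pow, ← Units.val_pow_eq_pow_val, pow_card_eq_one, Units.val_one, map_one]
      exact (Complex.norm_eq_one_of_pow_eq_one h3 Fintype.card_ne_zero).le
    calc ‖∑ k ∈ Ioc 0 K, χ (k : ZMod p)‖ * ‖χ (d : ZMod p)‖ ≤ V * 1 := by
          gcongr
          exact polya_vinogradov p (by omega) χ hχ K hKp
      _ = V := mul_one V
  have hvar := conv_variance p F G V hV0 hGχ
  -- the sums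
  have hF1 : ∑ u : (ZMod p)ˣ, F u = ((PS p : ℝ) : ℂ) := by
    have h1 : ∑ u : (ZMod p)ˣ, F u = ∑ n ∈ Icc 1 (p - 1), F' (n : ZMod p) := x2b_units p F'
    rw [h1]
    unfold PS
    rw [Complex.ofReal_sum]
    refine sum_congr rfl fun n hn => ?_
    rw [mem_Icc] at hn
    rw [hF']
    simp only
    rw [ZMod.val_natCast_of_lt (by omega)]
  have hG1 : ∑ u : (ZMod p)ˣ, G u = ((K : ℝ) : ℂ) := by
    have h1 := hsumG (fun _ => 1)
    simp only [mul_one, sum_const, Nat.card_Ioc, nsmul_eq_mul, Nat.sub_zero] at h1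
    rw [h1]
    simp
  have hF2 : ∑ u : (ZMod p)ˣ, ‖F u‖ ^ 2 ≤ p * (3 + Real.log p) ^ 2 := by
    have h1 : ∑ u : (ZMod p)ˣ, ‖F u‖ ^ 2 = ∑ n ∈ Icc 1 (p - 1), ‖F' (n : ZMod p)‖ ^ 2 :=
      x2b_units p (fun a => ‖F' a‖ ^ 2)
    rw [h1]
    calc ∑ n ∈ Icc 1 (p - 1), ‖F' (n : ZMod p)‖ ^ 2 ≤
          ∑ n ∈ Icc 1 (p - 1), (3 + Real.log p) ^ 2 := by
          refine sum_le_sum fun n hn => ?_
          rw [mem_Icc] at hn
          rw [hF']
          simp only
          rw [ZMod.val_natCast_of_lt (by omega), Complex.norm_real, Real.norm_eq_abs,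
            abs_of_nonneg ArithmeticFunction.vonMangoldt_nonneg]
          have h2 : ArithmeticFunction.vonMangoldt n ≤ 3 + Real.log p := by
            refine le_trans ArithmeticFunction.vonMangoldt_le_log ?_
            have h3 : Real.log n ≤ Real.log p :=
              Real.log_le_log (by exact_mod_cast hn.1) (by exact_mod_cast (by omega : n ≤ p))
            linarith
          exact pow_le_pow_left₀ ArithmeticFunction.vonMangoldt_nonneg h2 2
      _ = ((p - 1 : ℕ) : ℝ) * (3 + Real.log p) ^ 2 := by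
          rw [sum_const, Nat.card_Icc, nsmul_eq_mul, Nat.add_sub_cancel]
      _ ≤ p * (3 + Real.log p) ^ 2 := by
          have : ((p - 1 : ℕ) : ℝ) ≤ p := by exact_mod_cast (by omega : p - 1 ≤ p)
          gcongr
  -- the convolution
  have hH : ∀ x : (ZMod p)ˣ, ∑ u : (ZMod p)ˣ, F u * G (x * u⁻¹) =
      ((AA p (x : ZMod p) (p - 1) d : ℝ) : ℂ) := by
    intro x
    have h1 : ∑ u : (ZMod p)ˣ, F u * G (x * u⁻¹) =
        ∑ n ∈ Icc 1 (p - 1), F' (n : ZMod p) * G' ((x : ZMod p) * ((n : ZMod p))⁻¹) := by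
      rw [← x2b_units p (fun a => F' a * G' ((x : ZMod p) * a⁻¹))]
      refine sum_congr rfl fun u _ => ?_
      rw [hF, hG]
      simp only [Units.val_mul, Units.val_inv_eq_inv_val]
    rw [h1]
    unfold AA
    rw [sum_filter, Complex.ofReal_sum]
    refine sum_congr rfl fun n hn => ?_
    rw [mem_Icc] at hn
    have h2 := rr_iff p (x : ZMod p) x.ne_zero (p - 1) d n (by omega) hd1 hdp hn.1 (by omega)
    have h3 : G' ((x : ZMod p) * ((n : ZMod p))⁻¹) =
        if d ∣ rr p (x : ZMod p) n ∧ rr p (x : ZMod p) n ≤ p - 1 then 1 else 0 := by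
      have h4 : (x : ZMod p) * ((n : ZMod p))⁻¹ * ((d : ZMod p))⁻¹ =
          (x : ZMod p) * ((d : ZMod p))⁻¹ * ((n : ZMod p))⁻¹ := by ring
      have h5 : (d ∣ rr p (x : ZMod p) n ∧ rr p (x : ZMod p) n ≤ p - 1) ↔
          ∃ k ∈ Ioc 0 K, (k : ZMod p) = (x : ZMod p) * ((n : ZMod p))⁻¹ * ((d : ZMod p))⁻¹ := by
        rw [h2, h4]
      rw [hG']
      simp only
      by_cases hc : ∃ k ∈ Ioc 0 K, (k : ZMod p) = (x : ZMod p) * ((n : ZMod p))⁻¹ * ((d : ZMod p))⁻¹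
      · rw [if_pos hc, if_pos (h5.2 hc)]
      · rw [if_neg hc, if_neg (fun h => hc (h5.1 h))]
    rw [h3, hF']
    simp only
    rw [ZMod.val_natCast_of_lt (by omega)]
    split_ifs <;> simp
  rw [hF1, hG1] at hvar
  simp only [hH] at hvar
  -- as a real sum over `Icc`
  obtain ⟨-, hch2, hch3⟩ := cheb p hp
  set M₀ : ℝ := PS p * K / ((p : ℝ) - 1) with hM₀
  have hvar2 : ∑ x ∈ Icc 1 (p - 1), (AA p (x : ZMod p) (p - 1) d - M₀) ^ 2 ≤
      V ^ 2 * (p * (3 + Real.log p) ^ 2) := by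
    have h1 : ∑ x : (ZMod p)ˣ, ‖((AA p (x : ZMod p) (p - 1) d : ℝ) : ℂ) -
        ((PS p : ℝ) : ℂ) * ((K : ℝ) : ℂ) / ((p : ℂ) - 1)‖ ^ 2 =
        ∑ x ∈ Icc 1 (p - 1), (AA p (x : ZMod p) (p - 1) d - M₀) ^ 2 := by
      rw [← x2b_units p (fun a => (AA p a (p - 1) d - M₀) ^ 2)]
      refine sum_congr rfl fun u _ => ?_
      have h2 : ((AA p (u : ZMod p) (p - 1) d : ℝ) : ℂ) -
        ((PS p : ℝ) : ℂ) * ((K : ℝ) : ℂ) / ((p : ℂ) - 1) =
          ((AA p (u : ZMod p) (p - 1) d - M₀ : ℝ) : ℂ) := by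
        rw [hM₀]
        push_cast
        ring
      rw [h2, Complex.norm_real, Real.norm_eq_abs, sq_abs]
    rw [← h1]
    refine le_trans hvar ?_
    gcongr
  have hdiff : (M₀ - PS p / d) ^ 2 ≤ 144 := by
    have hp1' : (0 : ℝ) < (p : ℝ) - 1 := by
      have : (100 : ℝ) ≤ p := by exact_mod_cast hp
      linarith
    have hd0 : (0 : ℝ) < d := by exact_mod_cast hd1
    have hPS0 : 0 ≤ PS p := by linarith
    have h1 : (K : ℝ) ≤ ((p : ℝ) - 1) / d := by
      have h2 : ((K : ℕ) : ℝ) ≤ ((p - 1 : ℕ) : ℝ) / d := Nat.cast_div_le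
      rwa [Nat.cast_sub hpp.one_le, Nat.cast_one] at h2
    have h2 : ((p : ℝ) - 1) / d - 1 ≤ K := by
      have h3 : (p - 1) < d * (K + 1) := by
        rw [hK]
        exact Nat.lt_mul_div_succ _ (by omega)
      have h4 : ((p - 1 : ℕ) : ℝ) < d * (K + 1) := by exact_mod_cast h3
      rw [Nat.cast_sub hpp.one_le, Nat.cast_one] at h4
      rw [sub_le_iff_le_add, div_le_iff₀ hd0]
      linarith
    have h3 : M₀ - PS p / d = PS p / ((p : ℝ) - 1) * (K - ((p : ℝ) - 1) / d) := by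
      rw [hM₀]
      field_simp
    have h4 : PS p / ((p : ℝ) - 1) ≤ 12 := by
      rw [div_le_iff₀ hp1']
      have : (100 : ℝ) ≤ p := by exact_mod_cast hp
      linarith
    have h5 : 0 ≤ PS p / ((p : ℝ) - 1) := by positivity
    rw [h3, mul_pow]
    have h6 : (PS p / ((p : ℝ) - 1)) ^ 2 ≤ 144 := by nlinarith
    have h7 : (K - ((p : ℝ) - 1) / d) ^ 2 ≤ 1 := by nlinarith
    nlinarith [sq_nonneg (PS p / ((p : ℝ) - 1)), sq_nonneg (K - ((p : ℝ) - 1) / d)]
  calc ∑ x ∈ Icc 1 (p - 1), (AA p (x : ZMod p) (p - 1) d - PS p / d) ^ 2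
      ≤ ∑ x ∈ Icc 1 (p - 1), (2 * (AA p (x : ZMod p) (p - 1) d - M₀) ^ 2 + 288) := by
        refine sum_le_sum fun x _ => ?_
        have h1 : AA p (x : ZMod p) (p - 1) d - PS p / d =
            (AA p (x : ZMod p) (p - 1) d - M₀) + (M₀ - PS p / d) := by ring
        rw [h1]
        nlinarith [sq_nonneg ((AA p (x : ZMod p) (p - 1) d - M₀) - (M₀ - PS p / d))]
    _ = 2 * ∑ x ∈ Icc 1 (p - 1), (AA p (x : ZMod p) (p - 1) d - M₀) ^ 2 +
          288 * ((p - 1 : ℕ) : ℝ) := by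
        rw [sum_add_distrib, ← mul_sum, sum_const, Nat.card_Icc, nsmul_eq_mul, Nat.add_sub_cancel]
        ring
    _ ≤ 2 * (V ^ 2 * (p * (3 + Real.log p) ^ 2)) + 288 * p := by
        have : ((p - 1 : ℕ) : ℝ) ≤ p := by exact_mod_cast (by omega : p - 1 ≤ p)
        gcongr
    _ = 2 * ((p : ℝ) ^ 2 * (3 + Real.log p) ^ 4) + 288 * p := by
        rw [hV, mul_pow, Real.sq_sqrt hp0.le]
        ring
    _ ≤ 300 * (p : ℝ) ^ 2 * (3 + Real.log p) ^ 4 := by
        have h7 : (1 : ℝ) ≤ (3 + Real.log p) ^ 4 := one_le_pow₀ (by linarith)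
        have h8 : (p : ℝ) ≤ (p : ℝ) ^ 2 := by nlinarith
        have h9 : (p : ℝ) ≤ (p : ℝ) ^ 2 * (3 + Real.log p) ^ 4 := by nlinarith
        linarith

end Pool.Agent.EPK
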