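import Pool.Agent.EPK.X2
import Pool.Agent.EPK.F2

/-!
# [EPK-X3] almost every class is a prime times a number with few prime factors
-/

set_option autoImplicit false

namespace Pool.Agent.EPK

open Finset Filter

/-- powers beat constants and logarithms -/
theorem x3_ev (K a b : ℝ) (j : ℕ) (hab : a < b) :
    ∀ᶠ p : ℕ in atTop, K * (p : ℝ) ^ a * (3 + Real.log p) ^ j ≤ (p : ℝ) ^ b := by
  obtain ⟨C, hC1, hC⟩ := log_absorb ((b - a) / 2) (by linarith) j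
  have ht : Tendsto (fun p : ℕ => (p : ℝ) ^ ((b - a) / 2)) atTop atTop :=
    (tendsto_rpow_atTop (by linarith)).comp tendsto_natCast_atTop_atTop
  filter_upwards [ht.eventually_ge_atTop (|K| * C), eventually_ge_atTop 1] with p h1 h2
  have hp : (0 : ℝ) < p := by exact_mod_cast h2
  have hpa : 0 < (p : ℝ) ^ a := Real.rpow_pos_of_pos hp a
  have hlog : 0 ≤ Real.log p := Real.log_natCast_nonneg p
  have h3 := hC p h2
  calc K * (p : ℝ) ^ a * (3 + Real.log p) ^ j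
      ≤ |K| * (p : ℝ) ^ a * (3 + Real.log p) ^ j := by
        gcongr
        exact le_abs_self K
    _ ≤ |K| * (p : ℝ) ^ a * (C * (p : ℝ) ^ ((b - a) / 2)) := by gcongr
    _ = (|K| * C) * ((p : ℝ) ^ a * (p : ℝ) ^ ((b - a) / 2)) := by ring
    _ ≤ (p : ℝ) ^ ((b - a) / 2) * ((p : ℝ) ^ a * (p : ℝ) ^ ((b - a) / 2)) := by gcongr
    _ = (p : ℝ) ^ b := by
        rw [← Real.rpow_add hp, ← Real.rpow_add hp]
        congr 1
        ring

/-- the second moment of the total error over the classes -/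
theorem x3_second (p : ℕ) [Fact p.Prime] (hp : 100 ≤ p) (D : ℕ) (hD : D < p) :
    ∑ x ∈ Icc 1 (p - 1), (∑ d ∈ Icc 1 D, |AA p (x : ZMod p) (p - 1) d -
      PS p * (((p - 1 : ℕ) : ℝ) / p) / d|) ^ 2 ≤
      (D : ℝ) ^ 2 * (700 * (p : ℝ) ^ 2 * (3 + Real.log p) ^ 4) := by
  have hp0 : (0 : ℝ) < p := by exact_mod_cast (by omega : 0 < p)
  obtain ⟨-, hch2, hch3⟩ := cheb p hp
  have hlog : 0 ≤ Real.log p := Real.log_natCast_nonneg p
  have h1 : ∀ d ∈ Icc 1 D, ∑ x ∈ Icc 1 (p - 1), (AA p (x : ZMod p) (p - 1) d -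
      PS p * (((p - 1 : ℕ) : ℝ) / p) / d) ^ 2 ≤ 700 * (p : ℝ) ^ 2 * (3 + Real.log p) ^ 4 := by
    intro d hd
    rw [mem_Icc] at hd
    have hd0 : (1 : ℝ) ≤ d := by exact_mod_cast hd.1
    have h2 := AA_variance p hp d hd.1 (by omega)
    have h3 : ∀ x ∈ Icc 1 (p - 1), (AA p (x : ZMod p) (p - 1) d -
        PS p * (((p - 1 : ℕ) : ℝ) / p) / d) ^ 2 ≤
        2 * (AA p (x : ZMod p) (p - 1) d - PS p / d) ^ 2 + 72 := by
      intro x _
      have h4 : AA p (x : ZMod p) (p - 1) d - PS p * (((p - 1 : ℕ) : ℝ) / p) / d =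
          (AA p (x : ZMod p) (p - 1) d - PS p / d) + PS p / (p * d) := by
        rw [Nat.cast_sub (by omega)]
        field_simp
        push_cast
        ring
      have h5 : 0 ≤ PS p / (p * d) := by
        have : 0 ≤ PS p := by linarith
        positivity
      have h6 : PS p / (p * d) ≤ 6 := by
        rw [div_le_iff₀ (by positivity)]
        nlinarith
      rw [h4]
      nlinarith [sq_nonneg ((AA p (x : ZMod p) (p - 1) d - PS p / d) - PS p / (p * d))]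
    calc ∑ x ∈ Icc 1 (p - 1), (AA p (x : ZMod p) (p - 1) d -
          PS p * (((p - 1 : ℕ) : ℝ) / p) / d) ^ 2
        ≤ ∑ x ∈ Icc 1 (p - 1), (2 * (AA p (x : ZMod p) (p - 1) d - PS p / d) ^ 2 + 72) :=
          sum_le_sum h3
      _ = 2 * ∑ x ∈ Icc 1 (p - 1), (AA p (x : ZMod p) (p - 1) d - PS p / d) ^ 2 +
            72 * ((p - 1 : ℕ) : ℝ) := by
          rw [sum_add_distrib, ← mul_sum, sum_const, Nat.card_Icc, nsmul_eq_mul,
            Nat.add_sub_cancel]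
          ring
      _ ≤ 2 * (300 * (p : ℝ) ^ 2 * (3 + Real.log p) ^ 4) + 72 * p := by
          have : ((p - 1 : ℕ) : ℝ) ≤ p := by exact_mod_cast (by omega : p - 1 ≤ p)
          gcongr
      _ ≤ 700 * (p : ℝ) ^ 2 * (3 + Real.log p) ^ 4 := by
          have h7 : (1 : ℝ) ≤ (3 + Real.log p) ^ 4 := one_le_pow₀ (by linarith)
          have h8 : (p : ℝ) ≤ (p : ℝ) ^ 2 := by
            have : (1 : ℝ) ≤ p := by exact_mod_cast (by omega : 1 ≤ p)
            nlinarith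
          have h9 : (p : ℝ) ≤ (p : ℝ) ^ 2 * (3 + Real.log p) ^ 4 := by nlinarith
          linarith
  calc ∑ x ∈ Icc 1 (p - 1), (∑ d ∈ Icc 1 D, |AA p (x : ZMod p) (p - 1) d -
      PS p * (((p - 1 : ℕ) : ℝ) / p) / d|) ^ 2
      ≤ ∑ x ∈ Icc 1 (p - 1), (D : ℝ) * ∑ d ∈ Icc 1 D, (AA p (x : ZMod p) (p - 1) d -
          PS p * (((p - 1 : ℕ) : ℝ) / p) / d) ^ 2 := by
        refine sum_le_sum fun x _ => ?_
        have h2 := sq_sum_le_card_mul_sum_sq (s := Icc 1 D)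
          (f := fun d : ℕ => |AA p (x : ZMod p) (p - 1) d - PS p * (((p - 1 : ℕ) : ℝ) / p) / d|)
        simp only [sq_abs, Nat.card_Icc, Nat.add_sub_cancel] at h2
        exact h2
    _ = (D : ℝ) * ∑ d ∈ Icc 1 D, ∑ x ∈ Icc 1 (p - 1), (AA p (x : ZMod p) (p - 1) d -
          PS p * (((p - 1 : ℕ) : ℝ) / p) / d) ^ 2 := by
        rw [← mul_sum, sum_comm]
    _ ≤ (D : ℝ) * ∑ d ∈ Icc 1 D, 700 * (p : ℝ) ^ 2 * (3 + Real.log p) ^ 4 := by
        gcongr with d hd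
        exact h1 d hd
    _ = (D : ℝ) ^ 2 * (700 * (p : ℝ) ^ 2 * (3 + Real.log p) ^ 4) := by
        rw [sum_const, Nat.card_Icc, nsmul_eq_mul, Nat.add_sub_cancel]
        ring

/-- [X3] For every `k ≥ 3` and every large prime `p`, all but `p^(2/(k - 9/10))` classes are `q m`, `q < p` prime, `m < p` with at most
`k` prime factors.

Proof. Let `δ = 1 / (k - 7/8)`, `z = ⌊p^(δ/5)⌋`, so `z⁵ ≤ p^δ`. For a class `x` let `E(x) = ∑_{d ≤ z⁵} |AA p x (p-1) d - PS p (p-1)/(p d)|`. By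
Cauchy-Schwarz and `AA_variance` (and `PS p / p ≤ 6`), `∑_x E(x)² ≤ z⁵ ∑_d ... ≤ C z¹⁰ p² (3 + log p)⁴`. If `E(x) ≤ p^(1 - η)` with small
`η`, then `count_primes` (`Y = p - 1`) gives a prime `q` and an `m` with `Ω(m) < 37/20 + log p / (5 log z) ≤ k + 0.98`, so `Ω(m) ≤ k`.
The number of the other `x` is at most `∑ E² / p^(2 - 2η) ≤ C p^(2δ + 2η) (3 + log p)⁴ ≤ p^(2/(k - 9/10))`. -/
theorem prime_times_Pk (k : ℕ) (hk : 3 ≤ k) : ∃ p₀ : ℕ, ∀ p : ℕ, p.Prime → p₀ ≤ p →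
    (Set.ncard {x : ℕ | 1 ≤ x ∧ x < p ∧ ¬ ∃ q m : ℕ, q.Prime ∧ q < p ∧ 0 < m ∧ m < p ∧
      Squarefree m ∧ ArithmeticFunction.cardFactors m ≤ k ∧ q * m ≡ x [MOD p]} : ℝ) ≤
      (p : ℝ) ^ (2 / ((k : ℝ) - 9 / 10)) := by
  classical
  have hk3 : (3 : ℝ) ≤ k := by exact_mod_cast hk
  set δ : ℝ := 1 / ((k : ℝ) - 7 / 8) with hδ
  have hkδ : 0 < (k : ℝ) - 7 / 8 := by linarith
  have hδ0 : 0 < δ := by rw [hδ]; positivity
  have hδ1 : δ ≤ 1 / 2 := by
    rw [hδ, div_le_div_iff₀ hkδ (by norm_num)]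
    linarith
  have hδk : δ * ((k : ℝ) - 7 / 8) = 1 := by
    rw [hδ, one_div, inv_mul_cancel₀ hkδ.ne']
  have hβ : δ < 1 / ((k : ℝ) - 9 / 10) := by
    rw [hδ, div_lt_div_iff₀ hkδ (by linarith)]
    linarith
  set β : ℝ := 1 / ((k : ℝ) - 9 / 10) with hβdef
  set η : ℝ := (β - δ) / 2 with hη
  have hη0 : 0 < η := by rw [hη]; linarith
  set θ : ℝ := min (η / 4) (min (δ / 10) (1 / 4)) with hθ
  have hθ1 : θ ≤ η / 4 := min_le_left _ _
  have hθ2 : θ ≤ δ / 10 := le_trans (min_le_right _ _) (min_le_left _ _)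
  have hθ3 : θ ≤ 1 / 4 := le_trans (min_le_right _ _) (min_le_right _ _)
  have hθ0 : 0 < θ := by
    rw [hθ]
    refine lt_min (by linarith) (lt_min (by linarith) (by norm_num))
  obtain ⟨z₀, hz₀⟩ := MW_lower
  obtain ⟨C₁, hC₁1, hC₁⟩ := tau_le (η / 10) (by linarith)
  have hC10 : 0 ≤ C₁ := by linarith
  have ev : ∀ᶠ p : ℕ in atTop, 100 ≤ p ∧ (max (z₀ : ℝ) 2) + 1 ≤ (p : ℝ) ^ (δ / 5) ∧
      200 * k / δ ≤ Real.log p ∧
      (3 * C₁ ^ 5) * (p : ℝ) ^ (1 - η / 2) * (3 + Real.log p) ^ 0 ≤ (p : ℝ) ^ (1 - θ) ∧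
      2 * (p : ℝ) ^ (1 - δ / 5) * (3 + Real.log p) ^ 1 ≤ (p : ℝ) ^ (1 - θ) ∧
      2 * (p : ℝ) ^ (1 / 2 : ℝ) * (3 + Real.log p) ^ 1 ≤ (p : ℝ) ^ (1 - θ) ∧
      1201 * (p : ℝ) ^ (1 - θ) * (3 + Real.log p) ^ 1 ≤ (p : ℝ) ^ (1 : ℝ) ∧
      700 * (p : ℝ) ^ (2 * δ + 2 * η) * (3 + Real.log p) ^ 4 ≤ (p : ℝ) ^ (2 * β) := by
    refine (eventually_ge_atTop 100).and ?_
    refine Eventually.and ?_ ?_
    · have ht : Tendsto (fun p : ℕ => (p : ℝ) ^ (δ / 5)) atTop atTop :=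
        (tendsto_rpow_atTop (by linarith)).comp tendsto_natCast_atTop_atTop
      exact ht.eventually_ge_atTop _
    refine Eventually.and ?_ ?_
    · have ht : Tendsto (fun p : ℕ => Real.log (p : ℝ)) atTop atTop :=
        Real.tendsto_log_atTop.comp tendsto_natCast_atTop_atTop
      exact ht.eventually_ge_atTop _
    refine (x3_ev _ _ _ _ (by linarith)).and ?_
    refine (x3_ev _ _ _ _ (by linarith)).and ?_
    refine (x3_ev _ _ _ _ (by linarith)).and ?_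
    refine (x3_ev _ _ _ _ (by linarith)).and ?_
    exact x3_ev _ _ _ _ (by rw [hη]; linarith)
  obtain ⟨p₀, hp₀⟩ := eventually_atTop.1 ev
  refine ⟨p₀, ?_⟩
  intro p hpp hp
  obtain ⟨h100, hz1, hL, he1, he2, he3, he4, he5⟩ := hp₀ p hp
  haveI : Fact p.Prime := ⟨hpp⟩
  have hp0 : (0 : ℝ) < p := by exact_mod_cast hpp.pos
  have hp1 : (1 : ℝ) ≤ p := by exact_mod_cast hpp.one_le
  have hp1' : (1 : ℝ) < p := by exact_mod_cast hpp.one_lt
  have hlogp : 0 < Real.log p := Real.log_pos hp1'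
  set z : ℕ := ⌊(p : ℝ) ^ (δ / 5)⌋₊ with hzdef
  have hzle : (z : ℝ) ≤ (p : ℝ) ^ (δ / 5) := Nat.floor_le (by positivity)
  have hzlt : (p : ℝ) ^ (δ / 5) < z + 1 := Nat.lt_floor_add_one _
  have hzmax : max (z₀ : ℝ) 2 ≤ z := by linarith
  have hz2r : (2 : ℝ) ≤ z := le_trans (le_max_right _ _) hzmax
  have hz2 : 2 ≤ z := by exact_mod_cast hz2r
  have hzz : z₀ ≤ z := by exact_mod_cast le_trans (le_max_left _ _) hzmax
  have hzhalf : (p : ℝ) ^ (δ / 5) ≤ 2 * z := by linarith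
  have hz5 : ((z ^ 5 : ℕ) : ℝ) ≤ (p : ℝ) ^ δ := by
    push_cast
    calc (z : ℝ) ^ 5 ≤ ((p : ℝ) ^ (δ / 5)) ^ 5 := by gcongr
      _ = (p : ℝ) ^ δ := by
          rw [← Real.rpow_natCast, ← Real.rpow_mul hp0.le]
          congr 1
          push_cast
          ring
  have hz5p : z ^ 5 < p := by
    have h1 : (p : ℝ) ^ δ < (p : ℝ) ^ (1 : ℝ) :=
      Real.rpow_lt_rpow_of_exponent_lt hp1' (by linarith)
    rw [Real.rpow_one] at h1
    exact_mod_cast lt_of_le_of_lt hz5 h1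
  -- the divisor bound
  set T : ℝ := C₁ * (p : ℝ) ^ (η / 10) with hTdef
  have hT : TauLE (z ^ 5) T := by
    intro n hn1 hn2
    refine hC₁ p hpp.one_le n hn1 ?_
    have : p ≤ 16 * p ^ 4 := by
      calc p = 1 * p ^ 1 := by ring
        _ ≤ 16 * p ^ 4 := Nat.mul_le_mul (by norm_num) (Nat.pow_le_pow_right hpp.pos (by norm_num))
    omega
  -- logarithm of z
  have hlogz_le : Real.log z ≤ Real.log p := by
    calc Real.log z ≤ Real.log ((p : ℝ) ^ (δ / 5)) :=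
          Real.log_le_log (by linarith) hzle
      _ = δ / 5 * Real.log p := Real.log_rpow hp0 _
      _ ≤ 1 * Real.log p := by
          gcongr
          linarith
      _ = Real.log p := one_mul _
  have hlogz_ge : δ / 5 * Real.log p - 7 / 10 ≤ Real.log z := by
    have h2 : δ / 5 * Real.log p ≤ Real.log 2 + Real.log z := by
      rw [← Real.log_rpow hp0, ← Real.log_mul (by norm_num) (by linarith)]
      exact Real.log_le_log (by positivity) hzhalf
    have h3 : Real.log 2 < 0.6931471808 := Real.log_two_lt_d9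
    linarith
  have hδL : 200 * k ≤ δ * Real.log p := by
    rw [div_le_iff₀ hδ0] at hL
    linarith
  have hlogz_pos : 0 < Real.log z := by linarith
  have hΩ : Real.log p / (5 * Real.log z) ≤ k - 17 / 20 := by
    rw [div_le_iff₀ (by positivity)]
    have h1 : δ * Real.log p - 35 / 10 ≤ 5 * Real.log z := by linarith
    have h2 : 0 ≤ (k : ℝ) - 17 / 20 := by linarith
    have h3 : Real.log p = δ * ((k : ℝ) - 7 / 8) * Real.log p := by rw [hδk, one_mul]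
    calc Real.log p = ((k : ℝ) - 17 / 20) * (δ * Real.log p) - 1 / 40 * (δ * Real.log p) := by
          rw [h3]
          nlinarith [hδk]
      _ ≤ ((k : ℝ) - 17 / 20) * (δ * Real.log p) - 1 / 40 * (200 * k) := by linarith
      _ ≤ ((k : ℝ) - 17 / 20) * (δ * Real.log p - 35 / 10) := by nlinarith
      _ ≤ ((k : ℝ) - 17 / 20) * (5 * Real.log z) := by gcongr
  -- good classes are represented
  set Er : ℕ → ℝ := fun x => ∑ d ∈ Icc 1 (z ^ 5), |AA p (x : ZMod p) (p - 1) d -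
      PS p * (((p - 1 : ℕ) : ℝ) / p) / d| with hEr
  have hgood : ∀ x : ℕ, 1 ≤ x → x < p → Er x ≤ (p : ℝ) ^ (1 - η) →
      ∃ q m : ℕ, q.Prime ∧ q < p ∧ 0 < m ∧ m < p ∧
      Squarefree m ∧ ArithmeticFunction.cardFactors m ≤ k ∧ q * m ≡ x [MOD p] := by
    intro x hx1 hxp hx
    have hxz : (x : ZMod p) ≠ 0 := by
      rw [Ne, ZMod.natCast_eq_zero_iff]
      exact fun h => absurd (Nat.le_of_dvd (by omega) h) (by omega)
    have hcount := count_primes p h100 (x : ZMod p) hxz (p - 1) z hz2 (by omega) T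
      ((p : ℝ) ^ (1 - η)) hT hx (hz₀ z hzz)
    have hpos : 0 < ((p - 1 : ℕ) / (200 * Real.log z) - 3 * T ^ 5 * (p : ℝ) ^ (1 - η) -
        Real.log p * ((p - 1 : ℕ) / z) - 2 * Real.sqrt p * Real.log p) / Real.log p := by
      refine div_pos ?_ hlogp
      have h1 : 3 * T ^ 5 * (p : ℝ) ^ (1 - η) ≤ (p : ℝ) ^ (1 - θ) := by
        refine le_of_eq_of_le ?_ he1
        rw [hTdef, mul_pow, pow_zero, mul_one, ← Real.rpow_natCast ((p : ℝ) ^ (η / 10)) 5,
          ← Real.rpow_mul hp0.le, mul_assoc, mul_assoc, ← Real.rpow_add hp0, ← mul_assoc]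
        congr 2
        push_cast
        ring
      have h2 : Real.log p * (((p - 1 : ℕ) : ℝ) / z) ≤ (p : ℝ) ^ (1 - θ) := by
        have h3 : (((p - 1 : ℕ) : ℝ) / z) ≤ 2 * (p : ℝ) ^ (1 - δ / 5) := by
          rw [div_le_iff₀ (by linarith)]
          have h4 : (((p - 1 : ℕ) : ℝ)) ≤ p := by exact_mod_cast (by omega : p - 1 ≤ p)
          calc (((p - 1 : ℕ) : ℝ)) ≤ p := h4
            _ = (p : ℝ) ^ (1 - δ / 5) * (p : ℝ) ^ (δ / 5) := by
                rw [← Real.rpow_add hp0]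
                simp
            _ ≤ (p : ℝ) ^ (1 - δ / 5) * (2 * z) := by gcongr
            _ = 2 * (p : ℝ) ^ (1 - δ / 5) * z := by ring
        calc Real.log p * (((p - 1 : ℕ) : ℝ) / z) ≤
              (3 + Real.log p) ^ 1 * (2 * (p : ℝ) ^ (1 - δ / 5)) := by
              rw [pow_one]
              gcongr
              linarith
          _ = 2 * (p : ℝ) ^ (1 - δ / 5) * (3 + Real.log p) ^ 1 := by ring
          _ ≤ _ := he2
      have h3 : 2 * Real.sqrt p * Real.log p ≤ (p : ℝ) ^ (1 - θ) := by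
        calc 2 * Real.sqrt p * Real.log p ≤ 2 * (p : ℝ) ^ (1 / 2 : ℝ) * (3 + Real.log p) ^ 1 := by
              rw [pow_one, Real.sqrt_eq_rpow]
              gcongr
              linarith
          _ ≤ _ := he3
      have h4 : (p : ℝ) / (400 * (3 + Real.log p)) ≤ ((p - 1 : ℕ) : ℝ) / (200 * Real.log z) := by
        rw [div_le_div_iff₀ (by positivity) (by positivity), Nat.cast_sub hpp.one_le]
        have h5 : Real.log z ≤ 3 + Real.log p := by linarith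
        have h6 : (p : ℝ) ≤ 2 * (p - (1 : ℕ)) := by
          have : (100 : ℝ) ≤ p := by exact_mod_cast h100
          push_cast
          linarith
        have h7 : (0 : ℝ) ≤ 2 * (p - (1 : ℕ)) := le_trans hp0.le h6
        calc (p : ℝ) * (200 * Real.log z) ≤ 2 * (p - (1 : ℕ)) * (200 * (3 + Real.log p)) :=
              mul_le_mul h6 (by gcongr) (by positivity) h7
          _ = (p - (1 : ℕ)) * (400 * (3 + Real.log p)) := by ring
      have h5 : 3 * (p : ℝ) ^ (1 - θ) < (p : ℝ) / (400 * (3 + Real.log p)) := by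
        rw [lt_div_iff₀ (by positivity)]
        rw [Real.rpow_one, pow_one] at he4
        have h6 : 0 < (p : ℝ) ^ (1 - θ) * (3 + Real.log p) := by positivity
        nlinarith
      linarith
    have hnc : 0 < (Set.ncard {q : ℕ | q.Prime ∧ q < p ∧ ∃ m : ℕ, 0 < m ∧ m ≤ p - 1 ∧
        Squarefree m ∧
        (ArithmeticFunction.cardFactors m : ℝ) < 37 / 20 +
          Real.log ((p - 1 : ℕ) : ℝ) / (5 * Real.log z) ∧
        (∀ l : ℕ, l.Prime → l ∣ m → z < l) ∧ ((q * m : ℕ) : ZMod p) = x} : ℝ) :=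
      lt_of_lt_of_le hpos hcount
    rw [Nat.cast_pos] at hnc
    obtain ⟨q, hq, hqp, m, hm0, hmY, hsq, hcf, -, hcong⟩ :=
      Set.nonempty_of_ncard_ne_zero hnc.ne'
    refine ⟨q, m, hq, hqp, hm0, by omega, hsq, ?_, (ZMod.natCast_eq_natCast_iff _ _ _).1 hcong⟩
    have h1 : Real.log ((p - 1 : ℕ) : ℝ) ≤ Real.log p := by
      refine Real.log_le_log ?_ ?_
      · exact_mod_cast (by omega : 0 < p - 1)
      · exact_mod_cast (by omega : p - 1 ≤ p)
    have h2 : Real.log ((p - 1 : ℕ) : ℝ) / (5 * Real.log z) ≤ k - 17 / 20 := by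
      refine le_trans ?_ hΩ
      gcongr
    have h3 : (ArithmeticFunction.cardFactors m : ℝ) < k + 1 := by linarith
    have h4 : ArithmeticFunction.cardFactors m < k + 1 := by exact_mod_cast h3
    omega
  -- the bad classes
  set Bd : Finset ℕ := (Icc 1 (p - 1)).filter (fun x => (p : ℝ) ^ (1 - η) < Er x) with hBd
  have hsub : {x : ℕ | 1 ≤ x ∧ x < p ∧ ¬ ∃ q m : ℕ, q.Prime ∧ q < p ∧ 0 < m ∧ m < p ∧
      Squarefree m ∧ ArithmeticFunction.cardFactors m ≤ k ∧ q * m ≡ x [MOD p]} ⊆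
      (Bd : Set ℕ) := by
    rintro x ⟨hx1, hxp, hx⟩
    rw [mem_coe, hBd, mem_filter, mem_Icc]
    refine ⟨⟨hx1, by omega⟩, ?_⟩
    by_contra hcon
    exact hx (hgood x hx1 hxp (not_lt.1 hcon))
  have hcard : (Set.ncard {x : ℕ | 1 ≤ x ∧ x < p ∧ ¬ ∃ q m : ℕ, q.Prime ∧ q < p ∧ 0 < m ∧ m < p ∧
      Squarefree m ∧ ArithmeticFunction.cardFactors m ≤ k ∧ q * m ≡ x [MOD p]} : ℝ) ≤
      (Bd.card : ℝ) := by
    rw [← Set.ncard_coe_finset Bd]
    exact_mod_cast Set.ncard_le_ncard hsub (finite_toSet Bd)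
  refine le_trans hcard ?_
  have hcheb : (Bd.card : ℝ) * ((p : ℝ) ^ (1 - η)) ^ 2 ≤
      ((z ^ 5 : ℕ) : ℝ) ^ 2 * (700 * (p : ℝ) ^ 2 * (3 + Real.log p) ^ 4) := by
    refine le_trans ?_ (x3_second p h100 (z ^ 5) hz5p)
    calc (Bd.card : ℝ) * ((p : ℝ) ^ (1 - η)) ^ 2 = ∑ x ∈ Bd, ((p : ℝ) ^ (1 - η)) ^ 2 := by
          rw [sum_const, nsmul_eq_mul]
      _ ≤ ∑ x ∈ Bd, (Er x) ^ 2 := by
          refine sum_le_sum fun x hx => ?_
          rw [hBd, mem_filter] at hx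
          gcongr
          exact hx.2.le
      _ ≤ ∑ x ∈ Icc 1 (p - 1), (Er x) ^ 2 :=
          sum_le_sum_of_subset_of_nonneg (filter_subset _ _) fun _ _ _ => sq_nonneg _
  have h1 : (Bd.card : ℝ) ≤ 700 * (p : ℝ) ^ (2 * δ + 2 * η) * (3 + Real.log p) ^ 4 := by
    have h2 : 0 < ((p : ℝ) ^ (1 - η)) ^ 2 := by positivity
    rw [← mul_le_mul_iff_left₀ h2]
    refine le_trans hcheb ?_
    have h3 : ((z ^ 5 : ℕ) : ℝ) ^ 2 ≤ ((p : ℝ) ^ δ) ^ 2 := by gcongr
    calc ((z ^ 5 : ℕ) : ℝ) ^ 2 * (700 * (p : ℝ) ^ 2 * (3 + Real.log p) ^ 4)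
        ≤ ((p : ℝ) ^ δ) ^ 2 * (700 * (p : ℝ) ^ 2 * (3 + Real.log p) ^ 4) := by gcongr
      _ = 700 * (((p : ℝ) ^ δ) ^ 2 * (p : ℝ) ^ 2) * (3 + Real.log p) ^ 4 := by ring
      _ = 700 * ((p : ℝ) ^ (2 * δ + 2 * η) * ((p : ℝ) ^ (1 - η)) ^ 2) *
            (3 + Real.log p) ^ 4 := by
          congr 2
          have h4 : ((p : ℝ) ^ δ) ^ 2 = (p : ℝ) ^ (2 * δ) := by
            rw [← Real.rpow_natCast, ← Real.rpow_mul hp0.le]
            congr 1
            push_cast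
            ring
          have h5 : ((p : ℝ) ^ (1 - η)) ^ 2 = (p : ℝ) ^ (2 - 2 * η) := by
            rw [← Real.rpow_natCast, ← Real.rpow_mul hp0.le]
            congr 1
            push_cast
            ring
          have h6 : (p : ℝ) ^ 2 = (p : ℝ) ^ (2 : ℝ) := by
            rw [← Real.rpow_natCast]
            norm_num
          rw [h4, h5, h6, ← Real.rpow_add hp0, ← Real.rpow_add hp0]
          congr 1
          ring
      _ = _ := by ring
  refine le_trans h1 (le_trans he5 (le_of_eq ?_))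
  rw [hβdef]
  congr 1
  ring

end Pool.Agent.EPK
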